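import Pool.Agent.Run7.h764.Defs
import Pool.Agent.H153R4.Pl
set_option autoImplicit false

namespace Run7.h764

open MeasureTheory Complex
open scoped ENNReal NNReal

/-! ### bounded measurable functions with bounded support -/

/-- bounded, measurable, with bounded support -/
structure BB {α : Type*} [NormedAddCommGroup α] [MeasurableSpace α] (f : α → ℂ) : Prop where
  meas : Measurable f
  bdd : ∃ C : ℝ, ∀ x, ‖f x‖ ≤ C
  supp : ∃ R : ℝ, ∀ x, R < ‖x‖ → f x = 0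

section gen
variable {α β : Type*} [NormedAddCommGroup α] [MeasurableSpace α]
  [NormedAddCommGroup β] [MeasurableSpace β]

lemma BB.bdd' {f : α → ℂ} (h : BB f) : ∃ C : ℝ, 0 < C ∧ ∀ x, ‖f x‖ ≤ C := by
  obtain ⟨C, hC⟩ := h.bdd
  exact ⟨max C 1, by positivity, fun x => (hC x).trans (le_max_left _ _)⟩

lemma BB.supp' {f : α → ℂ} (h : BB f) : ∃ R : ℝ, 0 < R ∧ ∀ x, R < ‖x‖ → f x = 0 := by
  obtain ⟨R, hR⟩ := h.supp
  exact ⟨max R 1, by positivity, fun x hx => hR x ((le_max_left _ _).trans_lt hx)⟩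

lemma BB.mul_bdd {f g : α → ℂ} (h : BB f) (hg : Measurable g) (hb : ∃ C : ℝ, ∀ x, ‖g x‖ ≤ C) :
    BB (fun x => f x * g x) := by
  obtain ⟨C, hC0, hC⟩ := h.bdd'
  obtain ⟨B, hB⟩ := hb
  refine ⟨h.meas.mul hg, ⟨C * max B 0, fun x => ?_⟩, ?_⟩
  · rw [norm_mul]
    exact mul_le_mul (hC x) ((hB x).trans (le_max_left _ _)) (norm_nonneg _) hC0.le
  · obtain ⟨R, hR⟩ := h.supp
    exact ⟨R, fun x hx => by rw [hR x hx, zero_mul]⟩

lemma BB.mul {f g : α → ℂ} (h : BB f) (hg : BB g) : BB (fun x => f x * g x) :=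
  h.mul_bdd hg.meas hg.bdd

lemma BB.bdd_mul {f g : α → ℂ} (h : BB f) (hg : Measurable g) (hb : ∃ C : ℝ, ∀ x, ‖g x‖ ≤ C) :
    BB (fun x => g x * f x) := by
  simpa [mul_comm] using h.mul_bdd hg hb

lemma BB.sub {f g : α → ℂ} (h : BB f) (hg : BB g) : BB (fun x => f x - g x) := by
  obtain ⟨C, hC⟩ := h.bdd
  obtain ⟨B, hB⟩ := hg.bdd
  obtain ⟨R, hR⟩ := h.supp
  obtain ⟨S, hS⟩ := hg.supp
  refine ⟨h.meas.sub hg.meas, ⟨C + B, fun x => ?_⟩, ⟨max R S, fun x hx => ?_⟩⟩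
  · exact (norm_sub_le _ _).trans (add_le_add (hC x) (hB x))
  · rw [hR x ((le_max_left _ _).trans_lt hx), hS x ((le_max_right _ _).trans_lt hx), sub_zero]

lemma BB.add {f g : α → ℂ} (h : BB f) (hg : BB g) : BB (fun x => f x + g x) := by
  obtain ⟨C, hC⟩ := h.bdd
  obtain ⟨B, hB⟩ := hg.bdd
  obtain ⟨R, hR⟩ := h.supp
  obtain ⟨S, hS⟩ := hg.supp
  refine ⟨h.meas.add hg.meas, ⟨C + B, fun x => ?_⟩, ⟨max R S, fun x hx => ?_⟩⟩
  · exact (norm_add_le _ _).trans (add_le_add (hC x) (hB x))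
  · rw [hR x ((le_max_left _ _).trans_lt hx), hS x ((le_max_right _ _).trans_lt hx), add_zero]

lemma BB.conj {f : α → ℂ} (h : BB f) : BB (fun x => (starRingEnd ℂ) (f x)) := by
  refine ⟨Complex.continuous_conj.measurable.comp h.meas, ?_, ?_⟩
  · obtain ⟨C, hC⟩ := h.bdd
    exact ⟨C, fun x => by rw [RCLike.norm_conj]; exact hC x⟩
  · obtain ⟨R, hR⟩ := h.supp
    exact ⟨R, fun x hx => by rw [hR x hx, map_zero]⟩

/-- composition with a measurable map which goes to infinity -/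
lemma BB.comp {f : α → ℂ} (h : BB f) {φ : β → α} (hφ : Measurable φ)
    (hp : ∀ R : ℝ, ∃ S : ℝ, ∀ x, S < ‖x‖ → R < ‖φ x‖) : BB (fun x => f (φ x)) := by
  refine ⟨h.meas.comp hφ, ?_, ?_⟩
  · obtain ⟨C, hC⟩ := h.bdd
    exact ⟨C, fun x => hC _⟩
  · obtain ⟨R, hR⟩ := h.supp
    obtain ⟨S, hS⟩ := hp R
    exact ⟨S, fun x hx => hR _ (hS x hx)⟩

lemma BB.integrable [ProperSpace α] [OpensMeasurableSpace α] {f : α → ℂ} (h : BB f)
    (μ : Measure α) [IsFiniteMeasureOnCompacts μ] : Integrable f μ := by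
  obtain ⟨C, hC⟩ := h.bdd
  obtain ⟨R, hR⟩ := h.supp
  have hfin : IsFiniteMeasure (μ.restrict (Metric.closedBall 0 R)) := ⟨by
    rw [Measure.restrict_apply_univ]
    exact (isCompact_closedBall (0 : α) R).measure_lt_top⟩
  have h1 : IntegrableOn f (Metric.closedBall 0 R) μ :=
    Integrable.of_bound (C := C) h.meas.aestronglyMeasurable
      (Filter.Eventually.of_forall fun x => hC x)
  rw [← integrableOn_univ]
  refine h1.of_forall_sdiff_eq_zero MeasurableSet.univ ?_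
  intro x hx
  apply hR
  simp only [Set.mem_sdiff, Set.mem_univ, Metric.mem_closedBall, dist_zero_right, true_and,
    not_le] at hx
  exact hx

lemma BB.memLp [ProperSpace α] [OpensMeasurableSpace α] {f : α → ℂ} (h : BB f)
    (μ : Measure α) [IsFiniteMeasureOnCompacts μ] : MemLp f 2 μ := by
  obtain ⟨C, hC0, hC⟩ := h.bdd'
  refine (memLp_two_iff_integrable_sq_norm h.meas.aestronglyMeasurable).2 ?_
  have h2 := (h.mul h.conj).integrable μ
  have := h2.norm
  refine this.congr (Filter.Eventually.of_forall fun x => ?_)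
  simp [sq]

lemma BB.slice_left {f : α × β → ℂ} (h : BB f) (x : α) : BB (fun y => f (x, y)) := by
  refine ⟨h.meas.comp measurable_prodMk_left, ?_, ?_⟩
  · obtain ⟨C, hC⟩ := h.bdd
    exact ⟨C, fun y => hC _⟩
  · obtain ⟨R, hR⟩ := h.supp
    exact ⟨R, fun y hy => hR _ (hy.trans_le (norm_snd_le (x, y)))⟩

lemma BB.slice_right {f : α × β → ℂ} (h : BB f) (y : β) : BB (fun x => f (x, y)) := by
  refine ⟨h.meas.comp measurable_prodMk_right, ?_, ?_⟩
  · obtain ⟨C, hC⟩ := h.bdd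
    exact ⟨C, fun y => hC _⟩
  · obtain ⟨R, hR⟩ := h.supp
    exact ⟨R, fun x hx => hR _ (hx.trans_le (norm_fst_le (x, y)))⟩

lemma BB.swap {f : α × β → ℂ} (h : BB f) : BB (fun p : β × α => f (p.2, p.1)) := by
  refine h.comp (φ := Prod.swap) measurable_swap (fun R => ⟨R, fun x hx => ?_⟩)
  rwa [Prod.norm_def, Prod.fst_swap, Prod.snd_swap, max_comm, ← Prod.norm_def]

lemma BB.mul_comp {γ : Type*} [NormedAddCommGroup γ] [MeasurableSpace γ]
    {f : α → ℂ} {g : β → ℂ} (hf : BB f) (hg : BB g) {φ : γ → α} {ψ : γ → β}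
    (hφ : Measurable φ) (hψ : Measurable ψ)
    (h : ∀ R : ℝ, ∃ T : ℝ, ∀ x, ‖φ x‖ ≤ R → ‖ψ x‖ ≤ R → ‖x‖ ≤ T) :
    BB (fun x => f (φ x) * g (ψ x)) := by
  obtain ⟨C, hC0, hC⟩ := hf.bdd'
  obtain ⟨B, hB0, hB⟩ := hg.bdd'
  obtain ⟨R, hR⟩ := hf.supp
  obtain ⟨S, hS⟩ := hg.supp
  obtain ⟨T, hT⟩ := h (max R S)
  refine ⟨(hf.meas.comp hφ).mul (hg.meas.comp hψ), ⟨C * B, fun x => ?_⟩, ⟨T, fun x hx => ?_⟩⟩
  · rw [norm_mul]
    exact mul_le_mul (hC _) (hB _) (norm_nonneg _) hC0.le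
  · by_cases h1 : R < ‖φ x‖
    · rw [hR _ h1, zero_mul]
    by_cases h2 : S < ‖ψ x‖
    · rw [hS _ h2, mul_zero]
    exact absurd (hT x ((not_lt.1 h1).trans (le_max_left _ _))
      ((not_lt.1 h2).trans (le_max_right _ _))) (not_le.2 hx)

lemma BB.integral_right [ProperSpace β] [OpensMeasurableSpace β] {f : α × β → ℂ} (h : BB f)
    (ν : Measure β) [IsFiniteMeasureOnCompacts ν] [SFinite ν] :
    BB (fun x => ∫ y, f (x, y) ∂ν) := by
  obtain ⟨C, hC0, hC⟩ := h.bdd'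
  obtain ⟨R, hR⟩ := h.supp
  refine ⟨?_, ?_, ⟨R, fun x hx => ?_⟩⟩
  · exact (h.meas.stronglyMeasurable.integral_prod_right' (ν := ν)).measurable
  · refine ⟨C * (ν (Metric.closedBall 0 R)).toReal, fun x => ?_⟩
    have e : ∫ y, f (x, y) ∂ν = ∫ y in Metric.closedBall 0 R, f (x, y) ∂ν := by
      symm
      apply setIntegral_eq_integral_of_forall_compl_eq_zero
      intro y hy
      apply hR
      rw [Metric.mem_closedBall, dist_zero_right, not_le] at hy
      exact hy.trans_le (norm_snd_le (x, y))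
    rw [e]
    exact norm_setIntegral_le_of_norm_le_const (isCompact_closedBall (0 : β) R).measure_lt_top
      (fun y _ => hC _)
  · have : ∀ y, f (x, y) = 0 := fun y => hR _ (hx.trans_le (norm_fst_le (x, y)))
    simp [this]

end gen

/-! ### Cauchy-Schwarz -/

lemma cs_lint {α : Type*} [MeasurableSpace α] (μ : Measure α) {f g : α → ℝ≥0∞}
    (hf : AEMeasurable f μ) (hg : AEMeasurable g μ) :
    (∫⁻ x, f x * g x ∂μ) ^ 2 ≤ (∫⁻ x, f x ^ 2 ∂μ) * ∫⁻ x, g x ^ 2 ∂μ := by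
  have h := ENNReal.lintegral_mul_le_Lp_mul_Lq μ (Real.HolderConjugate.two_two) hf hg
  have h2 := pow_le_pow_left₀ zero_le h 2
  refine h2.trans (le_of_eq ?_)
  rw [mul_pow, ← ENNReal.rpow_natCast, ← ENNReal.rpow_mul, ← ENNReal.rpow_natCast,
    ← ENNReal.rpow_mul]
  norm_num

lemma cs_enorm {α : Type*} [MeasurableSpace α] (μ : Measure α) {f g : α → ℂ}
    (hf : AEMeasurable f μ) (hg : AEMeasurable g μ) :
    ‖∫ x, f x * g x ∂μ‖ₑ ^ 2 ≤ (∫⁻ x, ‖f x‖ₑ ^ 2 ∂μ) * ∫⁻ x, ‖g x‖ₑ ^ 2 ∂μ := by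
  refine le_trans ?_ (cs_lint μ hf.enorm hg.enorm)
  refine pow_le_pow_left₀ zero_le ((enorm_integral_le_lintegral_enorm _).trans ?_) 2
  simp_rw [enorm_mul]
  exact le_rfl

/-! ### the plane -/

/-- the real inner product -/
noncomputable def dot (z w : ℂ) : ℝ := z.re * w.re + z.im * w.im

lemma dot_eq_inner (z w : ℂ) : dot z w = inner ℝ z w := by
  rw [Complex.inner, dot]
  simp
  ring

lemma dot_eq_re (z w : ℂ) : dot z w = (z * (starRingEnd ℂ) w).re := by
  rw [dot]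
  simp

lemma measurable_dot : Measurable (fun p : ℂ × ℂ => dot p.1 p.2) := by
  unfold dot
  fun_prop

lemma fourier_eq_ee (F : ℂ → ℂ) (ξ : ℂ) :
    FourierTransform.fourier F ξ = ∫ w, F w * ee (-(dot w ξ)) := by
  rw [Real.fourier_eq']
  refine integral_congr_ae (Filter.Eventually.of_forall fun w => ?_)
  simp only [smul_eq_mul]
  rw [mul_comm]
  congr 1
  unfold ee
  rw [dot_eq_inner]
  congr 2
  push_cast
  ring

lemma map_mul_left_volume {M : ℂ} (hM : M ≠ 0) :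
    Measure.map (fun w : ℂ => M * w) volume = ENNReal.ofReal (Complex.normSq M)⁻¹ • volume := by
  have hdet : LinearMap.det (LinearMap.mulLeft ℝ M) = Complex.normSq M := by
    rw [← Algebra.norm_complex_apply, Algebra.norm_apply]
    rfl
  have h := Measure.map_linearMap_addHaar_eq_smul_addHaar (volume : Measure ℂ)
    (f := LinearMap.mulLeft ℝ M) (by rw [hdet]; exact (Complex.normSq_pos.2 hM).ne')
  rw [hdet, abs_of_nonneg (inv_nonneg.2 (Complex.normSq_nonneg M))] at h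
  exact h

lemma lintegral_mul_left' {M : ℂ} (hM : M ≠ 0) (f : ℂ → ℝ≥0∞) :
    ∫⁻ w, f (M * w) = ENNReal.ofReal (Complex.normSq M)⁻¹ * ∫⁻ w, f w := by
  have h := (Homeomorph.mulLeft₀ M hM).measurableEmbedding.lintegral_map (μ := volume) f
  have h2 : Measure.map (⇑(Homeomorph.mulLeft₀ M hM)) volume =
      ENNReal.ofReal (Complex.normSq M)⁻¹ • volume := map_mul_left_volume hM
  rw [h2, lintegral_smul_measure] at h
  exact h.symm

lemma integral_mul_left' {M : ℂ} (hM : M ≠ 0) (f : ℂ → ℂ) :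
    ∫ w, f (M * w) = ((Complex.normSq M)⁻¹ : ℝ) * ∫ w, f w := by
  have h := (Homeomorph.mulLeft₀ M hM).measurableEmbedding.integral_map (μ := volume) f
  have h2 : Measure.map (⇑(Homeomorph.mulLeft₀ M hM)) volume =
      ENNReal.ofReal (Complex.normSq M)⁻¹ • volume := map_mul_left_volume hM
  rw [h2, integral_smul_measure, ENNReal.toReal_ofReal (inv_nonneg.2 (Complex.normSq_nonneg M))] at h
  rw [Complex.real_smul] at h
  exact h.symm

/-- Plancherel for the operator `D ↦ ∫ D (y + M w) F w dw` -/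
theorem mult_eq {D F : ℂ → ℂ} (hD : BB D) (hF : BB F) {M : ℂ} (hM : M ≠ 0) :
    ∫⁻ y, ‖∫ w, D (y + M * w) * F w‖ₑ ^ 2 =
      ∫⁻ ξ, ‖∫ w, F w * ee (dot w ((starRingEnd ℂ) M * ξ))‖ₑ ^ 2 *
        ‖∫ z, D z * ee (-(dot z ξ))‖ₑ ^ 2 := by
  set F' : ℂ → ℂ := fun v => ((Complex.normSq M)⁻¹ : ℝ) * F (-M⁻¹ * v) with hF'
  have hnM : (-M) ≠ 0 := neg_ne_zero.2 hM
  have hBF' : BB F' := by
    have h1 : BB (fun v : ℂ => F (-M⁻¹ * v)) := by
      refine hF.comp (by fun_prop) (fun R => ⟨R * ‖M‖, fun x hx => ?_⟩)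
      rw [norm_mul, norm_neg, norm_inv, inv_mul_eq_div, lt_div_iff₀ (norm_pos_iff.2 hM)]
      exact hx
    exact h1.bdd_mul (g := fun _ => (((Complex.normSq M)⁻¹ : ℝ) : ℂ)) measurable_const
      ⟨_, fun _ => le_rfl⟩
  have e1 : ∀ y, ∫ w, D (y + M * w) * F w =
      (convolution F' D (ContinuousLinearMap.mul ℂ ℂ) volume) y := by
    intro y
    have h1 := integral_mul_left' hnM (fun v => D (y - v) * F (-M⁻¹ * v))
    have h2 : ∀ w : ℂ, D (y - -M * w) * F (-M⁻¹ * (-M * w)) = D (y + M * w) * F w := by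
      intro w
      congr 2
      · ring
      · field_simp
    simp_rw [h2] at h1
    rw [h1, convolution_def, Complex.normSq_neg, ← integral_const_mul]
    refine integral_congr_ae (Filter.Eventually.of_forall fun v => ?_)
    simp only [hF', ContinuousLinearMap.mul_apply']
    ring
  have e2 : ∀ ξ, FourierTransform.fourier F' ξ =
      ∫ w, F w * ee (dot w ((starRingEnd ℂ) M * ξ)) := by
    intro ξ
    rw [fourier_eq_ee]
    have h1 := integral_mul_left' hnM (fun v => F (-M⁻¹ * v) * ee (-(dot v ξ)))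
    have h2 : ∀ w : ℂ, F (-M⁻¹ * (-M * w)) * ee (-(dot (-M * w) ξ)) =
        F w * ee (dot w ((starRingEnd ℂ) M * ξ)) := by
      intro w
      congr 2
      · field_simp
      · rw [dot_eq_re, dot_eq_re]
        simp only [neg_mul, Complex.neg_re, neg_neg, map_mul, Complex.conj_conj]
        congr 1
        ring
    simp_rw [h2] at h1
    rw [h1, Complex.normSq_neg, ← integral_const_mul]
    refine integral_congr_ae (Filter.Eventually.of_forall fun v => ?_)
    simp only [hF']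
    ring
  have hBconv : BB (convolution F' D (ContinuousLinearMap.mul ℂ ℂ) volume) := by
    have h1 : BB (fun p : ℂ × ℂ => F' p.2 * D (p.1 - p.2)) := by
      refine hBF'.mul_comp hD measurable_snd (measurable_fst.sub measurable_snd)
        (fun R => ⟨R + R, fun x h1 h2 => ?_⟩)
      have h3 : ‖x.1‖ ≤ R + R := by
        calc ‖x.1‖ = ‖(x.1 - x.2) + x.2‖ := by rw [sub_add_cancel]
          _ ≤ _ := (norm_add_le _ _).trans (add_le_add h2 h1)
      have h4 : ‖x.2‖ ≤ R + R := by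
        have := norm_nonneg (x.1 - x.2)
        linarith
      exact norm_prod_le_iff.2 ⟨h3, h4⟩
    have h2 := h1.integral_right (volume : Measure ℂ)
    have h3 : (convolution F' D (ContinuousLinearMap.mul ℂ ℂ) volume) =
        fun x => ∫ y, F' y * D (x - y) := by
      ext x
      rw [convolution_def]
      rfl
    rw [h3]
    exact h2
  have hI := hBconv.integrable volume
  have hL := hBconv.memLp volume
  simp_rw [e1]
  rw [← Pool.Agent.H153R4.plancherel _ hI hL]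
  refine lintegral_congr fun ξ => ?_
  rw [Real.fourier_mul_convolution_eq (hBF'.integrable volume) (hD.integrable volume),
    enorm_mul, mul_pow, e2, fourier_eq_ee]

/-- the multiplier bound -/
theorem mult_bound {D F : ℂ → ℂ} (hD : BB D) (hF : BB F) {M : ℂ} (hM : M ≠ 0) {ε : ℝ≥0∞}
    (hε : ε ≠ ∞) (h : ∀ ξ : ℂ, ‖∫ w, F w * ee (dot w ξ)‖ₑ ≤ ε) :
    ∫⁻ y, ‖∫ w, D (y + M * w) * F w‖ₑ ^ 2 ≤ ε ^ 2 * ∫⁻ y, ‖D y‖ₑ ^ 2 := by
  rw [mult_eq hD hF hM, ← Pool.Agent.H153R4.plancherel _ (hD.integrable volume)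
    (hD.memLp volume), ← lintegral_const_mul' _ _ (ENNReal.pow_ne_top hε)]
  refine lintegral_mono fun ξ => ?_
  rw [fourier_eq_ee]
  exact mul_le_mul_left (pow_le_pow_left₀ zero_le (h _) 2) _

end Run7.h764
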