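import Pool.Agent.Run7.h764.Defs
set_option autoImplicit false

/-! Interface: three independent lemmas (each to be proved as `theorem t_X : St_X`). -/

namespace Run7.h764

open MeasureTheory Complex

/-- Piece CORN (uses `corners_theorem_nat`): a set of density `δ` in a disc contains, for every
`w` which is not too long, many similar copies of `(0, 1, ζ)` of size `d * ‖w‖`, `1 ≤ |d| ≤ n`.
Proof: for `x : ℂ` let `A x = {(i,j) ∈ range n × range n | x + i w + j ζ w ∈ E}`;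
`∫ #(A x) dx = n² |E|`, `A x = ∅` outside the disc of radius `2R`, so `#(A x) ≥ (δ/(8π)) n²` on
a set of `x` of measure at least `δ R²/2`, and there `A x` is not corner free.
One can take `c = δ/(2 n²)`. -/
def St_corners : Prop :=
  ∀ δ : ℝ, 0 < δ → ∃ n : ℕ, 0 < n ∧ ∃ c : ℝ, 0 < c ∧ ∀ E : Set ℂ, MeasurableSet E →
    ∀ R : ℝ, 0 < R → E ⊆ Metric.closedBall 0 R → ENNReal.ofReal (δ * R ^ 2) ≤ volume E →
    ∀ ζ w : ℂ, n * ‖w‖ * (1 + ‖ζ‖) ≤ R →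
    ENNReal.ofReal (c * R ^ 2) ≤ ∑ d ∈ (Finset.Icc (-(n : ℤ)) n).erase 0,
      volume {x : ℂ | x ∈ E ∧ x + d * w ∈ E ∧ x + d * (ζ * w) ∈ E}

/-- Piece OSC: decay of the Fourier transform of `ρ(|w|²) ρ(|w+l|²)` in the direction orthogonal
to `l`, uniformly in the bounded function `ρ`.
Proof: with `p = |w|²`, `q = |w+l|²` one has `dw = dp dq / (4 l w₂)`, `w₁ = (q-p-l²)/(2l)`,
`w₂ = √θ`, `θ(p,q) = p - w₁²`. By Cauchy-Schwarz in `p` and expanding the square the integral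
squared is at most a constant times `∫∫ |I(q,q')| dq dq'` over `[0.9,1.3]²`, where
`I(q,q') = ∫ e(ξ₂ (√θ(p,q) - √θ(p,q'))) / (16 l² √θ(p,q) √θ(p,q')) dp` over an interval of `p`
(where both `θ > c0²`; `θ` is concave in `p`). The phase derivative is
`(1/4l²) [(l²+q-p)/√θ(p,q) - (l²+q'-p)/√θ(p,q')]`, of absolute value `≥ c |q-q'|` since
`∂_q ((l²+q-p)/√θ) = (p+q-l²)/(2 θ^{3/2})`, and its `p`-derivative is
`(1/4l²) [-q/θ(p,q)^{3/2} + q'/θ(p,q')^{3/2}]`, bounded in terms of `l0, c0`. So integration by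
parts gives `|I(q,q')| ≤ C / (|ξ₂| |q-q'|²)` besides the trivial bound `|I| ≤ C`. -/
def St_osc : Prop :=
  ∀ l0 c0 ε : ℝ, 0 < l0 → 0 < c0 → 0 < ε → ∃ K : ℝ, 0 < K ∧ ∀ l : ℝ, l0 ≤ l → l ≤ 1 / 2 →
    ∀ ρ : ℝ → ℝ, Measurable ρ → (∀ s, |ρ s| ≤ 1) → (∀ s, s ∉ Set.Icc (0.9 : ℝ) 1.3 → ρ s = 0) →
    ∀ ξ1 ξ2 : ℝ, K ≤ |ξ2| →
    ‖∫ w : ℂ in {w : ℂ | c0 < w.im},
        ((ρ (Complex.normSq w) * ρ (Complex.normSq (w + l)) : ℝ) : ℂ) *
          ee (ξ1 * w.re + ξ2 * w.im)‖ ≤ ε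

/-- Piece HEIS: the twisted convolution inequality.
Proof: for fixed `a.1 = s` take the Fourier transform in `a.2 = t` (Plancherel); with `û, v̂` the
partial Fourier transforms in the second variable it equals
`∫ dp û(p+s, κ+bp) v̂(p, -(κ + bp + bs))` (up to signs); Cauchy-Schwarz in `p` gives
`U(κ-bs) V(κ+bs)` with `∫ U = ‖u‖²`, `∫ V = ‖v‖²`, and the change of variables
`(s,κ) ↦ (κ-bs, κ+bs)` has determinant `2|b|`.
(Plancherel for `L¹ ∩ L²`: `Pool.Agent.H153R4.plancherel` in `Pool/Agent/H153R4/Pl.lean`.) -/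
def St_heis : Prop :=
  ∀ u v : ℝ × ℝ → ℂ, Measurable u → Measurable v →
    (∃ C, ∀ x, ‖u x‖ ≤ C) → (∃ C, ∀ x, ‖v x‖ ≤ C) →
    (∃ R, ∀ x, R < ‖x‖ → u x = 0) → (∃ R, ∀ x, R < ‖x‖ → v x = 0) →
    ∀ b : ℝ, b ≠ 0 →
    ∫⁻ a : ℝ × ℝ, ‖∫ y : ℝ × ℝ, u (y + a) * v y * ee (b * (a.1 * y.2 - a.2 * y.1))‖ₑ ^ 2 ≤
      ENNReal.ofReal (1 / (2 * |b|)) * (∫⁻ y, ‖u y‖ₑ ^ 2) * (∫⁻ y, ‖v y‖ₑ ^ 2)

end Run7.h764
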