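import Pool.Agent.Run7.h764.PropC
import Pool.Agent.Run7.h764.Iface
import Mathlib.Combinatorics.Additive.Corner.Roth
set_option autoImplicit false

namespace Run7.h764

open MeasureTheory Complex Set Filter Topology
open scoped ENNReal NNReal

/-- points of the grid falling in `E` -/
noncomputable def cA (E : Set ℂ) (n : ℕ) (ζ w x : ℂ) : Finset (ℕ × ℕ) := by
  classical
  exact (Finset.range n ×ˢ Finset.range n).filter
    (fun ij => x + (ij.1 * w + ij.2 * (ζ * w)) ∈ E)

lemma mem_cA {E : Set ℂ} {n : ℕ} {ζ w x : ℂ} {ij : ℕ × ℕ} :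
    ij ∈ cA E n ζ w x ↔ (ij.1 < n ∧ ij.2 < n) ∧ x + (ij.1 * w + ij.2 * (ζ * w)) ∈ E := by
  classical
  simp [cA]

lemma cA_card (E : Set ℂ) (n : ℕ) (ζ w x : ℂ) :
    ((cA E n ζ w x).card : ℝ≥0∞) = ∑ ij ∈ Finset.range n ×ˢ Finset.range n,
      E.indicator (fun _ => (1 : ℝ≥0∞)) (x + (ij.1 * w + ij.2 * (ζ * w))) := by
  classical
  rw [cA, Finset.card_filter]
  push_cast
  refine Finset.sum_congr rfl fun ij _ => ?_
  by_cases h : x + (ij.1 * w + ij.2 * (ζ * w)) ∈ E
  · rw [if_pos h, Set.indicator_of_mem h]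
  · rw [if_neg h, Set.indicator_of_notMem h]

theorem t_corners : St_corners := by
  intro δ hδ
  have hpi := Real.pi_pos
  set ε : ℝ := δ / (8 * Real.pi) with hε
  have hε0 : 0 < ε := by positivity
  set n : ℕ := max 1 (cornersTheoremBound (ε / 9)) with hn
  have hn1 : 0 < n := lt_of_lt_of_le one_pos (le_max_left _ _)
  have hnb : cornersTheoremBound (ε / 9) ≤ n := le_max_right _ _
  have hnr : (0 : ℝ) < n := by exact_mod_cast hn1
  refine ⟨n, hn1, δ / (2 * n ^ 2), by positivity, ?_⟩
  intro E hE R hR hER hEvol ζ w hw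
  set G : Finset (ℕ × ℕ) := Finset.range n ×ˢ Finset.range n with hG
  have hGcard : G.card = n ^ 2 := by
    rw [hG, Finset.card_product, Finset.card_range, sq]
  set S : Set ℂ := {x | ε * n ^ 2 ≤ ((cA E n ζ w x).card : ℝ)} with hS
  -- upper bound of the integral
  have hint : ∫⁻ x, ((cA E n ζ w x).card : ℝ≥0∞) = n ^ 2 * volume E := by
    simp_rw [cA_card]
    rw [lintegral_finsetSum]
    · have h1 : ∀ ij ∈ G, ∫⁻ x, E.indicator (fun _ => (1 : ℝ≥0∞))
          (x + (ij.1 * w + ij.2 * (ζ * w))) = volume E := by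
        intro ij _
        rw [lintegral_add_right_eq_self (fun x => E.indicator (fun _ => (1 : ℝ≥0∞)) x),
          lintegral_indicator hE, setLIntegral_const, one_mul]
      rw [Finset.sum_congr rfl h1, Finset.sum_const, hGcard, nsmul_eq_mul]
      push_cast
      rfl
    · intro ij _
      exact (measurable_const.indicator hE).comp (by fun_prop)
  have hpt : ∀ x, ((cA E n ζ w x).card : ℝ≥0∞) ≤ S.indicator (fun _ => (n : ℝ≥0∞) ^ 2) x +
      (Metric.closedBall (0 : ℂ) (2 * R)).indicator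
        (fun _ => ENNReal.ofReal (ε * n ^ 2)) x := by
    intro x
    have hcn : (cA E n ζ w x).card ≤ n ^ 2 := by
      rw [← hGcard]
      refine Finset.card_le_card fun ij hij => ?_
      rw [mem_cA] at hij
      rw [hG, Finset.mem_product, Finset.mem_range, Finset.mem_range]
      exact hij.1
    by_cases hxS : x ∈ S
    · rw [Set.indicator_of_mem hxS]
      refine le_trans ?_ le_self_add
      exact_mod_cast hcn
    · rw [Set.indicator_of_notMem hxS, zero_add]
      by_cases hx0 : (cA E n ζ w x).card = 0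
      · rw [hx0]
        simp
      · have hxB : x ∈ Metric.closedBall (0 : ℂ) (2 * R) := by
          obtain ⟨ij, hij⟩ := Finset.card_pos.1 (Nat.pos_of_ne_zero hx0)
          rw [mem_cA] at hij
          have h1 := hER hij.2
          rw [Metric.mem_closedBall, dist_zero_right] at h1 ⊢
          have h2 : ‖(ij.1 : ℂ) * w + ij.2 * (ζ * w)‖ ≤ R := by
            refine (norm_add_le _ _).trans (le_trans ?_ hw)
            rw [norm_mul, norm_mul, norm_mul, Complex.norm_natCast, Complex.norm_natCast]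
            have h3 : (ij.1 : ℝ) ≤ n := by exact_mod_cast hij.1.1.le
            have h4 : (ij.2 : ℝ) ≤ n := by exact_mod_cast hij.1.2.le
            have h5 : (ij.1 : ℝ) * ‖w‖ ≤ n * ‖w‖ := by gcongr
            have h6 : (ij.2 : ℝ) * (‖ζ‖ * ‖w‖) ≤ n * (‖ζ‖ * ‖w‖) := by gcongr
            calc _ ≤ n * ‖w‖ + n * (‖ζ‖ * ‖w‖) := add_le_add h5 h6
              _ = _ := by ring
          calc ‖x‖ = ‖(x + ((ij.1 : ℂ) * w + ij.2 * (ζ * w))) -
                ((ij.1 : ℂ) * w + ij.2 * (ζ * w))‖ := by rw [add_sub_cancel_right]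
            _ ≤ _ := norm_sub_le _ _
            _ ≤ R + R := add_le_add h1 h2
            _ = _ := by ring
        rw [Set.indicator_of_mem hxB]
        rw [hS, Set.mem_ofPred_eq, not_le] at hxS
        rw [← ENNReal.ofReal_natCast]
        exact ENNReal.ofReal_le_ofReal hxS.le
  have hup : (n : ℝ≥0∞) ^ 2 * volume E ≤ n ^ 2 * volume S +
      ENNReal.ofReal (n ^ 2 * (δ * R ^ 2 / 2)) := by
    rw [← hint]
    refine (lintegral_mono hpt).trans ?_
    have m1 : Measurable (fun x : ℂ => (Metric.closedBall (0 : ℂ) (2 * R)).indicator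
        (fun _ => ENNReal.ofReal (ε * n ^ 2)) x) :=
      measurable_const.indicator Metric.isClosed_closedBall.measurableSet
    rw [lintegral_add_right _ m1]
    refine add_le_add (lintegral_indicator_const_le _ _) ?_
    rw [lintegral_indicator Metric.isClosed_closedBall.measurableSet, setLIntegral_const,
      vol_ball _ (by positivity), ← ENNReal.ofReal_mul (by positivity)]
    apply ENNReal.ofReal_le_ofReal
    rw [hε]
    apply le_of_eq
    field_simp
    ring
  have hSvol : ENNReal.ofReal (δ * R ^ 2 / 2) ≤ volume S := by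
    have hn2 : ((n : ℝ≥0∞) ^ 2) = ENNReal.ofReal (n ^ 2) := by
      rw [ENNReal.ofReal_pow hnr.le, ENNReal.ofReal_natCast]
    have h1 : ENNReal.ofReal (n ^ 2 * (δ * R ^ 2 / 2)) + ENNReal.ofReal (n ^ 2 * (δ * R ^ 2 / 2)) ≤
        n ^ 2 * volume S + ENNReal.ofReal (n ^ 2 * (δ * R ^ 2 / 2)) := by
      refine le_trans ?_ hup
      rw [← ENNReal.ofReal_add (by positivity) (by positivity)]
      have : (n : ℝ) ^ 2 * (δ * R ^ 2 / 2) + n ^ 2 * (δ * R ^ 2 / 2) =
          n ^ 2 * (δ * R ^ 2) := by ring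
      rw [this, ENNReal.ofReal_mul (by positivity), hn2]
      exact mul_le_mul_right hEvol _
    have h2 := (ENNReal.add_le_add_iff_right ENNReal.ofReal_ne_top).1 h1
    rw [ENNReal.ofReal_mul (by positivity), hn2] at h2
    refine (ENNReal.mul_le_mul_iff_right ?_ ENNReal.ofReal_ne_top).1 h2
    exact (ENNReal.ofReal_pos.2 (by positivity)).ne'
  -- covering of S
  set D : Finset ℤ := (Finset.Icc (-(n : ℤ)) n).erase 0 with hD
  set Sd : ℤ → Set ℂ := fun d => {x : ℂ | x ∈ E ∧ x + d * w ∈ E ∧ x + d * (ζ * w) ∈ E} with hSd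
  have hcov : S ⊆ ⋃ d ∈ D, ⋃ ij ∈ G, {x : ℂ | x + (ij.1 * w + ij.2 * (ζ * w)) ∈ Sd d} := by
    intro x hx
    have h1 := corners_theorem_nat hε0 hnb (cA E n ζ w x) (by
      intro ij hij
      rw [mem_cA] at hij
      rw [Finset.mem_product, Finset.mem_range, Finset.mem_range]
      exact hij.1) hx
    rw [IsCornerFree] at h1
    push Not at h1
    obtain ⟨x1, y1, x2, y2, hc, hne⟩ := h1
    obtain ⟨c1, c2, c3, c4⟩ := hc
    rw [Finset.mem_coe, mem_cA] at c1 c2 c3
    simp only at c1 c2 c3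
    set d : ℤ := (x2 : ℤ) - x1 with hd
    have hd2 : d = (y2 : ℤ) - y1 := by omega
    have hdx : (x2 : ℂ) = x1 + d := by
      rw [hd]; push_cast; ring
    have hdy : (y2 : ℂ) = y1 + d := by
      rw [hd2]; push_cast; ring
    have hdD : d ∈ D := by
      rw [hD, Finset.mem_erase, Finset.mem_Icc]
      omega
    have hijG : (x1, y1) ∈ G := by
      rw [hG, Finset.mem_product, Finset.mem_range, Finset.mem_range]
      exact c1.1
    simp only [Set.mem_iUnion]
    refine ⟨d, hdD, (x1, y1), hijG, ?_⟩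
    simp only [hSd, Set.mem_ofPred_eq]
    refine ⟨c1.2, ?_, ?_⟩
    · have : x + ((x1 : ℂ) * w + y1 * (ζ * w)) + d * w = x + ((x2 : ℂ) * w + y1 * (ζ * w)) := by
        rw [hdx]; ring
      rw [this]
      exact c3.2
    · have : x + ((x1 : ℂ) * w + y1 * (ζ * w)) + d * (ζ * w) =
          x + ((x1 : ℂ) * w + y2 * (ζ * w)) := by
        rw [hdy]; ring
      rw [this]
      exact c2.2
  have hvolS : volume S ≤ ENNReal.ofReal (n ^ 2) * ∑ d ∈ D, volume (Sd d) := by
    refine (measure_mono hcov).trans ((measure_biUnion_finset_le _ _).trans ?_)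
    rw [Finset.mul_sum]
    refine Finset.sum_le_sum fun d _ => ?_
    refine (measure_biUnion_finset_le _ _).trans (le_of_eq ?_)
    have h1 : ∀ ij ∈ G, volume {x : ℂ | x + (ij.1 * w + ij.2 * (ζ * w)) ∈ Sd d} =
        volume (Sd d) := by
      intro ij _
      exact measure_preimage_add_right volume _ (Sd d)
    rw [Finset.sum_congr rfl h1, Finset.sum_const, hGcard, nsmul_eq_mul,
      ENNReal.ofReal_pow hnr.le, ENNReal.ofReal_natCast]
    push_cast
    rfl
  have hfin := hSvol.trans hvolS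
  have hn2 : ENNReal.ofReal ((n : ℝ) ^ 2) ≠ 0 := (ENNReal.ofReal_pos.2 (by positivity)).ne'
  refine (ENNReal.mul_le_mul_iff_right hn2 ENNReal.ofReal_ne_top).1 ?_
  refine le_trans (le_of_eq ?_) hfin
  rw [← ENNReal.ofReal_mul (by positivity)]
  congr 1
  field_simp

end Run7.h764
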