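import Mathlib
set_option autoImplicit false

/-! Almost all dilates of a triangle in a plane set of positive upper density: basic notions. -/

namespace Run7.h764

open MeasureTheory Complex

/-- `ee t = exp (2 π i t)` -/
noncomputable def ee (t : ℝ) : ℂ := Complex.exp (((2 * Real.pi * t : ℝ) : ℂ) * Complex.I)

lemma norm_ee (t : ℝ) : ‖ee t‖ = 1 := Complex.norm_exp_ofReal_mul_I _

lemma ee_add (s t : ℝ) : ee (s + t) = ee s * ee t := by
  unfold ee
  rw [← Complex.exp_add]
  congr 1
  push_cast
  ring

lemma continuous_ee : Continuous ee := by
  unfold ee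
  fun_prop

lemma measurable_ee : Measurable ee := continuous_ee.measurable

lemma ee_zero : ee 0 = 1 := by simp [ee]

end Run7.h764
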