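import Pool.Agent.Run7.h764.Term1
set_option autoImplicit false

namespace Run7.h764

open MeasureTheory Complex Set Filter Topology
open scoped ENNReal NNReal

instance instHaarRR : (volume : Measure (ℝ × ℝ)).IsAddHaarMeasure :=
  Measure.prod.instIsAddHaarMeasure (volume : Measure ℝ) (volume : Measure ℝ)

/-- partial Fourier transform in the second variable -/
noncomputable def pf (u : ℝ × ℝ → ℂ) (p : ℝ × ℝ) : ℂ := ft (fun t => u (p.1, t)) p.2

lemma pf_meas {u : ℝ × ℝ → ℂ} (hu : Measurable u) : Measurable (pf u) := by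
  have : Measurable (fun r : (ℝ × ℝ) × ℝ => u (r.1.1, r.2) * ee (-(r.2 * r.1.2))) :=
    (hu.comp (by fun_prop)).mul (measurable_ee.comp (by fun_prop))
  exact (this.stronglyMeasurable.integral_prod_right' (ν := volume)).measurable

lemma pf_plancherel {u : ℝ × ℝ → ℂ} (hu : BB u) :
    ∫⁻ p : ℝ, ∫⁻ κ : ℝ, ‖pf u (p, κ)‖ₑ ^ 2 = ∫⁻ y, ‖u y‖ₑ ^ 2 := by
  have h6 : (volume : Measure (ℝ × ℝ)) = (volume : Measure ℝ).prod volume := rfl
  rw [h6, lintegral_prod _ (hu.meas.enorm.pow_const 2).aemeasurable]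
  refine lintegral_congr fun p => ?_
  exact plancherel_ft (hu.slice_left p)

/-- the twisted product, before integration -/
noncomputable def tw (u v : ℝ × ℝ → ℂ) (b s : ℝ) (q : ℝ × (ℝ × ℝ)) : ℂ :=
  u (q.2.1 + s, q.2.2 + q.1) * v q.2 * ee (b * (s * q.2.2 - q.1 * q.2.1))

lemma tw_BB {u v : ℝ × ℝ → ℂ} (hu : BB u) (hv : BB v) (b s : ℝ) : BB (tw u v b s) := by
  have h1 : BB (fun q : ℝ × (ℝ × ℝ) => u (q.2.1 + s, q.2.2 + q.1) * v q.2) := by
    refine hu.mul_comp hv (φ := fun q : ℝ × (ℝ × ℝ) => (q.2.1 + s, q.2.2 + q.1))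
      (by fun_prop) measurable_snd (fun R => ⟨R + R, fun x h1 h2 => ?_⟩)
    have h3 := norm_snd_le (x.2.1 + s, x.2.2 + x.1)
    have h4 := norm_snd_le x.2
    simp only at h3 h4
    have h5 : ‖x.1‖ ≤ R + R := by
      calc ‖x.1‖ = ‖(x.2.2 + x.1) - x.2.2‖ := by rw [add_sub_cancel_left]
        _ ≤ _ := (norm_sub_le _ _).trans (add_le_add (h3.trans h1) (h4.trans h2))
    have h6 : ‖x.2‖ ≤ R + R := by
      have := norm_nonneg x.2
      linarith
    exact norm_prod_le_iff.2 ⟨h5, h6⟩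
  exact h1.mul_bdd (measurable_ee.comp (by fun_prop)) ⟨1, fun x => (norm_ee _).le⟩

lemma ft_tw {u v : ℝ × ℝ → ℂ} (hu : BB u) (hv : BB v) (b s κ : ℝ) :
    ft (fun t => ∫ y : ℝ × ℝ, tw u v b s (t, y)) κ =
      ∫ p : ℝ, pf u (p + s, b * p + κ) * pf v (p, -(b * s + b * p + κ)) := by
  have hB := tw_BB hu hv b s
  have hB2 : BB (fun q : ℝ × (ℝ × ℝ) => tw u v b s q * ee (-(q.1 * κ))) :=
    hB.mul_bdd (measurable_ee.comp (by fun_prop)) ⟨1, fun x => (norm_ee _).le⟩
  unfold ft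
  have e1 : ∀ t : ℝ, (∫ y : ℝ × ℝ, tw u v b s (t, y)) * ee (-(t * κ)) =
      ∫ y : ℝ × ℝ, tw u v b s (t, y) * ee (-(t * κ)) := by
    intro t
    rw [integral_mul_const]
  simp_rw [e1]
  have h6 : (volume : Measure (ℝ × ℝ)) = (volume : Measure ℝ).prod volume := rfl
  rw [integral_integral_swap (f := fun (t : ℝ) (y : ℝ × ℝ) => tw u v b s (t, y) * ee (-(t * κ)))
    (hB2.integrable (volume.prod volume))]
  have hB3 : BB (fun y : ℝ × ℝ => ∫ t, tw u v b s (t, y) * ee (-(t * κ))) :=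
    hB2.swap.integral_right (volume : Measure ℝ)
  rw [h6, integral_prod _ (hB3.integrable (volume.prod volume))]
  refine integral_congr_ae (Filter.Eventually.of_forall fun p => ?_)
  simp only [tw, pf, ft]
  have e2 : ∀ y : ℝ, ∫ t, u (p + s, y + t) * v (p, y) * ee (b * (s * y - t * p)) *
      ee (-(t * κ)) = (∫ τ, u (p + s, τ) * ee (-(τ * (b * p + κ)))) *
        (v (p, y) * ee (-(y * -(b * s + b * p + κ)))) := by
    intro y
    rw [← integral_mul_const, ← integral_add_right_eq_self (μ := (volume : Measure ℝ))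
      (fun τ : ℝ => u (p + s, τ) * ee (-(τ * (b * p + κ))) *
        (v (p, y) * ee (-(y * -(b * s + b * p + κ))))) y]
    refine integral_congr_ae (Filter.Eventually.of_forall fun t => ?_)
    simp only
    have e3 : ee (b * (s * y - t * p)) * ee (-(t * κ)) =
        ee (-((t + y) * (b * p + κ))) * ee (-(y * -(b * s + b * p + κ))) := by
      rw [← ee_add, ← ee_add]
      congr 1
      ring
    rw [add_comm y t]
    linear_combination (u (p + s, t + y) * v (p, y)) * e3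
  simp_rw [e2]
  rw [integral_const_mul]

lemma lint_shear {U V : ℝ → ℝ≥0∞} (hU : Measurable U) (hV : Measurable V) {b : ℝ} (hb : b ≠ 0) :
    ∫⁻ s : ℝ, ∫⁻ κ : ℝ, U (κ - b * s) * V (κ + b * s) =
      ENNReal.ofReal (1 / (2 * |b|)) * (∫⁻ z, U z) * ∫⁻ z, V z := by
  have e1 : ∀ s : ℝ, ∫⁻ κ : ℝ, U (κ - b * s) * V (κ + b * s) =
      ∫⁻ κ : ℝ, U κ * V (κ + 2 * b * s) := by
    intro s
    rw [← lintegral_add_right_eq_self (μ := (volume : Measure ℝ)) _ (b * s)]
    refine lintegral_congr fun κ => ?_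
    have h1 : κ + b * s + b * s = κ + 2 * b * s := by ring
    rw [add_sub_cancel_right, h1]
  simp_rw [e1]
  have m1 : Measurable (fun q : ℝ × ℝ => U q.2 * V (q.2 + 2 * b * q.1)) :=
    (hU.comp measurable_snd).mul (hV.comp (by fun_prop))
  rw [lintegral_lintegral_swap (f := fun s κ => U κ * V (κ + 2 * b * s)) m1.aemeasurable]
  have h2b : 2 * b ≠ 0 := mul_ne_zero two_ne_zero hb
  have e2 : ∀ κ : ℝ, ∫⁻ s : ℝ, U κ * V (κ + 2 * b * s) =
      U κ * (ENNReal.ofReal (1 / (2 * |b|)) * ∫⁻ z, V z) := by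
    intro κ
    have m2 : Measurable (fun s : ℝ => V (κ + 2 * b * s)) := hV.comp (by fun_prop)
    rw [lintegral_const_mul _ m2]
    congr 1
    have h3 := (Homeomorph.mulLeft₀ (2 * b) h2b).measurableEmbedding.lintegral_map
      (μ := (volume : Measure ℝ)) (fun z => V (κ + z))
    have h4 : Measure.map (⇑(Homeomorph.mulLeft₀ (2 * b) h2b)) volume =
        ENNReal.ofReal |(2 * b)⁻¹| • volume := Real.map_volume_mul_left h2b
    rw [h4, lintegral_smul_measure, smul_eq_mul] at h3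
    simp only [Homeomorph.coe_mulLeft₀] at h3
    rw [← h3, lintegral_add_left_eq_self]
    congr 2
    rw [abs_inv, abs_mul, abs_of_pos (two_pos : (0 : ℝ) < 2), one_div]
  simp_rw [e2]
  rw [lintegral_mul_const _ hU]
  ring

theorem t_heis : St_heis := by
  intro u v hum hvm hub hvb hus hvs b hb
  have hu : BB u := ⟨hum, hub, hus⟩
  have hv : BB v := ⟨hvm, hvb, hvs⟩
  set U : ℝ → ℝ≥0∞ := fun z => ∫⁻ p, ‖pf u (p, b * p + z)‖ₑ ^ 2 with hU
  set V : ℝ → ℝ≥0∞ := fun z => ∫⁻ p, ‖pf v (p, -(b * p + z))‖ₑ ^ 2 with hV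
  have hUm : Measurable U := by
    have : Measurable (fun q : ℝ × ℝ => ‖pf u (q.2, b * q.2 + q.1)‖ₑ ^ 2) :=
      ((pf_meas hum).comp (by fun_prop)).enorm.pow_const 2
    exact this.lintegral_prod_right'
  have hVm : Measurable V := by
    have : Measurable (fun q : ℝ × ℝ => ‖pf v (q.2, -(b * q.2 + q.1))‖ₑ ^ 2) :=
      ((pf_meas hvm).comp (by fun_prop)).enorm.pow_const 2
    exact this.lintegral_prod_right'
  have hUi : ∫⁻ z, U z = ∫⁻ y, ‖u y‖ₑ ^ 2 := by
    rw [← pf_plancherel hu]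
    have m1 : Measurable (fun q : ℝ × ℝ => ‖pf u (q.2, b * q.2 + q.1)‖ₑ ^ 2) :=
      ((pf_meas hum).comp (by fun_prop)).enorm.pow_const 2
    rw [hU, lintegral_lintegral_swap (f := fun z p => ‖pf u (p, b * p + z)‖ₑ ^ 2)
      m1.aemeasurable]
    refine lintegral_congr fun p => ?_
    exact lintegral_add_left_eq_self (fun κ => ‖pf u (p, κ)‖ₑ ^ 2) (b * p)
  have hVi : ∫⁻ z, V z = ∫⁻ y, ‖v y‖ₑ ^ 2 := by
    rw [← pf_plancherel hv]
    have m1 : Measurable (fun q : ℝ × ℝ => ‖pf v (q.2, -(b * q.2 + q.1))‖ₑ ^ 2) :=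
      ((pf_meas hvm).comp (by fun_prop)).enorm.pow_const 2
    rw [hV, lintegral_lintegral_swap (f := fun z p => ‖pf v (p, -(b * p + z))‖ₑ ^ 2)
      m1.aemeasurable]
    refine lintegral_congr fun p => ?_
    rw [lintegral_add_left_eq_self (fun z => ‖pf v (p, -z)‖ₑ ^ 2) (b * p)]
    exact lintegral_neg_eq_self (fun κ => ‖pf v (p, κ)‖ₑ ^ 2)
  have h6 : (volume : Measure (ℝ × ℝ)) = (volume : Measure ℝ).prod volume := rfl
  have e1 : ∀ a : ℝ × ℝ, ∫ y : ℝ × ℝ, u (y + a) * v y * ee (b * (a.1 * y.2 - a.2 * y.1)) =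
      ∫ y : ℝ × ℝ, tw u v b a.1 (a.2, y) := by
    intro a
    rfl
  simp_rw [e1]
  have mW : Measurable (fun a : ℝ × ℝ => ∫ y : ℝ × ℝ, tw u v b a.1 (a.2, y)) := by
    have : Measurable (fun r : (ℝ × ℝ) × (ℝ × ℝ) => tw u v b r.1.1 (r.1.2, r.2)) := by
      unfold tw
      exact ((hum.comp (by fun_prop)).mul (hvm.comp (by fun_prop))).mul
        (measurable_ee.comp (by fun_prop))
    exact (this.stronglyMeasurable.integral_prod_right' (ν := volume)).measurable
  have e3 : ∫⁻ a : ℝ × ℝ, ‖∫ y : ℝ × ℝ, tw u v b a.1 (a.2, y)‖ₑ ^ 2 =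
      ∫⁻ s : ℝ, ∫⁻ t : ℝ, ‖∫ y : ℝ × ℝ, tw u v b s (t, y)‖ₑ ^ 2 :=
    lintegral_prod (μ := (volume : Measure ℝ)) (ν := (volume : Measure ℝ)) _
      (mW.enorm.pow_const 2).aemeasurable
  rw [e3]
  have e2 : ∀ s : ℝ, ∫⁻ t : ℝ, ‖∫ y : ℝ × ℝ, tw u v b s (t, y)‖ₑ ^ 2 ≤
      ∫⁻ κ : ℝ, U (κ - b * s) * V (κ + b * s) := by
    intro s
    have hW : BB (fun t : ℝ => ∫ y : ℝ × ℝ, tw u v b s (t, y)) :=
      (tw_BB hu hv b s).integral_right (volume : Measure (ℝ × ℝ))
    rw [← plancherel_ft hW]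
    refine lintegral_mono fun κ => ?_
    simp only
    rw [ft_tw hu hv]
    have m1 : Measurable (fun p : ℝ => pf u (p + s, b * p + κ)) :=
      (pf_meas hum).comp (by fun_prop)
    have m2 : Measurable (fun p : ℝ => pf v (p, -(b * s + b * p + κ))) :=
      (pf_meas hvm).comp (by fun_prop)
    refine (cs_enorm volume m1.aemeasurable m2.aemeasurable).trans (le_of_eq ?_)
    congr 1
    · simp only [hU]
      rw [← lintegral_add_right_eq_self (μ := (volume : Measure ℝ))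
        (fun p => ‖pf u (p, b * p + (κ - b * s))‖ₑ ^ 2) s]
      refine lintegral_congr fun p => ?_
      have : b * (p + s) + (κ - b * s) = b * p + κ := by ring
      rw [this]
    · simp only [hV]
      refine lintegral_congr fun p => ?_
      have : b * s + b * p + κ = b * p + (κ + b * s) := by ring
      rw [this]
  refine (lintegral_mono e2).trans (le_of_eq ?_)
  rw [lint_shear hUm hVm hb, hUi, hVi]

end Run7.h764
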