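import Pool.Agent.Run7.h764.VdC
set_option autoImplicit false

namespace Run7.h764

open MeasureTheory Complex Set
open scoped ENNReal NNReal

lemma small_sq {A ε : ℝ} (hA : 0 ≤ A) (hε : 0 < ε) : ∃ x : ℝ, 0 < x ∧ A * x ^ 2 ≤ ε := by
  refine ⟨√(ε / (A + 1)), Real.sqrt_pos.2 (by positivity), ?_⟩
  rw [Real.sq_sqrt (by positivity), mul_div_assoc', div_le_iff₀ (by positivity)]
  nlinarith

lemma lint_rho {ρ : ℝ → ℝ} (h : Wt ρ) : ∫⁻ s, ‖(ρ s : ℂ)‖ₑ ^ 2 ≤ ENNReal.ofReal 0.4 := by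
  have h1 : ∀ s : ℝ, ‖(ρ s : ℂ)‖ₑ ^ 2 ≤ (Set.Icc (0.9 : ℝ) 1.3).indicator (fun _ => (1 : ℝ≥0∞)) s := by
    intro s
    by_cases hs : s ∈ Set.Icc (0.9 : ℝ) 1.3
    · rw [Set.indicator_of_mem hs]
      have : ‖(ρ s : ℂ)‖ₑ ≤ 1 := by
        rw [← ofReal_norm, Complex.norm_real, ← ENNReal.ofReal_one]
        exact ENNReal.ofReal_le_ofReal (h.bdd s)
      exact pow_le_one₀ zero_le this
    · rw [h.supp s hs]
      simp
  refine (lintegral_mono h1).trans (le_of_eq ?_)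
  rw [lintegral_indicator measurableSet_Icc, setLIntegral_const, Real.volume_Icc, one_mul]
  norm_num

lemma negsob {δ : ℝ} (hδ : 0 < δ) : ∃ κ : ℝ, 0 < κ ∧ ∀ ρ : ℝ → ℝ, Wt ρ →
    (∀ N, ‖ft (fun s => (ρ s : ℂ)) N‖ ≤ κ * |N|) →
    ∫⁻ N, ‖ft (fun s => (ρ s : ℂ)) N‖ₑ ^ 2 * ENNReal.ofReal (1 / (1 + |N|)) ≤
      ENNReal.ofReal δ := by
  set N0 : ℝ := 1 / δ with hN0
  have hN0p : 0 < N0 := by positivity
  obtain ⟨κ, hκ, hκ2⟩ := small_sq (A := 2 * N0 ^ 3) (ε := δ / 2) (by positivity) (by positivity)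
  refine ⟨κ, hκ, ?_⟩
  intro ρ hρ hk
  have h1 : ∀ N : ℝ, ‖ft (fun s => (ρ s : ℂ)) N‖ₑ ^ 2 * ENNReal.ofReal (1 / (1 + |N|)) ≤
      (Set.Icc (-N0) N0).indicator (fun _ => ENNReal.ofReal (κ ^ 2 * N0 ^ 2)) N +
        ENNReal.ofReal (1 / N0) * ‖ft (fun s => (ρ s : ℂ)) N‖ₑ ^ 2 := by
    intro N
    by_cases hN : N ∈ Set.Icc (-N0) N0
    · rw [Set.indicator_of_mem hN]
      refine le_trans ?_ le_self_add
      have h2 : ENNReal.ofReal (1 / (1 + |N|)) ≤ 1 := by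
        rw [← ENNReal.ofReal_one]
        apply ENNReal.ofReal_le_ofReal
        rw [div_le_one (by positivity)]
        have := abs_nonneg N
        linarith
      calc _ ≤ ‖ft (fun s => (ρ s : ℂ)) N‖ₑ ^ 2 * 1 := mul_le_mul_right h2 _
        _ = ‖ft (fun s => (ρ s : ℂ)) N‖ₑ ^ 2 := mul_one _
        _ ≤ _ := by
          rw [← ofReal_norm, ← ENNReal.ofReal_pow (norm_nonneg _)]
          apply ENNReal.ofReal_le_ofReal
          rw [← mul_pow]
          refine pow_le_pow_left₀ (norm_nonneg _) ((hk N).trans ?_) 2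
          exact mul_le_mul_of_nonneg_left (abs_le.2 hN) hκ.le
    · rw [Set.indicator_of_notMem hN, zero_add, mul_comm]
      refine mul_le_mul_left (ENNReal.ofReal_le_ofReal ?_) _
      refine one_div_le_one_div_of_le hN0p ?_
      have : N0 < |N| := by
        by_contra hcon
        exact hN (abs_le.1 (not_lt.1 hcon))
      linarith
  refine (lintegral_mono h1).trans ?_
  rw [lintegral_add_left (measurable_const.indicator measurableSet_Icc),
    lintegral_indicator measurableSet_Icc, setLIntegral_const, Real.volume_Icc,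
    lintegral_const_mul' _ _ ENNReal.ofReal_ne_top, plancherel_ft hρ.BB]
  have h3 : ENNReal.ofReal (κ ^ 2 * N0 ^ 2) * ENNReal.ofReal (N0 - -N0) ≤
      ENNReal.ofReal (δ / 2) := by
    rw [← ENNReal.ofReal_mul (by positivity)]
    apply ENNReal.ofReal_le_ofReal
    calc _ = 2 * N0 ^ 3 * κ ^ 2 := by ring
      _ ≤ _ := hκ2
  have h4 : ENNReal.ofReal (1 / N0) * ∫⁻ s, ‖(ρ s : ℂ)‖ₑ ^ 2 ≤ ENNReal.ofReal (δ / 2) := by
    refine (mul_le_mul_right (lint_rho hρ) _).trans ?_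
    rw [← ENNReal.ofReal_mul (by positivity)]
    apply ENNReal.ofReal_le_ofReal
    rw [hN0, one_div_one_div]
    linarith
  calc _ ≤ ENNReal.ofReal (δ / 2) + ENNReal.ofReal (δ / 2) := add_le_add h3 h4
    _ = _ := by
      rw [← ENNReal.ofReal_add (by positivity) (by positivity)]
      congr 1
      ring

lemma four_sq (a b : ℝ≥0∞) : (a + b) ^ 2 ≤ 4 * (a ^ 2 + b ^ 2) := by
  rcases le_total a b with h | h
  · calc (a + b) ^ 2 ≤ (b + b) ^ 2 := pow_le_pow_left₀ zero_le (add_le_add h le_rfl) 2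
      _ = 4 * b ^ 2 := by ring
      _ ≤ _ := mul_le_mul_right le_add_self _
  · calc (a + b) ^ 2 ≤ (a + a) ^ 2 := pow_le_pow_left₀ zero_le (add_le_add le_rfl h) 2
      _ = 4 * a ^ 2 := by ring
      _ ≤ _ := mul_le_mul_right le_self_add _

lemma measurable_PF {ρ : ℝ → ℝ} (hρ : Measurable ρ) (σ0 : ℝ) :
    Measurable (fun p : ℂ × ℂ => PF ρ σ0 p.1 p.2) := by
  have h1 : Measurable (fun q : (ℂ × ℂ) × ℝ =>
      ρ (Complex.normSq q.1.2 + q.2) * ρ (Complex.normSq (q.1.2 + q.1.1) + q.2)) :=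
    (hρ.comp (by fun_prop)).mul (hρ.comp (by fun_prop))
  have h2 := (h1.stronglyMeasurable.integral_prod_right'
    (ν := volume.restrict (Set.Icc 0 σ0))).measurable
  unfold PF
  exact Complex.measurable_ofReal.comp (h2.const_mul _)

lemma PF_BB {ρ : ℝ → ℝ} (h : Wt1 ρ) {σ0 : ℝ} (hσ : 0 < σ0) (hσ1 : σ0 ≤ 0.1) (k : ℂ) :
    BB (PF ρ σ0 k) ∧ ∀ w, ‖PF ρ σ0 k w‖ ≤ 1 := by
  have hb : ∀ w, ‖PF ρ σ0 k w‖ ≤ 1 := by
    intro w
    rw [PF_eq_FF, norm_mul, Complex.norm_real, Real.norm_eq_abs, abs_of_pos (inv_pos.2 hσ)]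
    have := norm_setIntegral_le_of_norm_le_const (μ := volume) (s := Icc 0 σ0) (C := 1)
        (f := fun σ => FF (fun s => ρ (s + σ)) k w) (by simp)
        (fun σ hσ2 => FF_norm (h.shift hσ2.1 (hσ2.2.trans hσ1)) k w)
    rw [Real.volume_real_Icc_of_le hσ.le, sub_zero, one_mul] at this
    calc _ ≤ σ0⁻¹ * σ0 := by gcongr
      _ = 1 := inv_mul_cancel₀ hσ.ne'
  have hm : Measurable (Function.uncurry (PF ρ σ0)) := measurable_PF h.meas σ0
  refine ⟨⟨hm.of_uncurry_left, ⟨1, hb⟩, ⟨2, fun w hw => ?_⟩⟩, hb⟩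
  have h4 : (1.3 : ℝ) < Complex.normSq w := by
    rw [Complex.normSq_eq_norm_sq]
    nlinarith
  unfold PF
  have : ∀ σ ∈ Icc 0 σ0, ρ (Complex.normSq w + σ) * ρ (Complex.normSq (w + k) + σ) = 0 := by
    intro σ hσ2
    rw [h.supp _ (fun h5 => absurd h5.2 (not_le.2 (by linarith [hσ2.1]))), zero_mul]
  rw [setIntegral_congr_fun measurableSet_Icc this]
  simp

lemma vol_ball (r : ℝ) (hr : 0 ≤ r) :
    volume (Metric.closedBall (0 : ℂ) r) = ENNReal.ofReal (Real.pi * r ^ 2) := by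
  rw [Complex.volume_closedBall, mul_comm, ENNReal.ofReal_mul Real.pi_pos.le,
    ENNReal.ofReal_pow hr]
  congr 1
  rw [ENNReal.ofReal, ← NNReal.coe_real_pi, Real.toNNReal_coe]

lemma trivial_symbol {ρ : ℝ → ℝ} (h : Wt1 ρ) {σ0 : ℝ} (hσ : 0 < σ0) (hσ1 : σ0 ≤ 0.1) (k ξ : ℂ) :
    ‖∫ w, (FF ρ k w - PF ρ σ0 k w) * ee (dot w ξ)‖ ≤ 8 * Real.pi := by
  have e : ∫ w, (FF ρ k w - PF ρ σ0 k w) * ee (dot w ξ) =
      ∫ w in Metric.closedBall (0 : ℂ) 2, (FF ρ k w - PF ρ σ0 k w) * ee (dot w ξ) := by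
    symm
    apply setIntegral_eq_integral_of_forall_compl_eq_zero
    intro w hw
    rw [Metric.mem_closedBall, dist_zero_right, not_le] at hw
    have h4 : (1.3 : ℝ) < Complex.normSq w := by
      rw [Complex.normSq_eq_norm_sq]
      nlinarith
    have z1 : FF ρ k w = 0 := by
      unfold FF
      rw [h.supp _ (fun h5 => absurd h5.2 (not_le.2 h4)), zero_mul, Complex.ofReal_zero]
    have z2 : PF ρ σ0 k w = 0 := by
      unfold PF
      have : ∀ σ ∈ Icc 0 σ0, ρ (Complex.normSq w + σ) * ρ (Complex.normSq (w + k) + σ) = 0 := by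
        intro σ hσ2
        rw [h.supp _ (fun h5 => absurd h5.2 (not_le.2 (by linarith [hσ2.1]))), zero_mul]
      rw [setIntegral_congr_fun measurableSet_Icc this]
      simp
    rw [z1, z2, sub_zero, zero_mul]
  rw [e]
  have hv : volume (Metric.closedBall (0 : ℂ) 2) < ∞ := (isCompact_closedBall _ _).measure_lt_top
  refine (norm_setIntegral_le_of_norm_le_const (C := 2) hv (fun w _ => ?_)).trans (le_of_eq ?_)
  · rw [norm_mul, norm_ee, mul_one]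
    refine (norm_sub_le _ _).trans ?_
    have h1 := FF_norm h.wt k w
    have h2 := (PF_BB h hσ hσ1 k).2 w
    linarith
  · rw [Measure.real, vol_ball 2 (by norm_num), ENNReal.toReal_ofReal (by positivity)]
    ring

/-- The second moment of the correlation operators. -/
theorem S2_bound (Ho : St_osc) (Hh : St_heis) {ζ : ℂ} (hζ : ζ.im ≠ 0) {ε : ℝ} (hε : 0 < ε) :
    ∃ κ : ℝ, 0 < κ ∧ ∀ ρ : ℝ → ℝ, Wt1 ρ →
    (∀ N, ‖ft (fun s => (ρ s : ℂ)) N‖ ≤ κ * |N|) → ∀ h g : ℂ → ℂ, BB h → BB g →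
    (∀ x, ‖g x‖ ≤ 1) →
    ∫⁻ k in Metric.closedBall (0 : ℂ) (1 / 2), ∫⁻ y, ‖∫ w, h (y + (ζ - 1) * w) *
        g (y + (ζ - 1) * w + ζ * k) * FF ρ k w‖ₑ ^ 2 ≤
      ENNReal.ofReal ε * ∫⁻ y, ‖h y‖ₑ ^ 2 := by
  have hM : (ζ - 1) ≠ 0 := by
    intro h
    apply hζ
    rw [sub_eq_zero.1 h]
    simp
  have hpi := Real.pi_pos
  obtain ⟨l0, hl0, hl0'⟩ := small_sq (A := (8 * Real.pi) ^ 2 * Real.pi) (ε := ε / 12)
    (by positivity) (by positivity)
  obtain ⟨ε1, hε1, hε1'⟩ := small_sq (A := Real.pi) (ε := ε / 12)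
    (by positivity) (by positivity)
  obtain ⟨σ0, hσ, hσ1, h2⟩ := term2 Ho hl0 hε1
  obtain ⟨C, hC, h1⟩ := term1 Hh hζ
  set c : ℝ := C.toReal with hc
  have hCc : C = ENNReal.ofReal c := (ENNReal.ofReal_toReal hC).symm
  have hc0 : 0 ≤ c := ENNReal.toReal_nonneg
  set δ : ℝ := ε * σ0 / (12 * (c + 1)) with hδ
  have hδ0 : 0 < δ := by positivity
  obtain ⟨κ, hκ, hκ2⟩ := negsob hδ0
  refine ⟨κ, hκ, ?_⟩
  intro ρ hρ hft h g hh hg hg1
  set H2 : ℝ≥0∞ := ∫⁻ y, ‖h y‖ₑ ^ 2 with hH2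
  -- first part
  have A1 : ∫⁻ k in Metric.closedBall (0 : ℂ) (1 / 2), ∫⁻ y, ‖∫ w, h (y + (ζ - 1) * w) *
        g (y + (ζ - 1) * w + ζ * k) * PF ρ σ0 k w‖ₑ ^ 2 ≤ ENNReal.ofReal (ε / 12) * H2 := by
    refine (h1 σ0 hσ ρ hρ.wt h g hh hg hg1).trans ?_
    refine mul_le_mul_left ((mul_le_mul_right (hκ2 ρ hρ.wt hft) _).trans ?_) _
    rw [hCc, ← ENNReal.ofReal_mul hc0, ← ENNReal.ofReal_mul (by positivity)]
    apply ENNReal.ofReal_le_ofReal
    rw [hδ]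
    have : c * σ0⁻¹ * (ε * σ0 / (12 * (c + 1))) = (ε / 12) * (c / (c + 1)) := by
      field_simp
    rw [this]
    have h3 : c / (c + 1) ≤ 1 := by
      rw [div_le_one (by positivity)]
      linarith
    calc _ ≤ (ε / 12) * 1 := by gcongr
      _ = _ := mul_one _
  -- second part
  have A2 : ∀ k ∈ Metric.closedBall (0 : ℂ) (1 / 2), ∫⁻ y, ‖∫ w, h (y + (ζ - 1) * w) *
        g (y + (ζ - 1) * w + ζ * k) * (FF ρ k w - PF ρ σ0 k w)‖ₑ ^ 2 ≤
      ((Metric.closedBall (0 : ℂ) l0).indicator (fun _ => ENNReal.ofReal ((8 * Real.pi) ^ 2)) k +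
        ENNReal.ofReal (ε1 ^ 2)) * H2 := by
    intro k hk
    rw [Metric.mem_closedBall, dist_zero_right] at hk
    have hD : BB (fun y => h y * g (y + ζ * k)) :=
      hh.mul_bdd (hg.meas.comp (by fun_prop)) ⟨1, fun x => hg1 _⟩
    have hF : BB (fun w => FF ρ k w - PF ρ σ0 k w) :=
      (FF_BB hρ.wt k).sub (PF_BB hρ hσ hσ1 k).1
    have hD2 : ∫⁻ y, ‖h y * g (y + ζ * k)‖ₑ ^ 2 ≤ H2 := by
      refine lintegral_mono fun y => pow_le_pow_left₀ zero_le ?_ 2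
      rw [enorm_mul]
      have : ‖g (y + ζ * k)‖ₑ ≤ 1 := by
        rw [← ofReal_norm, ← ENNReal.ofReal_one]
        exact ENNReal.ofReal_le_ofReal (hg1 _)
      calc _ ≤ ‖h y‖ₑ * 1 := mul_le_mul_right this _
        _ = _ := mul_one _
    have mb : ∀ b : ℝ, 0 ≤ b → (∀ ξ : ℂ, ‖∫ w, (FF ρ k w - PF ρ σ0 k w) * ee (dot w ξ)‖ ≤ b) →
        ∫⁻ y, ‖∫ w, h (y + (ζ - 1) * w) *
        g (y + (ζ - 1) * w + ζ * k) * (FF ρ k w - PF ρ σ0 k w)‖ₑ ^ 2 ≤
        ENNReal.ofReal (b ^ 2) * H2 := by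
      intro b hb0 hb
      have := mult_bound hD hF hM (ε := ENNReal.ofReal b) ENNReal.ofReal_ne_top (fun ξ => by
        rw [← ofReal_norm]
        exact ENNReal.ofReal_le_ofReal (hb ξ))
      refine this.trans ?_
      rw [ENNReal.ofReal_pow hb0]
      exact mul_le_mul_right hD2 _
    by_cases hk2 : l0 ≤ ‖k‖
    · refine (mb ε1 hε1.le (fun ξ => h2 ρ hρ k hk2 hk ξ)).trans ?_
      exact mul_le_mul_left le_add_self _
    · push Not at hk2
      rw [Set.indicator_of_mem (by rw [Metric.mem_closedBall, dist_zero_right]; exact hk2.le)]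
      refine (mb (8 * Real.pi) (by positivity) (fun ξ => trivial_symbol hρ hσ hσ1 k ξ)).trans ?_
      exact mul_le_mul_left le_self_add _
  have A3 : ∫⁻ k in Metric.closedBall (0 : ℂ) (1 / 2), ∫⁻ y, ‖∫ w, h (y + (ζ - 1) * w) *
        g (y + (ζ - 1) * w + ζ * k) * (FF ρ k w - PF ρ σ0 k w)‖ₑ ^ 2 ≤
      ENNReal.ofReal (ε / 6) * H2 := by
    refine (setLIntegral_mono' Metric.isClosed_closedBall.measurableSet A2).trans ?_
    have m1 : Measurable (fun k : ℂ => (Metric.closedBall (0 : ℂ) l0).indicator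
        (fun _ => ENNReal.ofReal ((8 * Real.pi) ^ 2)) k) :=
      measurable_const.indicator Metric.isClosed_closedBall.measurableSet
    have m2 : Measurable (fun k : ℂ => (Metric.closedBall (0 : ℂ) l0).indicator
        (fun _ => ENNReal.ofReal ((8 * Real.pi) ^ 2)) k + ENNReal.ofReal (ε1 ^ 2)) :=
      m1.add measurable_const
    rw [lintegral_mul_const _ m2, lintegral_add_left m1, setLIntegral_const]
    refine mul_le_mul_left ?_ _
    have k1 : ∫⁻ k in Metric.closedBall (0 : ℂ) (1 / 2), (Metric.closedBall (0 : ℂ) l0).indicator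
        (fun _ => ENNReal.ofReal ((8 * Real.pi) ^ 2)) k ≤ ENNReal.ofReal (ε / 12) := by
      refine (setLIntegral_le_lintegral _ _).trans ?_
      rw [lintegral_indicator Metric.isClosed_closedBall.measurableSet, setLIntegral_const,
        vol_ball l0 hl0.le, ← ENNReal.ofReal_mul (by positivity)]
      apply ENNReal.ofReal_le_ofReal
      linarith
    have k2 : ENNReal.ofReal (ε1 ^ 2) * volume (Metric.closedBall (0 : ℂ) (1 / 2)) ≤
        ENNReal.ofReal (ε / 12) := by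
      rw [vol_ball (1 / 2) (by norm_num), ← ENNReal.ofReal_mul (by positivity)]
      apply ENNReal.ofReal_le_ofReal
      nlinarith [sq_nonneg ε1]
    refine (add_le_add k1 k2).trans (le_of_eq ?_)
    rw [← ENNReal.ofReal_add (by positivity) (by positivity)]
    congr 1
    ring
  -- combination
  have A4 : ∀ k y : ℂ, ‖∫ w, h (y + (ζ - 1) * w) * g (y + (ζ - 1) * w + ζ * k) * FF ρ k w‖ₑ ^ 2 ≤
      4 * (‖∫ w, h (y + (ζ - 1) * w) * g (y + (ζ - 1) * w + ζ * k) * PF ρ σ0 k w‖ₑ ^ 2 +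
        ‖∫ w, h (y + (ζ - 1) * w) *
        g (y + (ζ - 1) * w + ζ * k) * (FF ρ k w - PF ρ σ0 k w)‖ₑ ^ 2) := by
    intro k y
    have hDm : Measurable (fun w => h (y + (ζ - 1) * w) * g (y + (ζ - 1) * w + ζ * k)) :=
      (hh.meas.comp (by fun_prop)).mul (hg.meas.comp (by fun_prop))
    have hDb : ∃ B, ∀ w, ‖h (y + (ζ - 1) * w) * g (y + (ζ - 1) * w + ζ * k)‖ ≤ B := by
      obtain ⟨B, hB0, hB⟩ := hh.bdd'
      refine ⟨B * 1, fun w => ?_⟩
      rw [norm_mul]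
      exact mul_le_mul (hB _) (hg1 _) (norm_nonneg _) hB0.le
    have i1 := ((PF_BB hρ hσ hσ1 k).1.bdd_mul hDm hDb).integrable volume
    have i2 := (((FF_BB hρ.wt k).sub (PF_BB hρ hσ hσ1 k).1).bdd_mul hDm hDb).integrable volume
    have e : ∫ w, h (y + (ζ - 1) * w) * g (y + (ζ - 1) * w + ζ * k) * FF ρ k w =
        (∫ w, h (y + (ζ - 1) * w) * g (y + (ζ - 1) * w + ζ * k) * PF ρ σ0 k w) +
        ∫ w, h (y + (ζ - 1) * w) * g (y + (ζ - 1) * w + ζ * k) *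
          (FF ρ k w - PF ρ σ0 k w) := by
      rw [← integral_add i1 i2]
      refine integral_congr_ae (Filter.Eventually.of_forall fun w => ?_)
      simp only
      ring
    rw [e]
    refine (pow_le_pow_left₀ zero_le (enorm_add_le _ _) 2).trans (four_sq _ _)
  have mm : Measurable (fun q : ℂ × ℂ => ‖∫ w, h (q.2 + (ζ - 1) * w) *
      g (q.2 + (ζ - 1) * w + ζ * q.1) * PF ρ σ0 q.1 w‖ₑ ^ 2) := by
    have m1 : Measurable (fun r : (ℂ × ℂ) × ℂ => h (r.1.2 + (ζ - 1) * r.2) *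
      g (r.1.2 + (ζ - 1) * r.2 + ζ * r.1.1) * PF ρ σ0 r.1.1 r.2) := by
      have n1 : Measurable (fun r : (ℂ × ℂ) × ℂ => PF ρ σ0 r.1.1 r.2) := by
        have n2 : Measurable (fun r : (ℂ × ℂ) × ℂ => (r.1.1, r.2)) := by fun_prop
        exact (measurable_PF hρ.meas σ0).comp n2
      exact ((hh.meas.comp (by fun_prop)).mul (hg.meas.comp (by fun_prop))).mul n1
    exact (m1.stronglyMeasurable.integral_prod_right' (ν := volume)).measurable.enorm.pow_const 2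
  calc _ ≤ ∫⁻ k in Metric.closedBall (0 : ℂ) (1 / 2), ∫⁻ y,
        4 * (‖∫ w, h (y + (ζ - 1) * w) * g (y + (ζ - 1) * w + ζ * k) * PF ρ σ0 k w‖ₑ ^ 2 +
        ‖∫ w, h (y + (ζ - 1) * w) *
        g (y + (ζ - 1) * w + ζ * k) * (FF ρ k w - PF ρ σ0 k w)‖ₑ ^ 2) :=
        lintegral_mono fun k => lintegral_mono fun y => A4 k y
    _ = 4 * ((∫⁻ k in Metric.closedBall (0 : ℂ) (1 / 2), ∫⁻ y,
        ‖∫ w, h (y + (ζ - 1) * w) * g (y + (ζ - 1) * w + ζ * k) * PF ρ σ0 k w‖ₑ ^ 2) +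
        ∫⁻ k in Metric.closedBall (0 : ℂ) (1 / 2), ∫⁻ y, ‖∫ w, h (y + (ζ - 1) * w) *
        g (y + (ζ - 1) * w + ζ * k) * (FF ρ k w - PF ρ σ0 k w)‖ₑ ^ 2) := by
        have m2 : Measurable (fun k : ℂ => ∫⁻ y, ‖∫ w, h (y + (ζ - 1) * w) *
          g (y + (ζ - 1) * w + ζ * k) * PF ρ σ0 k w‖ₑ ^ 2) := mm.lintegral_prod_right'
        rw [← lintegral_add_left m2, ← lintegral_const_mul' _ _ (by norm_num)]
        refine lintegral_congr fun k => ?_
        have m3 : Measurable (fun y : ℂ => ‖∫ w, h (y + (ζ - 1) * w) *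
          g (y + (ζ - 1) * w + ζ * k) * PF ρ σ0 k w‖ₑ ^ 2) :=
          Measurable.of_uncurry_left (f := fun k y => ‖∫ w, h (y + (ζ - 1) * w) *
          g (y + (ζ - 1) * w + ζ * k) * PF ρ σ0 k w‖ₑ ^ 2) mm
        rw [← lintegral_add_left m3, ← lintegral_const_mul' _ _ (by norm_num)]
    _ ≤ 4 * (ENNReal.ofReal (ε / 12) * H2 + ENNReal.ofReal (ε / 6) * H2) :=
        mul_le_mul_right (add_le_add A1 A3) _
    _ = ENNReal.ofReal ε * H2 := by
        rw [← add_mul, ← ENNReal.ofReal_add (by positivity) (by positivity), ← mul_assoc]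
        congr 1
        have : (4 : ℝ≥0∞) = ENNReal.ofReal 4 := by norm_num
        rw [this, ← ENNReal.ofReal_mul (by norm_num)]
        congr 1
        ring

lemma QQ_bound {ζ : ℂ} {g h : ℂ → ℂ} (hg : BB g) (hh : BB h) (hg1 : ∀ x, ‖g x‖ ≤ 1)
    {ρ : ℝ → ℝ} (hρ : Wt1 ρ) (k : ℂ) :
    ‖QQ ζ g h (fun w => (ρ (Complex.normSq w) : ℂ)) k‖ₑ ^ 2 ≤ (∫⁻ x, ‖g x‖ₑ ^ 2) *
      ∫⁻ y, ‖∫ w, h (y + (ζ - 1) * w) *
        (starRingEnd ℂ) (h (y + (ζ - 1) * w + ζ * k)) * FF ρ k w‖ₑ ^ 2 := by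
  have hΨ : BB (fun p : ℂ × ℂ => g p.1 * FF ρ k p.2) := by
    refine hg.mul_comp (FF_BB hρ.wt k) measurable_fst measurable_snd (fun R => ⟨R, ?_⟩)
    intro x h1 h2
    exact norm_prod_le_iff.2 ⟨h1, h2⟩
  have hΨ2 : BB (fun p : ℂ × ℂ => g p.1 * FF ρ k p.2 * (h (p.1 + (ζ - 1) * p.2) *
      (starRingEnd ℂ) (g (p.1 + k) * h (p.1 + (ζ - 1) * p.2 + ζ * k)))) := by
    refine hΨ.mul_bdd ?_ ?_
    · refine (hh.meas.comp (by fun_prop)).mul (Complex.continuous_conj.measurable.comp ?_)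
      exact (hg.meas.comp (by fun_prop)).mul (hh.meas.comp (by fun_prop))
    · obtain ⟨B, hB0, hB⟩ := hh.bdd'
      refine ⟨B * (1 * B), fun p => ?_⟩
      rw [norm_mul, RCLike.norm_conj, norm_mul]
      have := hB (p.1 + (ζ - 1) * p.2)
      have := hB (p.1 + (ζ - 1) * p.2 + ζ * k)
      have := hg1 (p.1 + k)
      gcongr
  have e1 : QQ ζ g h (fun w => (ρ (Complex.normSq w) : ℂ)) k =
      ∫ y, (g y * (starRingEnd ℂ) (g (y + k))) * ∫ w, h (y + (ζ - 1) * w) *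
        (starRingEnd ℂ) (h (y + (ζ - 1) * w + ζ * k)) * FF ρ k w := by
    unfold QQ
    have e2 : ∀ p : ℂ × ℂ, g p.1 * h (p.1 + (ζ - 1) * p.2) * (ρ (Complex.normSq p.2) : ℂ) *
        (starRingEnd ℂ) (g (p.1 + k) * h (p.1 + (ζ - 1) * p.2 + ζ * k) *
          (ρ (Complex.normSq (p.2 + k)) : ℂ)) =
        g p.1 * FF ρ k p.2 * (h (p.1 + (ζ - 1) * p.2) *
      (starRingEnd ℂ) (g (p.1 + k) * h (p.1 + (ζ - 1) * p.2 + ζ * k))) := by
      intro p
      unfold FF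
      simp only [map_mul, Complex.conj_ofReal, Complex.ofReal_mul]
      ring
    simp_rw [e2]
    have h6 : (volume : Measure (ℂ × ℂ)) = (volume : Measure ℂ).prod volume := rfl
    rw [h6, integral_prod _ (hΨ2.integrable (volume.prod volume))]
    refine integral_congr_ae (Filter.Eventually.of_forall fun y => ?_)
    simp only
    rw [← integral_const_mul]
    refine integral_congr_ae (Filter.Eventually.of_forall fun w => ?_)
    simp only [map_mul]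
    ring
  rw [e1]
  have mI : Measurable (fun y : ℂ => ∫ w, h (y + (ζ - 1) * w) *
        (starRingEnd ℂ) (h (y + (ζ - 1) * w + ζ * k)) * FF ρ k w) := by
    have m1 : Measurable (fun r : ℂ × ℂ => h (r.1 + (ζ - 1) * r.2) *
        (starRingEnd ℂ) (h (r.1 + (ζ - 1) * r.2 + ζ * k)) * FF ρ k r.2) := by
      refine ((hh.meas.comp (by fun_prop)).mul (Complex.continuous_conj.measurable.comp
        (hh.meas.comp (by fun_prop)))).mul ?_
      exact (FF_BB hρ.wt k).meas.comp measurable_snd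
    exact (m1.stronglyMeasurable.integral_prod_right' (ν := volume)).measurable
  have mG : Measurable (fun y : ℂ => g y * (starRingEnd ℂ) (g (y + k))) :=
    hg.meas.mul (Complex.continuous_conj.measurable.comp (hg.meas.comp (by fun_prop)))
  refine (cs_enorm volume mG.aemeasurable mI.aemeasurable).trans ?_
  refine mul_le_mul_left ?_ _
  refine lintegral_mono fun y => pow_le_pow_left₀ zero_le ?_ 2
  rw [enorm_mul]
  have : ‖(starRingEnd ℂ) (g (y + k))‖ₑ ≤ 1 := by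
    rw [← ofReal_norm, RCLike.norm_conj, ← ENNReal.ofReal_one]
    exact ENNReal.ofReal_le_ofReal (hg1 _)
  calc _ ≤ ‖g y‖ₑ * 1 := mul_le_mul_right this _
    _ = _ := mul_one _

/-- Rough weights give small averages. -/
theorem propC (Ho : St_osc) (Hh : St_heis) {ζ : ℂ} (hζ : ζ.im ≠ 0) {ε : ℝ} (hε : 0 < ε) :
    ∃ κ : ℝ, 0 < κ ∧ ∀ ρ : ℝ → ℝ, Wt1 ρ →
    (∀ N, ‖ft (fun s => (ρ s : ℂ)) N‖ ≤ κ * |N|) → ∀ f g h : ℂ → ℂ, BB f → BB g → BB h →
    (∀ x, ‖g x‖ ≤ 1) → (∀ x, ‖h x‖ ≤ 1) →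
    ‖TT ζ f g h (fun w => (ρ (Complex.normSq w) : ℂ))‖ₑ ^ 4 ≤
      ENNReal.ofReal ε * ((∫⁻ x, ‖f x‖ₑ ^ 2) ^ 2 * (∫⁻ x, ‖g x‖ₑ ^ 2) * ∫⁻ x, ‖h x‖ₑ ^ 2) := by
  have hpi := Real.pi_pos
  set l : ℝ := Real.pi * (1 / 4) ^ 2 with hl
  have hl0 : 0 < l := by positivity
  set b : ℝ := Real.pi * 2 ^ 2 with hb
  have hb0 : 0 < b := by positivity
  set c : ℝ := Real.pi * (1 / 2) ^ 2 with hc
  have hc0 : 0 < c := by positivity
  set ε1 : ℝ := ε * l ^ 2 / (b ^ 2 * c) with hε1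
  have hε10 : 0 < ε1 := by positivity
  obtain ⟨κ, hκ, hS⟩ := S2_bound Ho Hh hζ hε10
  refine ⟨κ, hκ, ?_⟩
  intro ρ hρ hft f g h hf hg hh hg1 hh1
  set F : ℂ → ℂ := fun w => (ρ (Complex.normSq w) : ℂ) with hF
  have hz : ∀ w : ℂ, 1.2 < ‖w‖ → F w = 0 := by
    intro w hw
    have h4 : (1.3 : ℝ) < Complex.normSq w := by
      rw [Complex.normSq_eq_norm_sq]
      nlinarith
    simp only [hF]
    rw [hρ.supp _ (fun h5 => absurd h5.2 (not_le.2 h4)), Complex.ofReal_zero]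
  have hFB : BB F := by
    refine ⟨Complex.measurable_ofReal.comp (hρ.meas.comp (by fun_prop)), ⟨1, fun w => ?_⟩,
      ⟨1.2, hz⟩⟩
    simp only [hF, Complex.norm_real]
    exact hρ.bdd _
  have v1 := vdc ζ hf hg hh hFB hz
  rw [vol_ball _ (by norm_num), vol_ball _ (by norm_num), ← hl, ← hb] at v1
  set T : ℝ≥0∞ := ‖TT ζ f g h F‖ₑ with hT
  set Q : ℝ≥0∞ := ∫⁻ k in Metric.closedBall (0 : ℂ) (1 / 2), ‖QQ ζ g h F k‖ₑ with hQ
  set f2 : ℝ≥0∞ := ∫⁻ x, ‖f x‖ₑ ^ 2 with hf2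
  set g2 : ℝ≥0∞ := ∫⁻ x, ‖g x‖ₑ ^ 2 with hg2
  set h2 : ℝ≥0∞ := ∫⁻ x, ‖h x‖ₑ ^ 2 with hh2
  have hQm : Measurable (QQ ζ g h F) := by
    unfold QQ
    have m1 : Measurable (fun r : ℂ × (ℂ × ℂ) => g r.2.1 * h (r.2.1 + (ζ - 1) * r.2.2) *
        F r.2.2 * (starRingEnd ℂ) (g (r.2.1 + r.1) * h (r.2.1 + (ζ - 1) * r.2.2 + ζ * r.1) *
          F (r.2.2 + r.1))) := by
      have n1 := hg.meas
      have n2 := hh.meas
      have n3 := hFB.meas
      refine Measurable.mul (((n1.comp (by fun_prop)).mul (n2.comp (by fun_prop))).mul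
        (n3.comp (by fun_prop))) ?_
      refine Complex.continuous_conj.measurable.comp ?_
      exact ((n1.comp (by fun_prop)).mul (n2.comp (by fun_prop))).mul (n3.comp (by fun_prop))
    exact (m1.stronglyMeasurable.integral_prod_right'
      (ν := (volume : Measure (ℂ × ℂ)))).measurable
  have hQ2 : Q ^ 2 ≤ ENNReal.ofReal c * (g2 * (ENNReal.ofReal ε1 * h2)) := by
    have h5 := cs_lint (volume.restrict (Metric.closedBall (0 : ℂ) (1 / 2)))
      (f := fun _ => 1) (g := fun k => ‖QQ ζ g h F k‖ₑ) aemeasurable_const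
      hQm.enorm.aemeasurable
    simp only [one_mul, one_pow, setLIntegral_const] at h5
    rw [vol_ball _ (by norm_num), ← hc] at h5
    refine h5.trans (mul_le_mul_right ?_ _)
    have h6 : ∫⁻ k in Metric.closedBall (0 : ℂ) (1 / 2), ‖QQ ζ g h F k‖ₑ ^ 2 ≤
        ∫⁻ k in Metric.closedBall (0 : ℂ) (1 / 2), g2 *
          ∫⁻ y, ‖∫ w, h (y + (ζ - 1) * w) *
        (starRingEnd ℂ) (h (y + (ζ - 1) * w + ζ * k)) * FF ρ k w‖ₑ ^ 2 :=
      lintegral_mono fun k => QQ_bound hg hh hg1 hρ k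
    refine h6.trans ?_
    have hg2t : g2 ≠ ∞ := by
      rw [hg2, lint_sq_eq hg volume]
      exact enorm_ne_top
    rw [lintegral_const_mul' _ _ hg2t]
    refine mul_le_mul_right ?_ _
    exact hS ρ hρ hft h (fun x => (starRingEnd ℂ) (h x)) hh hh.conj
      (fun x => by rw [RCLike.norm_conj]; exact hh1 x)
  have h7 : (T ^ 2 * ENNReal.ofReal l) ^ 2 ≤ (f2 * ENNReal.ofReal b * Q) ^ 2 :=
    pow_le_pow_left₀ zero_le v1 2
  have hl2 : ENNReal.ofReal (l ^ 2) ≠ 0 := (ENNReal.ofReal_pos.2 (by positivity)).ne'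
  refine (ENNReal.mul_le_mul_iff_right hl2 ENNReal.ofReal_ne_top).1 ?_
  calc ENNReal.ofReal (l ^ 2) * T ^ 4 = (T ^ 2 * ENNReal.ofReal l) ^ 2 := by
        rw [ENNReal.ofReal_pow hl0.le]
        ring
    _ ≤ _ := h7
    _ = f2 ^ 2 * ENNReal.ofReal b ^ 2 * Q ^ 2 := by ring
    _ ≤ f2 ^ 2 * ENNReal.ofReal b ^ 2 * (ENNReal.ofReal c * (g2 * (ENNReal.ofReal ε1 * h2))) :=
        mul_le_mul_right hQ2 _
    _ = (ENNReal.ofReal b ^ 2 * ENNReal.ofReal c * ENNReal.ofReal ε1) * (f2 ^ 2 * g2 * h2) := by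
        ring
    _ = _ := by
        rw [← ENNReal.ofReal_pow hb0.le, ← ENNReal.ofReal_mul (by positivity),
          ← ENNReal.ofReal_mul (by positivity), ← mul_assoc (ENNReal.ofReal (l ^ 2)),
          ← ENNReal.ofReal_mul (by positivity)]
        congr 2
        rw [hε1]
        field_simp

end Run7.h764
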