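import Pool.Agent.Run7.h764.Osc2
import Pool.Agent.Run7.h764.PropC
import Pool.Agent.Run7.h764.Iface
set_option autoImplicit false

namespace Run7.h764

open MeasureTheory Complex Set Filter Topology
open scoped ENNReal NNReal

lemma subst_p {G : ℝ → ℂ} {x c0 : ℝ} (hc : 0 < c0) :
    ∫ v in Ioi c0, G v =
      ∫ p in Ioi (x ^ 2 + c0 ^ 2), G (√(p - x ^ 2)) * (((2 * √(p - x ^ 2))⁻¹ : ℝ) : ℂ) := by
  set f : ℝ → ℝ := fun v => x ^ 2 + v ^ 2 with hf
  have himg : f '' Ioi c0 = Ioi (x ^ 2 + c0 ^ 2) := by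
    ext t
    simp only [mem_image, mem_Ioi, hf]
    constructor
    · rintro ⟨v, hv, rfl⟩
      nlinarith
    · intro ht
      refine ⟨√(t - x ^ 2), ?_, ?_⟩
      · apply Real.lt_sqrt_of_sq_lt
        linarith
      · rw [Real.sq_sqrt (by nlinarith [sq_nonneg c0])]
        ring
  have hder : ∀ v ∈ Ioi c0, HasDerivWithinAt f (2 * v) (Ioi c0) v := by
    intro v _
    have h1 : HasDerivAt (fun v : ℝ => x ^ 2 + v ^ 2) (2 * v) v := by
      simpa using ((hasDerivAt_id v).pow 2).const_add (x ^ 2)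
    exact h1.hasDerivWithinAt
  have hinj : InjOn f (Ioi c0) := by
    intro a ha b hb hab
    simp only [hf] at hab
    have ha0 : 0 < a := hc.trans ha
    have hb0 : 0 < b := hc.trans hb
    exact (sq_eq_sq₀ ha0.le hb0.le).1 (by linarith)
  have h := integral_image_eq_integral_abs_deriv_smul measurableSet_Ioi hder hinj
    (fun p => G (√(p - x ^ 2)) * (((2 * √(p - x ^ 2))⁻¹ : ℝ) : ℂ))
  rw [himg] at h
  rw [h]
  refine setIntegral_congr_fun measurableSet_Ioi fun v hv => ?_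
  have hv0 : 0 < v := hc.trans hv
  simp only [hf]
  rw [add_sub_cancel_left, Real.sqrt_sq hv0.le, abs_of_pos (by positivity), Complex.real_smul]
  have h5 : ((2 * v : ℝ) : ℂ) * (((2 * v)⁻¹ : ℝ) : ℂ) = 1 := by
    rw [← Complex.ofReal_mul, mul_inv_cancel₀ (by positivity), Complex.ofReal_one]
  calc G v = (((2 * v : ℝ) : ℂ) * (((2 * v)⁻¹ : ℝ) : ℂ)) * G v := by rw [h5, one_mul]
    _ = _ := by ring

/-- domain of the kernel -/
def Kset (l c0 : ℝ) : Set (ℝ × ℝ) := {r | r.1 ∈ Icc (0.9 : ℝ) 1.3 ∧ c0 ^ 2 < th l r.1 r.2}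

lemma Kset_meas (l c0 : ℝ) : MeasurableSet (Kset l c0) := by
  have h1 : MeasurableSet {r : ℝ × ℝ | r.1 ∈ Icc (0.9 : ℝ) 1.3} :=
    measurable_fst measurableSet_Icc
  have h2 : MeasurableSet {r : ℝ × ℝ | c0 ^ 2 < th l r.1 r.2} :=
    measurableSet_lt measurable_const (continuous_th2 l).measurable
  exact h1.inter h2

/-- the kernel -/
noncomputable def Kr (ρ : ℝ → ℝ) (l c0 ξ1 ξ2 : ℝ) : ℝ × ℝ → ℂ :=
  (Kset l c0).indicator (fun r => ((ρ r.2 * (4 * l)⁻¹ * (√(th l r.1 r.2))⁻¹ : ℝ) : ℂ) *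
    ee (ξ1 * ((r.2 - r.1 - l ^ 2) / (2 * l)) + ξ2 * √(th l r.1 r.2)))

lemma Kr_BB {ρ : ℝ → ℝ} (hρ : Wt ρ) {l c0 : ℝ} (hl : 0 < l) (hc : 0 < c0) (ξ1 ξ2 : ℝ) :
    BB (Kr ρ l c0 ξ1 ξ2) := by
  have mth : Measurable (fun r : ℝ × ℝ => th l r.1 r.2) := (continuous_th2 l).measurable
  refine ⟨?_, ⟨(4 * l)⁻¹ * c0⁻¹, fun r => ?_⟩, ⟨2, fun r hr => ?_⟩⟩
  · refine Measurable.indicator ?_ (Kset_meas l c0)
    refine (Complex.measurable_ofReal.comp ?_).mul (measurable_ee.comp ?_)
    · exact ((hρ.meas.comp measurable_snd).mul_const _).mul mth.sqrt.inv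
    · exact (Measurable.const_mul (by fun_prop) _).add (mth.sqrt.const_mul _)
  · unfold Kr
    by_cases hr : r ∈ Kset l c0
    · rw [Set.indicator_of_mem hr, norm_mul, norm_ee, mul_one, Complex.norm_real,
        Real.norm_eq_abs, abs_mul, abs_mul, abs_of_pos (by positivity : 0 < (4 * l)⁻¹)]
      have hs : c0 ≤ √(th l r.1 r.2) := Real.le_sqrt_of_sq_le hr.2.le
      have hs2 := inv_anti₀ hc hs
      rw [abs_of_pos (inv_pos.2 (hc.trans_le hs))]
      have h1 := hρ.bdd r.2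
      calc _ ≤ 1 * (4 * l)⁻¹ * c0⁻¹ := by gcongr
        _ = _ := by ring
    · rw [Set.indicator_of_notMem hr, norm_zero]
      positivity
  · unfold Kr
    by_cases hrK : r ∈ Kset l c0
    · rw [Set.indicator_of_mem hrK]
      have h1 := hrK.1
      rw [Prod.norm_def] at hr
      have h2 : 2 < ‖r.2‖ := by
        rcases lt_max_iff.1 hr with h | h
        · exfalso
          rw [Real.norm_eq_abs, abs_of_nonneg (by linarith [h1.1])] at h
          have := h1.2
          norm_num at this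
          linarith
        · exact h
      have h3 : ρ r.2 = 0 := by
        apply hρ.supp
        rintro ⟨h4, h5⟩
        rw [Real.norm_eq_abs, abs_of_nonneg (by linarith)] at h2
        linarith
      rw [h3]
      simp
    · rw [Set.indicator_of_notMem hrK]

lemma half_eq {ρ : ℝ → ℝ} (hρ : Wt ρ) {l c0 : ℝ} (hl : 0 < l) (hc : 0 < c0) (ξ1 ξ2 : ℝ) :
    ∫ w : ℂ in {w : ℂ | c0 < w.im}, FF ρ l w * ee (ξ1 * w.re + ξ2 * w.im) =
      ∫ p, (ρ p : ℂ) * ∫ q, Kr ρ l c0 ξ1 ξ2 (p, q) := by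
  have hB : BB (fun w : ℂ => FF ρ l w * ee (ξ1 * w.re + ξ2 * w.im)) :=
    (FF_BB hρ l).mul_bdd (measurable_ee.comp (by fun_prop)) ⟨1, fun x => (norm_ee _).le⟩
  rw [halfplane hB]
  set A : Set (ℝ × ℝ) := {r | r.1 ^ 2 + c0 ^ 2 < r.2} with hA
  have hAm : MeasurableSet A := measurableSet_lt (by fun_prop) measurable_snd
  set Φ : ℝ × ℝ → ℂ := A.indicator (fun r =>
    ((ρ r.2 * ρ (r.2 + 2 * l * r.1 + l ^ 2) * (2 * √(r.2 - r.1 ^ 2))⁻¹ : ℝ) : ℂ) *
      ee (ξ1 * r.1 + ξ2 * √(r.2 - r.1 ^ 2))) with hΦ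
  have hΦB : BB Φ := by
    refine ⟨?_, ⟨(2 * c0)⁻¹, fun r => ?_⟩, ⟨2, fun r hr => ?_⟩⟩
    · refine Measurable.indicator ?_ hAm
      refine (Complex.measurable_ofReal.comp ?_).mul (measurable_ee.comp (by fun_prop))
      exact ((hρ.meas.comp measurable_snd).mul (hρ.meas.comp (by fun_prop))).mul (by fun_prop)
    · by_cases hrA : r ∈ A
      · rw [hΦ, Set.indicator_of_mem hrA, norm_mul, norm_ee, mul_one, Complex.norm_real,
          Real.norm_eq_abs, abs_mul, abs_mul]
        have h0 : r.1 ^ 2 + c0 ^ 2 < r.2 := hrA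
        have hs : c0 ≤ √(r.2 - r.1 ^ 2) := Real.le_sqrt_of_sq_le (by linarith)
        have hs2 : (2 * √(r.2 - r.1 ^ 2))⁻¹ ≤ (2 * c0)⁻¹ := by
          apply inv_anti₀ (by positivity)
          linarith
        have hs3 : 0 < √(r.2 - r.1 ^ 2) := hc.trans_le hs
        rw [abs_of_pos (by positivity : 0 < (2 * √(r.2 - r.1 ^ 2))⁻¹)]
        have h1 := hρ.bdd r.2
        have h2 := hρ.bdd (r.2 + 2 * l * r.1 + l ^ 2)
        calc _ ≤ 1 * 1 * (2 * c0)⁻¹ := by gcongr
          _ = _ := by ring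
      · rw [hΦ, Set.indicator_of_notMem hrA, norm_zero]
        positivity
    · by_cases hrA : r ∈ A
      · rw [hΦ, Set.indicator_of_mem hrA]
        have h0 : r.1 ^ 2 + c0 ^ 2 < r.2 := hrA
        have h3 : ρ r.2 = 0 := by
          apply hρ.supp
          rintro ⟨h4, h5⟩
          rw [Prod.norm_def] at hr
          rcases lt_max_iff.1 hr with h | h
          · rw [Real.norm_eq_abs] at h
            have : 4 < r.1 ^ 2 := by
              rw [← sq_abs]
              nlinarith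
            norm_num at h5
            nlinarith [sq_nonneg c0]
          · rw [Real.norm_eq_abs, abs_of_nonneg (by linarith)] at h
            linarith
        rw [h3]
        simp
      · rw [hΦ, Set.indicator_of_notMem hrA]
  -- first substitution
  have e1 : ∀ x : ℝ, (∫ v in Ioi c0, FF ρ l (x + v * I) *
      ee (ξ1 * ((x : ℂ) + v * I).re + ξ2 * ((x : ℂ) + v * I).im)) = ∫ p, Φ (x, p) := by
    intro x
    rw [subst_p (x := x) hc, ← integral_indicator measurableSet_Ioi]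
    refine integral_congr_ae (Filter.Eventually.of_forall fun p => ?_)
    simp only [hΦ]
    by_cases hp : x ^ 2 + c0 ^ 2 < p
    · rw [Set.indicator_of_mem (by exact hp), Set.indicator_of_mem (by exact hp)]
      have hpx : 0 ≤ p - x ^ 2 := by nlinarith [sq_nonneg c0]
      set v := √(p - x ^ 2) with hv
      have hv2 : v ^ 2 = p - x ^ 2 := Real.sq_sqrt hpx
      have a1 : Complex.normSq ((x : ℂ) + v * I) = p := by
        rw [normSq_xv, hv2]
        ring
      have a2 : Complex.normSq ((x : ℂ) + v * I + l) = p + 2 * l * x + l ^ 2 := by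
        have : (x : ℂ) + v * I + l = ((x + l : ℝ) : ℂ) + v * I := by
          push_cast
          ring
        rw [this, normSq_xv, hv2]
        ring
      have a3 : ((x : ℂ) + v * I).re = x := by simp
      have a4 : ((x : ℂ) + v * I).im = v := by simp
      rw [FF, a1, a2, a3, a4]
      push_cast
      ring
    · rw [Set.indicator_of_notMem (by exact hp), Set.indicator_of_notMem (by exact hp)]
  simp_rw [e1]
  rw [integral_integral_swap (f := fun x p => Φ (x, p)) (hΦB.integrable (volume.prod volume))]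
  refine integral_congr_ae (Filter.Eventually.of_forall fun p => ?_)
  simp only
  -- second substitution
  have e2 : ∫ x, Φ (x, p) = ((2 * l)⁻¹ : ℝ) • ∫ q, Φ ((q - p - l ^ 2) / (2 * l), p) := by
    have h1 := Measure.integral_comp_mul_left
      (fun q => Φ ((q - p - l ^ 2 + (p + l ^ 2)) / (2 * l), p)) (2 * l)
    have h2 := integral_add_right_eq_self (μ := (volume : Measure ℝ))
      (fun q => Φ ((q - p - l ^ 2) / (2 * l), p)) (p + l ^ 2)
    rw [← h2]
    have h3 : ∀ x : ℝ, (2 * l * x - p - l ^ 2 + (p + l ^ 2)) / (2 * l) = x := by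
      intro x
      field_simp
      ring
    simp_rw [h3] at h1
    rw [h1, abs_of_pos (by positivity)]
    congr 1
    refine integral_congr_ae (Filter.Eventually.of_forall fun q => ?_)
    simp only
    congr 3
    ring
  rw [e2, ← integral_smul, ← integral_const_mul]
  refine integral_congr_ae (Filter.Eventually.of_forall fun q => ?_)
  simp only
  set x : ℝ := (q - p - l ^ 2) / (2 * l) with hx
  have hq : p + 2 * l * x + l ^ 2 = q := by
    rw [hx]
    field_simp
    ring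
  have hth : p - x ^ 2 = th l p q := rfl
  by_cases hp : p ∈ Icc (0.9 : ℝ) 1.3
  · by_cases ht : c0 ^ 2 < th l p q
    · have m1 : (x, p) ∈ A := by
        rw [hA, Set.mem_ofPred_eq]
        simp only
        linarith
      have m2 : (p, q) ∈ Kset l c0 := ⟨hp, ht⟩
      rw [hΦ, Set.indicator_of_mem m1, Kr, Set.indicator_of_mem m2]
      simp only
      rw [hq, hth, Complex.real_smul, ← hx]
      have e5 : (((2 * l)⁻¹ : ℝ) : ℂ) * (((2 * √(th l p q))⁻¹ : ℝ) : ℂ) =
          (((4 * l)⁻¹ * (√(th l p q))⁻¹ : ℝ) : ℂ) := by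
        rw [← Complex.ofReal_mul]
        congr 1
        rw [mul_inv, mul_inv, mul_inv]
        ring
      push_cast at e5 ⊢
      linear_combination ((ρ p : ℂ) * (ρ q : ℂ) * ee (ξ1 * x + ξ2 * √(th l p q))) * e5
    · have m1 : (x, p) ∉ A := by
        intro h
        apply ht
        have : x ^ 2 + c0 ^ 2 < p := h
        linarith
      have m2 : (p, q) ∉ Kset l c0 := fun h => ht h.2
      rw [hΦ, Set.indicator_of_notMem m1, Kr, Set.indicator_of_notMem m2]
      simp
  · have h0 : ρ p = 0 := hρ.supp p hp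
    have : Φ (x, p) = 0 := by
      rw [hΦ]
      by_cases m1 : (x, p) ∈ A
      · rw [Set.indicator_of_mem m1]
        simp only
        rw [h0]
        simp
      · rw [Set.indicator_of_notMem m1]
    rw [this, h0]
    simp

lemma Kr_pair {ρ : ℝ → ℝ} (hρ : Wt ρ) {l0 l c0 : ℝ} (hl0 : 0 < l0) (hl : l0 ≤ l)
    (hl2 : l ≤ 1 / 2) (hc : 0 < c0) (ξ1 : ℝ) {ξ2 : ℝ} (hξ : ξ2 ≠ 0) (q1 q2 : ℝ) :
    ‖∫ p, Kr ρ l c0 ξ1 ξ2 (p, q1) * (starRingEnd ℂ) (Kr ρ l c0 ξ1 ξ2 (p, q2))‖ ≤
      (Icc (0.9 : ℝ) 1.3).indicator (fun _ => (1 : ℝ)) q1 *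
      (Icc (0.9 : ℝ) 1.3).indicator (fun _ => (1 : ℝ)) q2 *
      ((16 * l0 ^ 2)⁻¹ * min (1 / c0 ^ 2) (if q1 = q2 then 1 / c0 ^ 2 else
        KK l0 c0 / (|ξ2| * |q1 - q2| ^ 2))) := by
  have hlpos : 0 < l := hl0.trans_le hl
  by_cases h1 : q1 ∈ Icc (0.9 : ℝ) 1.3
  swap
  · have : ∀ p, Kr ρ l c0 ξ1 ξ2 (p, q1) = 0 := by
      intro p
      unfold Kr
      by_cases m : (p, q1) ∈ Kset l c0
      · rw [Set.indicator_of_mem m]
        simp only
        rw [hρ.supp q1 h1]
        simp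
      · rw [Set.indicator_of_notMem m]
    simp_rw [this]
    rw [Set.indicator_of_notMem h1]
    simp
  by_cases h2 : q2 ∈ Icc (0.9 : ℝ) 1.3
  swap
  · have : ∀ p, Kr ρ l c0 ξ1 ξ2 (p, q2) = 0 := by
      intro p
      unfold Kr
      by_cases m : (p, q2) ∈ Kset l c0
      · rw [Set.indicator_of_mem m]
        simp only
        rw [hρ.supp q2 h2]
        simp
      · rw [Set.indicator_of_notMem m]
    simp_rw [this]
    rw [Set.indicator_of_notMem h2]
    simp
  rw [Set.indicator_of_mem h1, Set.indicator_of_mem h2, one_mul, one_mul]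
  set P := Pset l c0 q1 q2 with hP
  have hPm : MeasurableSet P := by
    have a1 : MeasurableSet {p : ℝ | c0 ^ 2 < th l p q1} :=
      measurableSet_lt measurable_const (continuous_th l q1).measurable
    have a2 : MeasurableSet {p : ℝ | c0 ^ 2 < th l p q2} :=
      measurableSet_lt measurable_const (continuous_th l q2).measurable
    exact measurableSet_Icc.inter (a1.inter a2)
  have e1 : ∫ p, Kr ρ l c0 ξ1 ξ2 (p, q1) * (starRingEnd ℂ) (Kr ρ l c0 ξ1 ξ2 (p, q2)) =
      (((ρ q1 * ρ q2 * (4 * l)⁻¹ * (4 * l)⁻¹ : ℝ) : ℂ) * ee (ξ1 * ((q1 - q2) / (2 * l)))) *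
      ∫ p in P, (((√(th l p q1))⁻¹ * (√(th l p q2))⁻¹ : ℝ) : ℂ) *
        ee (ξ2 * (√(th l p q1) - √(th l p q2))) := by
    rw [← integral_const_mul, ← integral_indicator hPm]
    refine integral_congr_ae (Filter.Eventually.of_forall fun p => ?_)
    simp only
    by_cases hp : p ∈ P
    · rw [Set.indicator_of_mem hp]
      have m1 : (p, q1) ∈ Kset l c0 := ⟨hp.1, hp.2.1⟩
      have m2 : (p, q2) ∈ Kset l c0 := ⟨hp.1, hp.2.2⟩
      rw [Kr, Set.indicator_of_mem m1, Set.indicator_of_mem m2]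
      simp only [map_mul, Complex.conj_ofReal]
      have e2 : ∀ t : ℝ, (starRingEnd ℂ) (ee t) = ee (-t) := by
        intro t
        unfold ee
        rw [← Complex.exp_conj]
        congr 1
        rw [map_mul, Complex.conj_ofReal, Complex.conj_I]
        push_cast
        ring
      rw [e2]
      have e3 : ee (ξ1 * ((q1 - q2) / (2 * l))) * ee (ξ2 * (√(th l p q1) - √(th l p q2))) =
          ee (ξ1 * ((q1 - p - l ^ 2) / (2 * l)) + ξ2 * √(th l p q1)) *
          ee (-(ξ1 * ((q2 - p - l ^ 2) / (2 * l)) + ξ2 * √(th l p q2))) := by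
        rw [← ee_add, ← ee_add]
        congr 1
        field_simp
        ring
      push_cast
      linear_combination (-((ρ q1 : ℂ) * (ρ q2 : ℂ) * (4 * (l : ℂ))⁻¹ * (4 * (l : ℂ))⁻¹ *
        ((√(th l p q1) : ℝ) : ℂ)⁻¹ * ((√(th l p q2) : ℝ) : ℂ)⁻¹)) * e3
    · rw [Set.indicator_of_notMem hp]
      by_cases m1 : (p, q1) ∈ Kset l c0
      · have m2 : (p, q2) ∉ Kset l c0 := fun h => hp ⟨m1.1, m1.2, h.2⟩
        unfold Kr
        rw [Set.indicator_of_notMem m2, map_zero, mul_zero]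
      · unfold Kr
        rw [Set.indicator_of_notMem m1, zero_mul]
  rw [e1, norm_mul, norm_mul, norm_ee, mul_one, Complex.norm_real, Real.norm_eq_abs]
  refine mul_le_mul ?_ (le_min ?_ ?_) (norm_nonneg _) (by positivity)
  · rw [abs_mul, abs_mul, abs_mul, abs_of_pos (by positivity : 0 < (4 * l)⁻¹)]
    have b1 := hρ.bdd q1
    have b2 := hρ.bdd q2
    calc _ ≤ 1 * 1 * (4 * l)⁻¹ * (4 * l)⁻¹ := by gcongr
      _ = (16 * l ^ 2)⁻¹ := by
        rw [one_mul, one_mul, ← mul_inv]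
        congr 1
        ring
      _ ≤ _ := by gcongr
  · have hb : ∀ p ∈ P, ‖(((√(th l p q1))⁻¹ * (√(th l p q2))⁻¹ : ℝ) : ℂ) *
        ee (ξ2 * (√(th l p q1) - √(th l p q2)))‖ ≤ 1 / c0 ^ 2 := by
      intro p hp
      have s1 : c0 ≤ √(th l p q1) := Real.le_sqrt_of_sq_le hp.2.1.le
      have s2 : c0 ≤ √(th l p q2) := Real.le_sqrt_of_sq_le hp.2.2.le
      have i1 := inv_anti₀ hc s1
      have i2 := inv_anti₀ hc s2
      have j1 : 0 < √(th l p q1) := hc.trans_le s1
      have j2 : 0 < √(th l p q2) := hc.trans_le s2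
      rw [norm_mul, norm_ee, mul_one, Complex.norm_real, Real.norm_eq_abs,
        abs_of_pos (by positivity)]
      calc _ ≤ c0⁻¹ * c0⁻¹ := mul_le_mul i1 i2 (by positivity) (by positivity)
        _ = _ := by field_simp
    have hsub : P ⊆ Icc (0.9 : ℝ) 1.3 := fun p hp => hp.1
    have hvol : volume P ≤ ENNReal.ofReal 0.4 := by
      refine (measure_mono hsub).trans ?_
      rw [Real.volume_Icc]
      norm_num
    refine (norm_setIntegral_le_of_norm_le_const (hvol.trans_lt ENNReal.ofReal_lt_top) hb).trans ?_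
    have : volume.real P ≤ 1 := by
      rw [Measure.real]
      refine (ENNReal.toReal_mono ENNReal.ofReal_ne_top hvol).trans ?_
      rw [ENNReal.toReal_ofReal (by norm_num)]
      norm_num
    calc _ ≤ 1 / c0 ^ 2 * 1 := by gcongr
      _ = _ := mul_one _
  · split_ifs with hqq
    · have hb : ∀ p ∈ P, ‖(((√(th l p q1))⁻¹ * (√(th l p q2))⁻¹ : ℝ) : ℂ) *
          ee (ξ2 * (√(th l p q1) - √(th l p q2)))‖ ≤ 1 / c0 ^ 2 := by
        intro p hp
        have s1 : c0 ≤ √(th l p q1) := Real.le_sqrt_of_sq_le hp.2.1.le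
        have s2 : c0 ≤ √(th l p q2) := Real.le_sqrt_of_sq_le hp.2.2.le
        have i1 := inv_anti₀ hc s1
        have i2 := inv_anti₀ hc s2
        have j1 : 0 < √(th l p q1) := hc.trans_le s1
        have j2 : 0 < √(th l p q2) := hc.trans_le s2
        rw [norm_mul, norm_ee, mul_one, Complex.norm_real, Real.norm_eq_abs,
          abs_of_pos (by positivity)]
        calc _ ≤ c0⁻¹ * c0⁻¹ := mul_le_mul i1 i2 (by positivity) (by positivity)
          _ = _ := by field_simp
      have hsub : P ⊆ Icc (0.9 : ℝ) 1.3 := fun p hp => hp.1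
      have hvol : volume P ≤ ENNReal.ofReal 0.4 := by
        refine (measure_mono hsub).trans ?_
        rw [Real.volume_Icc]
        norm_num
      refine (norm_setIntegral_le_of_norm_le_const (hvol.trans_lt ENNReal.ofReal_lt_top)
        hb).trans ?_
      have : volume.real P ≤ 1 := by
        rw [Measure.real]
        refine (ENNReal.toReal_mono ENNReal.ofReal_ne_top hvol).trans ?_
        rw [ENNReal.toReal_ofReal (by norm_num)]
        norm_num
      calc _ ≤ 1 / c0 ^ 2 * 1 := by gcongr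
        _ = _ := mul_one _
    · exact J_bound hl0 hl hl2 hc h1 h2 hqq hξ

theorem t_osc : St_osc := by
  intro l0 c0 ε hl0 hc hε
  set C1 : ℝ := (16 * l0 ^ 2)⁻¹ * (1 / c0 ^ 2) with hC1
  have hC10 : 0 < C1 := by positivity
  set C2 : ℝ := (16 * l0 ^ 2)⁻¹ * KK l0 c0 with hC2
  have hKK : 0 < KK l0 c0 := by unfold KK; positivity
  have hC20 : 0 < C2 := by positivity
  set η : ℝ := ε ^ 2 / (2 * C1) with hη
  have hη0 : 0 < η := by positivity
  set K : ℝ := C2 / (η ^ 2 * ε ^ 2) with hK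
  have hK0 : 0 < K := by positivity
  refine ⟨K, hK0, ?_⟩
  intro l hl hl2 ρ hρm hρb hρs ξ1 ξ2 hξ
  have hρ : Wt ρ := ⟨hρm, hρb, hρs⟩
  have hlpos : 0 < l := hl0.trans_le hl
  have hξpos : 0 < |ξ2| := hK0.trans_le hξ
  have hξne : ξ2 ≠ 0 := abs_pos.1 hξpos
  have e0 : ∫ w : ℂ in {w : ℂ | c0 < w.im},
        ((ρ (Complex.normSq w) * ρ (Complex.normSq (w + l)) : ℝ) : ℂ) *
          ee (ξ1 * w.re + ξ2 * w.im) = ∫ p, (ρ p : ℂ) * ∫ q, Kr ρ l c0 ξ1 ξ2 (p, q) :=
    half_eq hρ hlpos hc ξ1 ξ2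
  rw [e0]
  have hKB := Kr_BB hρ hlpos hc ξ1 ξ2
  set V : ℝ → ℂ := fun p => ∫ q, Kr ρ l c0 ξ1 ξ2 (p, q) with hV
  have hVB : BB V := hKB.integral_right (volume : Measure ℝ)
  have hcs := cs_enorm volume hρ.BB.meas.aemeasurable hVB.meas.aemeasurable
  have hVI : ∫⁻ p, ‖V p‖ₑ ^ 2 ≤ ENNReal.ofReal (0.4 * (2 * η * C1 + 0.4 * (C2 / (|ξ2| * η ^ 2)))) := by
    rw [lint_sq_eq hVB volume]
    have e1 : ∀ p : ℝ, V p * (starRingEnd ℂ) (V p) =
        ∫ q : ℝ × ℝ, Kr ρ l c0 ξ1 ξ2 (p, q.1) * (starRingEnd ℂ) (Kr ρ l c0 ξ1 ξ2 (p, q.2)) := by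
      intro p
      simp only [hV]
      rw [← integral_conj]
      exact (integral_prod_mul (μ := (volume : Measure ℝ)) (ν := (volume : Measure ℝ))
        (fun q => Kr ρ l c0 ξ1 ξ2 (p, q))
        (fun q => (starRingEnd ℂ) (Kr ρ l c0 ξ1 ξ2 (p, q)))).symm
    simp_rw [e1]
    have hB2 : BB (fun r : ℝ × (ℝ × ℝ) => Kr ρ l c0 ξ1 ξ2 (r.1, r.2.1) *
        (starRingEnd ℂ) (Kr ρ l c0 ξ1 ξ2 (r.1, r.2.2))) := by
      refine hKB.mul_comp hKB.conj (φ := fun r : ℝ × (ℝ × ℝ) => (r.1, r.2.1))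
        (ψ := fun r : ℝ × (ℝ × ℝ) => (r.1, r.2.2)) (by fun_prop) (by fun_prop)
        (fun R => ⟨R, fun x h1 h2 => ?_⟩)
      have h3 := norm_prod_le_iff.1 h1
      have h4 := norm_prod_le_iff.1 h2
      exact norm_prod_le_iff.2 ⟨h3.1, norm_prod_le_iff.2 ⟨h3.2, h4.2⟩⟩
    rw [integral_integral_swap (f := fun (p : ℝ) (q : ℝ × ℝ) => Kr ρ l c0 ξ1 ξ2 (p, q.1) *
        (starRingEnd ℂ) (Kr ρ l c0 ξ1 ξ2 (p, q.2))) (hB2.integrable (volume.prod volume))]
    refine (enorm_integral_le_lintegral_enorm _).trans ?_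
    set c : ℝ := C2 / (|ξ2| * η ^ 2) with hcdef
    have hc0 : 0 < c := by positivity
    have hpt : ∀ q : ℝ × ℝ, ‖∫ p, Kr ρ l c0 ξ1 ξ2 (p, q.1) *
        (starRingEnd ℂ) (Kr ρ l c0 ξ1 ξ2 (p, q.2))‖ₑ ≤
        (Icc (0.9 : ℝ) 1.3).indicator (fun _ => (1 : ℝ≥0∞)) q.1 *
        ((Icc (q.1 - η) (q.1 + η)).indicator (fun _ => ENNReal.ofReal C1) q.2 +
          (Icc (0.9 : ℝ) 1.3).indicator (fun _ => ENNReal.ofReal c) q.2) := by
      intro q
      have hk := Kr_pair hρ hl0 hl hl2 hc ξ1 hξne q.1 q.2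
      rw [← ofReal_norm]
      refine (ENNReal.ofReal_le_ofReal hk).trans ?_
      by_cases h1 : q.1 ∈ Icc (0.9 : ℝ) 1.3
      swap
      · rw [Set.indicator_of_notMem h1]
        simp
      by_cases h2 : q.2 ∈ Icc (0.9 : ℝ) 1.3
      swap
      · rw [Set.indicator_of_notMem h2]
        simp
      rw [Set.indicator_of_mem h1, Set.indicator_of_mem h2, Set.indicator_of_mem h1,
        Set.indicator_of_mem h2, one_mul, one_mul, one_mul]
      by_cases h3 : q.2 ∈ Icc (q.1 - η) (q.1 + η)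
      · rw [Set.indicator_of_mem h3]
        refine le_trans ?_ le_self_add
        apply ENNReal.ofReal_le_ofReal
        rw [hC1]
        exact mul_le_mul_of_nonneg_left (min_le_left _ _) (by positivity)
      · rw [Set.indicator_of_notMem h3, zero_add]
        apply ENNReal.ofReal_le_ofReal
        have hne : q.1 ≠ q.2 := by
          intro h
          apply h3
          rw [← h]
          constructor <;> linarith
        rw [if_neg hne]
        have hd : η ≤ |q.1 - q.2| := by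
          by_contra hcon
          push Not at hcon
          apply h3
          rw [abs_lt] at hcon
          constructor <;> linarith [hcon.1, hcon.2]
        calc _ ≤ (16 * l0 ^ 2)⁻¹ * (KK l0 c0 / (|ξ2| * |q.1 - q.2| ^ 2)) :=
              mul_le_mul_of_nonneg_left (min_le_right _ _) (by positivity)
          _ ≤ (16 * l0 ^ 2)⁻¹ * (KK l0 c0 / (|ξ2| * η ^ 2)) := by gcongr
          _ = c := by rw [hcdef, hC2]; ring
    refine (lintegral_mono hpt).trans ?_
    have h6 : (volume : Measure (ℝ × ℝ)) = (volume : Measure ℝ).prod volume := rfl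
    have hS : MeasurableSet {r : ℝ × ℝ | r.2 ∈ Icc (r.1 - η) (r.1 + η)} := by
      have a1 : MeasurableSet {r : ℝ × ℝ | r.1 - η ≤ r.2} :=
        measurableSet_le (by fun_prop) measurable_snd
      have a2 : MeasurableSet {r : ℝ × ℝ | r.2 ≤ r.1 + η} :=
        measurableSet_le measurable_snd (by fun_prop)
      exact a1.inter a2
    have m1 : Measurable (fun q : ℝ × ℝ => (Icc (0.9 : ℝ) 1.3).indicator (fun _ => (1 : ℝ≥0∞)) q.1) :=
      (measurable_const.indicator measurableSet_Icc).comp measurable_fst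
    have m2 : Measurable (fun q : ℝ × ℝ =>
        (Icc (q.1 - η) (q.1 + η)).indicator (fun _ => ENNReal.ofReal C1) q.2) := by
      have : (fun q : ℝ × ℝ =>
        (Icc (q.1 - η) (q.1 + η)).indicator (fun _ => ENNReal.ofReal C1) q.2) =
        {r : ℝ × ℝ | r.2 ∈ Icc (r.1 - η) (r.1 + η)}.indicator (fun _ => ENNReal.ofReal C1) := by
        funext q
        simp only [Set.indicator_apply, Set.mem_ofPred_eq]
      rw [this]
      exact measurable_const.indicator hS
    have m3 : Measurable (fun q : ℝ × ℝ =>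
        (Icc (0.9 : ℝ) 1.3).indicator (fun _ => ENNReal.ofReal c) q.2) :=
      (measurable_const.indicator measurableSet_Icc).comp measurable_snd
    have m4 : Measurable (fun q : ℝ × ℝ => (Icc (0.9 : ℝ) 1.3).indicator
        (fun _ => (1 : ℝ≥0∞)) q.1 *
        ((Icc (q.1 - η) (q.1 + η)).indicator (fun _ => ENNReal.ofReal C1) q.2 +
          (Icc (0.9 : ℝ) 1.3).indicator (fun _ => ENNReal.ofReal c) q.2)) := m1.mul (m2.add m3)
    rw [h6, lintegral_prod _ m4.aemeasurable]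
    have hin : ∀ q1 : ℝ, ∫⁻ q2, (Icc (0.9 : ℝ) 1.3).indicator (fun _ => (1 : ℝ≥0∞)) q1 *
        ((Icc (q1 - η) (q1 + η)).indicator (fun _ => ENNReal.ofReal C1) q2 +
          (Icc (0.9 : ℝ) 1.3).indicator (fun _ => ENNReal.ofReal c) q2) =
        (Icc (0.9 : ℝ) 1.3).indicator (fun _ => (1 : ℝ≥0∞)) q1 *
          ENNReal.ofReal (2 * η * C1 + 0.4 * c) := by
      intro q1
      have n1 : Measurable (fun q2 : ℝ => (Icc (q1 - η) (q1 + η)).indicator
        (fun _ => ENNReal.ofReal C1) q2) := measurable_const.indicator measurableSet_Icc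
      have n2 : Measurable (fun q2 : ℝ => (Icc (0.9 : ℝ) 1.3).indicator
        (fun _ => ENNReal.ofReal c) q2) := measurable_const.indicator measurableSet_Icc
      have n3 : Measurable (fun q2 : ℝ => (Icc (q1 - η) (q1 + η)).indicator
        (fun _ => ENNReal.ofReal C1) q2 + (Icc (0.9 : ℝ) 1.3).indicator
        (fun _ => ENNReal.ofReal c) q2) := n1.add n2
      rw [lintegral_const_mul _ n3, lintegral_add_left n1,
        lintegral_indicator measurableSet_Icc, lintegral_indicator measurableSet_Icc,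
        setLIntegral_const, setLIntegral_const, Real.volume_Icc, Real.volume_Icc,
        ← ENNReal.ofReal_mul hC10.le, ← ENNReal.ofReal_mul hc0.le,
        ← ENNReal.ofReal_add (mul_nonneg hC10.le (by linarith)) (by norm_num; positivity)]
      congr 2
      ring
    simp_rw [hin]
    rw [lintegral_mul_const _ (measurable_const.indicator measurableSet_Icc),
      lintegral_indicator measurableSet_Icc, setLIntegral_const, Real.volume_Icc, one_mul,
      ← ENNReal.ofReal_mul (by norm_num)]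
    apply le_of_eq
    congr 1
    norm_num
  have hfin : ‖∫ p, (ρ p : ℂ) * V p‖ₑ ^ 2 ≤ ENNReal.ofReal (ε ^ 2) := by
    refine hcs.trans ((mul_le_mul' (lint_rho hρ) hVI).trans ?_)
    rw [← ENNReal.ofReal_mul (by norm_num)]
    apply ENNReal.ofReal_le_ofReal
    have h1 : 2 * η * C1 = ε ^ 2 := by
      rw [hη]
      field_simp
    have h2 : C2 / (|ξ2| * η ^ 2) ≤ ε ^ 2 := by
      rw [div_le_iff₀ (by positivity)]
      have h3 : C2 = K * (η ^ 2 * ε ^ 2) := by
        rw [hK]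
        field_simp
      rw [h3]
      calc K * (η ^ 2 * ε ^ 2) ≤ |ξ2| * (η ^ 2 * ε ^ 2) := by gcongr
        _ = _ := by ring
    rw [h1]
    have h4 : 0 ≤ ε ^ 2 := by positivity
    norm_num
    linarith
  have h5 : ‖∫ p, (ρ p : ℂ) * V p‖ ^ 2 ≤ ε ^ 2 := by
    rw [← ofReal_norm, ← ENNReal.ofReal_pow (norm_nonneg _)] at hfin
    exact (ENNReal.ofReal_le_ofReal_iff (by positivity)).1 hfin
  exact (sq_le_sq₀ (norm_nonneg _) hε.le).1 h5

end Run7.h764
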