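import Pool.Agent.Run7.h764.Scale2
import Pool.Agent.Run7.h764.PropC
import Pool.Agent.Run7.h764.Corners
import Pool.Agent.Run7.h764.OscPf
import Pool.Agent.Run7.h764.HeisPf
set_option autoImplicit false

namespace Run7.h764

open MeasureTheory Complex Set Filter Topology
open scoped ENNReal NNReal

/-- A finite family of kernels is controlled at one common scale. -/
lemma scale_family {ι : Type} [Fintype ι] {ζ : ℂ} (hM : ζ - 1 ≠ 0) (k : ι → ℂ → ℂ)
    (hk : ∀ i, BB (k i)) (h0 : ∀ i, ∫ w, k i w = 0) {ε : ℝ} (hε : 0 < ε) :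
    ∃ J : ℕ, ∃ Λ : ℝ, 1 < Λ ∧ ∀ R : ℕ → ℝ, (∀ j, 0 < R j) → (∀ j, Λ * R j ≤ R (j + 1)) →
    ∀ f : ℂ → ℂ, BB f → (∀ x, ‖f x‖ ≤ 1) → ∀ X : ℝ, 0 ≤ X →
    (∫⁻ x, ‖f x‖ₑ ^ 2 ≤ ENNReal.ofReal X) →
    ∃ j < J, ∀ i, ‖TT ζ f f f (scl (k i) (R j))‖ ≤ ε * X := by
  have hB := fun i => scaleB hM (hk i) (h0 i)
  choose C hC hC2 using hB
  set Cr : ℝ := 1 + ∑ i, (C i).toReal with hCr
  have hCri : ∀ i, (C i).toReal ≤ Cr := by
    intro i
    have : (C i).toReal ≤ ∑ i, (C i).toReal :=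
      Finset.single_le_sum (f := fun i => (C i).toReal) (fun _ _ => ENNReal.toReal_nonneg)
        (Finset.mem_univ i)
    linarith
  have hCr0 : 0 < Cr := by
    have : 0 ≤ ∑ i, (C i).toReal := Finset.sum_nonneg fun _ _ => ENNReal.toReal_nonneg
    linarith
  set n : ℕ := Fintype.card ι with hn
  obtain ⟨J0, hJ0⟩ := exists_nat_gt ((n : ℝ) ^ 2 * Cr / ε ^ 2)
  set J : ℕ := J0 + 1 with hJ
  have hJpos : (0 : ℝ) < J := by positivity
  have hJbig : (n : ℝ) ^ 2 * Cr ≤ ε ^ 2 * J := by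
    have h1 : (n : ℝ) ^ 2 * Cr / ε ^ 2 < J := by
      refine hJ0.trans ?_
      rw [hJ]
      push_cast
      linarith
    rw [div_lt_iff₀ (by positivity)] at h1
    linarith
  have hΛ := fun i => hC2 i J
  choose L hL1 hL2 using hΛ
  set Λ : ℝ := 2 + ∑ i, L i with hΛdef
  have hLpos : ∀ i, 0 < L i := fun i => lt_trans one_pos (hL1 i)
  have hLi : ∀ i, L i ≤ Λ := by
    intro i
    have : L i ≤ ∑ i, L i :=
      Finset.single_le_sum (f := L) (fun i _ => (hLpos i).le) (Finset.mem_univ i)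
    linarith
  refine ⟨J, Λ, ?_, ?_⟩
  · have : 0 ≤ ∑ i, L i := Finset.sum_nonneg fun i _ => (hLpos i).le
    linarith
  intro R hR0 hR1 f hf hf1 X hX hfX
  -- bound for each kernel
  have hsum : ∀ i, ∑ j ∈ Finset.range J, ‖TT ζ f f f (scl (k i) (R j))‖ ≤ √(Cr * J) * X := by
    intro i
    have h1 := hL2 i R hR0 (fun j => le_trans (mul_le_mul_of_nonneg_right (hLi i) (hR0 j).le)
      (hR1 j)) f f f hf hf hf hf1 hf1 (ENNReal.ofReal X) hfX hfX hfX
    have h2 : ∑ j ∈ Finset.range J, ‖TT ζ f f f (scl (k i) (R j))‖ₑ =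
        ENNReal.ofReal (∑ j ∈ Finset.range J, ‖TT ζ f f f (scl (k i) (R j))‖) := by
      rw [ENNReal.ofReal_sum_of_nonneg (fun _ _ => norm_nonneg _)]
      refine Finset.sum_congr rfl fun j _ => ?_
      rw [ofReal_norm]
    rw [h2, ← ENNReal.ofReal_toReal (hC i), ← ENNReal.ofReal_natCast,
      ← ENNReal.ofReal_pow (Finset.sum_nonneg fun _ _ => norm_nonneg _),
      ← ENNReal.ofReal_pow hX, ← ENNReal.ofReal_mul ENNReal.toReal_nonneg,
      ← ENNReal.ofReal_mul (mul_nonneg ENNReal.toReal_nonneg hJpos.le),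
      ENNReal.ofReal_le_ofReal_iff (by positivity)] at h1
    have h3 : (∑ j ∈ Finset.range J, ‖TT ζ f f f (scl (k i) (R j))‖) ^ 2 ≤
        (√(Cr * J) * X) ^ 2 := by
      refine h1.trans ?_
      rw [mul_pow, Real.sq_sqrt (by positivity)]
      have := hCri i
      gcongr
    exact (sq_le_sq₀ (Finset.sum_nonneg fun _ _ => norm_nonneg _) (by positivity)).1 h3
  -- pigeonhole
  have htot : ∑ j ∈ Finset.range J, ∑ i, ‖TT ζ f f f (scl (k i) (R j))‖ ≤
      ∑ j ∈ Finset.range J, ε * X := by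
    rw [Finset.sum_comm]
    refine (Finset.sum_le_sum fun i _ => hsum i).trans ?_
    rw [Finset.sum_const, Finset.sum_const, Finset.card_range, nsmul_eq_mul, nsmul_eq_mul,
      Finset.card_univ, ← hn]
    have h4 : (n : ℝ) * √(Cr * J) ≤ ε * J := by
      have h5 : ((n : ℝ) * √(Cr * J)) ^ 2 ≤ (ε * J) ^ 2 := by
        rw [mul_pow, Real.sq_sqrt (by positivity)]
        nlinarith
      exact (sq_le_sq₀ (by positivity) (by positivity)).1 h5
    calc _ = ((n : ℝ) * √(Cr * J)) * X := by ring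
      _ ≤ (ε * J) * X := by gcongr
      _ = _ := by ring
  obtain ⟨j, hj, hj2⟩ := Finset.exists_le_of_sum_le (Finset.nonempty_range_iff.2 (by omega)) htot
  refine ⟨j, Finset.mem_range.1 hj, fun i => ?_⟩
  refine le_trans ?_ hj2
  exact Finset.single_le_sum (f := fun i => ‖TT ζ f f f (scl (k i) (R j))‖)
    (fun _ _ => norm_nonneg _) (Finset.mem_univ i)

/-- counting function of the patterns -/
noncomputable def VV (ζ : ℂ) (A : Set ℂ) (w : ℂ) : ℝ≥0∞ :=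
  volume {x : ℂ | x ∈ A ∧ x + w ∈ A ∧ x + ζ * w ∈ A}

lemma VV_set (ζ : ℂ) {A : Set ℂ} (hA : MeasurableSet A) :
    MeasurableSet {q : ℂ × ℂ | q.2 ∈ A ∧ q.2 + q.1 ∈ A ∧ q.2 + ζ * q.1 ∈ A} := by
  have h1 : MeasurableSet {q : ℂ × ℂ | q.2 ∈ A} := measurable_snd hA
  have h2 : Measurable (fun q : ℂ × ℂ => q.2 + q.1) := by fun_prop
  have h3 : Measurable (fun q : ℂ × ℂ => q.2 + ζ * q.1) := by fun_prop
  exact h1.inter ((h2 hA).inter (h3 hA))

lemma VV_meas (ζ : ℂ) {A : Set ℂ} (hA : MeasurableSet A) : Measurable (VV ζ A) :=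
  measurable_measure_prodMk_left (ν := (volume : Measure ℂ)) (VV_set ζ hA)

lemma VV_le (ζ : ℂ) (A : Set ℂ) (w : ℂ) : VV ζ A w ≤ volume A :=
  measure_mono fun _ hx => hx.1

/-- indicator function as a complex function -/
noncomputable def ind (A : Set ℂ) : ℂ → ℂ := A.indicator (fun _ => 1)

lemma ind_norm (A : Set ℂ) (x : ℂ) : ‖ind A x‖ ≤ 1 := by
  unfold ind
  by_cases h : x ∈ A
  · rw [Set.indicator_of_mem h]; simp
  · rw [Set.indicator_of_notMem h]; simp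

lemma ind_BB {A : Set ℂ} (hA : MeasurableSet A) {R : ℝ} (hR : A ⊆ Metric.closedBall 0 R) :
    BB (ind A) := by
  refine ⟨measurable_const.indicator hA, ⟨1, ind_norm A⟩, ⟨R, fun x hx => ?_⟩⟩
  unfold ind
  rw [Set.indicator_of_notMem]
  intro h
  have := hR h
  rw [Metric.mem_closedBall, dist_zero_right] at this
  linarith

lemma ind_lint {A : Set ℂ} (hA : MeasurableSet A) : ∫⁻ x, ‖ind A x‖ₑ ^ 2 = volume A := by
  have h1 : ∀ x, ‖ind A x‖ₑ ^ 2 = A.indicator (fun _ => (1 : ℝ≥0∞)) x := by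
    intro x
    unfold ind
    by_cases h : x ∈ A
    · rw [Set.indicator_of_mem h, Set.indicator_of_mem h]; simp
    · rw [Set.indicator_of_notMem h, Set.indicator_of_notMem h]; simp
  simp_rw [h1]
  rw [lintegral_indicator hA, setLIntegral_const, one_mul]

lemma TT_VV (ζ : ℂ) {A : Set ℂ} (hA : MeasurableSet A) {R : ℝ}
    (hR : A ⊆ Metric.closedBall 0 R) {κ : ℂ → ℝ} (hκ : BB (fun w => (κ w : ℂ))) :
    TT ζ (ind A) (ind A) (ind A) (fun w => (κ w : ℂ)) =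
      ((∫ w, κ w * (VV ζ A w).toReal : ℝ) : ℂ) := by
  have hf := ind_BB hA hR
  set f := ind A with hfdef
  have hΨ : BB (fun p : ℂ × ℂ => f p.1 * (f (p.1 + p.2) * f (p.1 + ζ * p.2) * (κ p.2 : ℂ))) := by
    exact (GGint_BB ζ hf hf hκ).bdd_mul (hf.meas.comp measurable_fst)
      (by obtain ⟨C, hC⟩ := hf.bdd; exact ⟨C, fun x => hC _⟩)
  rw [TT_eq_GG ζ hf hf hf hκ]
  have e1 : ∀ x, f x * GG ζ f f (fun w => (κ w : ℂ)) x =
      ∫ w, f x * (f (x + w) * f (x + ζ * w) * (κ w : ℂ)) := by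
    intro x
    unfold GG
    rw [← integral_const_mul]
  simp_rw [e1]
  rw [integral_integral_swap (f := fun (x w : ℂ) => f x * (f (x + w) * f (x + ζ * w) * (κ w : ℂ)))
    (hΨ.integrable (volume.prod volume)), ← integral_complex_ofReal]
  refine integral_congr_ae (Filter.Eventually.of_forall fun w => ?_)
  simp only
  set S : Set ℂ := {x : ℂ | x ∈ A ∧ x + w ∈ A ∧ x + ζ * w ∈ A} with hS
  have hSm : MeasurableSet S := by
    have h2 : Measurable (fun x : ℂ => x + w) := by fun_prop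
    have h3 : Measurable (fun x : ℂ => x + ζ * w) := by fun_prop
    exact hA.inter ((h2 hA).inter (h3 hA))
  have e2 : ∀ x, f x * (f (x + w) * f (x + ζ * w) * (κ w : ℂ)) =
      S.indicator (fun _ => (κ w : ℂ)) x := by
    intro x
    simp only [hfdef, ind]
    by_cases h1 : x ∈ A
    · by_cases h2 : x + w ∈ A
      · by_cases h3 : x + ζ * w ∈ A
        · rw [Set.indicator_of_mem h1, Set.indicator_of_mem h2, Set.indicator_of_mem h3,
            Set.indicator_of_mem (show x ∈ S from ⟨h1, h2, h3⟩)]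
          ring
        · rw [Set.indicator_of_notMem h3,
            Set.indicator_of_notMem (show x ∉ S from fun h => h3 h.2.2)]
          ring
      · rw [Set.indicator_of_notMem h2,
          Set.indicator_of_notMem (show x ∉ S from fun h => h2 h.2.1)]
        ring
    · rw [Set.indicator_of_notMem h1, Set.indicator_of_notMem (show x ∉ S from fun h => h1 h.1)]
      ring
  simp_rw [e2]
  rw [integral_indicator hSm, setIntegral_const, Complex.real_smul]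
  push_cast
  rw [mul_comm]
  rfl

/-- real rescaling -/
noncomputable def rscl (κ : ℂ → ℝ) (t : ℝ) (w : ℂ) : ℝ := (t ^ 2)⁻¹ * κ ((t⁻¹ : ℝ) * w)

lemma scl_ofReal (κ : ℂ → ℝ) (t : ℝ) :
    scl (fun w => (κ w : ℂ)) t = fun w => ((rscl κ t w : ℝ) : ℂ) := by
  funext w
  unfold scl rscl
  push_cast
  rfl

/-- pattern average -/
noncomputable def SS (ζ : ℂ) (A : Set ℂ) (κ : ℂ → ℝ) : ℝ := ∫ w, κ w * (VV ζ A w).toReal

lemma SS_integrable (ζ : ℂ) {A : Set ℂ} (hA : MeasurableSet A) {R : ℝ}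
    (hR : A ⊆ Metric.closedBall 0 R) {κ : ℂ → ℝ} (hκ : BB (fun w => (κ w : ℂ))) :
    Integrable (fun w => κ w * (VV ζ A w).toReal) := by
  have hfin : volume A ≠ ∞ :=
    ((measure_mono hR).trans_lt (isCompact_closedBall _ _).measure_lt_top).ne
  have h1 : BB (fun w => (κ w : ℂ) * (((VV ζ A w).toReal : ℝ) : ℂ)) := by
    refine hκ.mul_bdd (Complex.measurable_ofReal.comp (VV_meas ζ hA).ennreal_toReal)
      ⟨(volume A).toReal, fun w => ?_⟩
    rw [Complex.norm_real, Real.norm_eq_abs, abs_of_nonneg ENNReal.toReal_nonneg]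
    exact ENNReal.toReal_mono hfin (VV_le ζ A w)
  have h2 := (h1.integrable volume).re
  refine h2.congr (Filter.Eventually.of_forall fun w => ?_)
  simp

lemma propC_scaled (Ho : St_osc) (Hh : St_heis) {ζ : ℂ} (hζ : ζ.im ≠ 0) {ε : ℝ} (hε : 0 < ε) :
    ∃ κ : ℝ, 0 < κ ∧ ∀ ρ : ℝ → ℝ, Wt1 ρ →
    (∀ N, ‖ft (fun s => (ρ s : ℂ)) N‖ ≤ κ * |N|) → ∀ f : ℂ → ℂ, BB f →
    (∀ x, ‖f x‖ ≤ 1) → ∀ X : ℝ, 0 ≤ X → (∫⁻ x, ‖f x‖ₑ ^ 2 ≤ ENNReal.ofReal X) →
    ∀ t : ℝ, 0 < t →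
    ‖TT ζ f f f (scl (fun w => (ρ (Complex.normSq w) : ℂ)) t)‖ ≤ ε * X := by
  obtain ⟨κ, hκ, hC⟩ := propC Ho Hh hζ (ε := ε ^ 4) (by positivity)
  refine ⟨κ, hκ, ?_⟩
  intro ρ hρ hft f hf hf1 X hX hfX t ht
  set F : ℂ → ℂ := fun w => (ρ (Complex.normSq w) : ℂ) with hF
  set ft' : ℂ → ℂ := fun x => f (t * x) with hft'
  have htc : (t : ℂ) ≠ 0 := by exact_mod_cast ht.ne'
  have hftB : BB ft' := by
    refine hf.comp (by fun_prop) (fun S => ⟨S / t, fun x hx => ?_⟩)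
    rw [norm_mul, Complex.norm_real, Real.norm_eq_abs, abs_of_pos ht]
    rwa [div_lt_iff₀ ht, mul_comm] at hx
  -- scaling identity
  have e1 : TT ζ f f f (scl F t) = ((t ^ 2 : ℝ) : ℂ) * TT ζ ft' ft' ft' F := by
    unfold TT
    have hdet : LinearMap.det ((LinearMap.mulLeft ℝ (t : ℂ)).prodMap
        (LinearMap.mulLeft ℝ (t : ℂ))) = t ^ 4 := by
      rw [LinearMap.det_prodMap]
      have h1 : LinearMap.det (LinearMap.mulLeft ℝ (t : ℂ)) = t ^ 2 := by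
        have : LinearMap.det (LinearMap.mulLeft ℝ (t : ℂ)) = Complex.normSq (t : ℂ) := by
          rw [← Algebra.norm_complex_apply, Algebra.norm_apply]
          rfl
        rw [this, Complex.normSq_ofReal]
        ring
      rw [h1]
      ring
    set e : ℂ × ℂ ≃ₜ ℂ × ℂ := (Homeomorph.mulLeft₀ (t : ℂ) htc).prodCongr
      (Homeomorph.mulLeft₀ (t : ℂ) htc) with he
    have hmap : Measure.map (⇑e) (volume : Measure (ℂ × ℂ)) =
        ENNReal.ofReal |(t ^ 4)⁻¹| • volume := by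
      have h := Measure.map_linearMap_addHaar_eq_smul_addHaar (volume : Measure (ℂ × ℂ))
        (f := (LinearMap.mulLeft ℝ (t : ℂ)).prodMap (LinearMap.mulLeft ℝ (t : ℂ)))
        (by rw [hdet]; positivity)
      rw [hdet] at h
      exact h
    have h2 := e.measurableEmbedding.integral_map (μ := (volume : Measure (ℂ × ℂ)))
      (fun p : ℂ × ℂ => f (p.1 - p.2) * (f p.1 * f (p.1 + (ζ - 1) * p.2) * scl F t p.2))
    rw [hmap, integral_smul_measure, ENNReal.toReal_ofReal (abs_nonneg _),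
      abs_of_pos (by positivity), Complex.real_smul] at h2
    have h3 : ∀ p : ℂ × ℂ, f ((e p).1 - (e p).2) * (f (e p).1 * f ((e p).1 + (ζ - 1) * (e p).2) *
        scl F t (e p).2) = (((t ^ 2)⁻¹ : ℝ) : ℂ) * (ft' (p.1 - p.2) * (ft' p.1 *
          ft' (p.1 + (ζ - 1) * p.2) * F p.2)) := by
      intro p
      have a1 : (e p).1 = t * p.1 := rfl
      have a2 : (e p).2 = t * p.2 := rfl
      rw [a1, a2]
      simp only [hft', scl]
      have a3 : ((t⁻¹ : ℝ) : ℂ) * (t * p.2) = p.2 := by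
        push_cast
        rw [inv_mul_cancel_left₀ htc]
      rw [a3, mul_sub, mul_add, mul_left_comm (t : ℂ) (ζ - 1) p.2]
      ring
    simp_rw [h3] at h2
    rw [integral_const_mul] at h2
    have h4 : ((t ^ 4 : ℝ) : ℂ) * ((((t ^ 4)⁻¹ : ℝ)) : ℂ) = 1 := by
      rw [← Complex.ofReal_mul, mul_inv_cancel₀ (by positivity), Complex.ofReal_one]
    have h5 : ((t ^ 4 : ℝ) : ℂ) * (((t ^ 2)⁻¹ : ℝ) : ℂ) = ((t ^ 2 : ℝ) : ℂ) := by
      rw [← Complex.ofReal_mul]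
      congr 1
      field_simp
    rw [← h5]
    linear_combination (((t ^ 4 : ℝ) : ℂ)) * h2 - (∫ p : ℂ × ℂ, f (p.1 - p.2) *
      (f p.1 * f (p.1 + (ζ - 1) * p.2) * scl F t p.2)) * h4
  have e2 : ∫⁻ x, ‖ft' x‖ₑ ^ 2 = ENNReal.ofReal (t ^ 2)⁻¹ * ∫⁻ x, ‖f x‖ₑ ^ 2 := by
    have h1 := lintegral_mul_left' htc (fun x => ‖f x‖ₑ ^ 2)
    rw [h1, Complex.normSq_ofReal, sq]
  have h1 := hC ρ hρ hft ft' ft' ft' hftB hftB hftB (fun x => hf1 _) (fun x => hf1 _)
  rw [e2] at h1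
  have h2 : ENNReal.ofReal (t ^ 2)⁻¹ * ∫⁻ x, ‖f x‖ₑ ^ 2 ≤
      ENNReal.ofReal ((t ^ 2)⁻¹ * X) := by
    rw [ENNReal.ofReal_mul (by positivity)]
    exact mul_le_mul_right hfX _
  have h3 : ‖TT ζ ft' ft' ft' F‖ₑ ^ 4 ≤ ENNReal.ofReal ((ε * ((t ^ 2)⁻¹ * X)) ^ 4) := by
    refine h1.trans ?_
    set Y := ENNReal.ofReal (t ^ 2)⁻¹ * ∫⁻ x, ‖f x‖ₑ ^ 2 with hY
    calc ENNReal.ofReal (ε ^ 4) * (Y ^ 2 * Y * Y) = ENNReal.ofReal (ε ^ 4) * Y ^ 4 := by ring
      _ ≤ ENNReal.ofReal (ε ^ 4) * (ENNReal.ofReal ((t ^ 2)⁻¹ * X)) ^ 4 := by gcongr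
      _ = _ := by
        rw [← ENNReal.ofReal_pow (by positivity), ← ENNReal.ofReal_mul (by positivity)]
        congr 1
        ring
  have h4 : ‖TT ζ ft' ft' ft' F‖ ≤ ε * ((t ^ 2)⁻¹ * X) := by
    rw [← ofReal_norm, ← ENNReal.ofReal_pow (norm_nonneg _),
      ENNReal.ofReal_le_ofReal_iff (by positivity)] at h3
    exact (pow_le_pow_iff_left₀ (norm_nonneg _) (by positivity) (by norm_num)).1 h3
  rw [e1, norm_mul, Complex.norm_real, Real.norm_eq_abs, abs_of_pos (by positivity)]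
  calc t ^ 2 * ‖TT ζ ft' ft' ft' F‖ ≤ t ^ 2 * (ε * ((t ^ 2)⁻¹ * X)) := by gcongr
    _ = ε * X := by field_simp

end Run7.h764
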