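import Pool.Agent.Run7.h764.Fin1
set_option autoImplicit false

namespace Run7.h764

open MeasureTheory Complex Set Filter Topology
open scoped ENNReal NNReal

lemma vol_annulus {a b : ℝ} (ha : 0 ≤ a) (hab : a ≤ b) :
    volume {w : ℂ | Complex.normSq w ∈ Ico a b} = ENNReal.ofReal (Real.pi * (b - a)) := by
  have hball : ∀ c : ℝ, 0 ≤ c → {w : ℂ | Complex.normSq w < c} = Metric.ball 0 (√c) := by
    intro c _
    ext w
    rw [Set.mem_ofPred_eq, Metric.mem_ball, dist_zero_right, Complex.normSq_eq_norm_sq,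
      Real.lt_sqrt (norm_nonneg _)]
  have hvol : ∀ c : ℝ, 0 ≤ c → volume (Metric.ball (0 : ℂ) (√c)) = ENNReal.ofReal (Real.pi * c) := by
    intro c hc
    rw [Complex.volume_ball, ← ENNReal.ofReal_pow (Real.sqrt_nonneg _), Real.sq_sqrt hc, mul_comm,
      ENNReal.ofReal_mul Real.pi_pos.le]
    congr 1
    rw [ENNReal.ofReal, ← NNReal.coe_real_pi, Real.toNNReal_coe]
  have e : {w : ℂ | Complex.normSq w ∈ Ico a b} =
      Metric.ball (0 : ℂ) (√b) \ Metric.ball (0 : ℂ) (√a) := by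
    rw [← hball b (ha.trans hab), ← hball a ha]
    ext w
    simp only [Set.mem_ofPred_eq, Set.mem_Ico, Set.mem_sdiff, not_lt]
    exact and_comm
  rw [e, measure_sdiff (Metric.ball_subset_ball (Real.sqrt_le_sqrt hab))
    Metric.isOpen_ball.measurableSet.nullMeasurableSet, hvol b (ha.trans hab), hvol a ha,
    ← ENNReal.ofReal_sub _ (by positivity)]
  · congr 1
    ring
  · rw [hvol a ha]
    exact ENNReal.ofReal_ne_top

/-- normalised annulus -/
noncomputable def ann (a b : ℝ) (w : ℂ) : ℝ :=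
  (Ico a b).indicator (fun _ => (Real.pi * (b - a))⁻¹) (Complex.normSq w)

lemma radial_BB {g : ℝ → ℝ} (hg : Measurable g) {C : ℝ} (hC : ∀ s, |g s| ≤ C)
    (h0 : ∀ s, 2 ≤ s → g s = 0) : BB (fun w : ℂ => ((g (Complex.normSq w) : ℝ) : ℂ)) := by
  refine ⟨Complex.measurable_ofReal.comp (hg.comp (by fun_prop)), ⟨C, fun w => ?_⟩,
    ⟨2, fun w hw => ?_⟩⟩
  · rw [Complex.norm_real]
    exact hC _
  · rw [h0, Complex.ofReal_zero]
    rw [Complex.normSq_eq_norm_sq]
    nlinarith

lemma ann_BB {a b : ℝ} (hab : a < b) (hb : b ≤ 2) : BB (fun w => ((ann a b w : ℝ) : ℂ)) := by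
  unfold ann
  refine radial_BB (g := (Ico a b).indicator (fun _ => (Real.pi * (b - a))⁻¹))
    (measurable_const.indicator measurableSet_Ico) (C := (Real.pi * (b - a))⁻¹) ?_ ?_
  · intro s
    have hpos : 0 < Real.pi * (b - a) := mul_pos Real.pi_pos (by linarith)
    by_cases h : s ∈ Ico a b
    · rw [Set.indicator_of_mem h, abs_of_pos (inv_pos.2 hpos)]
    · rw [Set.indicator_of_notMem h, abs_zero]
      exact (inv_pos.2 hpos).le
  · intro s hs
    rw [Set.indicator_of_notMem]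
    intro h
    linarith [h.2]

lemma ann_int {a b : ℝ} (ha : 0 ≤ a) (hab : a < b) : ∫ w, ann a b w = 1 := by
  have hpos : 0 < Real.pi * (b - a) := mul_pos Real.pi_pos (by linarith)
  have hm : MeasurableSet {w : ℂ | Complex.normSq w ∈ Ico a b} := by
    have : Measurable (fun w : ℂ => Complex.normSq w) := by fun_prop
    exact this measurableSet_Ico
  have e : ∀ w, ann a b w = {w : ℂ | Complex.normSq w ∈ Ico a b}.indicator
      (fun _ => (Real.pi * (b - a))⁻¹) w := by
    intro w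
    unfold ann
    simp only [Set.indicator_apply, Set.mem_ofPred_eq]
  simp_rw [e]
  rw [integral_indicator hm, setIntegral_const, Measure.real, vol_annulus ha hab.le,
    ENNReal.toReal_ofReal hpos.le, smul_eq_mul, mul_inv_cancel₀ hpos.ne']

lemma ann_nonneg {a b : ℝ} (hab : a < b) (w : ℂ) : 0 ≤ ann a b w := by
  have hpos : 0 < Real.pi * (b - a) := mul_pos Real.pi_pos (by linarith)
  unfold ann
  exact Set.indicator_nonneg (fun _ _ => (inv_pos.2 hpos).le) _

lemma ann_intc {a b : ℝ} (ha : 0 ≤ a) (hab : a < b) : ∫ w, ((ann a b w : ℝ) : ℂ) = 1 := by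
  rw [integral_complex_ofReal, ann_int ha hab, Complex.ofReal_one]

lemma rscl_rscl (κ : ℂ → ℝ) (a t : ℝ) : rscl (rscl κ a) t = rscl κ (a * t) := by
  funext w
  unfold rscl
  rw [← mul_assoc, mul_pow, mul_inv, mul_comm ((a ^ 2)⁻¹) ((t ^ 2)⁻¹), ← mul_assoc,
    mul_inv]
  push_cast
  rfl

lemma rscl_BB {κ : ℂ → ℝ} (hκ : BB (fun w => (κ w : ℂ))) {t : ℝ} (ht : 0 < t) :
    BB (fun w => ((rscl κ t w : ℝ) : ℂ)) := by
  rw [← scl_ofReal]
  exact scl_BB hκ ht

lemma scl_integral {k : ℂ → ℂ} {t : ℝ} (ht : 0 < t) : ∫ w, scl k t w = ∫ w, k w := by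
  have h := scl_sy k ht 0
  unfold sy at h
  have e1 : ∀ w : ℂ, dot w 0 = 0 := by intro w; simp [dot]
  rw [mul_zero] at h
  simp_rw [e1, ee_zero, mul_one] at h
  exact h

lemma rscl_int {κ : ℂ → ℝ} {t : ℝ} (ht : 0 < t) :
    ∫ w, rscl κ t w = ∫ w, κ w := by
  have h := scl_integral (k := fun w => (κ w : ℂ)) ht
  rw [scl_ofReal, integral_complex_ofReal, integral_complex_ofReal] at h
  exact_mod_cast h

lemma SS_sub (ζ : ℂ) {A : Set ℂ} (hA : MeasurableSet A) {R : ℝ}
    (hR : A ⊆ Metric.closedBall 0 R) {κ κ' : ℂ → ℝ} (hκ : BB (fun w => (κ w : ℂ)))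
    (hκ' : BB (fun w => (κ' w : ℂ))) :
    SS ζ A (fun w => κ w - κ' w) = SS ζ A κ - SS ζ A κ' := by
  unfold SS
  rw [← integral_sub (SS_integrable ζ hA hR hκ) (SS_integrable ζ hA hR hκ')]
  refine integral_congr_ae (Filter.Eventually.of_forall fun w => ?_)
  simp only
  ring

lemma rscl_sub (κ κ' : ℂ → ℝ) (t : ℝ) :
    rscl (fun w => κ w - κ' w) t = fun w => rscl κ t w - rscl κ' t w := by
  funext w
  unfold rscl
  ring

/-- the corner lower bound in averaged form -/
lemma corner_avg {c1 : ℝ} {n : ℕ} {ζ : ℂ} {A : Set ℂ} (hA : MeasurableSet A) {R t : ℝ}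
    (hAR : A ⊆ Metric.closedBall 0 R) (hR : 0 < R) (ht : 0 < t) (hc1 : 0 ≤ c1)
    (hcor : ∀ w : ℂ, n * ‖w‖ * (1 + ‖ζ‖) ≤ R → ENNReal.ofReal (c1 * R ^ 2) ≤
      ∑ d ∈ (Finset.Icc (-(n : ℤ)) n).erase 0,
        volume {x : ℂ | x ∈ A ∧ x + d * w ∈ A ∧ x + d * (ζ * w) ∈ A})
    (htR : n * (1.1 * t) * (1 + ‖ζ‖) ≤ R) :
    c1 * R ^ 2 ≤ ∑ d ∈ (Finset.Icc (-(n : ℤ)) n).erase 0,
      SS ζ A (rscl (ann 1 1.21) (|(d : ℝ)| * t)) := by
  have hAfin : volume A ≠ ∞ :=
    ((measure_mono hAR).trans_lt (isCompact_closedBall _ _).measure_lt_top).ne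
  have hVfin : ∀ w, VV ζ A w ≠ ∞ := fun w => ne_top_of_le_ne_top hAfin (VV_le ζ A w)
  set D := (Finset.Icc (-(n : ℤ)) n).erase 0 with hD
  set κ := ann 1 1.21 with hκ
  have hκB : BB (fun w => (κ w : ℂ)) := ann_BB (by norm_num) (by norm_num)
  have hκtB := rscl_BB hκB ht
  have hκ1 : ∫ w, rscl κ t w = 1 := by
    rw [rscl_int ht]
    exact ann_int (by norm_num) (by norm_num)
  have hκ0 : ∀ w, 0 ≤ rscl κ t w := fun w =>
    mul_nonneg (by positivity) (ann_nonneg (by norm_num) _)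
  -- pointwise
  have hpt : ∀ w, rscl κ t w * (c1 * R ^ 2) ≤
      ∑ d ∈ D, rscl κ t w * (VV ζ A (d * w)).toReal := by
    intro w
    by_cases hw : rscl κ t w = 0
    · rw [hw]
      simp
    · rw [← Finset.mul_sum]
      refine mul_le_mul_of_nonneg_left ?_ (hκ0 w)
      have hn1 : Complex.normSq ((t⁻¹ : ℝ) * w) ∈ Ico (1 : ℝ) 1.21 := by
        by_contra hcon
        apply hw
        unfold rscl
        rw [hκ, ann, Set.indicator_of_notMem hcon, mul_zero]
      have hnw : ‖w‖ ≤ 1.1 * t := by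
        have h2 := hn1.2
        rw [Complex.normSq_eq_norm_sq, norm_mul, Complex.norm_real, Real.norm_eq_abs,
          abs_of_pos (inv_pos.2 ht)] at h2
        have h3 : (t⁻¹ * ‖w‖) ^ 2 < 1.1 ^ 2 := by
          norm_num at h2 ⊢
          exact h2
        have h4 : t⁻¹ * ‖w‖ < 1.1 := lt_of_pow_lt_pow_left₀ 2 (by norm_num) h3
        rw [inv_mul_eq_div, div_lt_iff₀ ht] at h4
        exact h4.le
      have h5 := hcor w (le_trans (by gcongr) htR)
      have h6 : ∑ d ∈ D, volume {x : ℂ | x ∈ A ∧ x + d * w ∈ A ∧ x + d * (ζ * w) ∈ A} =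
          ENNReal.ofReal (∑ d ∈ D, (VV ζ A (d * w)).toReal) := by
        rw [ENNReal.ofReal_sum_of_nonneg (fun _ _ => ENNReal.toReal_nonneg)]
        refine Finset.sum_congr rfl fun d _ => ?_
        rw [ENNReal.ofReal_toReal (hVfin _)]
        unfold VV
        congr 1
        ext x
        have : ζ * ((d : ℂ) * w) = d * (ζ * w) := by ring
        rw [Set.mem_ofPred_eq, Set.mem_ofPred_eq, this]
      rw [h6] at h5
      exact (ENNReal.ofReal_le_ofReal_iff (Finset.sum_nonneg fun _ _ =>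
        ENNReal.toReal_nonneg)).1 h5
  -- scaling of each term
  have hterm : ∀ d ∈ D, (Integrable fun w => rscl κ t w * (VV ζ A (d * w)).toReal) ∧
      ∫ w, rscl κ t w * (VV ζ A (d * w)).toReal = SS ζ A (rscl κ (|(d : ℝ)| * t)) := by
    intro d hd
    have hd0 : d ≠ 0 := (Finset.mem_erase.1 hd).1
    have hdr : (0 : ℝ) < |(d : ℝ)| := abs_pos.2 (by exact_mod_cast hd0)
    have hdc : (d : ℂ) ≠ 0 := by exact_mod_cast hd0
    constructor
    · have h1 : BB (fun w => ((rscl κ t w : ℝ) : ℂ) * (((VV ζ A (d * w)).toReal : ℝ) : ℂ)) := by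
        refine hκtB.mul_bdd (Complex.measurable_ofReal.comp
          ((VV_meas ζ hA).comp (by fun_prop : Measurable (fun w : ℂ => (d : ℂ) * w))).ennreal_toReal)
          ⟨(volume A).toReal, fun w => ?_⟩
        rw [Complex.norm_real, Real.norm_eq_abs, abs_of_nonneg ENNReal.toReal_nonneg]
        exact ENNReal.toReal_mono hAfin (VV_le ζ A _)
      have h2 := (h1.integrable volume).re
      refine h2.congr (Filter.Eventually.of_forall fun w => ?_)
      simp
    · have h1 := integral_mul_left' hdc (fun w => ((rscl κ t ((d : ℂ)⁻¹ * w) *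
        (VV ζ A w).toReal : ℝ) : ℂ))
      have h2 : ∀ w : ℂ, (d : ℂ)⁻¹ * (d * w) = w := fun w => inv_mul_cancel_left₀ hdc w
      simp_rw [h2] at h1
      rw [integral_complex_ofReal, integral_complex_ofReal, ← Complex.ofReal_mul] at h1
      have h3 := Complex.ofReal_injective h1
      rw [h3, SS, ← integral_const_mul]
      refine integral_congr_ae (Filter.Eventually.of_forall fun w => ?_)
      simp only
      rw [← mul_assoc]
      congr 1
      unfold rscl
      have e1 : Complex.normSq (d : ℂ) = |(d : ℝ)| ^ 2 := by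
        rw [sq_abs]
        have : (d : ℂ) = ((d : ℝ) : ℂ) := by push_cast; rfl
        rw [this, Complex.normSq_ofReal]
        ring
      have e2 : κ ((t⁻¹ : ℝ) * ((d : ℂ)⁻¹ * w)) = κ ((((|(d : ℝ)| * t)⁻¹ : ℝ) : ℂ) * w) := by
        rw [hκ]
        unfold ann
        congr 1
        rw [map_mul, map_mul, map_mul, map_inv₀, e1, Complex.normSq_ofReal,
          Complex.normSq_ofReal]
        field_simp
      rw [e1, e2, mul_pow, mul_inv (|(d : ℝ)| ^ 2) (t ^ 2), mul_assoc]
  have hint := integral_mono_of_nonneg (μ := (volume : Measure ℂ))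
    (f := fun w => rscl κ t w * (c1 * R ^ 2))
    (g := fun w => ∑ d ∈ D, rscl κ t w * (VV ζ A (d * w)).toReal)
    (Filter.Eventually.of_forall fun w => mul_nonneg (hκ0 w) (by positivity))
    (integrable_finsetSum _ fun d hd => (hterm d hd).1) (Filter.Eventually.of_forall hpt)
  rw [integral_mul_const, hκ1, one_mul, integral_finsetSum _ (fun d hd => (hterm d hd).1)] at hint
  refine hint.trans (le_of_eq ?_)
  exact Finset.sum_congr rfl fun d hd => (hterm d hd).2

end Run7.h764
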