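import Pool.Agent.Run7.h764.Fin2
set_option autoImplicit false

namespace Run7.h764

open MeasureTheory Complex Set Filter Topology
open scoped ENNReal NNReal

lemma ft_piece {g : ℝ → ℝ} (hg : Measurable g) (hb : ∀ s, |g s| ≤ 1) {a h : ℝ} (hh : 0 ≤ h)
    (hs : ∀ s, s ∉ Ico a (a + h) → g s = 0) (h0 : ∫ s, g s = 0) (N : ℝ) :
    ‖ft (fun s => (g s : ℂ)) N‖ ≤ 2 * Real.pi * |N| * h ^ 2 := by
  have hBB : BB (fun s => (g s : ℂ)) := by
    refine ⟨Complex.measurable_ofReal.comp hg, ⟨1, fun s => ?_⟩, ⟨|a| + h, fun s hs2 => ?_⟩⟩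
    · rw [Complex.norm_real]
      exact hb s
    · rw [hs, Complex.ofReal_zero]
      rintro ⟨h1, h2⟩
      rw [Real.norm_eq_abs] at hs2
      have h3 := le_abs_self a
      have h4 := neg_abs_le a
      have : |s| ≤ |a| + h := abs_le.2 ⟨by linarith, by linarith⟩
      linarith
  have h0c : ∫ s, (g s : ℂ) = 0 := by
    rw [integral_complex_ofReal, h0, Complex.ofReal_zero]
  have e1 : ft (fun s => (g s : ℂ)) N = ∫ s in Ico a (a + h),
      (g s : ℂ) * (ee (-(s * N)) - ee (-(a * N))) := by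
    rw [setIntegral_eq_integral_of_forall_compl_eq_zero]
    · have i1 : Integrable (fun s => (g s : ℂ) * ee (-(s * N))) :=
        (hBB.mul_bdd (measurable_ee.comp (by fun_prop)) ⟨1, fun x => (norm_ee _).le⟩).integrable
          volume
      have i2 : Integrable (fun s => (g s : ℂ) * ee (-(a * N))) :=
        (hBB.integrable volume).mul_const _
      have e2 : ∀ s, (g s : ℂ) * (ee (-(s * N)) - ee (-(a * N))) =
          (g s : ℂ) * ee (-(s * N)) - (g s : ℂ) * ee (-(a * N)) := by
        intro s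
        ring
      simp_rw [e2]
      rw [integral_sub i1 i2, integral_mul_const, h0c, zero_mul, sub_zero, ft]
    · intro s hs2
      rw [hs s hs2, Complex.ofReal_zero, zero_mul]
  rw [e1]
  have hpi := Real.pi_pos
  refine (norm_setIntegral_le_of_norm_le_const (C := 2 * Real.pi * (|N| * h)) (by simp)
    (fun s hs2 => ?_)).trans (le_of_eq ?_)
  · rw [norm_mul, Complex.norm_real]
    have h3 : ‖ee (-(s * N)) - ee (-(a * N))‖ ≤ 2 * Real.pi * (|N| * h) := by
      refine (ee_sub_le _ _).trans ?_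
      have e3 : -(s * N) - -(a * N) = -(N * (s - a)) := by ring
      rw [e3, abs_neg, abs_mul, abs_of_nonneg (by linarith [hs2.1] : 0 ≤ s - a)]
      have : s - a ≤ h := by linarith [hs2.2]
      gcongr
    calc _ ≤ 1 * (2 * Real.pi * (|N| * h)) :=
          mul_le_mul (hb s) h3 (norm_nonneg _) zero_le_one
      _ = _ := one_mul _
  · rw [Real.volume_real_Ico_of_le (by linarith)]
    ring

/-- left endpoints -/
noncomputable def pt (m : ℕ) (i : ℕ) : ℝ := 1 + i * (0.21 / m)

lemma pt_succ (m i : ℕ) : pt m (i + 1) = pt m i + 0.21 / m := by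
  unfold pt
  push_cast
  ring

lemma pt_zero (m : ℕ) : pt m 0 = 1 := by simp [pt]

lemma pt_last {m : ℕ} (hm : 0 < m) : pt m m = 1.21 := by
  unfold pt
  have : (m : ℝ) ≠ 0 := by exact_mod_cast hm.ne'
  field_simp
  norm_num

lemma part_sum (m j : ℕ) (s : ℝ) :
    ∑ i ∈ Finset.range j, (Ico (pt m i) (pt m (i + 1))).indicator (fun _ => (1 : ℝ)) s =
      (Ico 1 (pt m j)).indicator (fun _ => (1 : ℝ)) s := by
  induction j with
  | zero =>
    simp [pt_zero]
  | succ j ih =>
    rw [Finset.sum_range_succ, ih]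
    have h1 : pt m j ≤ pt m (j + 1) := by
      rw [pt_succ]
      have : (0 : ℝ) ≤ 0.21 / m := by positivity
      linarith
    have h0 : 1 ≤ pt m j := by
      unfold pt
      have : (0 : ℝ) ≤ j * (0.21 / m) := by positivity
      linarith
    by_cases hs : s < pt m j
    · have a1 : s ∉ Ico (pt m j) (pt m (j + 1)) := fun h => absurd h.1 (not_le.2 hs)
      rw [Set.indicator_of_notMem a1, add_zero]
      by_cases h2 : 1 ≤ s
      · rw [Set.indicator_of_mem (show s ∈ Ico 1 (pt m j) from ⟨h2, hs⟩),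
          Set.indicator_of_mem (show s ∈ Ico 1 (pt m (j + 1)) from ⟨h2, hs.trans_le h1⟩)]
      · rw [Set.indicator_of_notMem (fun h => h2 h.1), Set.indicator_of_notMem (fun h => h2 h.1)]
    · push Not at hs
      rw [Set.indicator_of_notMem (fun h : s ∈ Ico 1 (pt m j) => absurd h.2 (not_lt.2 hs)),
        zero_add]
      by_cases h2 : s < pt m (j + 1)
      · rw [Set.indicator_of_mem (show s ∈ Ico (pt m j) (pt m (j + 1)) from ⟨hs, h2⟩),
          Set.indicator_of_mem (show s ∈ Ico 1 (pt m (j + 1)) from ⟨h0.trans hs, h2⟩)]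
      · rw [Set.indicator_of_notMem (fun h => h2 h.2), Set.indicator_of_notMem (fun h => h2 h.2)]

/-- average over the `i`-th piece -/
noncomputable def avg (m : ℕ) (b : ℝ → ℝ) (i : ℕ) : ℝ :=
  (0.21 / (m : ℝ))⁻¹ * ∫ s in Ico (pt m i) (pt m (i + 1)), b s

/-- the mean zero pieces -/
noncomputable def pc (m : ℕ) (b : ℝ → ℝ) (i : ℕ) : ℝ → ℝ :=
  (Ico (pt m i) (pt m (i + 1))).indicator (fun s => b s - avg m b i)

/-- the rough part -/
noncomputable def rr (m : ℕ) (b : ℝ → ℝ) (s : ℝ) : ℝ := ∑ i ∈ Finset.range m, pc m b i s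

section rough
variable {m : ℕ} {b : ℝ → ℝ}

lemma vol_piece (hm : 0 < m) (i : ℕ) :
    volume.real (Ico (pt m i) (pt m (i + 1))) = 0.21 / m := by
  have hm' : (0 : ℝ) < m := by exact_mod_cast hm
  have : (0 : ℝ) ≤ 0.21 / m := by positivity
  rw [pt_succ, Real.volume_real_Ico_of_le (by linarith)]
  ring

lemma b_int (hb : Measurable b) (h01 : ∀ s, b s ∈ Icc (0 : ℝ) 1) (i : ℕ) :
    IntegrableOn b (Ico (pt m i) (pt m (i + 1))) := by
  refine Measure.integrableOn_of_bounded (M := 1) (by simp) hb.aestronglyMeasurable ?_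
  refine Filter.Eventually.of_forall fun s => ?_
  rw [Real.norm_eq_abs, abs_of_nonneg (h01 s).1]
  exact (h01 s).2

lemma avg_mem (hm : 0 < m) (hb : Measurable b) (h01 : ∀ s, b s ∈ Icc (0 : ℝ) 1) (i : ℕ) :
    avg m b i ∈ Icc (0 : ℝ) 1 := by
  have hm' : (0 : ℝ) < m := by exact_mod_cast hm
  have hh : (0 : ℝ) < 0.21 / m := by positivity
  unfold avg
  constructor
  · exact mul_nonneg (inv_pos.2 hh).le (integral_nonneg fun s => (h01 s).1)
  · rw [inv_mul_eq_div, div_le_one hh]
    have h1 : ∫ s in Ico (pt m i) (pt m (i + 1)), b s ≤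
        ∫ _ in Ico (pt m i) (pt m (i + 1)), (1 : ℝ) :=
      integral_mono (b_int hb h01 i) (integrableOn_const (by simp) (by simp))
        (fun s => (h01 s).2)
    rw [setIntegral_const, vol_piece hm, smul_eq_mul, mul_one] at h1
    exact h1

lemma pc_meas (hb : Measurable b) (i : ℕ) : Measurable (pc m b i) :=
  (hb.sub measurable_const).indicator measurableSet_Ico

lemma pc_abs (hm : 0 < m) (hb : Measurable b) (h01 : ∀ s, b s ∈ Icc (0 : ℝ) 1) (i : ℕ) (s : ℝ) :
    |pc m b i s| ≤ (Ico (pt m i) (pt m (i + 1))).indicator (fun _ => (1 : ℝ)) s := by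
  unfold pc
  by_cases h : s ∈ Ico (pt m i) (pt m (i + 1))
  · rw [Set.indicator_of_mem h, Set.indicator_of_mem h, abs_le]
    have h1 := h01 s
    have h2 := avg_mem hm hb h01 i
    constructor <;> linarith [h1.1, h1.2, h2.1, h2.2]
  · rw [Set.indicator_of_notMem h, Set.indicator_of_notMem h, abs_zero]

lemma pc_int (hm : 0 < m) (hb : Measurable b) (h01 : ∀ s, b s ∈ Icc (0 : ℝ) 1) (i : ℕ) :
    ∫ s, pc m b i s = 0 := by
  have hm' : (0 : ℝ) < m := by exact_mod_cast hm
  have hh : (0.21 / m : ℝ) ≠ 0 := by positivity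
  unfold pc
  rw [integral_indicator measurableSet_Ico, integral_sub (b_int hb h01 i)
    (integrableOn_const (by simp) (by simp)), setIntegral_const, vol_piece hm, smul_eq_mul]
  unfold avg
  rw [← mul_assoc, mul_inv_cancel₀ hh, one_mul, sub_self]

lemma rr_abs (hm : 0 < m) (hb : Measurable b) (h01 : ∀ s, b s ∈ Icc (0 : ℝ) 1) (s : ℝ) :
    |rr m b s| ≤ (Ico (1 : ℝ) 1.21).indicator (fun _ => (1 : ℝ)) s := by
  unfold rr
  refine (Finset.abs_sum_le_sum_abs _ _).trans ?_
  refine (Finset.sum_le_sum fun i _ => pc_abs hm hb h01 i s).trans (le_of_eq ?_)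
  rw [part_sum, pt_last hm]

lemma rr_wt1 (hm : 0 < m) (hb : Measurable b) (h01 : ∀ s, b s ∈ Icc (0 : ℝ) 1) :
    Wt1 (rr m b) := by
  refine ⟨?_, fun s => ?_, fun s hs => ?_⟩
  · have : rr m b = fun s => ∑ i ∈ Finset.range m, pc m b i s := rfl
    rw [this]
    exact Finset.measurable_fun_sum _ fun i _ => pc_meas hb i
  · exact (rr_abs hm hb h01 s).trans (Set.indicator_le_self' (fun _ _ => zero_le_one) _)
  · have h1 := rr_abs hm hb h01 s
    rw [Set.indicator_of_notMem] at h1
    · exact abs_nonpos_iff.1 h1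
    · intro h
      apply hs
      exact ⟨h.1, h.2.le.trans (by norm_num)⟩

lemma rr_ft (hm : 0 < m) (hb : Measurable b) (h01 : ∀ s, b s ∈ Icc (0 : ℝ) 1) (N : ℝ) :
    ‖ft (fun s => (rr m b s : ℂ)) N‖ ≤ 2 * Real.pi * 0.21 ^ 2 / m * |N| := by
  have hm' : (0 : ℝ) < m := by exact_mod_cast hm
  have hh : (0 : ℝ) ≤ 0.21 / m := by positivity
  have hpcBB : ∀ i, BB (fun s => (pc m b i s : ℂ)) := by
    intro i
    refine ⟨Complex.measurable_ofReal.comp (pc_meas hb i), ⟨1, fun s => ?_⟩,
      ⟨|pt m i| + |pt m (i + 1)|, fun s hs => ?_⟩⟩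
    · rw [Complex.norm_real]
      exact (pc_abs hm hb h01 i s).trans (Set.indicator_le_self' (fun _ _ => zero_le_one) _)
    · unfold pc
      rw [Set.indicator_of_notMem, Complex.ofReal_zero]
      rintro ⟨h1, h2⟩
      rw [Real.norm_eq_abs] at hs
      have h3 := neg_abs_le (pt m i)
      have h4 := le_abs_self (pt m (i + 1))
      have h5 := abs_nonneg (pt m i)
      have h6 := abs_nonneg (pt m (i + 1))
      have : |s| ≤ |pt m i| + |pt m (i + 1)| := abs_le.2 ⟨by linarith, by linarith⟩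
      linarith
  have e1 : ft (fun s => (rr m b s : ℂ)) N =
      ∑ i ∈ Finset.range m, ft (fun s => (pc m b i s : ℂ)) N := by
    unfold ft rr
    rw [← integral_finsetSum]
    · refine integral_congr_ae (Filter.Eventually.of_forall fun s => ?_)
      simp only [Complex.ofReal_sum, Finset.sum_mul]
    · intro i _
      exact ((hpcBB i).mul_bdd (measurable_ee.comp (by fun_prop))
        ⟨1, fun x => (norm_ee _).le⟩).integrable volume
  rw [e1]
  refine (norm_sum_le _ _).trans ?_
  have h1 : ∀ i ∈ Finset.range m, ‖ft (fun s => (pc m b i s : ℂ)) N‖ ≤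
      2 * Real.pi * |N| * (0.21 / m) ^ 2 := by
    intro i _
    refine ft_piece (a := pt m i) (pc_meas hb i) (fun s => (pc_abs hm hb h01 i s).trans
      (Set.indicator_le_self' (fun _ _ => zero_le_one) _)) hh (fun s hs => ?_)
      (pc_int hm hb h01 i) N
    unfold pc
    rw [pt_succ, Set.indicator_of_notMem hs]
  refine (Finset.sum_le_sum h1).trans (le_of_eq ?_)
  rw [Finset.sum_const, Finset.card_range, nsmul_eq_mul]
  field_simp

lemma b_decomp (hm : 0 < m) (hbs : ∀ s, s ∉ Ico (1 : ℝ) 1.21 → b s = 0) (s : ℝ) :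
    b s = rr m b s + ∑ i ∈ Finset.range m,
      avg m b i * (Ico (pt m i) (pt m (i + 1))).indicator (fun _ => (1 : ℝ)) s := by
  unfold rr
  rw [← Finset.sum_add_distrib]
  have h1 : ∀ i ∈ Finset.range m, pc m b i s +
      avg m b i * (Ico (pt m i) (pt m (i + 1))).indicator (fun _ => (1 : ℝ)) s =
      b s * (Ico (pt m i) (pt m (i + 1))).indicator (fun _ => (1 : ℝ)) s := by
    intro i _
    unfold pc
    by_cases h : s ∈ Ico (pt m i) (pt m (i + 1))
    · rw [Set.indicator_of_mem h, Set.indicator_of_mem h]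
      ring
    · rw [Set.indicator_of_notMem h, Set.indicator_of_notMem h]
      ring
  rw [Finset.sum_congr rfl h1, ← Finset.mul_sum, part_sum, pt_last hm]
  by_cases h : s ∈ Ico (1 : ℝ) 1.21
  · rw [Set.indicator_of_mem h, mul_one]
  · rw [hbs s h, zero_mul]

lemma avg_sum (hm : 0 < m) (hb : Measurable b) (h01 : ∀ s, b s ∈ Icc (0 : ℝ) 1)
    (hbs : ∀ s, s ∉ Ico (1 : ℝ) 1.21 → b s = 0) :
    ∑ i ∈ Finset.range m, avg m b i * (0.21 / m) = ∫ s, b s := by
  have hm' : (0 : ℝ) < m := by exact_mod_cast hm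
  have hh : (0.21 / m : ℝ) ≠ 0 := by positivity
  have h1 : ∀ i ∈ Finset.range m, avg m b i * (0.21 / m) =
      ∫ s, b s * (Ico (pt m i) (pt m (i + 1))).indicator (fun _ => (1 : ℝ)) s := by
    intro i _
    have e : ∀ s, b s * (Ico (pt m i) (pt m (i + 1))).indicator (fun _ => (1 : ℝ)) s =
        (Ico (pt m i) (pt m (i + 1))).indicator b s := by
      intro s
      by_cases h : s ∈ Ico (pt m i) (pt m (i + 1))
      · rw [Set.indicator_of_mem h, Set.indicator_of_mem h, mul_one]
      · rw [Set.indicator_of_notMem h, Set.indicator_of_notMem h, mul_zero]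
    simp_rw [e]
    rw [integral_indicator measurableSet_Ico]
    unfold avg
    rw [mul_comm, ← mul_assoc, mul_inv_cancel₀ hh, one_mul]
  rw [Finset.sum_congr rfl h1, ← integral_finsetSum]
  · refine integral_congr_ae (Filter.Eventually.of_forall fun s => ?_)
    simp only
    rw [← Finset.mul_sum, part_sum, pt_last hm]
    by_cases h : s ∈ Ico (1 : ℝ) 1.21
    · rw [Set.indicator_of_mem h, mul_one]
    · rw [hbs s h, zero_mul]
  · intro i _
    have e : (fun s => b s * (Ico (pt m i) (pt m (i + 1))).indicator (fun _ => (1 : ℝ)) s) =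
        (Ico (pt m i) (pt m (i + 1))).indicator b := by
      funext s
      by_cases h : s ∈ Ico (pt m i) (pt m (i + 1))
      · rw [Set.indicator_of_mem h, Set.indicator_of_mem h, mul_one]
      · rw [Set.indicator_of_notMem h, Set.indicator_of_notMem h, mul_zero]
    rw [e, integrable_indicator_iff measurableSet_Ico]
    exact b_int hb h01 i

end rough

/-- spherical average of the counting function -/
noncomputable def sph (ζ : ℂ) (A : Set ℂ) (t : ℝ) : ℝ≥0∞ :=
  ∫⁻ θ in Ioo (-Real.pi) Real.pi, VV ζ A (Complex.polarCoord.symm (t, θ))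

lemma polar_meas : Measurable (fun p : ℝ × ℝ => Complex.polarCoord.symm p) := by
  have : (fun p : ℝ × ℝ => Complex.polarCoord.symm p) =
      fun p : ℝ × ℝ => (p.1 : ℂ) * (Real.cos p.2 + Real.sin p.2 * I) := by
    funext p
    exact Complex.polarCoord_symm_apply p
  rw [this]
  fun_prop

lemma sph_meas (ζ : ℂ) {A : Set ℂ} (hA : MeasurableSet A) : Measurable (sph ζ A) := by
  have h1 : Measurable (fun q : ℝ × ℝ => VV ζ A (Complex.polarCoord.symm (q.1, q.2))) :=
    (VV_meas ζ hA).comp polar_meas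
  exact h1.lintegral_prod_right'

lemma normSq_polar (p : ℝ × ℝ) : Complex.normSq (Complex.polarCoord.symm p) = p.1 ^ 2 := by
  rw [Complex.normSq_eq_norm_sq, Complex.norm_polarCoord_symm, sq_abs]

/-- weights living on radii with zero spherical average do not see the pattern count -/
lemma SS_zero (ζ : ℂ) {A : Set ℂ} (hA : MeasurableSet A) {g : ℝ → ℝ} (hg : Measurable g)
    (h0 : ∀ t, 0 < t → g (t ^ 2) ≠ 0 → sph ζ A t = 0) :
    SS ζ A (fun w => g (Complex.normSq w)) = 0 := by
  unfold SS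
  apply integral_eq_zero_of_ae
  have hm : Measurable (fun w : ℂ => ‖g (Complex.normSq w)‖ₑ * VV ζ A w) :=
    (hg.comp (by fun_prop)).enorm.mul (VV_meas ζ hA)
  have hz : ∫⁻ w, ‖g (Complex.normSq w)‖ₑ * VV ζ A w = 0 := by
    rw [← Complex.lintegral_comp_polarCoord_symm]
    have htar : polarCoord.target = Ioi (0 : ℝ) ×ˢ Ioo (-Real.pi) Real.pi := rfl
    have h6 : (volume : Measure (ℝ × ℝ)) = (volume : Measure ℝ).prod volume := rfl
    rw [htar, h6, ← Measure.prod_restrict]
    have hm2 : Measurable (fun p : ℝ × ℝ => ENNReal.ofReal p.1 •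
        (‖g (Complex.normSq (Complex.polarCoord.symm p))‖ₑ *
          VV ζ A (Complex.polarCoord.symm p))) := by
      have := hm.comp polar_meas
      exact (by fun_prop : Measurable fun p : ℝ × ℝ => ENNReal.ofReal p.1).smul this
    rw [lintegral_prod _ hm2.aemeasurable]
    rw [lintegral_eq_zero_iff hm2.lintegral_prod_right']
    filter_upwards [ae_restrict_mem measurableSet_Ioi] with t ht
    have ht0 : (0 : ℝ) < t := ht
    have e1 : ∀ θ : ℝ, ENNReal.ofReal ((t, θ) : ℝ × ℝ).1 •
        (‖g (Complex.normSq (Complex.polarCoord.symm (t, θ)))‖ₑ *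
          VV ζ A (Complex.polarCoord.symm (t, θ))) =
        (ENNReal.ofReal t * ‖g (t ^ 2)‖ₑ) * VV ζ A (Complex.polarCoord.symm (t, θ)) := by
      intro θ
      rw [normSq_polar, smul_eq_mul, mul_assoc]
    simp_rw [e1]
    have m1 : Measurable (fun θ : ℝ => VV ζ A (Complex.polarCoord.symm (t, θ))) :=
      (VV_meas ζ hA).comp (polar_meas.comp measurable_prodMk_left)
    rw [lintegral_const_mul _ m1]
    by_cases hgt : g (t ^ 2) = 0
    · rw [hgt]
      simp
    · have : ∫⁻ θ in Ioo (-Real.pi) Real.pi, VV ζ A (Complex.polarCoord.symm (t, θ)) = 0 :=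
        h0 t ht0 hgt
      rw [this, mul_zero]
      rfl
  rw [lintegral_eq_zero_iff hm] at hz
  filter_upwards [hz] with w hw
  simp only [Pi.zero_apply, mul_eq_zero, enorm_eq_zero] at hw ⊢
  rcases hw with h | h
  · exact Or.inl h
  · right
    rw [h]
    rfl

/-- the bad dilation factors -/
def badc (ζ : ℂ) (E : Set ℂ) (t : ℝ) : Prop :=
  ∀ x u : ℂ, ‖u‖ = 1 → ¬ (x ∈ E ∧ x + t * u ∈ E ∧ x + ζ * (t * u) ∈ E)

lemma sph_bad {ζ : ℂ} {E A : Set ℂ} (hAE : A ⊆ E) {t : ℝ} (hbad : badc ζ E t) :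
    sph ζ A t = 0 := by
  unfold sph
  have h1 : ∀ θ : ℝ, VV ζ A (Complex.polarCoord.symm (t, θ)) = 0 := by
    intro θ
    unfold VV
    have h2 : {x : ℂ | x ∈ A ∧ x + Complex.polarCoord.symm (t, θ) ∈ A ∧
        x + ζ * Complex.polarCoord.symm (t, θ) ∈ A} = ∅ := by
      rw [Set.eq_empty_iff_forall_notMem]
      rintro x ⟨a1, a2, a3⟩
      rw [Complex.polarCoord_symm_apply] at a2 a3
      refine hbad x (Real.cos θ + Real.sin θ * I) ?_ ⟨hAE a1, hAE a2, hAE a3⟩
      have := Complex.norm_exp_ofReal_mul_I θ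
      rw [Complex.exp_mul_I] at this
      exact_mod_cast this
    rw [h2, measure_empty]
  simp_rw [h1]
  simp

/-- change of variables for the set of bad scales -/
lemma bad_measure {R : ℝ} (hR : 0 < R) {S : Set ℝ} (hS : MeasurableSet S)
    (hS1 : S ⊆ Ico (1 : ℝ) 1.21) :
    volume ((fun s => R * √s) '' S) ≤ ENNReal.ofReal (R / 2) * volume S := by
  have hder : ∀ s ∈ S, HasDerivWithinAt (fun s => R * √s) (R * (1 / (2 * √s))) S s := by
    intro s hs
    have hs0 : s ≠ 0 := by
      have := (hS1 hs).1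
      intro h
      rw [h] at this
      norm_num at this
    exact ((Real.hasDerivAt_sqrt hs0).const_mul R).hasDerivWithinAt
  have hinj : InjOn (fun s => R * √s) S := by
    intro a ha b hb hab
    simp only at hab
    have h1 := mul_left_cancel₀ hR.ne' hab
    rwa [Real.sqrt_inj (by linarith [(hS1 ha).1]) (by linarith [(hS1 hb).1])] at h1
  have h1 := lintegral_image_eq_lintegral_abs_deriv_mul hS hder hinj (fun _ => 1)
  rw [setLIntegral_one] at h1
  rw [h1]
  have h2 : ∀ s ∈ S, ENNReal.ofReal |R * (1 / (2 * √s))| * 1 ≤ ENNReal.ofReal (R / 2) := by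
    intro s hs
    rw [mul_one]
    apply ENNReal.ofReal_le_ofReal
    have hs1 : 1 ≤ √s := by
      rw [Real.one_le_sqrt]
      exact (hS1 hs).1
    rw [abs_of_nonneg (by positivity), mul_one_div, div_le_div_iff₀ (by positivity) (by norm_num)]
    nlinarith
  refine (setLIntegral_mono' hS h2).trans (le_of_eq ?_)
  rw [setLIntegral_const]

end Run7.h764
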