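import Pool.Agent.Run7.h764.Fin3
set_option autoImplicit false

namespace Run7.h764

open MeasureTheory Complex Set Filter Topology
open scoped ENNReal NNReal

/-- the set of `s` whose radius is bad -/
def Sb (ζ : ℂ) (A : Set ℂ) (t : ℝ) : Set ℝ := {s | s ∈ Ico (1 : ℝ) 1.21 ∧ sph ζ A (t * √s) = 0}

lemma Sb_meas (ζ : ℂ) {A : Set ℂ} (hA : MeasurableSet A) (t : ℝ) : MeasurableSet (Sb ζ A t) := by
  have h1 : Measurable (fun s : ℝ => sph ζ A (t * √s)) := (sph_meas ζ hA).comp (by fun_prop)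
  exact measurableSet_Ico.inter (h1 (measurableSet_singleton 0))

/-- the weight -/
noncomputable def bw (ζ : ℂ) (A : Set ℂ) (t : ℝ) : ℝ → ℝ := (Sb ζ A t).indicator (fun _ => 1)

lemma bw_meas (ζ : ℂ) {A : Set ℂ} (hA : MeasurableSet A) (t : ℝ) : Measurable (bw ζ A t) :=
  measurable_const.indicator (Sb_meas ζ hA t)

lemma bw_mem (ζ : ℂ) (A : Set ℂ) (t s : ℝ) : bw ζ A t s ∈ Icc (0 : ℝ) 1 := by
  unfold bw
  by_cases h : s ∈ Sb ζ A t
  · rw [Set.indicator_of_mem h]; simp
  · rw [Set.indicator_of_notMem h]; simp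

lemma bw_supp (ζ : ℂ) (A : Set ℂ) (t s : ℝ) (hs : s ∉ Ico (1 : ℝ) 1.21) : bw ζ A t s = 0 := by
  unfold bw
  rw [Set.indicator_of_notMem]
  exact fun h => hs h.1

lemma bw_int {ζ : ℂ} {E A : Set ℂ} (hA : MeasurableSet A) (hAE : A ⊆ E) {R η : ℝ} (hR : 0 < R)
    (hη : 0 < η) (h : ENNReal.ofReal (η * R) < volume {t : ℝ | t ∈ Ico R (1.1 * R) ∧ badc ζ E t}) :
    2 * η ≤ ∫ s, bw ζ A R s := by
  have hsub : {t : ℝ | t ∈ Ico R (1.1 * R) ∧ badc ζ E t} ⊆ (fun s => R * √s) '' Sb ζ A R := by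
    rintro t ⟨⟨h1, h2⟩, h3⟩
    have e1 : √((t / R) ^ 2) = t / R := Real.sqrt_sq (div_nonneg (hR.le.trans h1) hR.le)
    have h4 : 1 ≤ t / R := by rwa [one_le_div hR]
    have h5 : t / R < 1.1 := by rwa [div_lt_iff₀ hR]
    have e2 : R * (t / R) = t := by field_simp
    refine ⟨(t / R) ^ 2, ⟨⟨?_, ?_⟩, ?_⟩, ?_⟩
    · nlinarith
    · have : (1.21 : ℝ) = 1.1 ^ 2 := by norm_num
      rw [this]
      exact pow_lt_pow_left₀ h5 (by linarith) two_ne_zero
    · rw [e1, e2]
      exact sph_bad hAE h3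
    · simp only
      rw [e1, e2]
  have h1 := (h.trans_le (measure_mono hsub)).trans_le
    (bad_measure hR (Sb_meas ζ hA R) (fun s hs => hs.1))
  have hfin : volume (Sb ζ A R) ≠ ∞ := by
    refine ne_top_of_le_ne_top ?_ (measure_mono (fun s hs => hs.1 : Sb ζ A R ⊆ Ico (1 : ℝ) 1.21))
    simp
  have e3 : ∫ s, bw ζ A R s = volume.real (Sb ζ A R) := by
    unfold bw
    rw [integral_indicator (Sb_meas ζ hA R), setIntegral_const, smul_eq_mul, mul_one]
  rw [e3]
  rw [← ENNReal.ofReal_toReal hfin, ← ENNReal.ofReal_mul (by positivity)] at h1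
  have h2 := ENNReal.ofReal_lt_ofReal_iff_of_nonneg (by positivity) |>.1 h1
  have h3 : volume.real (Sb ζ A R) = (volume (Sb ζ A R)).toReal := rfl
  rw [h3]
  have h4 : η * R < R * ((volume (Sb ζ A R)).toReal / 2) := by linarith
  rw [mul_comm η R] at h4
  have h5 := lt_of_mul_lt_mul_left h4 hR.le
  linarith

lemma SS_bw (ζ : ℂ) {A : Set ℂ} (hA : MeasurableSet A) {t : ℝ} (ht : 0 < t) :
    SS ζ A (rscl (fun w => bw ζ A t (Complex.normSq w)) t) = 0 := by
  set g : ℝ → ℝ := fun s => (t ^ 2)⁻¹ * bw ζ A t (s / t ^ 2) with hg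
  have hgm : Measurable g := ((bw_meas ζ hA t).comp (by fun_prop)).const_mul _
  have e1 : rscl (fun w => bw ζ A t (Complex.normSq w)) t = fun w => g (Complex.normSq w) := by
    funext w
    simp only [rscl, hg]
    congr 2
    rw [map_mul, Complex.normSq_ofReal]
    field_simp
  rw [e1]
  refine SS_zero ζ hA hgm ?_
  intro s hs hgs
  have h1 : bw ζ A t (s ^ 2 / t ^ 2) ≠ 0 := right_ne_zero_of_mul hgs
  have h2 : s ^ 2 / t ^ 2 ∈ Sb ζ A t := by
    by_contra hcon
    apply h1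
    unfold bw
    rw [Set.indicator_of_notMem hcon]
  have h3 := h2.2
  have h4 : t * √(s ^ 2 / t ^ 2) = s := by
    rw [← div_pow, Real.sqrt_sq (by positivity)]
    field_simp
  rwa [h4] at h3

lemma pt_ge (m i : ℕ) : 1 ≤ pt m i := by
  unfold pt
  have : (0 : ℝ) ≤ i * (0.21 / m) := by positivity
  linarith

lemma pt_lt {m : ℕ} (hm : 0 < m) (i : ℕ) : pt m i < pt m (i + 1) := by
  rw [pt_succ]
  have hm' : (0 : ℝ) < m := by exact_mod_cast hm
  have : (0 : ℝ) < 0.21 / m := by positivity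
  linarith

lemma pt_le {m i : ℕ} (hm : 0 < m) (hi : i < m) : pt m (i + 1) ≤ 2 := by
  have h1 : pt m (i + 1) ≤ pt m m := by
    unfold pt
    have : ((i + 1 : ℕ) : ℝ) ≤ m := by exact_mod_cast hi
    have h2 : (0 : ℝ) ≤ 0.21 / m := by positivity
    nlinarith
  rw [pt_last hm] at h1
  exact h1.trans (by norm_num)

/-- splitting of the weight -/
lemma SS_split (ζ : ℂ) {A : Set ℂ} (hA : MeasurableSet A) {R : ℝ}
    (hAR : A ⊆ Metric.closedBall 0 R) {t : ℝ} (ht : 0 < t) {m : ℕ} (hm : 0 < m) {b : ℝ → ℝ}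
    (hb : Measurable b) (h01 : ∀ s, b s ∈ Icc (0 : ℝ) 1)
    (hbs : ∀ s, s ∉ Ico (1 : ℝ) 1.21 → b s = 0) :
    SS ζ A (rscl (fun w => b (Complex.normSq w)) t) =
      SS ζ A (rscl (fun w => rr m b (Complex.normSq w)) t) +
      ∑ i ∈ Finset.range m, avg m b i * (Real.pi * (0.21 / m)) *
        SS ζ A (rscl (ann (pt m i) (pt m (i + 1))) t) := by
  have hm' : (0 : ℝ) < m := by exact_mod_cast hm
  have hh : (0 : ℝ) < 0.21 / m := by positivity
  have hpi := Real.pi_pos
  have hrw := rr_wt1 (m := m) hm hb h01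
  have hrB : BB (fun w : ℂ => ((rr m b (Complex.normSq w) : ℝ) : ℂ)) :=
    radial_BB hrw.meas hrw.bdd (fun s hs => hrw.supp s (fun h => by
      have := h.2
      norm_num at this
      linarith))
  have i1 := SS_integrable ζ hA hAR (rscl_BB hrB ht)
  have i2 : ∀ i ∈ Finset.range m, Integrable (fun w => avg m b i * (Real.pi * (0.21 / m)) *
      (rscl (ann (pt m i) (pt m (i + 1))) t w * (VV ζ A w).toReal)) := by
    intro i hi
    have hKB : BB (fun w => ((ann (pt m i) (pt m (i + 1)) w : ℝ) : ℂ)) :=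
      ann_BB (pt_lt hm i) (pt_le hm (Finset.mem_range.1 hi))
    exact (SS_integrable ζ hA hAR (rscl_BB hKB ht)).const_mul _
  have e1 : ∀ w, rscl (fun w => b (Complex.normSq w)) t w * (VV ζ A w).toReal =
      rscl (fun w => rr m b (Complex.normSq w)) t w * (VV ζ A w).toReal +
      ∑ i ∈ Finset.range m, avg m b i * (Real.pi * (0.21 / m)) *
        (rscl (ann (pt m i) (pt m (i + 1))) t w * (VV ζ A w).toReal) := by
    intro w
    unfold rscl
    simp only
    rw [b_decomp hm hbs, mul_add, add_mul]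
    congr 1
    rw [Finset.mul_sum, Finset.sum_mul]
    refine Finset.sum_congr rfl fun i _ => ?_
    unfold ann
    have e2 : pt m (i + 1) - pt m i = 0.21 / m := by
      rw [pt_succ]
      ring
    by_cases h : Complex.normSq ((t⁻¹ : ℝ) * w) ∈ Ico (pt m i) (pt m (i + 1))
    · rw [Set.indicator_of_mem h, Set.indicator_of_mem h, e2]
      field_simp
    · rw [Set.indicator_of_notMem h, Set.indicator_of_notMem h]
      ring
  unfold SS
  simp_rw [e1]
  rw [integral_add i1 (integrable_finsetSum _ i2), integral_finsetSum _ i2]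
  congr 1
  refine Finset.sum_congr rfl fun i _ => ?_
  rw [integral_const_mul]

lemma card_D (n : ℕ) : ((Finset.Icc (-(n : ℤ)) n).erase 0).card = 2 * n := by
  rw [Finset.card_erase_of_mem]
  · rw [Int.card_Icc]
    omega
  · rw [Finset.mem_Icc]
    omega

theorem core {ζ : ℂ} (hζ : ζ.im ≠ 0) {E : Set ℂ} (hE : MeasurableSet E) {c : ℝ} (hc : 0 < c)
    (hd : ∀ R : ℝ, ∃ r : ℝ, R ≤ r ∧
      ENNReal.ofReal (c * r ^ 2) ≤ volume (E ∩ Metric.closedBall 0 r))
    {η : ℝ} (hη : 0 < η) :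
    ∃ R0 : ℝ, 0 < R0 ∧ ∀ R : ℝ, R0 ≤ R →
      volume {t : ℝ | t ∈ Ico R (1.1 * R) ∧ badc ζ E t} ≤ ENNReal.ofReal (η * R) := by
  by_contra hcon
  push Not at hcon
  have hpi := Real.pi_pos
  have hM : ζ - 1 ≠ 0 := by
    intro h
    apply hζ
    rw [sub_eq_zero.1 h]
    simp
  obtain ⟨n, hn, c1, hc1, hcor⟩ := t_corners c hc
  have hnr : (0 : ℝ) < n := by exact_mod_cast hn
  set c2 : ℝ := c1 / (4 * n) with hc2
  have hc20 : 0 < c2 := by positivity
  set ε1 : ℝ := c2 / 2 / Real.pi with hε1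
  have hε10 : 0 < ε1 := by positivity
  set ε2 : ℝ := c2 * η with hε2
  have hε20 : 0 < ε2 := by positivity
  obtain ⟨κ, hκ, hC⟩ := propC_scaled t_osc t_heis hζ hε20
  obtain ⟨m0, hm0⟩ := exists_nat_gt (2 * Real.pi * 0.21 ^ 2 / κ)
  set m : ℕ := m0 + 1 with hm
  have hmpos : 0 < m := by omega
  have hmr : (0 : ℝ) < m := by exact_mod_cast hmpos
  have hmκ : 2 * Real.pi * 0.21 ^ 2 / m ≤ κ := by
    have h1 : 2 * Real.pi * 0.21 ^ 2 / κ < m := by
      refine hm0.trans ?_
      rw [hm]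
      push_cast
      linarith
    rw [div_lt_iff₀ hκ] at h1
    rw [div_le_iff₀ hmr]
    linarith
  -- the family of kernels
  set K : ℂ → ℝ := ann 1 1.21 with hK
  have hKB : BB (fun w => (K w : ℂ)) := ann_BB (by norm_num) (by norm_num)
  have hKi : ∫ w, K w = 1 := ann_int (by norm_num) (by norm_num)
  set kr : Fin n ⊕ Fin m → ℂ → ℝ := fun i => match i with
    | Sum.inl d => fun w => rscl K (d + 1) w - K w
    | Sum.inr i => fun w => ann (pt m i) (pt m (i + 1)) w - K w with hkr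
  have hiB : ∀ i : Fin m, BB (fun w => ((ann (pt m i) (pt m (i + 1)) w : ℝ) : ℂ)) := fun i =>
    ann_BB (pt_lt hmpos i) (pt_le hmpos i.2)
  have hdpos : ∀ d : Fin n, (0 : ℝ) < (d : ℝ) + 1 := fun d => by positivity
  have hkB : ∀ i, BB (fun w => (kr i w : ℂ)) := by
    rintro (d | i)
    · have := (rscl_BB hKB (hdpos d)).sub hKB
      simp only [hkr]
      push_cast
      exact this
    · have := (hiB i).sub hKB
      simp only [hkr]
      push_cast
      exact this
  have hk0 : ∀ i, ∫ w, (kr i w : ℂ) = 0 := by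
    have hreal : ∀ {κ : ℂ → ℝ}, BB (fun w => (κ w : ℂ)) → Integrable κ := by
      intro κ hκ
      refine (hκ.integrable volume).re.congr (Filter.Eventually.of_forall fun w => ?_)
      simp
    rintro (d | i)
    · rw [integral_complex_ofReal]
      simp only [hkr]
      rw [integral_sub (hreal (rscl_BB hKB (hdpos d))) (hreal hKB), rscl_int (hdpos d), hKi,
        sub_self, Complex.ofReal_zero]
    · rw [integral_complex_ofReal]
      simp only [hkr]
      rw [integral_sub (hreal (hiB i)) (hreal hKB),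
        ann_int (zero_le_one.trans (pt_ge m i)) (pt_lt hmpos i), hKi,
        sub_self, Complex.ofReal_zero]
  obtain ⟨J, Λ, hΛ, hfam⟩ := scale_family hM (fun i w => (kr i w : ℂ)) hkB hk0 hε10
  -- sparse bad scales
  have hseq : ∃ Rs : ℕ → ℝ, (∀ j, 0 < Rs j) ∧ (∀ j, Λ * Rs j ≤ Rs (j + 1)) ∧
      ∀ j, ENNReal.ofReal (η * Rs j) <
        volume {t : ℝ | t ∈ Ico (Rs j) (1.1 * Rs j) ∧ badc ζ E t} := by
    choose! F hF1 hF2 using hcon
    set Rs : ℕ → ℝ := fun j => Nat.rec (F 1) (fun _ x => F (Λ * x)) j with hRs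
    have hsucc : ∀ j, Rs (j + 1) = F (Λ * Rs j) := fun j => rfl
    have hpos : ∀ j, 0 < Rs j := by
      intro j
      induction j with
      | zero => exact zero_lt_one.trans_le (hF1 1 zero_lt_one)
      | succ j ih =>
        rw [hsucc]
        have : 0 < Λ * Rs j := by positivity
        exact this.trans_le (hF1 _ this)
    refine ⟨Rs, hpos, fun j => ?_, fun j => ?_⟩
    · rw [hsucc]
      have := hpos j
      exact hF1 _ (by positivity)
    · cases j with
      | zero => exact hF2 1 zero_lt_one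
      | succ j =>
        rw [hsucc]
        have := hpos j
        exact hF2 _ (by positivity)
  obtain ⟨Rs, hRs0, hRs1, hRs2⟩ := hseq
  have hmono : Monotone Rs := by
    refine monotone_nat_of_le_succ fun j => le_trans ?_ (hRs1 j)
    have := hRs0 j
    nlinarith
  -- the large radius
  obtain ⟨R, hR1, hR2⟩ := hd (n * (1.1 * Rs J) * (1 + ‖ζ‖) + 1)
  have hRpos : 0 < R := by
    have h1 := hRs0 J
    have : 0 ≤ n * (1.1 * Rs J) * (1 + ‖ζ‖) := by positivity
    linarith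
  set A : Set ℂ := E ∩ Metric.closedBall 0 R with hA
  have hAm : MeasurableSet A := hE.inter Metric.isClosed_closedBall.measurableSet
  have hAR : A ⊆ Metric.closedBall 0 R := Set.inter_subset_right
  have hAE : A ⊆ E := Set.inter_subset_left
  set X : ℝ := Real.pi * R ^ 2 with hX
  have hX0 : 0 ≤ X := by positivity
  have hfX : ∫⁻ x, ‖ind A x‖ₑ ^ 2 ≤ ENNReal.ofReal X := by
    rw [ind_lint hAm, hX, ← vol_ball R hRpos.le]
    exact measure_mono hAR
  obtain ⟨j, hjJ, hj⟩ := hfam Rs hRs0 hRs1 (ind A) (ind_BB hAm hAR) (ind_norm A) X hX0 hfX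
  set t : ℝ := Rs j with ht
  have ht0 : 0 < t := hRs0 j
  have hgoodk : ∀ i, |SS ζ A (rscl (kr i) t)| ≤ c2 / 2 * R ^ 2 := by
    intro i
    have h1 := hj i
    rw [scl_ofReal, TT_VV ζ hAm hAR (rscl_BB (hkB i) ht0), Complex.norm_real,
      Real.norm_eq_abs] at h1
    refine h1.trans (le_of_eq ?_)
    rw [hε1, hX]
    field_simp
  set S0 : ℝ := SS ζ A (rscl K t) with hS0
  have hd1 : ∀ d : Fin n, SS ζ A (rscl K (((d : ℝ) + 1) * t)) ≤ S0 + c2 / 2 * R ^ 2 := by
    intro d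
    have h1 := hgoodk (Sum.inl d)
    simp only [hkr] at h1
    rw [rscl_sub, SS_sub ζ hAm hAR (rscl_BB (rscl_BB hKB (hdpos d)) ht0) (rscl_BB hKB ht0),
      rscl_rscl] at h1
    have := (abs_le.1 h1).2
    linarith
  have hi1 : ∀ i : Fin m, S0 - c2 / 2 * R ^ 2 ≤
      SS ζ A (rscl (ann (pt m i) (pt m (i + 1))) t) := by
    intro i
    have h1 := hgoodk (Sum.inr i)
    simp only [hkr] at h1
    rw [rscl_sub, SS_sub ζ hAm hAR (rscl_BB (hiB i) ht0) (rscl_BB hKB ht0)] at h1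
    have := (abs_le.1 h1).1
    linarith
  -- the corner bound
  have htR : n * (1.1 * t) * (1 + ‖ζ‖) ≤ R := by
    have h1 : t ≤ Rs J := hmono hjJ.le
    have h2 : n * (1.1 * t) * (1 + ‖ζ‖) ≤ n * (1.1 * Rs J) * (1 + ‖ζ‖) := by gcongr
    linarith
  have hcavg := corner_avg (ζ := ζ) hAm hAR hRpos ht0 hc1.le
    (fun w hw => hcor A hAm R hRpos hAR hR2 ζ w hw) htR
  have hS0low : 3 / 2 * c2 * R ^ 2 ≤ S0 := by
    have h1 : ∑ d ∈ (Finset.Icc (-(n : ℤ)) n).erase 0, SS ζ A (rscl K (|(d : ℝ)| * t)) ≤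
        ∑ d ∈ (Finset.Icc (-(n : ℤ)) n).erase 0, (S0 + c2 / 2 * R ^ 2) := by
      refine Finset.sum_le_sum fun d hdm => ?_
      rw [Finset.mem_erase, Finset.mem_Icc] at hdm
      obtain ⟨hd0, hd1', hd2'⟩ := hdm
      have hnat : d.natAbs - 1 < n := by omega
      have h2 := hd1 ⟨d.natAbs - 1, hnat⟩
      have h3 : (((⟨d.natAbs - 1, hnat⟩ : Fin n) : ℕ) : ℝ) + 1 = |(d : ℝ)| := by
        have h4 : ((d.natAbs - 1 : ℕ) : ℝ) + 1 = (d.natAbs : ℝ) := by
          have : d.natAbs - 1 + 1 = d.natAbs := by omega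
          exact_mod_cast this
        rw [h4, Nat.cast_natAbs]
        push_cast
        rfl
      rw [h3] at h2
      exact h2
    rw [Finset.sum_const, card_D, nsmul_eq_mul] at h1
    have h2 := hcavg.trans h1
    push_cast at h2
    have h5 : c1 = 4 * n * c2 := by
      rw [hc2]
      field_simp
    rw [h5] at h2
    have h6 : 2 * (n : ℝ) * (2 * c2 * R ^ 2) ≤ 2 * n * (S0 + c2 / 2 * R ^ 2) := by
      calc _ = 4 * n * c2 * R ^ 2 := by ring
        _ ≤ _ := h2
    have h7 := le_of_mul_le_mul_left h6 (by positivity)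
    linarith
  -- the weight
  set b := bw ζ A t with hb
  have hbm := bw_meas ζ hAm t
  have hb01 := bw_mem ζ A t
  have hbs := bw_supp ζ A t
  have hbint : 2 * η ≤ ∫ s, b s := bw_int hAm hAE ht0 hη (hRs2 j)
  have hzero := SS_bw ζ hAm ht0
  rw [SS_split ζ hAm hAR ht0 hmpos hbm hb01 hbs] at hzero
  have hrough : |SS ζ A (rscl (fun w => rr m b (Complex.normSq w)) t)| ≤ ε2 * X := by
    have hrw := rr_wt1 (m := m) hmpos hbm hb01
    have hrB : BB (fun w : ℂ => ((rr m b (Complex.normSq w) : ℝ) : ℂ)) :=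
      radial_BB hrw.meas hrw.bdd (fun s hs => hrw.supp s (fun h => by
        have := h.2
        norm_num at this
        linarith))
    have h1 := hC (rr m b) hrw (fun N => (rr_ft hmpos hbm hb01 N).trans
      (mul_le_mul_of_nonneg_right hmκ (abs_nonneg N))) (ind A) (ind_BB hAm hAR) (ind_norm A) X
      hX0 hfX t ht0
    rw [scl_ofReal (fun w => rr m b (Complex.normSq w)), TT_VV ζ hAm hAR (rscl_BB hrB ht0),
      Complex.norm_real, Real.norm_eq_abs] at h1
    exact h1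
  have hmain : 2 * η * (Real.pi * (c2 * R ^ 2)) ≤ ∑ i ∈ Finset.range m,
      avg m b i * (Real.pi * (0.21 / m)) * SS ζ A (rscl (ann (pt m i) (pt m (i + 1))) t) := by
    have h1 : ∀ i ∈ Finset.range m, avg m b i * (0.21 / m) * (Real.pi * (c2 * R ^ 2)) ≤
        avg m b i * (Real.pi * (0.21 / m)) *
          SS ζ A (rscl (ann (pt m i) (pt m (i + 1))) t) := by
      intro i hi
      have h2 := hi1 ⟨i, Finset.mem_range.1 hi⟩
      simp only at h2
      have h3 : c2 * R ^ 2 ≤ SS ζ A (rscl (ann (pt m i) (pt m (i + 1))) t) := by linarith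
      have h4 := (avg_mem hmpos hbm hb01 i).1
      have h5 : 0 ≤ avg m b i * (Real.pi * (0.21 / m)) := by positivity
      calc _ = avg m b i * (Real.pi * (0.21 / m)) * (c2 * R ^ 2) := by ring
        _ ≤ _ := mul_le_mul_of_nonneg_left h3 h5
    refine le_trans ?_ (Finset.sum_le_sum h1)
    rw [← Finset.sum_mul, avg_sum hmpos hbm hb01 hbs]
    exact mul_le_mul_of_nonneg_right hbint (by positivity)
  have h1 := (abs_le.1 hrough).1
  have h2 : 2 * η * (Real.pi * (c2 * R ^ 2)) ≤ ε2 * X := by linarith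
  rw [hε2, hX] at h2
  have h3 : 0 < c2 * η * (Real.pi * R ^ 2) := by positivity
  linarith

end Run7.h764
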