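import Pool.Agent.Run7.h764.Fin4
set_option autoImplicit false

namespace Run7.h764

open MeasureTheory Complex Set Filter Topology
open scoped ENNReal NNReal

/-- bad scales below a power of the window ratio -/
lemma bad_pow {P : ℝ → Prop} {R0 η : ℝ} (hR0 : 0 < R0) (hη : 0 < η)
    (h : ∀ R : ℝ, R0 ≤ R → volume {t : ℝ | t ∈ Ico R (1.1 * R) ∧ P t} ≤ ENNReal.ofReal (η * R))
    (k : ℕ) : volume {t : ℝ | t ∈ Ico 0 (R0 * 1.1 ^ k) ∧ P t} ≤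
      ENNReal.ofReal (R0 + 10 * η * (R0 * 1.1 ^ k)) := by
  induction k with
  | zero =>
    have h1 : {t : ℝ | t ∈ Ico 0 (R0 * 1.1 ^ 0) ∧ P t} ⊆ Ico 0 R0 := by
      rintro t ⟨ht, _⟩
      simpa using ht
    refine (measure_mono h1).trans ?_
    rw [Real.volume_Ico, sub_zero]
    apply ENNReal.ofReal_le_ofReal
    have : 0 ≤ 10 * η * (R0 * 1.1 ^ 0) := by positivity
    linarith
  | succ k ih =>
    set Q : ℝ := R0 * 1.1 ^ k with hQ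
    have hQ0 : R0 ≤ Q := by
      have : (1 : ℝ) ≤ 1.1 ^ k := one_le_pow₀ (by norm_num)
      rw [hQ]
      nlinarith
    have hQ1 : R0 * 1.1 ^ (k + 1) = 1.1 * Q := by
      rw [hQ, pow_succ]
      ring
    rw [hQ1]
    have h1 : {t : ℝ | t ∈ Ico 0 (1.1 * Q) ∧ P t} ⊆
        {t : ℝ | t ∈ Ico 0 Q ∧ P t} ∪ {t : ℝ | t ∈ Ico Q (1.1 * Q) ∧ P t} := by
      rintro t ⟨ht, hp⟩
      by_cases h2 : t < Q
      · exact Or.inl ⟨⟨ht.1, h2⟩, hp⟩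
      · exact Or.inr ⟨⟨not_lt.1 h2, ht.2⟩, hp⟩
    refine (measure_mono h1).trans ((measure_union_le _ _).trans
      ((add_le_add ih (h Q hQ0)).trans (le_of_eq ?_)))
    have hQpos : 0 < Q := hR0.trans_le hQ0
    rw [← ENNReal.ofReal_add (by positivity) (by positivity)]
    congr 1
    ring

lemma bad_density {P : ℝ → Prop}
    (h : ∀ η : ℝ, 0 < η → ∃ R0 : ℝ, 0 < R0 ∧ ∀ R : ℝ, R0 ≤ R →
      volume {t : ℝ | t ∈ Ico R (1.1 * R) ∧ P t} ≤ ENNReal.ofReal (η * R))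
    {η : ℝ} (hη : 0 < η) : ∃ T0 : ℝ, 0 < T0 ∧ ∀ T : ℝ, T0 ≤ T →
      volume {t : ℝ | 0 < t ∧ t ≤ T ∧ P t} ≤ ENNReal.ofReal (η * T) := by
  obtain ⟨R0, hR0, h1⟩ := h (η / 22) (by positivity)
  refine ⟨max R0 (2 * R0 / η), by positivity, fun T hT => ?_⟩
  have hT1 : R0 ≤ T := (le_max_left _ _).trans hT
  have hT2 : 2 * R0 / η ≤ T := (le_max_right _ _).trans hT
  have hT0 : 0 < T := hR0.trans_le hT1
  obtain ⟨k, hk1, hk2⟩ := exists_nat_pow_near (x := T / R0) (y := 1.1)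
    (by rwa [one_le_div hR0]) (by norm_num)
  rw [le_div_iff₀ hR0] at hk1
  rw [div_lt_iff₀ hR0] at hk2
  have h2 := bad_pow hR0 (by positivity : 0 < η / 22) h1 (k + 1)
  have h3 : {t : ℝ | 0 < t ∧ t ≤ T ∧ P t} ⊆ {t : ℝ | t ∈ Ico 0 (R0 * 1.1 ^ (k + 1)) ∧ P t} := by
    rintro t ⟨a1, a2, a3⟩
    refine ⟨⟨a1.le, ?_⟩, a3⟩
    rw [mul_comm]
    linarith
  refine (measure_mono h3).trans (h2.trans (ENNReal.ofReal_le_ofReal ?_))
  rw [div_le_iff₀ hη] at hT2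
  have h4 : R0 * 1.1 ^ (k + 1) ≤ 1.1 * T := by
    rw [pow_succ]
    nlinarith
  have h5 : 10 * (η / 22) * (R0 * 1.1 ^ (k + 1)) ≤ 10 * (η / 22) * (1.1 * T) := by gcongr
  linarith

end Run7.h764
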