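import Pool.Agent.Run7.h764.Basic
import Pool.Agent.Run7.h764.Iface
set_option autoImplicit false

namespace Run7.h764

open MeasureTheory Complex
open scoped ENNReal NNReal

theorem heisC (H : St_heis) {u v : ℂ → ℂ} (hu : BB u) (hv : BB v) {b : ℝ} (hb : b ≠ 0) :
    ∫⁻ a : ℂ, ‖∫ y : ℂ, u (y + a) * v y * ee (b * (a.re * y.im - a.im * y.re))‖ₑ ^ 2 ≤
      ENNReal.ofReal (1 / (2 * |b|)) * (∫⁻ y, ‖u y‖ₑ ^ 2) * ∫⁻ y, ‖v y‖ₑ ^ 2 := by
  have mp := Complex.volume_preserving_equiv_real_prod.symm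
  set e := Complex.measurableEquivRealProd with he
  have hnorm : ∀ x : ℝ × ℝ, ‖x‖ ≤ ‖e.symm x‖ := by
    intro x
    refine norm_prod_le_iff.2 ⟨?_, ?_⟩
    · simpa [he] using Complex.abs_re_le_norm (e.symm x)
    · simpa [he] using Complex.abs_im_le_norm (e.symm x)
  have hB : ∀ w : ℂ → ℂ, BB w → Measurable (fun x => w (e.symm x)) ∧
      (∃ C, ∀ x, ‖w (e.symm x)‖ ≤ C) ∧ ∃ R, ∀ x : ℝ × ℝ, R < ‖x‖ → w (e.symm x) = 0 := by
    intro w hw
    refine ⟨hw.meas.comp e.symm.measurable, ?_, ?_⟩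
    · obtain ⟨C, hC⟩ := hw.bdd
      exact ⟨C, fun x => hC _⟩
    · obtain ⟨R, hR⟩ := hw.supp
      exact ⟨R, fun x hx => hR _ (hx.trans_le (hnorm x))⟩
  obtain ⟨u1, u2, u3⟩ := hB u hu
  obtain ⟨v1, v2, v3⟩ := hB v hv
  have h := H _ _ u1 v1 u2 v2 u3 v3 b hb
  have e1 : ∀ w : ℂ → ℂ, ∫⁻ y : ℂ, ‖w y‖ₑ ^ 2 = ∫⁻ y : ℝ × ℝ, ‖w (e.symm y)‖ₑ ^ 2 := by
    intro w
    exact (mp.lintegral_comp_emb e.symm.measurableEmbedding (fun y => ‖w y‖ₑ ^ 2)).symm
  rw [e1 u, e1 v]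
  refine le_trans (le_of_eq ?_) h
  rw [← mp.lintegral_comp_emb e.symm.measurableEmbedding]
  refine lintegral_congr fun a => ?_
  congr 2
  rw [← mp.integral_comp e.symm.measurableEmbedding]
  refine integral_congr_ae (Filter.Eventually.of_forall fun y => ?_)
  have h1 : e.symm (y + a) = e.symm y + e.symm a := by
    apply Complex.ext <;> simp [he]
  simp only [h1]
  simp [he]

/-- the constant -/
noncomputable def gam (ζ : ℂ) : ℂ := (ζ - 1)⁻¹ * (starRingEnd ℂ) ζ⁻¹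

lemma gam_im {ζ : ℂ} (hζ : ζ.im ≠ 0) : (gam ζ).im ≠ 0 := by
  have hζ0 : ζ ≠ 0 := by
    rintro rfl
    simp at hζ
  have h1 : (ζ - 1) ≠ 0 := by
    intro h
    apply hζ
    rw [sub_eq_zero.1 h]
    simp
  have e : gam ζ = ((ζ - 1) * (starRingEnd ℂ) ζ)⁻¹ := by
    rw [gam, mul_inv, map_inv₀]
  have hne : (ζ - 1) * (starRingEnd ℂ) ζ ≠ 0 :=
    mul_ne_zero h1 ((map_ne_zero _).2 hζ0)
  rw [e, Complex.inv_im]
  have h2 : ((ζ - 1) * (starRingEnd ℂ) ζ).im = ζ.im := by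
    simp only [Complex.mul_im, Complex.sub_re, Complex.sub_im, Complex.one_re, Complex.one_im,
      Complex.conj_re, Complex.conj_im]
    ring
  rw [h2]
  exact div_ne_zero (neg_ne_zero.2 hζ) (Complex.normSq_pos.2 hne).ne'

theorem heis0 (H : St_heis) {ζ : ℂ} (hζ : ζ.im ≠ 0) {u v : ℂ → ℂ} (hu : BB u) (hv : BB v)
    {N : ℝ} (hN : N ≠ 0) :
    ∫⁻ k : ℂ, ‖∫ z : ℂ, v z * u (z + ζ * k) * ee (2 * N * dot ((ζ - 1)⁻¹ * z) k)‖ₑ ^ 2 ≤
      ENNReal.ofReal ((Complex.normSq ζ)⁻¹ * (1 / (4 * |N| * |(gam ζ).im|))) *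
        ((∫⁻ y, ‖u y‖ₑ ^ 2) * ∫⁻ y, ‖v y‖ₑ ^ 2) := by
  have hζ0 : ζ ≠ 0 := by
    rintro rfl
    simp at hζ
  set γ := gam ζ with hγ
  set b : ℝ := -2 * N * γ.im with hb
  have hb0 : b ≠ 0 := by
    rw [hb]
    exact mul_ne_zero (mul_ne_zero (by norm_num) hN) (gam_im hζ)
  set Ψ : ℂ → ℝ≥0∞ := fun a => ‖∫ z : ℂ, v z * u (z + a) *
    ee (2 * N * dot ((ζ - 1)⁻¹ * z) (ζ⁻¹ * a))‖ₑ ^ 2 with hΨ
  have h1 : ∀ k : ℂ, ‖∫ z : ℂ, v z * u (z + ζ * k) *
      ee (2 * N * dot ((ζ - 1)⁻¹ * z) k)‖ₑ ^ 2 = Ψ (ζ * k) := by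
    intro k
    simp only [hΨ]
    rw [inv_mul_cancel_left₀ hζ0]
  simp_rw [h1]
  rw [lintegral_mul_left' hζ0]
  set u' : ℂ → ℂ := fun z => u z * ee (N * γ.re * Complex.normSq z) with hu'
  set v' : ℂ → ℂ := fun z => v z * ee (-(N * γ.re * Complex.normSq z)) with hv'
  have hu'B : BB u' := hu.mul_bdd (measurable_ee.comp (by fun_prop)) ⟨1, fun x => (norm_ee _).le⟩
  have hv'B : BB v' := hv.mul_bdd (measurable_ee.comp (by fun_prop)) ⟨1, fun x => (norm_ee _).le⟩
  have h2 : ∀ a : ℂ, Ψ a = ‖∫ y : ℂ, u' (y + a) * v' y *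
      ee (b * (a.re * y.im - a.im * y.re))‖ₑ ^ 2 := by
    intro a
    simp only [hΨ]
    have h3 : ∀ z : ℂ, v z * u (z + a) * ee (2 * N * dot ((ζ - 1)⁻¹ * z) (ζ⁻¹ * a)) =
        ee (-(N * γ.re * Complex.normSq a)) *
          (u' (z + a) * v' z * ee (b * (a.re * z.im - a.im * z.re))) := by
      intro z
      have h4 : 2 * N * dot ((ζ - 1)⁻¹ * z) (ζ⁻¹ * a) = -(N * γ.re * Complex.normSq a) +
          (N * γ.re * Complex.normSq (z + a) + (-(N * γ.re * Complex.normSq z) +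
            b * (a.re * z.im - a.im * z.re))) := by
        have h5 : dot ((ζ - 1)⁻¹ * z) (ζ⁻¹ * a) = (γ * (z * (starRingEnd ℂ) a)).re := by
          rw [dot_eq_re, hγ, gam]
          congr 1
          rw [map_mul]
          ring
        rw [h5, hb, Complex.normSq_apply, Complex.normSq_apply, Complex.normSq_apply]
        simp only [Complex.mul_re, Complex.mul_im, Complex.conj_re, Complex.conj_im,
          Complex.add_re, Complex.add_im]
        ring
      rw [h4, ee_add, ee_add, ee_add]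
      simp only [hu', hv']
      ring
    simp_rw [h3]
    rw [integral_const_mul, enorm_mul]
    have h6 : ‖ee (-(N * γ.re * Complex.normSq a))‖ₑ = 1 := by
      rw [← ofReal_norm, norm_ee, ENNReal.ofReal_one]
    rw [h6, one_mul]
  simp_rw [h2]
  have h7 := heisC H hu'B hv'B hb0
  have h8 : ∀ z, ‖u' z‖ₑ = ‖u z‖ₑ := by
    intro z
    simp only [hu']
    rw [enorm_mul, ← ofReal_norm (ee _), norm_ee, ENNReal.ofReal_one, mul_one]
  have h9 : ∀ z, ‖v' z‖ₑ = ‖v z‖ₑ := by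
    intro z
    simp only [hv']
    rw [enorm_mul, ← ofReal_norm (ee _), norm_ee, ENNReal.ofReal_one, mul_one]
  simp_rw [h8, h9] at h7
  refine (mul_le_mul_right h7 _).trans (le_of_eq ?_)
  rw [ENNReal.ofReal_mul (inv_nonneg.2 (Complex.normSq_nonneg _))]
  have h10 : 1 / (2 * |b|) = 1 / (4 * |N| * |γ.im|) := by
    rw [hb, abs_mul, abs_mul, abs_neg, abs_two]
    congr 1
    ring
  rw [h10]
  ring

lemma enorm_ee (t : ℝ) : ‖ee t‖ₑ = 1 := by
  rw [← ofReal_norm (ee _), norm_ee, ENNReal.ofReal_one]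

lemma lintegral_A {a : ℂ → ℂ} (ha : BB a) {M : ℂ} (hM : M ≠ 0) :
    ∫⁻ ξ, ‖∫ w, a w * ee (dot w ((starRingEnd ℂ) M * ξ))‖ₑ ^ 2 =
      ENNReal.ofReal (Complex.normSq M)⁻¹ * ∫⁻ w, ‖a w‖ₑ ^ 2 := by
  have hM' : -(starRingEnd ℂ) M ≠ 0 := neg_ne_zero.2 ((map_ne_zero _).2 hM)
  have h := lintegral_mul_left' hM' (fun ξ => ‖∫ w, a w * ee (-(dot w ξ))‖ₑ ^ 2)
  have h2 : ∀ ξ w : ℂ, -(dot w (-(starRingEnd ℂ) M * ξ)) = dot w ((starRingEnd ℂ) M * ξ) := by
    intro ξ w
    simp only [dot, neg_mul, Complex.neg_re, Complex.neg_im]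
    ring
  simp_rw [h2] at h
  rw [h, Complex.normSq_neg, Complex.normSq_conj]
  congr 1
  rw [← Pool.Agent.H153R4.plancherel a (ha.integrable volume) (ha.memLp volume)]
  refine lintegral_congr fun ξ => ?_
  rw [fourier_eq_ee]

theorem heis_global (H : St_heis) {ζ : ℂ} (hζ : ζ.im ≠ 0) {h g a : ℂ → ℂ} (hh : BB h)
    (hg : BB g) (ha : BB a) {N : ℝ} (hN : N ≠ 0) :
    ∫⁻ k : ℂ, ∫⁻ y : ℂ, ‖∫ w : ℂ, h (y + (ζ - 1) * w) * g (y + (ζ - 1) * w + ζ * k) *
        ee (2 * N * dot w k) * a w‖ₑ ^ 2 ≤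
      ENNReal.ofReal ((Complex.normSq ζ)⁻¹ * (1 / (4 * |N| * |(gam ζ).im|))) *
        ((∫⁻ y, ‖g y‖ₑ ^ 2) * ∫⁻ y, ‖h y‖ₑ ^ 2) *
        (ENNReal.ofReal (Complex.normSq (ζ - 1))⁻¹ * ∫⁻ w, ‖a w‖ₑ ^ 2) := by
  have hM : (ζ - 1) ≠ 0 := by
    intro h
    apply hζ
    rw [sub_eq_zero.1 h]
    simp
  set M := ζ - 1 with hMdef
  set G : ℂ → ℂ → ℂ := fun k z => h z * g (z + ζ * k) * ee (2 * N * dot (M⁻¹ * z) k) with hG
  have hGB : ∀ k, BB (G k) := by
    intro k
    have h1 : BB (fun z => h z * g (z + ζ * k)) := by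
      refine hh.mul_bdd (hg.meas.comp (by fun_prop)) ?_
      obtain ⟨C, hC⟩ := hg.bdd
      exact ⟨C, fun x => hC _⟩
    refine h1.mul_bdd (measurable_ee.comp ?_) ⟨1, fun x => (norm_ee _).le⟩
    unfold dot
    fun_prop
  have e1 : ∀ k y, ‖∫ w : ℂ, h (y + M * w) * g (y + M * w + ζ * k) *
        ee (2 * N * dot w k) * a w‖ₑ ^ 2 = ‖∫ w, G k (y + M * w) * a w‖ₑ ^ 2 := by
    intro k y
    have e2 : ∀ w, h (y + M * w) * g (y + M * w + ζ * k) * ee (2 * N * dot w k) * a w =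
        ee (-(2 * N * dot (M⁻¹ * y) k)) * (G k (y + M * w) * a w) := by
      intro w
      have e3 : 2 * N * dot w k = -(2 * N * dot (M⁻¹ * y) k) +
          2 * N * dot (M⁻¹ * (y + M * w)) k := by
        rw [mul_add, inv_mul_cancel_left₀ hM]
        simp only [dot, Complex.add_re, Complex.add_im]
        ring
      rw [e3, ee_add]
      simp only [hG]
      ring
    simp_rw [e2]
    rw [integral_const_mul, enorm_mul, enorm_ee, one_mul]
  simp_rw [e1]
  have e4 : ∀ k, ∫⁻ y, ‖∫ w, G k (y + M * w) * a w‖ₑ ^ 2 =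
      ∫⁻ ξ, ‖∫ w, a w * ee (dot w ((starRingEnd ℂ) M * ξ))‖ₑ ^ 2 *
        ‖∫ z, G k z * ee (-(dot z ξ))‖ₑ ^ 2 := fun k => mult_eq (hGB k) ha hM
  simp_rw [e4]
  have hmA : Measurable (fun ξ : ℂ => ‖∫ w, a w * ee (dot w ((starRingEnd ℂ) M * ξ))‖ₑ ^ 2) := by
    have : Measurable (fun p : ℂ × ℂ => a p.2 * ee (dot p.2 ((starRingEnd ℂ) M * p.1))) := by
      refine (ha.meas.comp measurable_snd).mul (measurable_ee.comp ?_)
      unfold dot
      fun_prop
    exact (this.stronglyMeasurable.integral_prod_right' (ν := volume)).measurable.enorm.pow_const 2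
  have hmG : Measurable (fun q : ℂ × ℂ => ‖∫ z, G q.1 z * ee (-(dot z q.2))‖ₑ ^ 2) := by
    have : Measurable (fun p : (ℂ × ℂ) × ℂ => G p.1.1 p.2 * ee (-(dot p.2 p.1.2))) := by
      simp only [hG]
      refine (((hh.meas.comp measurable_snd).mul (hg.meas.comp (by fun_prop))).mul
        (measurable_ee.comp ?_)).mul (measurable_ee.comp ?_)
      · unfold dot
        fun_prop
      · unfold dot
        fun_prop
    exact (this.stronglyMeasurable.integral_prod_right' (ν := volume)).measurable.enorm.pow_const 2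
  rw [lintegral_lintegral_swap]
  swap
  · exact ((hmA.comp measurable_snd).mul hmG).aemeasurable
  have e5 : ∀ ξ, ∫⁻ k, ‖∫ w, a w * ee (dot w ((starRingEnd ℂ) M * ξ))‖ₑ ^ 2 *
        ‖∫ z, G k z * ee (-(dot z ξ))‖ₑ ^ 2 ≤
      ‖∫ w, a w * ee (dot w ((starRingEnd ℂ) M * ξ))‖ₑ ^ 2 *
      (ENNReal.ofReal ((Complex.normSq ζ)⁻¹ * (1 / (4 * |N| * |(gam ζ).im|))) *
        ((∫⁻ y, ‖g y‖ₑ ^ 2) * ∫⁻ y, ‖h y‖ₑ ^ 2)) := by
    intro ξ
    have hmGξ : Measurable (fun k : ℂ => ‖∫ z, G k z * ee (-(dot z ξ))‖ₑ ^ 2) := by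
      have : Measurable (fun p : ℂ × ℂ => G p.1 p.2 * ee (-(dot p.2 ξ))) := by
        simp only [hG]
        refine (((hh.meas.comp measurable_snd).mul (hg.meas.comp (by fun_prop))).mul
          (measurable_ee.comp ?_)).mul (measurable_ee.comp ?_)
        · unfold dot
          fun_prop
        · unfold dot
          fun_prop
      exact
        (this.stronglyMeasurable.integral_prod_right' (ν := volume)).measurable.enorm.pow_const 2
    rw [lintegral_const_mul _ hmGξ]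
    refine mul_le_mul_right ?_ _
    set v : ℂ → ℂ := fun z => h z * ee (-(dot z ξ)) with hv
    have hvB : BB v := hh.mul_bdd (measurable_ee.comp (by unfold dot; fun_prop))
      ⟨1, fun x => (norm_ee _).le⟩
    have h7 := heis0 H hζ hg hvB hN
    have h8 : ∀ z, ‖v z‖ₑ = ‖h z‖ₑ := by
      intro z
      simp only [hv]
      rw [enorm_mul, enorm_ee, mul_one]
    simp_rw [h8] at h7
    refine le_trans (le_of_eq ?_) h7
    refine lintegral_congr fun k => ?_
    congr 2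
    refine integral_congr_ae (Filter.Eventually.of_forall fun z => ?_)
    simp only [hG, hv]
    ring
  refine (lintegral_mono e5).trans ?_
  rw [lintegral_mul_const _ hmA, lintegral_A ha hM, mul_comm]

/-- the inner expression -/
noncomputable def XX (ζ : ℂ) (h g a : ℂ → ℂ) (N : ℝ) (k y : ℂ) : ℝ≥0∞ :=
  ‖∫ w : ℂ, h (y + (ζ - 1) * w) * g (y + (ζ - 1) * w + ζ * k) *
        ee (2 * N * dot w k) * a w‖ₑ ^ 2

lemma measurable_XX (ζ : ℂ) {h g a : ℂ → ℂ} (hh : BB h) (hg : BB g) (ha : BB a) (N : ℝ) :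
    Measurable (fun q : ℂ × ℂ => XX ζ h g a N q.1 q.2) := by
  have : Measurable (fun p : (ℂ × ℂ) × ℂ => h (p.1.2 + (ζ - 1) * p.2) *
      g (p.1.2 + (ζ - 1) * p.2 + ζ * p.1.1) * ee (2 * N * dot p.2 p.1.1) * a p.2) := by
    refine (((hh.meas.comp (by fun_prop)).mul (hg.meas.comp (by fun_prop))).mul
      (measurable_ee.comp ?_)).mul (ha.meas.comp measurable_snd)
    unfold dot
    fun_prop
  exact (this.stronglyMeasurable.integral_prod_right' (ν := volume)).measurable.enorm.pow_const 2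

lemma XX_triv (ζ : ℂ) {h g a : ℂ → ℂ} (hh : BB h) (hg : BB g) (ha : BB a) (N : ℝ)
    (hg1 : ∀ x, ‖g x‖ ≤ 1) (ha2 : ∀ w, 2 < ‖w‖ → a w = 0) (k : ℂ) :
    ∫⁻ y, XX ζ h g a N k y ≤
      volume (Metric.closedBall (0 : ℂ) 2) * (∫⁻ y, ‖h y‖ₑ ^ 2) * ∫⁻ w, ‖a w‖ₑ ^ 2 := by
  have h1 : ∀ y, XX ζ h g a N k y ≤
      (∫⁻ w in Metric.closedBall (0 : ℂ) 2, ‖h (y + (ζ - 1) * w)‖ₑ ^ 2) *
        ∫⁻ w, ‖a w‖ₑ ^ 2 := by
    intro y
    have e1 : ∫ w : ℂ, h (y + (ζ - 1) * w) * g (y + (ζ - 1) * w + ζ * k) *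
        ee (2 * N * dot w k) * a w = ∫ w in Metric.closedBall (0 : ℂ) 2,
        h (y + (ζ - 1) * w) * g (y + (ζ - 1) * w + ζ * k) *
        ee (2 * N * dot w k) * a w := by
      symm
      apply setIntegral_eq_integral_of_forall_compl_eq_zero
      intro w hw
      rw [Metric.mem_closedBall, dist_zero_right, not_le] at hw
      rw [ha2 w hw, mul_zero]
    unfold XX
    rw [e1]
    refine (cs_enorm _ ?_ ?_).trans ?_
    · refine Measurable.aemeasurable (((hh.meas.comp (by fun_prop)).mul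
        (hg.meas.comp (by fun_prop))).mul (measurable_ee.comp ?_))
      unfold dot
      fun_prop
    · exact ha.meas.aemeasurable
    · refine mul_le_mul' (lintegral_mono fun w => ?_) (setLIntegral_le_lintegral _ _)
      rw [enorm_mul, enorm_mul, enorm_ee, mul_one]
      refine pow_le_pow_left₀ zero_le ?_ 2
      have h2 : ‖g (y + (ζ - 1) * w + ζ * k)‖ₑ ≤ 1 := by
        rw [← ofReal_norm, ← ENNReal.ofReal_one]
        exact ENNReal.ofReal_le_ofReal (hg1 _)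
      calc _ ≤ ‖h (y + (ζ - 1) * w)‖ₑ * 1 := mul_le_mul_right h2 _
        _ = _ := mul_one _
  refine (lintegral_mono h1).trans ?_
  have hm : Measurable (fun p : ℂ × ℂ => ‖h (p.1 + (ζ - 1) * p.2)‖ₑ ^ 2) :=
    (hh.meas.comp (by fun_prop)).enorm.pow_const 2
  rw [lintegral_mul_const _ hm.lintegral_prod_right', lintegral_lintegral_swap hm.aemeasurable]
  have h3 : ∀ w : ℂ, ∫⁻ y, ‖h (y + (ζ - 1) * w)‖ₑ ^ 2 = ∫⁻ y, ‖h y‖ₑ ^ 2 := by
    intro w
    exact lintegral_add_right_eq_self (fun y => ‖h y‖ₑ ^ 2) _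
  simp_rw [h3]
  rw [setLIntegral_const, mul_comm (volume _)]

lemma XX_loc (ζ : ℂ) (h g a : ℂ → ℂ) (N : ℝ) (ha2 : ∀ w, 2 < ‖w‖ → a w = 0)
    {k y c : ℂ} (hk : ‖k‖ ≤ 1 / 2) (hy : ‖y - c‖ ≤ 1) {r : ℝ}
    (hr : 1 + 2 * ‖ζ - 1‖ + ‖ζ‖ ≤ r) :
    XX ζ h g a N k y = XX ζ ((Metric.closedBall c r).indicator h)
      ((Metric.closedBall c r).indicator g) a N k y := by
  unfold XX
  congr 2
  refine integral_congr_ae (Filter.Eventually.of_forall fun w => ?_)
  by_cases hw : 2 < ‖w‖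
  · simp only [ha2 w hw, mul_zero]
  rw [not_lt] at hw
  have h1 : ‖(ζ - 1) * w‖ ≤ 2 * ‖ζ - 1‖ := by
    rw [norm_mul, mul_comm]
    exact mul_le_mul_of_nonneg_right hw (norm_nonneg _)
  have h2 : ‖ζ * k‖ ≤ ‖ζ‖ := by
    rw [norm_mul]
    have := mul_le_mul_of_nonneg_left hk (norm_nonneg ζ)
    have := norm_nonneg ζ
    linarith
  have m1 : y + (ζ - 1) * w ∈ Metric.closedBall c r := by
    rw [Metric.mem_closedBall, dist_eq_norm]
    calc ‖y + (ζ - 1) * w - c‖ = ‖(y - c) + (ζ - 1) * w‖ := by ring_nf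
      _ ≤ ‖y - c‖ + ‖(ζ - 1) * w‖ := norm_add_le _ _
      _ ≤ r := by
        have := norm_nonneg ζ
        linarith
  have m2 : y + (ζ - 1) * w + ζ * k ∈ Metric.closedBall c r := by
    rw [Metric.mem_closedBall, dist_eq_norm]
    calc ‖y + (ζ - 1) * w + ζ * k - c‖ = ‖(y - c) + (ζ - 1) * w + ζ * k‖ := by ring_nf
      _ ≤ ‖y - c‖ + ‖(ζ - 1) * w‖ + ‖ζ * k‖ := norm_add₃_le
      _ ≤ r := by linarith
  simp only [Set.indicator_of_mem m1, Set.indicator_of_mem m2]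

lemma BB.indicator {f : ℂ → ℂ} (hf : BB f) {S : Set ℂ} (hS : MeasurableSet S) :
    BB (S.indicator f) := by
  refine ⟨hf.meas.indicator hS, ?_, ?_⟩
  · obtain ⟨C, hC⟩ := hf.bdd
    exact ⟨C, fun x => (norm_indicator_le_norm_self _ _).trans (hC x)⟩
  · obtain ⟨R, hR⟩ := hf.supp
    refine ⟨R, fun x hx => ?_⟩
    by_cases h : x ∈ S
    · rw [Set.indicator_of_mem h, hR x hx]
    · rw [Set.indicator_of_notMem h]

/-- averaging over the position of a disc of radius one -/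
lemma avg_disc (μ : Measure ℂ) [SFinite μ] (X : ℂ × ℂ → ℝ≥0∞) (hX : Measurable X)
    (Y : ℂ → ℂ → ℂ → ℝ≥0∞) (S : Set ℂ) (hS : MeasurableSet S)
    (hXY : ∀ c k y, k ∈ S → ‖c - y‖ ≤ 1 → X (k, y) ≤ Y c k y) :
    volume (Metric.closedBall (0 : ℂ) 1) * ∫⁻ k in S, ∫⁻ y, X (k, y) ∂volume ∂μ ≤
      ∫⁻ c : ℂ, ∫⁻ k in S, ∫⁻ y, Y c k y ∂volume ∂μ := by
  set V : ℝ≥0∞ := volume (Metric.closedBall (0 : ℂ) 1) with hV
  have hVt : V ≠ ∞ := (isCompact_closedBall (0 : ℂ) 1).measure_lt_top.ne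
  set T : Set (ℂ × ℂ) := {p | ‖p.1 - p.2‖ ≤ 1} with hT
  have hTm : MeasurableSet T := by
    rw [hT]
    exact measurableSet_le (by fun_prop) measurable_const
  set ind : ℂ × ℂ → ℝ≥0∞ := T.indicator (fun _ => 1) with hind
  have hindm : Measurable ind := measurable_const.indicator hTm
  have hV1 : ∀ y : ℂ, ∫⁻ c, ind (c, y) = V := by
    intro y
    have : (fun c => ind (c, y)) = (Metric.closedBall y 1).indicator (fun _ => 1) := by
      ext c
      simp only [hind, hT, Set.indicator, Set.mem_ofPred_eq, Metric.mem_closedBall,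
        dist_eq_norm]
    rw [this, lintegral_indicator Metric.isClosed_closedBall.measurableSet,
      setLIntegral_const, one_mul, hV]
    exact Measure.addHaar_closedBall_center volume y 1
  have hφ : Measurable (fun q : (ℂ × ℂ) × ℂ => ind (q.1.2, q.2) * X (q.1.1, q.2)) := by
    have m1 : Measurable (fun q : (ℂ × ℂ) × ℂ => (q.1.2, q.2)) := by fun_prop
    have m2 : Measurable (fun q : (ℂ × ℂ) × ℂ => (q.1.1, q.2)) := by fun_prop
    exact (hindm.comp m1).mul (hX.comp m2)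
  have e1 : V * ∫⁻ k in S, ∫⁻ y, X (k, y) ∂volume ∂μ =
      ∫⁻ k in S, ∫⁻ c, ∫⁻ y, ind (c, y) * X (k, y) ∂volume ∂volume ∂μ := by
    rw [← lintegral_const_mul' _ _ hVt]
    refine lintegral_congr fun k => ?_
    rw [← lintegral_const_mul' _ _ hVt, lintegral_lintegral_swap]
    · refine lintegral_congr fun y => ?_
      have m3 : Measurable (fun c => ind (c, y)) := by
        have m1 : Measurable (fun c : ℂ => (c, y)) := measurable_id.prodMk measurable_const
        exact hindm.comp m1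
      rw [lintegral_mul_const _ m3, hV1]
    · have m1 : Measurable (fun q : ℂ × ℂ => ((k, q.1), q.2)) := by fun_prop
      exact (hφ.comp m1).aemeasurable
  rw [e1, lintegral_lintegral_swap]
  swap
  · exact (hφ.lintegral_prod_right' (ν := volume)).aemeasurable
  refine lintegral_mono fun c => ?_
  refine setLIntegral_mono' hS fun k hk => ?_
  refine lintegral_mono fun y => ?_
  by_cases hy : ‖c - y‖ ≤ 1
  · have : ind (c, y) = 1 := Set.indicator_of_mem (show (c, y) ∈ T from hy) _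
    rw [this, one_mul]
    exact hXY c k y hk hy
  · have : ind (c, y) = 0 := Set.indicator_of_notMem (show (c, y) ∉ T from hy) _
    rw [this, zero_mul]
    exact zero_le

/-- integrating the local mass over the centres -/
lemma lintegral_local (f : ℂ → ℝ≥0∞) (hf : Measurable f) (r : ℝ) :
    ∫⁻ c : ℂ, ∫⁻ y, (Metric.closedBall c r).indicator f y =
      volume (Metric.closedBall (0 : ℂ) r) * ∫⁻ y, f y := by
  set T : Set (ℂ × ℂ) := {p | ‖p.2 - p.1‖ ≤ r} with hT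
  have hTm : MeasurableSet T := by
    rw [hT]
    exact measurableSet_le (by fun_prop) measurable_const
  have h1 : ∀ c y : ℂ, (Metric.closedBall c r).indicator f y =
      T.indicator (fun p => f p.2) (c, y) := by
    intro c y
    simp only [hT, Set.indicator, Set.mem_ofPred_eq, Metric.mem_closedBall, dist_eq_norm]
  simp_rw [h1]
  have hm : Measurable (T.indicator (fun p : ℂ × ℂ => f p.2)) :=
    (hf.comp measurable_snd).indicator hTm
  rw [lintegral_lintegral_swap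
    (f := fun c y => T.indicator (fun p : ℂ × ℂ => f p.2) (c, y)) hm.aemeasurable, mul_comm,
    ← lintegral_mul_const' _ _ (isCompact_closedBall (0 : ℂ) r).measure_lt_top.ne]
  refine lintegral_congr fun y => ?_
  have h2 : (fun c : ℂ => T.indicator (fun p : ℂ × ℂ => f p.2) (c, y)) =
      (Metric.closedBall y r).indicator (fun _ => f y) := by
    ext c
    simp only [hT, Set.indicator, Set.mem_ofPred_eq, Metric.mem_closedBall, dist_eq_norm,
      norm_sub_rev]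
  rw [h2, lintegral_indicator Metric.isClosed_closedBall.measurableSet, setLIntegral_const]
  congr 1
  exact Measure.addHaar_closedBall_center volume y r

theorem heis_local (H : St_heis) {ζ : ℂ} (hζ : ζ.im ≠ 0) : ∃ C : ℝ≥0∞, C ≠ ∞ ∧
    ∀ h g a : ℂ → ℂ, BB h → BB g → BB a → (∀ x, ‖g x‖ ≤ 1) → (∀ w, 2 < ‖w‖ → a w = 0) →
    ∀ N : ℝ, ∫⁻ k in Metric.closedBall (0 : ℂ) (1 / 2), ∫⁻ y, XX ζ h g a N k y ≤
      C * ENNReal.ofReal (1 / (1 + |N|)) * ((∫⁻ w, ‖a w‖ₑ ^ 2) * ∫⁻ y, ‖h y‖ₑ ^ 2) := by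
  set r : ℝ := 1 + 2 * ‖ζ - 1‖ + ‖ζ‖ with hr
  set V : ℝ≥0∞ := volume (Metric.closedBall (0 : ℂ) 1) with hV
  have hV0 : V ≠ 0 := (Metric.measure_closedBall_pos volume (0 : ℂ) one_pos).ne'
  have hVt : V ≠ ∞ := (isCompact_closedBall (0 : ℂ) 1).measure_lt_top.ne
  set Vr : ℝ≥0∞ := volume (Metric.closedBall (0 : ℂ) r) with hVr
  have hVrt : Vr ≠ ∞ := (isCompact_closedBall (0 : ℂ) r).measure_lt_top.ne
  set c1 : ℝ := (Complex.normSq ζ)⁻¹ * (1 / (4 * |(gam ζ).im|)) with hc1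
  have hc1n : 0 ≤ c1 := mul_nonneg (inv_nonneg.2 (Complex.normSq_nonneg _)) (by positivity)
  set C1 : ℝ≥0∞ := V⁻¹ * (ENNReal.ofReal (2 * c1) * Vr * Vr *
    ENNReal.ofReal (Complex.normSq (ζ - 1))⁻¹) with hC1
  set C2 : ℝ≥0∞ := 2 * (volume (Metric.closedBall (0 : ℂ) (1 / 2)) *
    volume (Metric.closedBall (0 : ℂ) 2)) with hC2
  refine ⟨C1 + C2, ?_, ?_⟩
  · refine ENNReal.add_ne_top.2 ⟨?_, ?_⟩
    · exact ENNReal.mul_ne_top (ENNReal.inv_ne_top.2 hV0)
        (ENNReal.mul_ne_top (ENNReal.mul_ne_top (ENNReal.mul_ne_top ENNReal.ofReal_ne_top hVrt)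
          hVrt) ENNReal.ofReal_ne_top)
    · exact ENNReal.mul_ne_top (by norm_num) (ENNReal.mul_ne_top
        (isCompact_closedBall (0 : ℂ) _).measure_lt_top.ne
        (isCompact_closedBall (0 : ℂ) _).measure_lt_top.ne)
  intro h g a hh hg ha hg1 ha2 N
  by_cases hN : |N| < 1
  · -- trivial bound
    have h1 : ∫⁻ k in Metric.closedBall (0 : ℂ) (1 / 2), ∫⁻ y, XX ζ h g a N k y ≤
        ∫⁻ _k in Metric.closedBall (0 : ℂ) (1 / 2), volume (Metric.closedBall (0 : ℂ) 2) *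
          (∫⁻ y, ‖h y‖ₑ ^ 2) * ∫⁻ w, ‖a w‖ₑ ^ 2 :=
      lintegral_mono fun k => XX_triv ζ hh hg ha N hg1 ha2 k
    rw [setLIntegral_const] at h1
    refine h1.trans ?_
    have h2 : (1 : ℝ≥0∞) ≤ 2 * ENNReal.ofReal (1 / (1 + |N|)) := by
      have : (2 : ℝ≥0∞) = ENNReal.ofReal 2 := by simp
      rw [this, ← ENNReal.ofReal_mul (by norm_num), ← ENNReal.ofReal_one]
      refine ENNReal.ofReal_le_ofReal ?_
      rw [mul_one_div, le_div_iff₀ (by positivity)]
      linarith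
    calc _ = (volume (Metric.closedBall (0 : ℂ) (1 / 2)) *
          volume (Metric.closedBall (0 : ℂ) 2)) * 1 *
          ((∫⁻ w, ‖a w‖ₑ ^ 2) * ∫⁻ y, ‖h y‖ₑ ^ 2) := by ring
      _ ≤ (volume (Metric.closedBall (0 : ℂ) (1 / 2)) *
          volume (Metric.closedBall (0 : ℂ) 2)) * (2 * ENNReal.ofReal (1 / (1 + |N|))) *
          ((∫⁻ w, ‖a w‖ₑ ^ 2) * ∫⁻ y, ‖h y‖ₑ ^ 2) := by gcongr
      _ = C2 * ENNReal.ofReal (1 / (1 + |N|)) *
          ((∫⁻ w, ‖a w‖ₑ ^ 2) * ∫⁻ y, ‖h y‖ₑ ^ 2) := by rw [hC2]; ring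
      _ ≤ _ := by gcongr; exact le_add_self
  · rw [not_lt] at hN
    have hN0 : N ≠ 0 := by
      rintro rfl
      simp at hN
      linarith
    have hmX := measurable_XX ζ hh hg ha N
    -- multiply by V
    have h1 : V * ∫⁻ k in Metric.closedBall (0 : ℂ) (1 / 2), ∫⁻ y, XX ζ h g a N k y ≤
        ∫⁻ c : ℂ, ∫⁻ k in Metric.closedBall (0 : ℂ) (1 / 2), ∫⁻ y,
          XX ζ ((Metric.closedBall c r).indicator h)
            ((Metric.closedBall c r).indicator g) a N k y := by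
      refine avg_disc volume _ hmX (fun c k y => XX ζ ((Metric.closedBall c r).indicator h)
            ((Metric.closedBall c r).indicator g) a N k y) _
            Metric.isClosed_closedBall.measurableSet ?_
      intro c k y hk hy
      rw [Metric.mem_closedBall, dist_zero_right] at hk
      exact (XX_loc ζ h g a N ha2 hk (by rwa [norm_sub_rev]) hr.ge).le
    have hK : ENNReal.ofReal ((Complex.normSq ζ)⁻¹ * (1 / (4 * |N| * |(gam ζ).im|))) ≤
        ENNReal.ofReal (2 * c1) * ENNReal.ofReal (1 / (1 + |N|)) := by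
      rw [← ENNReal.ofReal_mul (by positivity)]
      refine ENNReal.ofReal_le_ofReal ?_
      have e2 : (Complex.normSq ζ)⁻¹ * (1 / (4 * |N| * |(gam ζ).im|)) = c1 * (1 / |N|) := by
        rw [hc1]
        have := abs_pos.2 (gam_im hζ)
        field_simp
      rw [e2]
      have e3 : 1 / |N| ≤ 2 * (1 / (1 + |N|)) := by
        rw [mul_one_div, div_le_div_iff₀ (by positivity) (by positivity)]
        linarith
      calc c1 * (1 / |N|) ≤ c1 * (2 * (1 / (1 + |N|))) := mul_le_mul_of_nonneg_left e3 hc1n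
        _ = _ := by ring
    have h2 : ∫⁻ c : ℂ, ∫⁻ k in Metric.closedBall (0 : ℂ) (1 / 2), ∫⁻ y,
          XX ζ ((Metric.closedBall c r).indicator h)
            ((Metric.closedBall c r).indicator g) a N k y ≤
        ∫⁻ c : ℂ, (ENNReal.ofReal (2 * c1) * ENNReal.ofReal (1 / (1 + |N|)) * Vr *
          (ENNReal.ofReal (Complex.normSq (ζ - 1))⁻¹ * ∫⁻ w, ‖a w‖ₑ ^ 2)) *
          ∫⁻ y, (Metric.closedBall c r).indicator (fun y => ‖h y‖ₑ ^ 2) y := by
      refine lintegral_mono fun c => ?_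
      refine (setLIntegral_le_lintegral _ _).trans ?_
      have h3 := heis_global H hζ (hh.indicator (Metric.isClosed_closedBall.measurableSet
        (s := Metric.closedBall c r))) (hg.indicator (Metric.isClosed_closedBall.measurableSet
        (s := Metric.closedBall c r))) ha hN0
      refine h3.trans ?_
      have e4 : ∫⁻ y, ‖(Metric.closedBall c r).indicator h y‖ₑ ^ 2 =
          ∫⁻ y, (Metric.closedBall c r).indicator (fun y => ‖h y‖ₑ ^ 2) y := by
        refine lintegral_congr fun y => ?_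
        by_cases hy : y ∈ Metric.closedBall c r
        · rw [Set.indicator_of_mem hy, Set.indicator_of_mem hy]
        · rw [Set.indicator_of_notMem hy, Set.indicator_of_notMem hy]
          simp
      have e5 : ∫⁻ y, ‖(Metric.closedBall c r).indicator g y‖ₑ ^ 2 ≤ Vr := by
        calc _ ≤ ∫⁻ y, (Metric.closedBall c r).indicator (fun _ => (1 : ℝ≥0∞)) y := by
              refine lintegral_mono fun y => ?_
              by_cases hy : y ∈ Metric.closedBall c r
              · rw [Set.indicator_of_mem hy, Set.indicator_of_mem hy]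
                have h2 : ‖g y‖ₑ ≤ 1 := by
                  rw [← ofReal_norm, ← ENNReal.ofReal_one]
                  exact ENNReal.ofReal_le_ofReal (hg1 _)
                calc ‖g y‖ₑ ^ 2 ≤ 1 ^ 2 := pow_le_pow_left₀ zero_le h2 2
                  _ = 1 := one_pow 2
              · rw [Set.indicator_of_notMem hy, Set.indicator_of_notMem hy]
                simp
          _ = Vr := by
              rw [lintegral_indicator Metric.isClosed_closedBall.measurableSet,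
                setLIntegral_const, one_mul]
              exact Measure.addHaar_closedBall_center volume c r
      rw [e4]
      calc _ ≤ ENNReal.ofReal (2 * c1) * ENNReal.ofReal (1 / (1 + |N|)) *
            (Vr * ∫⁻ y, (Metric.closedBall c r).indicator (fun y => ‖h y‖ₑ ^ 2) y) *
            (ENNReal.ofReal (Complex.normSq (ζ - 1))⁻¹ * ∫⁻ w, ‖a w‖ₑ ^ 2) := by gcongr
        _ = _ := by ring
    have hmh : Measurable (fun y => ‖h y‖ₑ ^ 2) := hh.meas.enorm.pow_const 2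
    have hml : Measurable (fun c : ℂ => ∫⁻ y, (Metric.closedBall c r).indicator
        (fun y => ‖h y‖ₑ ^ 2) y) := by
      set T : Set (ℂ × ℂ) := {p | ‖p.2 - p.1‖ ≤ r} with hT
      have hTm : MeasurableSet T := by
        rw [hT]
        exact measurableSet_le (by fun_prop) measurable_const
      have h1 : ∀ c y : ℂ, (Metric.closedBall c r).indicator (fun y => ‖h y‖ₑ ^ 2) y =
          T.indicator (fun p => ‖h p.2‖ₑ ^ 2) (c, y) := by
        intro c y
        simp only [hT, Set.indicator, Set.mem_ofPred_eq, Metric.mem_closedBall, dist_eq_norm]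
      simp_rw [h1]
      have hm : Measurable (T.indicator (fun p : ℂ × ℂ => ‖h p.2‖ₑ ^ 2)) :=
        (hmh.comp measurable_snd).indicator hTm
      exact hm.lintegral_prod_right'
    rw [lintegral_const_mul _ hml, lintegral_local _ hmh] at h2
    have h3 := h1.trans h2
    calc _ = V⁻¹ * (V * ∫⁻ k in Metric.closedBall (0 : ℂ) (1 / 2), ∫⁻ y, XX ζ h g a N k y) := by
          rw [← mul_assoc, ENNReal.inv_mul_cancel hV0 hVt, one_mul]
      _ ≤ V⁻¹ * _ := mul_le_mul_right h3 _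
      _ = C1 * ENNReal.ofReal (1 / (1 + |N|)) *
          ((∫⁻ w, ‖a w‖ₑ ^ 2) * ∫⁻ y, ‖h y‖ₑ ^ 2) := by
          rw [hC1]
          ring
      _ ≤ _ := by gcongr; exact le_self_add

end Run7.h764
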