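import Pool.Agent.N479.ER.Main

set_option autoImplicit false

/-! # The join of two Ramsey families -/

namespace Pool.Agent.Run7.h764.J

open Finset Pool.Agent.N479.ER

/-- a family found monochromatic in all colourings of the whole space is found monochromatic in the
colourings of a finite set -/
theorem good_of_all {T : Type} [Finite T] (D : T → T → ℝ)
    (H : ∀ (κ : Type) [Finite κ], ∃ (ι : Type) (_ : Fintype ι), ∀ c : (ι → ℝ) → κ,
      ∃ f : T → ι → ℝ, (∀ a b, sq (f a) (f b) = D a b) ∧ ∀ a b, c (f a) = c (f b)) : Good D := by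
  intro κ _
  obtain ⟨ι, i, H⟩ := H κ
  obtain ⟨W, hW⟩ := compactness D (Nat.card κ) (fun c _ => H c)
  refine ⟨ι, i, W, fun c => ?_⟩
  obtain ⟨f, fd, fc⟩ := hW (fun w => c w) (by
    rw [← Set.ncard_univ]
    exact Set.ncard_le_ncard (Set.subset_univ _) (Set.toFinite _))
  exact ⟨fun b => f b, fun b => (f b).2, fd, fc⟩

theorem Good.comap {B B' : Type} {D : B → B → ℝ} (h : Good D) (φ : B' → B) :
    Good (fun a b => D (φ a) (φ b)) := by
  intro κ _
  obtain ⟨ι, i, W, H⟩ := h κ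
  refine ⟨ι, i, W, fun c => ?_⟩
  obtain ⟨f, fm, fd, fc⟩ := H c
  exact ⟨fun b => f (φ b), fun b => fm _, fun a b => fd _ _, fun a b => fc _ _⟩

/-- the family together with a point off its hyperplane -/
theorem pyramid {A δ : Type} [Finite A] [Fintype δ] (x : A → δ → ℝ) (z₀ : δ → ℝ) (g : ℝ)
    (hg : 0 < g) (hx : Good (fun a b => sq (x a) (x b))) : Good (DT x z₀ g) := by
  apply good_of_all
  intro κ _
  obtain ⟨ι, i, H⟩ := main (κ := κ) x z₀ g hg (fun κ' _ => by
    obtain ⟨ι, i, W, H⟩ := hx κ'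
    refine ⟨ι, i, fun c => ?_⟩
    obtain ⟨f, -, fd, fc⟩ := H c
    exact ⟨f, fd, fc⟩) (Nat.card κ)
  refine ⟨ι, i, fun c => H c ?_⟩
  rw [← Set.ncard_univ]
  exact Set.ncard_le_ncard (Set.subset_univ _) (Set.toFinite _)

/-- the join -/
theorem join {A B δ ε : Type} [Finite A] [Finite B] [Fintype δ] [Fintype ε] (x : A → δ → ℝ)
    (y : B → ε → ℝ) (x₀ : δ → ℝ) (y₀ : ε → ℝ) (g : ℝ) (hg : 0 < g)
    (hx : Good (fun a b => sq (x a) (x b))) (hy : Good (fun a b => sq (y a) (y b)))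
    (D : A ⊕ B → A ⊕ B → ℝ) (h11 : ∀ a a', D (Sum.inl a) (Sum.inl a') = sq (x a) (x a'))
    (h22 : ∀ b b', D (Sum.inr b) (Sum.inr b') = sq (y b) (y b'))
    (h12 : ∀ a b, D (Sum.inl a) (Sum.inr b) = sq (x a) x₀ + g + sq (y b) y₀)
    (h21 : ∀ a b, D (Sum.inr b) (Sum.inl a) = sq (x a) x₀ + g + sq (y b) y₀) : Good D := by
  have h1 := Good.comap (pyramid x x₀ (g / 2) (half_pos hg) hx)
    (fun p : A ⊕ B => Sum.elim some (fun _ => none) p)
  have h2 := Good.comap (pyramid y y₀ (g / 2) (half_pos hg) hy)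
    (fun p : A ⊕ B => Sum.elim (fun _ => none) some p)
  refine (h1.add h2).congr fun p q => ?_
  rcases p with a | b <;> rcases q with a' | b'
  · simp only [Sum.elim_inl, DT]
    rw [h11, add_zero]
  · simp only [Sum.elim_inl, Sum.elim_inr, DT]
    rw [h12]
    ring
  · simp only [Sum.elim_inl, Sum.elim_inr, DT]
    rw [h21]
    ring
  · simp only [Sum.elim_inr, DT]
    rw [h22, zero_add]

end Pool.Agent.Run7.h764.J
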