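import Pool.Agent.Run7.h764.JJoin
import Pool.Agent.N479.SK.Kite

set_option autoImplicit false

/-! # The join of several Ramsey sets -/

namespace Pool.Agent.Run7.h764.J

open Finset Pool.Agent.N479.ER Module

variable {n : ℕ}

/-- the points `x p`, `p : P`, are found monochromatic -/
def GoodF {P : Type} (x : P → EuclideanSpace ℝ (Fin n)) : Prop :=
  Good (fun p q => dist (x p) (x q) ^ 2)

theorem dist_sq {m : ℕ} (x y : EuclideanSpace ℝ (Fin m)) :
    dist x y ^ 2 = sq x.ofLp y.ofLp := Pool.Agent.N479.SK.dist_sq' x y

theorem GoodF.comap {P Q : Type} {x : P → EuclideanSpace ℝ (Fin n)} (h : GoodF x) (φ : Q → P) :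
    GoodF (fun q => x (φ q)) := Good.comap h φ

/-- a point outside of the affine span is added -/
theorem GoodF.add_point {P : Type} [Finite P] [Nonempty P] {x : P → EuclideanSpace ℝ (Fin n)}
    (h : GoodF x) (z : EuclideanSpace ℝ (Fin n)) (hz : z ∉ affineSpan ℝ (Set.range x)) :
    GoodF (fun a : Option P => a.elim z x) := by
  classical
  have : Nonempty (affineSpan ℝ (Set.range x)) :=
    ((affineSpan_nonempty ℝ).mpr (Set.range_nonempty x)).to_subtype
  let z₀ : EuclideanSpace ℝ (Fin n) := (EuclideanGeometry.orthogonalProjection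
    (affineSpan ℝ (Set.range x)) z : EuclideanSpace ℝ (Fin n))
  have hg : 0 < dist z z₀ ^ 2 := by
    have h1 : dist z z₀ ≠ 0 := by
      exact EuclideanGeometry.dist_orthogonalProjection_ne_zero_of_notMem hz
    positivity
  have hx : ∀ p, dist (x p) z ^ 2 = dist (x p) z₀ ^ 2 + dist z z₀ ^ 2 := by
    intro p
    have h1 := EuclideanGeometry.dist_sq_eq_dist_orthogonalProjection_sq_add_dist_orthogonalProjection_sq
      (s := affineSpan ℝ (Set.range x)) z (mem_affineSpan ℝ (Set.mem_range_self p))
    nlinarith [h1]
  have h2 := pyramid (fun p => (x p).ofLp) z₀.ofLp (dist z z₀ ^ 2) hg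
    (Good.congr h fun p q => dist_sq _ _)
  refine Good.congr h2 fun a b => ?_
  rcases a with _ | a <;> rcases b with _ | b
  · simp [DT]
  · simp only [DT, Option.elim_none, Option.elim_some]
    rw [dist_comm z (x b), hx, dist_sq (x b)]
  · simp only [DT, Option.elim_none, Option.elim_some]
    rw [hx, dist_sq (x a)]
  · simp only [DT, Option.elim_some]
    rw [dist_sq]

/-- finitely many points in general position over the affine span are added -/
theorem GoodF.add_points {P I : Type} [Finite P] [Nonempty P]
    {x : P → EuclideanSpace ℝ (Fin n)} (h : GoodF x) (z : I → EuclideanSpace ℝ (Fin n))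
    (S : Finset I) (hz : ∀ T : Finset I, ∀ i ∈ S, T ⊆ S → i ∉ T →
      z i ∉ affineSpan ℝ (Set.range x ∪ z '' T)) :
    GoodF (Sum.elim x (fun i : {i // i ∈ S} => z i)) := by
  classical
  induction S using Finset.induction_on with
  | empty =>
    refine Good.congr (h.comap (fun a : P ⊕ {i // i ∈ (∅ : Finset I)} =>
      Sum.elim id (fun i => absurd i.2 (Finset.notMem_empty _)) a)) fun a b => ?_
    rcases a with a | a
    · rcases b with b | b
      · rfl
      · exact absurd b.2 (Finset.notMem_empty _)
    · exact absurd a.2 (Finset.notMem_empty _)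
  | insert i S hi ih =>
    have h1 := ih fun T j hj hT hjT => hz T j (Finset.mem_insert_of_mem hj)
      (hT.trans (Finset.subset_insert _ _)) hjT
    have h2 := h1.add_point (z i) (by
      have h3 := hz S i (Finset.mem_insert_self _ _) (Finset.subset_insert _ _) hi
      have h4 : Set.range (Sum.elim x fun j : {j // j ∈ S} => z j) = Set.range x ∪ z '' S := by
        rw [Set.Sum.elim_range]
        congr 1
        ext y
        constructor
        · rintro ⟨j, rfl⟩
          exact ⟨j, j.2, rfl⟩
        · rintro ⟨j, hj, rfl⟩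
          exact ⟨⟨j, hj⟩, rfl⟩
      rwa [h4])
    refine Good.congr (h2.comap (fun a : P ⊕ {j // j ∈ insert i S} =>
      Sum.elim (fun p => some (Sum.inl p)) (fun j : {j // j ∈ insert i S} => if hj : (j : I) = i then none else
        some (Sum.inr ⟨j, Finset.mem_of_mem_insert_of_ne j.2 hj⟩)) a)) fun a b => ?_
    have key : ∀ a : P ⊕ {j // j ∈ insert i S},
        ((Sum.elim (fun p => some (Sum.inl p)) (fun j : {j // j ∈ insert i S} =>
          if hj : (j : I) = i then none else
          some (Sum.inr ⟨j, Finset.mem_of_mem_insert_of_ne j.2 hj⟩)) a :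
            Option (P ⊕ {j // j ∈ S})).elim (z i) (Sum.elim x fun j : {j // j ∈ S} => z j)) =
          Sum.elim x (fun j : {j // j ∈ insert i S} => z j) a := by
      rintro (p | j)
      · rfl
      · simp only [Sum.elim_inr]
        by_cases hj : (j : I) = i
        · rw [dif_pos hj]
          simp [hj]
        · rw [dif_neg hj]
          rfl
    simp only [key]

end Pool.Agent.Run7.h764.J
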