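import Pool.Agent.Run7.h764.JMulti

set_option autoImplicit false

/-! # The join of several Ramsey sets: the projections -/

namespace Pool.Agent.Run7.h764.J

open Finset Pool.Agent.N479.ER Module

variable {n k : ℕ}

/-- the component orthogonal to all `V j` -/
noncomputable def L (V : Fin k → Submodule ℝ (EuclideanSpace ℝ (Fin n))) :
    EuclideanSpace ℝ (Fin n) →ₗ[ℝ] EuclideanSpace ℝ (Fin n) :=
  LinearMap.id - ∑ j, ((V j).starProjection : EuclideanSpace ℝ (Fin n) →ₗ[ℝ] _)

lemma L_apply (V : Fin k → Submodule ℝ (EuclideanSpace ℝ (Fin n)))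
    (d : EuclideanSpace ℝ (Fin n)) : L V d = d - ∑ j, (V j).starProjection d := by
  simp [L, LinearMap.sum_apply]

/-- the `j`-th share of the metric -/
noncomputable def t (V : Fin k → Submodule ℝ (EuclideanSpace ℝ (Fin n))) (s : ℝ) (j : Fin k) :
    EuclideanSpace ℝ (Fin n) →ₗ[ℝ] EuclideanSpace ℝ (Fin n) :=
  ((V j).starProjection : EuclideanSpace ℝ (Fin n) →ₗ[ℝ] _) + s • L V

lemma t_apply (V : Fin k → Submodule ℝ (EuclideanSpace ℝ (Fin n))) (s : ℝ) (j : Fin k)
    (d : EuclideanSpace ℝ (Fin n)) : t V s j d = (V j).starProjection d + s • L V d := by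
  simp [t]

section

variable {V : Fin k → Submodule ℝ (EuclideanSpace ℝ (Fin n))}
  (hV : ∀ i j, i ≠ j → ∀ u ∈ V i, ∀ v ∈ V j, inner ℝ u v = 0)

include hV

lemma proj_ne {i j : Fin k} (h : i ≠ j) {d : EuclideanSpace ℝ (Fin n)} (hd : d ∈ V i) :
    (V j).starProjection d = 0 := by
  rw [Submodule.starProjection_apply_eq_zero_iff, Submodule.mem_orthogonal]
  intro u hu
  exact hV j i h.symm u hu d hd

lemma L_inner {i : Fin k} (d v : EuclideanSpace ℝ (Fin n)) (hv : v ∈ V i) :
    inner ℝ (L V d) v = 0 := by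
  rw [L_apply, ← Finset.add_sum_erase univ _ (Finset.mem_univ i), ← sub_sub, inner_sub_left,
    Submodule.starProjection_inner_eq_zero _ _ hv, sum_inner, zero_sub, neg_eq_zero]
  refine Finset.sum_eq_zero fun j hj => ?_
  exact hV j i (Finset.ne_of_mem_erase hj) _ (Submodule.starProjection_apply_mem _ _) v hv

lemma L_mem {i : Fin k} {d : EuclideanSpace ℝ (Fin n)} (hd : d ∈ V i) : L V d = 0 := by
  rw [L_apply, Finset.sum_eq_single i]
  · rw [Submodule.starProjection_eq_self_iff.mpr hd, sub_self]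
  · intro j _ hj
    exact proj_ne hV hj.symm hd
  · intro h
    exact absurd (Finset.mem_univ _) h

lemma proj_L (i : Fin k) (d : EuclideanSpace ℝ (Fin n)) : (V i).starProjection (L V d) = 0 := by
  rw [Submodule.starProjection_apply_eq_zero_iff, Submodule.mem_orthogonal']
  intro u hu
  exact L_inner hV d u hu

lemma L_L (d : EuclideanSpace ℝ (Fin n)) : L V (L V d) = L V d := by
  rw [L_apply V (L V d), Finset.sum_eq_zero fun j _ => proj_L hV j d, sub_zero]

lemma norm_sq_split (d : EuclideanSpace ℝ (Fin n)) :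
    ‖d‖ ^ 2 = ‖L V d‖ ^ 2 + ∑ j, ‖(V j).starProjection d‖ ^ 2 := by
  have h1 : d = L V d + ∑ j, (V j).starProjection d := by
    rw [L_apply]
    abel
  have h2 : inner ℝ (L V d) (∑ j, (V j).starProjection d) = 0 := by
    rw [inner_sum]
    exact Finset.sum_eq_zero fun j _ => L_inner hV d _ (Submodule.starProjection_apply_mem _ _)
  have h3 : ‖∑ j, (V j).starProjection d‖ ^ 2 = ∑ j, ‖(V j).starProjection d‖ ^ 2 := by
    rw [← real_inner_self_eq_norm_sq, sum_inner]
    refine Finset.sum_congr rfl fun i _ => ?_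
    rw [inner_sum, Finset.sum_eq_single i]
    · rw [real_inner_self_eq_norm_sq]
    · intro j _ hj
      exact hV i j hj.symm _ (Submodule.starProjection_apply_mem _ _) _
        (Submodule.starProjection_apply_mem _ _)
    · intro h
      exact absurd (Finset.mem_univ _) h
  conv_lhs => rw [h1]
  rw [norm_add_sq_real, h2, h3]
  ring

lemma norm_t (s : ℝ) (j : Fin k) (d : EuclideanSpace ℝ (Fin n)) :
    ‖t V s j d‖ ^ 2 = ‖(V j).starProjection d‖ ^ 2 + s ^ 2 * ‖L V d‖ ^ 2 := by
  rw [t_apply, norm_add_sq_real, inner_smul_right, real_inner_comm,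
    L_inner hV d _ (Submodule.starProjection_apply_mem _ _), norm_smul, mul_pow, Real.norm_eq_abs,
    sq_abs]
  ring

lemma sum_norm_t (s : ℝ) (hs : k * s ^ 2 = 1) (d : EuclideanSpace ℝ (Fin n)) :
    ∑ j, ‖t V s j d‖ ^ 2 = ‖d‖ ^ 2 := by
  simp only [norm_t hV]
  rw [Finset.sum_add_distrib, Finset.sum_const, Finset.card_univ, Fintype.card_fin, nsmul_eq_mul,
    ← mul_assoc, hs, one_mul, norm_sq_split hV d, add_comm]

lemma t_mem_ne (s : ℝ) {i j : Fin k} (h : i ≠ j) {d : EuclideanSpace ℝ (Fin n)} (hd : d ∈ V i) :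
    t V s j d = 0 := by
  rw [t_apply, proj_ne hV h hd, L_mem hV hd, smul_zero, add_zero]

lemma t_mem (s : ℝ) {j : Fin k} {d : EuclideanSpace ℝ (Fin n)} (hd : d ∈ V j) :
    t V s j d = d := by
  rw [t_apply, Submodule.starProjection_eq_self_iff.mpr hd, L_mem hV hd, smul_zero, add_zero]

lemma L_t (s : ℝ) (j : Fin k) (d : EuclideanSpace ℝ (Fin n)) : L V (t V s j d) = s • L V d := by
  rw [t_apply, map_add, map_smul, L_L hV, L_mem hV (Submodule.starProjection_apply_mem _ _),
    zero_add]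

end

end Pool.Agent.Run7.h764.J
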