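import Pool.Agent.Run7.h764.JMulti2

set_option autoImplicit false

/-! # The join of several Ramsey sets: assembly -/

namespace Pool.Agent.Run7.h764.J

open Finset Pool.Agent.N479.ER Module

variable {n k : ℕ}

/-- independence of the components from the dimension formula -/
theorem indep (X : Fin k → Set (EuclideanSpace ℝ (Fin n))) (p : Fin k → EuclideanSpace ℝ (Fin n))
    (hp : ∀ j, p j ∈ X j)
    (hV : ∀ i j, i ≠ j → ∀ u ∈ vectorSpan ℝ (X i), ∀ v ∈ vectorSpan ℝ (X j), inner ℝ u v = 0)
    (hdim : finrank ℝ (vectorSpan ℝ (⋃ j, X j)) + 1 =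
      ∑ j, (finrank ℝ (vectorSpan ℝ (X j)) + 1)) :
    AffineIndependent ℝ (fun j => L (fun j => vectorSpan ℝ (X j)) (p j)) := by
  classical
  let V : Fin k → Submodule ℝ (EuclideanSpace ℝ (Fin n)) := fun j => vectorSpan ℝ (X j)
  obtain ⟨m, rfl⟩ : ∃ m, k = m + 1 := by
    refine ⟨k - 1, ?_⟩
    rcases k with _ | k
    · simp at hdim
    · rfl
  rw [affineIndependent_iff_le_finrank_vectorSpan ℝ _ (Fintype.card_fin _)]
  let T := vectorSpan ℝ (⋃ j, X j)
  let U := vectorSpan ℝ (Set.range fun j => L V (p j))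
  have hLT : ∀ d ∈ T, L V d ∈ U := by
    have h1 : T ≤ U.comap (L V) := by
      rw [show T = Submodule.span ℝ ((⋃ j, X j) -ᵥ (⋃ j, X j)) from rfl, Submodule.span_le]
      rintro _ ⟨x, hx, y, hy, rfl⟩
      obtain ⟨i, hi⟩ := Set.mem_iUnion.mp hx
      obtain ⟨j, hj⟩ := Set.mem_iUnion.mp hy
      have e1 : L V x = L V (p i) := by
        have := L_mem hV (i := i) (vsub_mem_vectorSpan ℝ hi (hp i))
        rw [vsub_eq_sub, map_sub] at this
        exact sub_eq_zero.mp this
      have e2 : L V y = L V (p j) := by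
        have := L_mem hV (i := j) (vsub_mem_vectorSpan ℝ hj (hp j))
        rw [vsub_eq_sub, map_sub] at this
        exact sub_eq_zero.mp this
      rw [SetLike.mem_coe, Submodule.mem_comap]
      simp only [vsub_eq_sub]
      rw [map_sub, e1, e2, ← vsub_eq_sub]
      exact vsub_mem_vectorSpan ℝ (Set.mem_range_self i) (Set.mem_range_self j)
    exact fun d hd => h1 hd
  let f : T →ₗ[ℝ] (U × (∀ j, V j)) :=
    LinearMap.prod ((L V).restrict hLT)
      (LinearMap.pi fun j => ((V j).orthogonalProjectionOnto : EuclideanSpace ℝ (Fin n) →ₗ[ℝ] V j) ∘ₗ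
        T.subtype)
  have hf : Function.Injective f := by
    rw [← LinearMap.ker_eq_bot, LinearMap.ker_eq_bot']
    intro d hd
    have h1 : L V d = 0 := by
      have := congrArg (fun z => ((z.1 : U) : EuclideanSpace ℝ (Fin n))) hd
      exact this
    have h2 : ∀ j, (V j).starProjection (d : EuclideanSpace ℝ (Fin n)) = 0 := by
      intro j
      have := congrArg (fun z => ((z.2 j : V j) : EuclideanSpace ℝ (Fin n))) hd
      exact this
    apply Subtype.ext
    rw [L_apply, Finset.sum_eq_zero fun j _ => h2 j, sub_zero] at h1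
    exact h1
  have h3 := LinearMap.finrank_le_finrank_of_injective hf
  rw [Module.finrank_prod, Module.finrank_pi_fintype] at h3
  rw [Finset.sum_add_distrib, Finset.sum_const, Finset.card_univ, Fintype.card_fin,
    smul_eq_mul, mul_one] at hdim
  change finrank ℝ T + 1 = ∑ j, finrank ℝ (V j) + (m + 1) at hdim
  change m ≤ finrank ℝ U
  omega

/-- the union of Ramsey sets in general position with perpendicular directions -/
theorem multi (X : Fin k → Set (EuclideanSpace ℝ (Fin n))) (hfin : ∀ j, (X j).Finite)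
    (hne : ∀ j, (X j).Nonempty) (hR : ∀ j, GoodF (fun a : X j => (a : EuclideanSpace ℝ (Fin n))))
    (hV : ∀ i j, i ≠ j → ∀ u ∈ vectorSpan ℝ (X i), ∀ v ∈ vectorSpan ℝ (X j), inner ℝ u v = 0)
    (hdim : finrank ℝ (vectorSpan ℝ (⋃ j, X j)) + 1 =
      ∑ j, (finrank ℝ (vectorSpan ℝ (X j)) + 1)) :
    GoodF (fun a : ↥(⋃ j, X j) => (a : EuclideanSpace ℝ (Fin n))) := by
  classical
  let V : Fin k → Submodule ℝ (EuclideanSpace ℝ (Fin n)) := fun j => vectorSpan ℝ (X j)
  choose p hp using hne
  have hk : 0 < k := by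
    rcases k with _ | k
    · simp at hdim
    · exact Nat.succ_pos k
  have hkr : (0 : ℝ) < k := by exact_mod_cast hk
  obtain ⟨s, hs0, hs⟩ : ∃ s : ℝ, s ≠ 0 ∧ k * s ^ 2 = 1 := by
    refine ⟨√(1 / k), (Real.sqrt_pos.mpr (by positivity)).ne', ?_⟩
    rw [Real.sq_sqrt (by positivity)]
    field_simp
  have hind0 := indep X p hp hV hdim
  have hind : AffineIndependent ℝ (fun j => s • L V (p j)) := by
    have := hind0.map' (s • (LinearMap.id : EuclideanSpace ℝ (Fin n) →ₗ[ℝ] _)).toAffineMap
      (by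
        intro a b hab
        simp only [LinearMap.coe_toAffineMap, LinearMap.smul_apply, LinearMap.id_apply] at hab
        exact smul_right_injective _ hs0 hab)
    exact this
  have hLX : ∀ i, ∀ a ∈ X i, L V a = L V (p i) := by
    intro i a ha
    have := L_mem hV (i := i) (vsub_mem_vectorSpan ℝ ha (hp i))
    rw [vsub_eq_sub, map_sub] at this
    exact sub_eq_zero.mp this
  -- the shares
  have hshare : ∀ j, GoodF (fun q : (Σ i, X i) => t V s j (q.2 : EuclideanSpace ℝ (Fin n))) := by
    intro j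
    have : Finite (X j) := (hfin j).to_subtype
    have : Nonempty (X j) := ⟨⟨p j, hp j⟩⟩
    have h1 : GoodF (fun a : X j => t V s j (a : EuclideanSpace ℝ (Fin n))) := by
      refine Good.congr (hR j) fun a b => ?_
      have e : t V s j ((a : EuclideanSpace ℝ (Fin n)) - b) = a - b :=
        t_mem hV s (vsub_mem_vectorSpan ℝ a.2 b.2)
      rw [dist_eq_norm, dist_eq_norm, ← map_sub, e]
    have h2 := h1.add_points (fun i => t V s j (p i)) (univ.erase j) (by
      intro T i hi hT hiT hmem
      have h3 := AffineSubspace.mem_map_of_mem (L V).toAffineMap hmem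
      rw [AffineSubspace.map_span] at h3
      have h4 : (L V).toAffineMap '' (Set.range (fun a : X j => t V s j (a : EuclideanSpace ℝ (Fin n)))
          ∪ (fun i => t V s j (p i)) '' T) ⊆ (fun l => s • L V (p l)) '' (insert j (T : Set (Fin k))) := by
        rintro _ ⟨_, ⟨a, rfl⟩ | ⟨l, hl, rfl⟩, rfl⟩
        · refine ⟨j, Set.mem_insert _ _, ?_⟩
          simp only [LinearMap.coe_toAffineMap]
          rw [L_t hV, hLX j a a.2]
        · refine ⟨l, Set.mem_insert_of_mem _ hl, ?_⟩
          simp only [LinearMap.coe_toAffineMap]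
          rw [L_t hV]
      have h5 := affineSpan_mono ℝ h4 h3
      simp only [LinearMap.coe_toAffineMap] at h5
      rw [L_t hV] at h5
      have h6 := (hind.mem_affineSpan_iff i _).mp h5
      rcases h6 with h6 | h6
      · exact Finset.ne_of_mem_erase hi h6
      · exact hiT h6)
    let φ : (Σ i, X i) → X j ⊕ {i // i ∈ univ.erase j} := fun q =>
      if h : q.1 = j then Sum.inl (h ▸ q.2) else Sum.inr ⟨q.1, Finset.mem_erase.mpr ⟨h, Finset.mem_univ _⟩⟩
    refine Good.congr (h2.comap φ) fun q q' => ?_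
    have key : ∀ q : (Σ i, X i), Sum.elim (fun a : X j => t V s j (a : EuclideanSpace ℝ (Fin n)))
        (fun i : {i // i ∈ univ.erase j} => t V s j (p i)) (φ q) =
        t V s j (q.2 : EuclideanSpace ℝ (Fin n)) := by
      rintro ⟨i, a⟩
      by_cases h : i = j
      · subst h
        simp [φ]
      · have e : φ ⟨i, a⟩ = Sum.inr ⟨i, Finset.mem_erase.mpr ⟨h, Finset.mem_univ _⟩⟩ := by
          simp only [φ]
          rw [dif_neg h]
        rw [e]
        simp only [Sum.elim_inr]
        have := t_mem_ne hV s h (vsub_mem_vectorSpan ℝ (hp i) a.2)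
        rw [vsub_eq_sub, map_sub] at this
        exact sub_eq_zero.mp this
    simp only [key]
  have hsum := Good.sum univ fun j (_ : j ∈ univ) => hshare j
  have hx : ∀ a : ↥(⋃ j, X j), ∃ q : (Σ i, X i), (q.2 : EuclideanSpace ℝ (Fin n)) = a := by
    intro a
    obtain ⟨i, hi⟩ := Set.mem_iUnion.mp a.2
    exact ⟨⟨i, ⟨a, hi⟩⟩, rfl⟩
  choose θ hθ using hx
  refine Good.congr (Good.comap hsum θ) fun a b => ?_
  simp only [hθ]
  rw [dist_eq_norm, ← sum_norm_t hV s hs]
  refine Finset.sum_congr rfl fun j _ => ?_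
  rw [dist_eq_norm, ← map_sub]

end Pool.Agent.Run7.h764.J
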