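import Pool.Agent.Run7.h764.Shift
set_option autoImplicit false

namespace Run7.h764

open MeasureTheory Complex Set Filter Topology
open scoped ENNReal NNReal

lemma hasDerivAt_ee {φ : ℝ → ℝ} {φ' ξ x : ℝ} (h : HasDerivAt φ φ' x) :
    HasDerivAt (fun p : ℝ => ee (ξ * φ p)) (ee (ξ * φ x) * (2 * Real.pi * ξ * φ' * I)) x := by
  unfold ee
  have h1 : HasDerivAt (fun p : ℝ => (2 * Real.pi * ((ξ * φ p : ℝ) : ℂ) * I))
      (2 * Real.pi * ((ξ * φ' : ℝ) : ℂ) * I) x := by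
    have h2 := (h.const_mul ξ).ofReal_comp
    exact (h2.const_mul (2 * Real.pi : ℂ)).mul_const I
  have h3 := h1.cexp
  have e : ∀ y : ℝ, ((2 * Real.pi * y : ℝ) : ℂ) * I = 2 * Real.pi * (y : ℂ) * I := by
    intro y
    push_cast
    ring
  simp_rw [e]
  refine h3.congr_deriv ?_
  push_cast
  ring

/-- first derivative test -/
lemma osc1 {φ φ' φ'' a a' : ℝ → ℝ} {α β L B A0 A1 ξ : ℝ} (hαβ : α ≤ β)
    (h1 : ∀ p ∈ Icc α β, HasDerivAt φ (φ' p) p) (h2 : ∀ p ∈ Icc α β, HasDerivAt φ' (φ'' p) p)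
    (h3 : ∀ p ∈ Icc α β, HasDerivAt a (a' p) p) (c1 : ContinuousOn φ'' (Icc α β))
    (c2 : ContinuousOn a' (Icc α β)) (hL : 0 < L) (b1 : ∀ p ∈ Icc α β, L ≤ |φ' p|)
    (b2 : ∀ p ∈ Icc α β, |φ'' p| ≤ B) (b3 : ∀ p ∈ Icc α β, |a p| ≤ A0)
    (b4 : ∀ p ∈ Icc α β, |a' p| ≤ A1) (hB : 0 ≤ B) (hA0 : 0 ≤ A0) (hA1 : 0 ≤ A1) (hξ : ξ ≠ 0) :
    ‖∫ p in α..β, (a p : ℂ) * ee (ξ * φ p)‖ ≤
      1 / |ξ| * (2 * A0 / L + (β - α) * (A1 / L + A0 * B / L ^ 2)) := by
  have hφ0 : ∀ p ∈ Icc α β, φ' p ≠ 0 := by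
    intro p hp h0
    have := b1 p hp
    rw [h0, abs_zero] at this
    linarith
  set F : ℝ → ℂ := fun p => ((a p / φ' p : ℝ) : ℂ) * ee (ξ * φ p) with hF
  set G : ℝ → ℂ := fun p => (((a' p * φ' p - a p * φ'' p) / φ' p ^ 2 : ℝ) : ℂ) *
    ee (ξ * φ p) with hG
  set E : ℝ → ℂ := fun p => (a p : ℂ) * ee (ξ * φ p) with hE
  have hder : ∀ p ∈ uIcc α β, HasDerivAt F (G p + (2 * Real.pi * ξ * I) * E p) p := by
    intro p hp
    rw [uIcc_of_le hαβ] at hp
    have d1 := ((h3 p hp).div (h2 p hp) (hφ0 p hp)).ofReal_comp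
    have d2 := d1.mul (hasDerivAt_ee (ξ := ξ) (h1 p hp))
    refine d2.congr_deriv ?_
    simp only [hG, hE]
    have hne : (φ' p : ℂ) ≠ 0 := by exact_mod_cast hφ0 p hp
    have e : ((a p / φ' p : ℝ) : ℂ) * (φ' p : ℂ) = (a p : ℂ) := by
      push_cast
      rw [div_mul_cancel₀ _ hne]
    have e' : (((a / φ') p : ℝ) : ℂ) * (φ' p : ℂ) = (a p : ℂ) := e
    linear_combination (ee (ξ * φ p) * (2 * Real.pi * ξ * I)) * e'
  have k0 : ContinuousOn φ (Icc α β) := fun p hp => (h1 p hp).continuousAt.continuousWithinAt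
  have k1 : ContinuousOn φ' (Icc α β) := fun p hp => (h2 p hp).continuousAt.continuousWithinAt
  have k2 : ContinuousOn a (Icc α β) := fun p hp => (h3 p hp).continuousAt.continuousWithinAt
  have kee : ContinuousOn (fun p => ee (ξ * φ p)) (Icc α β) :=
    continuous_ee.comp_continuousOn (continuousOn_const.mul k0)
  have kG : ContinuousOn G (Icc α β) := by
    refine ContinuousOn.mul ?_ kee
    refine Complex.continuous_ofReal.comp_continuousOn ?_
    exact ((c2.mul k1).sub (k2.mul c1)).div (k1.pow 2) (fun p hp => pow_ne_zero 2 (hφ0 p hp))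
  have kE : ContinuousOn E (Icc α β) :=
    (Complex.continuous_ofReal.comp_continuousOn k2).mul kee
  have iG : IntervalIntegrable G volume α β := by
    rw [← uIcc_of_le hαβ] at kG
    exact kG.intervalIntegrable
  have iE : IntervalIntegrable E volume α β := by
    rw [← uIcc_of_le hαβ] at kE
    exact kE.intervalIntegrable
  have hint := intervalIntegral.integral_eq_sub_of_hasDerivAt hder (iG.add (iE.const_mul _))
  rw [intervalIntegral.integral_add iG (iE.const_mul _),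
    intervalIntegral.integral_const_mul] at hint
  have hFb : ∀ p ∈ Icc α β, ‖F p‖ ≤ A0 / L := by
    intro p hp
    simp only [hF]
    rw [norm_mul, norm_ee, mul_one, Complex.norm_real, Real.norm_eq_abs, abs_div]
    have := b1 p hp
    have := b3 p hp
    gcongr
  have hGb : ∀ p ∈ Icc α β, ‖G p‖ ≤ A1 / L + A0 * B / L ^ 2 := by
    intro p hp
    simp only [hG]
    have q1 := b1 p hp
    have q2 := b2 p hp
    have q3 := b3 p hp
    have q4 := b4 p hp
    rw [norm_mul, norm_ee, mul_one, Complex.norm_real, Real.norm_eq_abs]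
    have e : (a' p * φ' p - a p * φ'' p) / φ' p ^ 2 = a' p / φ' p - a p * φ'' p / φ' p ^ 2 := by
      have := hφ0 p hp
      field_simp
    rw [e]
    refine (abs_sub _ _).trans (add_le_add ?_ ?_)
    · rw [abs_div]
      gcongr
    · rw [abs_div, abs_mul, abs_pow]
      gcongr
  have hI : ‖∫ p in α..β, G p‖ ≤ (A1 / L + A0 * B / L ^ 2) * |β - α| := by
    refine intervalIntegral.norm_integral_le_of_norm_le_const fun p hp => ?_
    rw [uIoc_of_le hαβ] at hp
    exact hGb p ⟨hp.1.le, hp.2⟩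
  rw [abs_of_nonneg (sub_nonneg.2 hαβ)] at hI
  have hmain : (2 * Real.pi * ξ * I : ℂ) * ∫ p in α..β, E p = F β - F α - ∫ p in α..β, G p := by
    rw [← hint]
    ring
  have hnorm : ‖(2 * Real.pi * ξ * I : ℂ)‖ = 2 * Real.pi * |ξ| := by
    rw [norm_mul, norm_mul, norm_mul, Complex.norm_I, mul_one, Complex.norm_real,
      Complex.norm_real, Real.norm_eq_abs, Real.norm_eq_abs, abs_of_pos Real.pi_pos]
    norm_num
  have h4 : 2 * Real.pi * |ξ| * ‖∫ p in α..β, E p‖ ≤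
      2 * A0 / L + (β - α) * (A1 / L + A0 * B / L ^ 2) := by
    rw [← hnorm, ← norm_mul, hmain]
    refine (norm_sub_le _ _).trans ((add_le_add (norm_sub_le _ _) hI).trans ?_)
    have f1 := hFb β ⟨hαβ, le_rfl⟩
    have f2 := hFb α ⟨le_rfl, hαβ⟩
    have e : 2 * A0 / L = A0 / L + A0 / L := by ring
    rw [e]
    linarith
  have hx : 0 < |ξ| := abs_pos.2 hξ
  rw [one_div, inv_mul_eq_div, le_div_iff₀ hx]
  have hpi : 1 ≤ 2 * Real.pi := by
    have := Real.pi_gt_three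
    linarith
  have h5 : ‖∫ p in α..β, E p‖ * |ξ| ≤ 2 * Real.pi * |ξ| * ‖∫ p in α..β, E p‖ := by
    have : 0 ≤ |ξ| * ‖∫ p in α..β, E p‖ := by positivity
    nlinarith
  linarith

/-! ### the geometry -/

/-- squared height -/
noncomputable def th (l p q : ℝ) : ℝ := p - ((q - p - l ^ 2) / (2 * l)) ^ 2

/-- auxiliary slope -/
noncomputable def mm (l p q : ℝ) : ℝ := (l ^ 2 + q - p) / √(th l p q)

lemma th_le (l p q : ℝ) : th l p q ≤ p := by
  unfold th
  have := sq_nonneg ((q - p - l ^ 2) / (2 * l))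
  linarith

lemma hasDerivAt_th_p {l : ℝ} (hl : 0 < l) (p q : ℝ) :
    HasDerivAt (fun p => th l p q) ((l ^ 2 + q - p) / (2 * l ^ 2)) p := by
  unfold th
  have h1 : HasDerivAt (fun p : ℝ => (q - p - l ^ 2) / (2 * l)) (-1 / (2 * l)) p := by
    have := (((hasDerivAt_id p).const_sub q).sub_const (l ^ 2)).div_const (2 * l)
    simpa using this
  have h2 := (hasDerivAt_id p).sub (h1.pow 2)
  refine h2.congr_deriv ?_
  have h21 : (2 : ℕ) - 1 = 1 := rfl
  rw [h21, pow_one]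
  push_cast
  field_simp
  ring

lemma hasDerivAt_th_q {l : ℝ} (hl : 0 < l) (p q : ℝ) :
    HasDerivAt (fun q => th l p q) (-(q - p - l ^ 2) / (2 * l ^ 2)) q := by
  unfold th
  have h1 : HasDerivAt (fun q : ℝ => (q - p - l ^ 2) / (2 * l)) (1 / (2 * l)) q := by
    have := (((hasDerivAt_id q).sub_const p).sub_const (l ^ 2)).div_const (2 * l)
    simpa using this
  have h2 := (hasDerivAt_const q p).sub (h1.pow 2)
  refine h2.congr_deriv ?_
  have h21 : (2 : ℕ) - 1 = 1 := rfl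
  rw [h21, pow_one]
  push_cast
  field_simp
  ring

lemma th_id1 {l : ℝ} (hl : 0 < l) (p q : ℝ) :
    2 * th l p q + (l ^ 2 + q - p) * ((l ^ 2 + q - p) / (2 * l ^ 2)) = 2 * q := by
  unfold th
  field_simp
  ring

lemma th_id2 {l : ℝ} (hl : 0 < l) (p q : ℝ) :
    2 * th l p q - (l ^ 2 + q - p) * (-(q - p - l ^ 2) / (2 * l ^ 2)) = p + q - l ^ 2 := by
  unfold th
  field_simp
  ring

lemma hasDerivAt_sqrt_th {l : ℝ} (hl : 0 < l) {p q : ℝ} (h : 0 < th l p q) :
    HasDerivAt (fun p => √(th l p q)) (mm l p q / (4 * l ^ 2)) p := by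
  have h1 := (hasDerivAt_th_p hl p q).sqrt h.ne'
  refine h1.congr_deriv ?_
  unfold mm
  have : √(th l p q) ≠ 0 := (Real.sqrt_pos.2 h).ne'
  field_simp
  ring

lemma hasDerivAt_mm_p {l : ℝ} (hl : 0 < l) {p q : ℝ} (h : 0 < th l p q) :
    HasDerivAt (fun p => mm l p q) (-q / (th l p q * √(th l p q))) p := by
  unfold mm
  have hs : 0 < √(th l p q) := Real.sqrt_pos.2 h
  have h1 : HasDerivAt (fun p : ℝ => l ^ 2 + q - p) (-1) p := by
    simpa using (hasDerivAt_id p).const_sub (l ^ 2 + q)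
  have h2 := (hasDerivAt_th_p hl p q).sqrt h.ne'
  have h3 := h1.div h2 hs.ne'
  refine h3.congr_deriv ?_
  have e1 := th_id1 hl p q
  have e2 : √(th l p q) ^ 2 = th l p q := Real.sq_sqrt h.le
  set s := √(th l p q) with hsdef
  set T := th l p q with hT
  rw [e2]
  rw [div_eq_div_iff (by positivity) (by positivity)]
  set t' := (l ^ 2 + q - p) / (2 * l ^ 2) with ht'
  have e3 : (-1 * s - (l ^ 2 + q - p) * (t' / (2 * s))) * (2 * s) = -(2 * T + (l ^ 2 + q - p) * t') := by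
    field_simp
    rw [e2]
    ring
  have e4 : (-1 * s - (l ^ 2 + q - p) * (t' / (2 * s))) * s = - q := by
    linarith
  calc _ = ((-1 * s - (l ^ 2 + q - p) * (t' / (2 * s))) * s) * T := by ring
    _ = _ := by rw [e4]

lemma hasDerivAt_mm_q {l : ℝ} (hl : 0 < l) {p q : ℝ} (h : 0 < th l p q) :
    HasDerivAt (fun q => mm l p q) ((p + q - l ^ 2) / (2 * (th l p q * √(th l p q)))) q := by
  unfold mm
  have hs : 0 < √(th l p q) := Real.sqrt_pos.2 h
  have h1 : HasDerivAt (fun q : ℝ => l ^ 2 + q - p) 1 q := by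
    simpa using ((hasDerivAt_id q).const_add (l ^ 2)).sub_const p
  have h2 := (hasDerivAt_th_q hl p q).sqrt h.ne'
  have h3 := h1.div h2 hs.ne'
  refine h3.congr_deriv ?_
  have e1 := th_id2 hl p q
  have e2 : √(th l p q) ^ 2 = th l p q := Real.sq_sqrt h.le
  set s := √(th l p q) with hsdef
  set T := th l p q with hT
  rw [e2]
  rw [div_eq_div_iff (by positivity) (by positivity)]
  set t' := -(q - p - l ^ 2) / (2 * l ^ 2) with ht'
  have e3 : (1 * s - (l ^ 2 + q - p) * (t' / (2 * s))) * (2 * s) = 2 * T - (l ^ 2 + q - p) * t' := by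
    field_simp
    rw [e2]
    ring
  rw [← e1, ← e3]
  ring

lemma hasDerivAt_inv_sqrt_th {l : ℝ} (hl : 0 < l) {p q : ℝ} (h : 0 < th l p q) :
    HasDerivAt (fun p => (√(th l p q))⁻¹) (-(mm l p q / (4 * l ^ 2)) / th l p q) p := by
  have hs : 0 < √(th l p q) := Real.sqrt_pos.2 h
  have h1 := (hasDerivAt_sqrt_th hl h).inv hs.ne'
  rw [Real.sq_sqrt h.le] at h1
  exact h1

end Run7.h764
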