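import Pool.Agent.Run7.h764.Osc1
set_option autoImplicit false

namespace Run7.h764

open MeasureTheory Complex Set Filter Topology
open scoped ENNReal NNReal

lemma convex_th (l q c : ℝ) : Convex ℝ {p : ℝ | c < th l p q} := by
  intro x hx y hy a b ha hb hab
  simp only [Set.mem_ofPred_eq, smul_eq_mul] at hx hy ⊢
  have e : th l (a * x + b * y) q = a * th l x q + b * th l y q +
      a * b * ((x - y) / (2 * l)) ^ 2 := by
    have hb' : b = 1 - a := by linarith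
    subst hb'
    unfold th
    ring
  rw [e]
  have h1 : 0 ≤ a * b * ((x - y) / (2 * l)) ^ 2 := by positivity
  rcases ha.eq_or_lt with h | h
  · have hb1 : b = 1 := by linarith
    subst hb1
    rw [← h] at h1 ⊢
    linarith
  · have h2 : a * c < a * th l x q := mul_lt_mul_of_pos_left hx h
    have h3 : b * c ≤ b * th l y q := mul_le_mul_of_nonneg_left hy.le hb
    have h4 : a * c + b * c = c := by rw [← add_mul, hab, one_mul]
    linarith

lemma th_between {l p q1 q2 z c : ℝ} (hz : z ∈ Icc q1 q2) (h1 : c ≤ th l p q1)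
    (h2 : c ≤ th l p q2) : c ≤ th l p z := by
  rcases eq_or_lt_of_le (hz.1.trans hz.2) with h | h
  · have : z = q1 := le_antisymm (h ▸ hz.2) hz.1
    rwa [this]
  · set b : ℝ := (z - q1) / (q2 - q1) with hb
    have hd : 0 < q2 - q1 := by linarith
    have hb0 : 0 ≤ b := div_nonneg (by linarith [hz.1]) hd.le
    have hb1 : b ≤ 1 := by
      rw [hb, div_le_one hd]
      linarith [hz.2]
    have hzb : z = (1 - b) * q1 + b * q2 := by
      have : b * (q2 - q1) = z - q1 := div_mul_cancel₀ _ hd.ne'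
      linarith
    have e : th l p z = (1 - b) * th l p q1 + b * th l p q2 +
        (1 - b) * b * ((q1 - q2) / (2 * l)) ^ 2 := by
      rw [hzb]
      unfold th
      ring
    rw [e]
    have h3 : 0 ≤ (1 - b) * b * ((q1 - q2) / (2 * l)) ^ 2 := by
      have : 0 ≤ 1 - b := by linarith
      positivity
    have h4 : (1 - b) * c ≤ (1 - b) * th l p q1 := mul_le_mul_of_nonneg_left h1 (by linarith)
    have h5 : b * c ≤ b * th l p q2 := mul_le_mul_of_nonneg_left h2 hb0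
    linarith

lemma continuous_th (l q : ℝ) : Continuous (fun p => th l p q) := by
  unfold th
  fun_prop

lemma continuous_th2 (l : ℝ) : Continuous (fun r : ℝ × ℝ => th l r.1 r.2) := by
  unfold th
  fun_prop

lemma mm_slope {l p q1 q2 c0 : ℝ} (hl : 0 < l) (hl2 : l ≤ 1 / 2) (hc : 0 < c0)
    (hp : p ∈ Icc (0.9 : ℝ) 1.3) (hq1 : 0.9 ≤ q1) (h12 : q1 < q2)
    (h1 : c0 ^ 2 ≤ th l p q1) (h2 : c0 ^ 2 ≤ th l p q2) :
    (q2 - q1) / 2 ≤ mm l p q2 - mm l p q1 := by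
  have hpos : ∀ z ∈ Icc q1 q2, 0 < th l p z := fun z hz =>
    lt_of_lt_of_le (by positivity) (th_between hz h1 h2)
  obtain ⟨z, hz, hzs⟩ := exists_hasDerivAt_eq_slope (fun q => mm l p q)
    (fun q => (p + q - l ^ 2) / (2 * (th l p q * √(th l p q)))) h12
    (fun z hz => (hasDerivAt_mm_q hl (hpos z hz)).continuousAt.continuousWithinAt)
    (fun z hz => hasDerivAt_mm_q hl (hpos z ⟨hz.1.le, hz.2.le⟩))
  have hzI : z ∈ Icc q1 q2 := ⟨hz.1.le, hz.2.le⟩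
  have hT := hpos z hzI
  have hTle : th l p z ≤ 1.3 := (th_le l p z).trans hp.2
  have hs : √(th l p z) ≤ 1.15 := by
    rw [Real.sqrt_le_left (by norm_num)]
    refine hTle.trans (by norm_num)
  have hs0 : 0 < √(th l p z) := Real.sqrt_pos.2 hT
  have hprod : th l p z * √(th l p z) ≤ 1.5 := by
    calc _ ≤ (1.3 : ℝ) * 1.15 := mul_le_mul hTle hs hs0.le (by norm_num)
      _ ≤ _ := by norm_num
  have hnum : 1.55 ≤ p + z - l ^ 2 := by
    have : l ^ 2 ≤ 1 / 4 := by nlinarith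
    have := hp.1
    have := hz.1
    norm_num at *
    linarith
  have hder : 1 / 2 ≤ (p + z - l ^ 2) / (2 * (th l p z * √(th l p z))) := by
    rw [le_div_iff₀ (by positivity)]
    linarith
  have hd : 0 < q2 - q1 := by linarith
  rw [hzs, le_div_iff₀ hd] at hder
  linarith

lemma mm_slope_abs {l p q1 q2 c0 : ℝ} (hl : 0 < l) (hl2 : l ≤ 1 / 2) (hc : 0 < c0)
    (hp : p ∈ Icc (0.9 : ℝ) 1.3) (hq1 : 0.9 ≤ q1) (hq2 : 0.9 ≤ q2) (hne : q1 ≠ q2)
    (h1 : c0 ^ 2 ≤ th l p q1) (h2 : c0 ^ 2 ≤ th l p q2) :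
    |q1 - q2| / 2 ≤ |mm l p q1 - mm l p q2| := by
  rcases lt_or_gt_of_ne hne with h | h
  · have := mm_slope hl hl2 hc hp hq1 h h1 h2
    rw [abs_sub_comm, abs_sub_comm (mm l p q1), abs_of_pos (by linarith)]
    exact this.trans (le_abs_self _)
  · have := mm_slope hl hl2 hc hp hq2 h h2 h1
    rw [abs_of_pos (by linarith)]
    exact this.trans (le_abs_self _)

lemma mm_abs {l p q c0 : ℝ} (hl : 0 < l) (hl2 : l ≤ 1 / 2) (hc : 0 < c0)
    (hp : p ∈ Icc (0.9 : ℝ) 1.3) (hq : q ∈ Icc (0.9 : ℝ) 1.3)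
    (h1 : c0 ^ 2 ≤ th l p q) : |mm l p q| ≤ 1 / c0 := by
  unfold mm
  have hs : c0 ≤ √(th l p q) := Real.le_sqrt_of_sq_le h1
  have hs0 : 0 < √(th l p q) := hc.trans_le hs
  rw [abs_div, abs_of_pos hs0]
  have hn : |l ^ 2 + q - p| ≤ 1 := by
    have h2 : l ^ 2 ≤ 1 / 4 := by nlinarith
    have h3 := hp.1
    have h4 := hp.2
    have h5 := hq.1
    have h6 := hq.2
    have h7 := sq_nonneg l
    rw [abs_le]
    norm_num at *
    constructor <;> linarith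
  gcongr

/-- the domain of the `p`-integral -/
def Pset (l c0 q1 q2 : ℝ) : Set ℝ :=
  {p | p ∈ Icc (0.9 : ℝ) 1.3 ∧ c0 ^ 2 < th l p q1 ∧ c0 ^ 2 < th l p q2}

lemma Pset_convex (l c0 q1 q2 : ℝ) : Convex ℝ (Pset l c0 q1 q2) := by
  have : Pset l c0 q1 q2 = Icc (0.9 : ℝ) 1.3 ∩ ({p : ℝ | c0 ^ 2 < th l p q1} ∩
      {p : ℝ | c0 ^ 2 < th l p q2}) := rfl
  rw [this]
  exact (convex_Icc _ _).inter ((convex_th l q1 _).inter (convex_th l q2 _))

lemma Pset_closure {l c0 q1 q2 p : ℝ} (hp : p ∈ closure (Pset l c0 q1 q2)) :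
    p ∈ Icc (0.9 : ℝ) 1.3 ∧ c0 ^ 2 ≤ th l p q1 ∧ c0 ^ 2 ≤ th l p q2 := by
  have hcl : IsClosed (Icc (0.9 : ℝ) 1.3 ∩ ({p : ℝ | c0 ^ 2 ≤ th l p q1} ∩
      {p : ℝ | c0 ^ 2 ≤ th l p q2})) :=
    isClosed_Icc.inter ((isClosed_le continuous_const (continuous_th l q1)).inter
      (isClosed_le continuous_const (continuous_th l q2)))
  have hsub : Pset l c0 q1 q2 ⊆ Icc (0.9 : ℝ) 1.3 ∩ ({p : ℝ | c0 ^ 2 ≤ th l p q1} ∩
      {p : ℝ | c0 ^ 2 ≤ th l p q2}) := fun x hx => ⟨hx.1, hx.2.1.le, hx.2.2.le⟩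
  exact closure_minimal hsub hcl hp

/-- the constant -/
noncomputable def KK (l0 c0 : ℝ) : ℝ :=
  4 * (2 * (1 / c0 ^ 2) + 1 / (l0 ^ 2 * c0 ^ 4) + (1 / c0 ^ 2) * (1 / (l0 ^ 2 * c0 ^ 3)))

lemma J_bound {l0 l c0 q1 q2 ξ : ℝ} (hl0 : 0 < l0) (hl : l0 ≤ l) (hl2 : l ≤ 1 / 2) (hc : 0 < c0)
    (hq1 : q1 ∈ Icc (0.9 : ℝ) 1.3) (hq2 : q2 ∈ Icc (0.9 : ℝ) 1.3) (hne : q1 ≠ q2) (hξ : ξ ≠ 0) :
    ‖∫ p in Pset l c0 q1 q2, (((√(th l p q1))⁻¹ * (√(th l p q2))⁻¹ : ℝ) : ℂ) *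
      ee (ξ * (√(th l p q1) - √(th l p q2)))‖ ≤ KK l0 c0 / (|ξ| * |q1 - q2| ^ 2) := by
  have hlpos : 0 < l := hl0.trans_le hl
  have hdpos : 0 < |q1 - q2| := abs_pos.2 (sub_ne_zero.2 hne)
  have hξpos : 0 < |ξ| := abs_pos.2 hξ
  have hKK : 0 < KK l0 c0 := by unfold KK; positivity
  set P := Pset l c0 q1 q2 with hP
  rcases P.eq_empty_or_nonempty with hemp | hnon
  · rw [hemp]
    simp only [Measure.restrict_empty, integral_zero_measure, norm_zero]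
    positivity
  have hbb : BddBelow P := ⟨0.9, fun x hx => hx.1.1⟩
  have hba : BddAbove P := ⟨1.3, fun x hx => hx.1.2⟩
  have hconv : Convex ℝ P := Pset_convex _ _ _ _
  have hcon : IsConnected P := ⟨hnon, hconv.isPreconnected⟩
  set α := sInf P with hα
  set β := sSup P with hβ
  have hsub1 : Ioo α β ⊆ P := hcon.Ioo_csInf_csSup_subset hbb hba
  have hsub2 : P ⊆ Icc α β := subset_Icc_csInf_csSup hbb hba
  have hαβ : α ≤ β := by
    obtain ⟨x, hx⟩ := hnon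
    exact (hsub2 hx).1.trans (hsub2 hx).2
  have hcl : Icc α β ⊆ closure P := by
    have h1 : α ∈ closure P := csInf_mem_closure hnon hbb
    have h2 : β ∈ closure P := csSup_mem_closure hnon hba
    exact hconv.closure.ordConnected.out h1 h2
  have hgood : ∀ p ∈ Icc α β, p ∈ Icc (0.9 : ℝ) 1.3 ∧ c0 ^ 2 ≤ th l p q1 ∧
      c0 ^ 2 ≤ th l p q2 := fun p hp => Pset_closure (hcl hp)
  have hae : P =ᵐ[volume] Ioc α β := by
    have h1 : Ioo α β ≤ᵐ[volume] P := Filter.Eventually.of_forall fun x hx => hsub1 hx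
    have h2 : P ≤ᵐ[volume] Icc α β := Filter.Eventually.of_forall fun x hx => hsub2 hx
    have h3 : Ioo α β =ᵐ[volume] Ioc α β := Ioo_ae_eq_Ioc
    have h4 : Icc α β =ᵐ[volume] Ioc α β := Ioc_ae_eq_Icc.symm
    exact (h2.trans h4.le).antisymm (h3.symm.le.trans h1)
  rw [setIntegral_congr_set hae, ← intervalIntegral.integral_of_le hαβ]
  set T1 : ℝ → ℝ := fun p => th l p q1 with hT1
  set T2 : ℝ → ℝ := fun p => th l p q2 with hT2
  have hc2 : 0 < c0 ^ 2 := by positivity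
  have p1 : ∀ p ∈ Icc α β, 0 < T1 p := fun p hp => hc2.trans_le (hgood p hp).2.1
  have p2 : ∀ p ∈ Icc α β, 0 < T2 p := fun p hp => hc2.trans_le (hgood p hp).2.2
  have s1 : ∀ p ∈ Icc α β, c0 ≤ √(T1 p) := fun p hp => Real.le_sqrt_of_sq_le (hgood p hp).2.1
  have s2 : ∀ p ∈ Icc α β, c0 ≤ √(T2 p) := fun p hp => Real.le_sqrt_of_sq_le (hgood p hp).2.2
  set L : ℝ := |q1 - q2| / 2 with hL
  have hLpos : 0 < L := by positivity
  have hL1 : L ≤ 1 := by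
    have h1 : |q1 - q2| ≤ 1 := by
      rw [abs_le]
      have := hq1.1
      have := hq1.2
      have := hq2.1
      have := hq2.2
      norm_num at *
      constructor <;> linarith
    linarith
  have hll : l0 ^ 2 ≤ l ^ 2 := by gcongr
  have h4l : 4 * l ^ 2 ≤ 1 := by nlinarith
  have cT1 : ContinuousOn T1 (Icc α β) := (continuous_th l q1).continuousOn
  have cT2 : ContinuousOn T2 (Icc α β) := (continuous_th l q2).continuousOn
  have cs1 : ContinuousOn (fun p => √(T1 p)) (Icc α β) := Real.continuous_sqrt.comp_continuousOn cT1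
  have cs2 : ContinuousOn (fun p => √(T2 p)) (Icc α β) := Real.continuous_sqrt.comp_continuousOn cT2
  have n1 : ∀ p ∈ Icc α β, √(T1 p) ≠ 0 := fun p hp => (Real.sqrt_pos.2 (p1 p hp)).ne'
  have n2 : ∀ p ∈ Icc α β, √(T2 p) ≠ 0 := fun p hp => (Real.sqrt_pos.2 (p2 p hp)).ne'
  have cm1 : ContinuousOn (fun p => mm l p q1) (Icc α β) := fun p hp =>
    (hasDerivAt_mm_p hlpos (p1 p hp)).continuousAt.continuousWithinAt
  have cm2 : ContinuousOn (fun p => mm l p q2) (Icc α β) := fun p hp =>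
    (hasDerivAt_mm_p hlpos (p2 p hp)).continuousAt.continuousWithinAt
  have key := osc1 (φ := fun p => √(th l p q1) - √(th l p q2))
    (φ' := fun p => (mm l p q1 - mm l p q2) / (4 * l ^ 2))
    (φ'' := fun p => (-q1 / (T1 p * √(T1 p)) - -q2 / (T2 p * √(T2 p))) / (4 * l ^ 2))
    (a := fun p => (√(th l p q1))⁻¹ * (√(th l p q2))⁻¹)
    (a' := fun p => (-(mm l p q1 / (4 * l ^ 2)) / T1 p) * (√(T2 p))⁻¹ +
      (√(T1 p))⁻¹ * (-(mm l p q2 / (4 * l ^ 2)) / T2 p))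
    (α := α) (β := β) (L := L) (B := 1 / (l0 ^ 2 * c0 ^ 3)) (A0 := 1 / c0 ^ 2)
    (A1 := 1 / (l0 ^ 2 * c0 ^ 4)) (ξ := ξ) hαβ ?_ ?_ ?_ ?_ ?_ hLpos ?_ ?_ ?_ ?_
    (by positivity) (by positivity) (by positivity) hξ
  · refine key.trans ?_
    have hβα : β - α ≤ 1 := by
      have h1 := (hgood α ⟨le_rfl, hαβ⟩).1.1
      have h2 := (hgood β ⟨hαβ, le_rfl⟩).1.2
      norm_num at *
      linarith
    have hβα0 : 0 ≤ β - α := by linarith
    have hLL : L ^ 2 ≤ L := by nlinarith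
    have e1 : 2 * (1 / c0 ^ 2) / L ≤ 2 * (1 / c0 ^ 2) / L ^ 2 := by gcongr
    have e2 : 1 / (l0 ^ 2 * c0 ^ 4) / L ≤ 1 / (l0 ^ 2 * c0 ^ 4) / L ^ 2 := by gcongr
    have e3 : (β - α) * (1 / (l0 ^ 2 * c0 ^ 4) / L +
        1 / c0 ^ 2 * (1 / (l0 ^ 2 * c0 ^ 3)) / L ^ 2) ≤
        1 * (1 / (l0 ^ 2 * c0 ^ 4) / L ^ 2 +
        1 / c0 ^ 2 * (1 / (l0 ^ 2 * c0 ^ 3)) / L ^ 2) := by gcongr
    calc _ ≤ 1 / |ξ| * (2 * (1 / c0 ^ 2) / L ^ 2 + 1 * (1 / (l0 ^ 2 * c0 ^ 4) / L ^ 2 +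
        1 / c0 ^ 2 * (1 / (l0 ^ 2 * c0 ^ 3)) / L ^ 2)) := by gcongr
      _ = _ := by
        rw [hL]
        unfold KK
        field_simp
        ring
  · intro p hp
    have := (hasDerivAt_sqrt_th hlpos (p1 p hp)).sub (hasDerivAt_sqrt_th hlpos (p2 p hp))
    refine this.congr_deriv ?_
    ring
  · intro p hp
    exact ((hasDerivAt_mm_p hlpos (p1 p hp)).sub
      (hasDerivAt_mm_p hlpos (p2 p hp))).div_const (4 * l ^ 2)
  · intro p hp
    exact (hasDerivAt_inv_sqrt_th hlpos (p1 p hp)).mul (hasDerivAt_inv_sqrt_th hlpos (p2 p hp))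
  · refine ContinuousOn.div_const (ContinuousOn.sub ?_ ?_) _
    · exact continuousOn_const.div (cT1.mul cs1) (fun p hp => mul_ne_zero (p1 p hp).ne' (n1 p hp))
    · exact continuousOn_const.div (cT2.mul cs2) (fun p hp => mul_ne_zero (p2 p hp).ne' (n2 p hp))
  · refine ContinuousOn.add (ContinuousOn.mul ?_ ?_) (ContinuousOn.mul ?_ ?_)
    · exact (cm1.div_const _).neg.div cT1 (fun p hp => (p1 p hp).ne')
    · exact cs2.inv₀ n2
    · exact cs1.inv₀ n1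
    · exact (cm2.div_const _).neg.div cT2 (fun p hp => (p2 p hp).ne')
  · intro p hp
    obtain ⟨g1, g2, g3⟩ := hgood p hp
    have h1 := mm_slope_abs hlpos hl2 hc g1 hq1.1 hq2.1 hne g2 g3
    rw [abs_div, abs_of_pos (by positivity : (0 : ℝ) < 4 * l ^ 2), le_div_iff₀ (by positivity)]
    calc L * (4 * l ^ 2) ≤ L * 1 := by gcongr
      _ ≤ _ := by rw [mul_one]; exact h1
  · intro p hp
    have a1 : |(-q1 / (T1 p * √(T1 p)))| ≤ 1.3 / c0 ^ 3 := by
      rw [abs_div, abs_neg, abs_of_nonneg (by linarith [hq1.1] : (0 : ℝ) ≤ q1),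
        abs_of_pos (mul_pos (p1 p hp) (hc.trans_le (s1 p hp)))]
      have b1 : c0 ^ 3 ≤ T1 p * √(T1 p) := by
        calc c0 ^ 3 = c0 ^ 2 * c0 := by ring
          _ ≤ _ := mul_le_mul (hgood p hp).2.1 (s1 p hp) hc.le (p1 p hp).le
      have := hq1.2
      gcongr
    have a2 : |(-q2 / (T2 p * √(T2 p)))| ≤ 1.3 / c0 ^ 3 := by
      rw [abs_div, abs_neg, abs_of_nonneg (by linarith [hq2.1] : (0 : ℝ) ≤ q2),
        abs_of_pos (mul_pos (p2 p hp) (hc.trans_le (s2 p hp)))]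
      have b1 : c0 ^ 3 ≤ T2 p * √(T2 p) := by
        calc c0 ^ 3 = c0 ^ 2 * c0 := by ring
          _ ≤ _ := mul_le_mul (hgood p hp).2.2 (s2 p hp) hc.le (p2 p hp).le
      have := hq2.2
      gcongr
    rw [abs_div, abs_of_pos (by positivity : (0 : ℝ) < 4 * l ^ 2)]
    have a3 : |(-q1 / (T1 p * √(T1 p))) - (-q2 / (T2 p * √(T2 p)))| ≤ 4 / c0 ^ 3 := by
      refine (abs_sub _ _).trans ?_
      calc _ ≤ 1.3 / c0 ^ 3 + 1.3 / c0 ^ 3 := add_le_add a1 a2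
        _ = 2.6 / c0 ^ 3 := by ring
        _ ≤ _ := by gcongr; norm_num
    calc _ ≤ (4 / c0 ^ 3) / (4 * l0 ^ 2) := by gcongr
      _ = _ := by field_simp
  · intro p hp
    rw [abs_mul, abs_inv, abs_inv, abs_of_pos (hc.trans_le (s1 p hp)),
      abs_of_pos (hc.trans_le (s2 p hp))]
    have a1 := inv_anti₀ hc (s1 p hp)
    have a2 := inv_anti₀ hc (s2 p hp)
    calc _ ≤ c0⁻¹ * c0⁻¹ := mul_le_mul a1 a2 (by positivity) (by positivity)
      _ = _ := by field_simp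
  · intro p hp
    obtain ⟨g1, g2, g3⟩ := hgood p hp
    have b1 := mm_abs hlpos hl2 hc g1 hq1 g2
    have b2 := mm_abs hlpos hl2 hc g1 hq2 g3
    have a1 := inv_anti₀ hc (s1 p hp)
    have a2 := inv_anti₀ hc (s2 p hp)
    have q1' : |(-(mm l p q1 / (4 * l ^ 2)) / T1 p) * (√(T2 p))⁻¹| ≤
        (1 / c0) / (4 * l0 ^ 2) / c0 ^ 2 * c0⁻¹ := by
      rw [abs_mul, abs_div, abs_neg, abs_div, abs_inv, abs_of_pos (p1 p hp),
        abs_of_pos (by positivity : (0 : ℝ) < 4 * l ^ 2), abs_of_pos (hc.trans_le (s2 p hp))]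
      gcongr
    have q2' : |(√(T1 p))⁻¹ * (-(mm l p q2 / (4 * l ^ 2)) / T2 p)| ≤
        c0⁻¹ * ((1 / c0) / (4 * l0 ^ 2) / c0 ^ 2) := by
      rw [abs_mul, abs_div, abs_neg, abs_div, abs_inv, abs_of_pos (p2 p hp),
        abs_of_pos (by positivity : (0 : ℝ) < 4 * l ^ 2), abs_of_pos (hc.trans_le (s1 p hp))]
      have w1 := p2 p hp
      gcongr
    refine (abs_add_le _ _).trans ((add_le_add q1' q2').trans ?_)
    have e : (1 / c0) / (4 * l0 ^ 2) / c0 ^ 2 * c0⁻¹ + c0⁻¹ * ((1 / c0) / (4 * l0 ^ 2) / c0 ^ 2) =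
        (1 / 2) * (1 / (l0 ^ 2 * c0 ^ 4)) := by
      field_simp
      ring
    rw [e]
    have : 0 ≤ 1 / (l0 ^ 2 * c0 ^ 4) := by positivity
    linarith

end Run7.h764
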