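import Pool.Agent.Run7.h764.QMain

set_option autoImplicit false

/-! # Spherical sets which are a simplex and one further point -/

namespace Pool.Agent.Run7.h764.Q

open Finset Pool.Agent.N479.ER Pool.Agent.N479.SK

/-- the squared distances of a simplex -/
lemma good_simplex {J : Type} [Fintype J] {m : ℕ} (t : J → EuclideanSpace ℝ (Fin m))
    (ht : AffineIndependent ℝ t) : GoodE (fun i j => sq (t i).ofLp (t j).ofLp) := by
  have h1 : AffineIndependent ℝ (fun i => (t i).ofLp) :=
    ((WithLp.linearEquiv 2 ℝ (Fin m → ℝ)).toAffineEquiv.affineIndependent_iff (p := t)).mpr ht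
  obtain ⟨μ, hμ, H⟩ := simplex_stable _ h1
  refine (H (fun _ _ => 0) (fun _ _ => by simpa using hμ.le) (fun _ => rfl)
    (fun _ _ => rfl)).congr fun i j => ?_
  simp

/-- the squared distances of a simplex and a point of its sphere in its affine hull -/
lemma good_simplex_point {J : Type} [Fintype J] {m : ℕ} (t : J → EuclideanSpace ℝ (Fin m))
    (ht : AffineIndependent ℝ t) (z : EuclideanSpace ℝ (Fin m)) (hz : ∀ j, t j ≠ z)
    (hzs : z ∈ affineSpan ℝ (Set.range t)) (o : EuclideanSpace ℝ (Fin m)) (r : ℝ)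
    (hr : ∀ j, dist (t j) o = r) (hzr : dist z o = r) :
    GoodE (fun a b : Option J => sq (a.elim z t).ofLp (b.elim z t).ofLp) := by
  classical
  have h1 : AffineIndependent ℝ (fun i => (t i).ofLp) :=
    ((WithLp.linearEquiv 2 ℝ (Fin m → ℝ)).toAffineEquiv.affineIndependent_iff (p := t)).mpr ht
  obtain ⟨w, hw, hwz⟩ := eq_affineCombination_of_mem_affineSpan_of_fintype hzs
  rw [Finset.affineCombination_eq_linear_combination _ _ _ hw] at hwz
  have hcomb : z.ofLp = comb w (fun j => (t j).ofLp) := by
    funext k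
    rw [hwz]
    simp [comb]
  -- two nonzero weights
  obtain ⟨j₁, hj₁⟩ : ∃ j, w j ≠ 0 := by
    by_contra h
    push Not at h
    simp [h] at hw
  obtain ⟨j₂, hj₂, h12⟩ : ∃ j, w j ≠ 0 ∧ j₁ ≠ j := by
    by_contra h
    push Not at h
    have h' : ∀ j, j ≠ j₁ → w j = 0 := by
      intro j hj
      by_contra hne
      exact hj (h j hne).symm
    have hw1 : w j₁ = 1 := by
      rw [← hw, Finset.sum_eq_single j₁ (fun j _ hj => h' j hj)
        (fun hh => absurd (Finset.mem_univ _) hh)]
    apply hz j₁
    rw [hwz, Finset.sum_eq_single j₁ (fun j _ hj => by rw [h' j hj, zero_smul])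
        (fun hh => absurd (Finset.mem_univ _) hh), hw1, one_smul]
  -- the sphere
  have hsq : ∀ x : EuclideanSpace ℝ (Fin m), dist x o = r → sq x.ofLp o.ofLp = r ^ 2 := by
    intro x hx
    rw [← dist_sq', hx]
  have h0 : qf w (fun i j => sq (t i).ofLp (t j).ofLp) = 0 := by
    have e := sq_comb_pt w hw (fun j => (t j).ofLp) o.ofLp
    rw [← hcomb, hsq z hzr, Finset.sum_congr rfl fun j _ => by rw [hsq _ (hr j)],
      ← Finset.sum_mul, hw] at e
    linarith
  -- the product with a point
  let W : Unit × J → ℝ := fun p => w p.2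
  have hW : ∑ p, W p = 1 := by
    rw [Fintype.sum_prod_type]
    simpa [W] using hw
  have hO : Over W (fun p q : Unit × J => (0 : ℝ) + sq (t p.2).ofLp (t q.2).ofLp) := by
    refine over_prod (fun _ _ : Unit => (0 : ℝ)) GoodE.zero (fun j => (t j).ofLp) h1 W hW ?_ j₁ j₂
      h12 (by simpa [W] using hj₁) (by simpa [W] using hj₂)
    unfold qf at h0 ⊢
    simpa [Fintype.sum_prod_type, W] using h0
  have hG := good_add W hW (fun p q : Unit × J => (0 : ℝ) + sq (t p.2).ofLp (t q.2).ofLp) (by
      unfold qf at h0 ⊢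
      simpa [Fintype.sum_prod_type, W] using h0) hO
    (fun a b => sq (a.elim z (fun p => t p.2)).ofLp (b.elim z (fun p => t p.2)).ofLp)
    (fun i j => by simp) (fun j => by
      simp only [Option.elim_none, Option.elim_some, zero_add]
      rw [hcomb, sq_comb_pt w hw, h0, mul_zero, sub_zero]
      simp [Fintype.sum_prod_type, W])
    (fun a b => sq_comm _ _) (sq_self _)
  refine (hG.comap (fun o : Option J => o.map fun j => ((), j))).congr fun a b => ?_
  rcases a with _ | a <;> rcases b with _ | b <;> rfl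

end Pool.Agent.Run7.h764.Q
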