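import Pool.Agent.N479.SR.Tri

set_option autoImplicit false

/-! # The gadget for arbitrary weights `v₀, v₁, v₂` with `v₁, v₂ ≠ 0`: five columns, two states -/

namespace Pool.Agent.Run7.h764.Q

open Finset Pool.Agent.N479.ER Pool.Agent.N479.SK

/-- the neutral state -/
def gN (x h k a b : ℝ) : Fin 3 → Fin 5 → ℝ :=
  ![![x + h, x + k, x, x + a, x + b],
    ![x + h, x + k, x + a, x + b, x],
    ![x + h, x + k, x + b, x, x + a]]

/-- the active state -/
def gA (x h k a b : ℝ) : Fin 3 → Fin 5 → ℝ :=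
  ![![x, x, x + h + k, x + a, x + b],
    ![x + a, x, x + h + k, x + b, x],
    ![x, x + b, x + h + k, x, x + a]]

/-- the combination with the weights `v` does not see the state -/
lemma g_Z (v : Fin 3 → ℝ) (hv : ∑ i, v i = 1) (x a b : ℝ) (q : Fin 5) :
    ∑ i, v i * gA x (v 1 * a) (v 2 * b) a b i q = ∑ i, v i * gN x (v 1 * a) (v 2 * b) a b i q := by
  have h0 : v 0 = 1 - v 1 - v 2 := by
    rw [Fin.sum_univ_three] at hv
    linarith
  fin_cases q <;> simp [gA, gN, Fin.sum_univ_three, h0] <;> ring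

lemma gN_law (x h k a b : ℝ) (φ : ℝ → ℝ) (i : Fin 3) :
    ∑ q, φ (gN x h k a b i q) =
      φ x + φ (x + h) + φ (x + k) + φ (x + a) + φ (x + b) := by
  fin_cases i <;> simp [gN, Fin.sum_univ_five] <;> ring

lemma gA_law (x h k a b : ℝ) (φ : ℝ → ℝ) (i : Fin 3) :
    ∑ q, φ (gA x h k a b i q) =
      φ x + φ (x + h) + φ (x + k) + φ (x + a) + φ (x + b)
        + (φ (x + h + k) - φ (x + h) - φ (x + k) + φ x) := by
  fin_cases i <;> simp [gA, Fin.sum_univ_five] <;> ring

/-- the metric of the neutral state -/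
def gm (a b : ℝ) (i j : Fin 3) : ℝ := if i = j then 0 else a ^ 2 + b ^ 2 + (a - b) ^ 2

/-- the difference of the metrics of the two states -/
def gd : Fin 3 → Fin 3 → ℝ := ![![0, 0, 0], ![0, 0, 1], ![0, 1, 0]]

lemma gN_m (x h k a b : ℝ) (i j : Fin 3) :
    ∑ q, (gN x h k a b i q - gN x h k a b j q) ^ 2 = gm a b i j := by
  fin_cases i <;> fin_cases j <;> simp [gN, Fin.sum_univ_five, gm] <;> ring

lemma gA_m (x h k a b : ℝ) (i j : Fin 3) :
    ∑ q, (gA x h k a b i q - gA x h k a b j q) ^ 2 = gm a b i j + gd i j * (2 * a * b) := by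
  fin_cases i <;> fin_cases j <;> simp [gA, Fin.sum_univ_five, gm, gd] <;> ring

lemma gm_nonneg (a b : ℝ) (i j : Fin 3) : 0 ≤ gm a b i j := by
  unfold gm
  split_ifs <;> positivity

lemma gm_le (a b : ℝ) (i j : Fin 3) : gm a b i j ≤ 3 * (a ^ 2 + b ^ 2) := by
  unfold gm
  split_ifs
  · positivity
  · nlinarith [sq_nonneg (a + b)]

lemma gd_le (i j : Fin 3) : |gd i j| ≤ 1 := by
  fin_cases i <;> fin_cases j <;> simp [gd]

/-! ### the assembled rows -/

section asm

variable {Y J U : Type} [Fintype J] [Fintype U] [DecidableEq Y]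

/-- the rows -/
def grow (v : Fin 3 → ℝ) (z : Y → J → ℝ) (ow : U → Y) (x a b : U → ℝ) (p : Y × Fin 3) :
    (J × Bool) ⊕ (U × Fin 5) → ℝ :=
  Sum.elim (fun s => if s.2 then z p.1 s.1 else - z p.1 s.1)
    (fun s => if ow s.1 = p.1 then
      gA (x s.1) (v 1 * a s.1) (v 2 * b s.1) (a s.1) (b s.1) p.2 s.2
      else gN (x s.1) (v 1 * a s.1) (v 2 * b s.1) (a s.1) (b s.1) p.2 s.2)

lemma grow_law (v : Fin 3 → ℝ) (z : Y → J → ℝ) (ow : U → Y) (x a b : U → ℝ) (φ : ℝ → ℝ) (p : Y)
    (i : Fin 3) : ∑ ω, φ (grow v z ow x a b (p, i) ω) =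
      ∑ j, (φ (z p j) + φ (- z p j)) +
      (∑ u, (φ (x u) + φ (x u + v 1 * a u) + φ (x u + v 2 * b u) + φ (x u + a u)
        + φ (x u + b u))
       + ∑ u, (if ow u = p then (φ (x u + v 1 * a u + v 2 * b u) - φ (x u + v 1 * a u)
          - φ (x u + v 2 * b u) + φ (x u)) else 0)) := by
  rw [Fintype.sum_sum_type, Fintype.sum_prod_type, Fintype.sum_prod_type]
  congr 1
  · refine Finset.sum_congr rfl fun j _ => ?_
    simp [grow]
  · rw [← Finset.sum_add_distrib]
    refine Finset.sum_congr rfl fun u _ => ?_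
    simp only [grow, Sum.elim_inr]
    split_ifs with hu
    · rw [gA_law]
    · rw [gN_law, add_zero]

lemma grow_m (v : Fin 3 → ℝ) (z : Y → J → ℝ) (ow : U → Y) (x a b : U → ℝ) (p : Y)
    (i j : Fin 3) :
    sq (grow v z ow x a b (p, i)) (grow v z ow x a b (p, j)) = ∑ u, gm (a u) (b u) i j +
      gd i j * ∑ u, (if ow u = p then 2 * a u * b u else 0) := by
  unfold Pool.Agent.N479.ER.sq
  rw [Fintype.sum_sum_type, Fintype.sum_prod_type, Fintype.sum_prod_type]
  have h1 : ∀ t : J, ∑ e : Bool, (grow v z ow x a b (p, i) (Sum.inl (t, e))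
      - grow v z ow x a b (p, j) (Sum.inl (t, e))) ^ 2 = 0 := fun t => by simp [grow]
  rw [Finset.sum_congr rfl fun t _ => h1 t, Finset.sum_const_zero, zero_add, Finset.mul_sum,
    ← Finset.sum_add_distrib]
  refine Finset.sum_congr rfl fun u _ => ?_
  simp only [grow, Sum.elim_inr]
  split_ifs with hu
  · exact gA_m _ _ _ _ _ i j
  · rw [mul_zero, add_zero]
    exact gN_m _ _ _ _ _ i j

lemma grow_Z (v : Fin 3 → ℝ) (hv : ∑ i, v i = 1) (z : Y → J → ℝ) (ow : U → Y) (x a b : U → ℝ)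
    (p p' : Y) :
    sq (comb v fun i => grow v z ow x a b (p, i))
      (comb v fun i => grow v z ow x a b (p', i)) = 2 * ∑ j, (z p j - z p' j) ^ 2 := by
  unfold Pool.Agent.N479.ER.sq
  rw [Fintype.sum_sum_type, Fintype.sum_prod_type, Fintype.sum_prod_type]
  have h2 : ∀ (u : U) (q : Fin 5), (comb v (fun i => grow v z ow x a b (p, i))
      (Sum.inr (u, q)) - comb v (fun i => grow v z ow x a b (p', i))
      (Sum.inr (u, q))) ^ 2 = 0 := by
    intro u q
    have key : ∀ p, comb v (fun i => grow v z ow x a b (p, i)) (Sum.inr (u, q)) =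
        ∑ i, v i * gN (x u) (v 1 * a u) (v 2 * b u) (a u) (b u) i q := by
      intro p
      simp only [comb, grow, Sum.elim_inr]
      split_ifs with hu
      · exact g_Z v hv _ _ _ q
      · rfl
    rw [key, key, sub_self]
    norm_num
  rw [Finset.sum_congr rfl fun u _ => Finset.sum_congr rfl fun q _ => h2 u q]
  simp only [Finset.sum_const_zero, add_zero]
  rw [Finset.mul_sum]
  refine Finset.sum_congr rfl fun j _ => ?_
  have h3 : ∀ (p : Y) (e : Bool), comb v (fun i => grow v z ow x a b (p, i))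
      (Sum.inl (j, e)) = if e then z p j else - z p j := by
    intro p e
    simp only [comb, grow, Sum.elim_inl]
    rw [← Finset.sum_mul, hv, one_mul]
  simp only [h3, Fintype.sum_bool, if_true, Bool.false_eq_true, if_false]
  ring

end asm

end Pool.Agent.Run7.h764.Q
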