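import Pool.Agent.Run7.h764.QWords

set_option autoImplicit false

/-! # Small perturbations of a simplex are Ramsey -/

namespace Pool.Agent.Run7.h764.Q

open Finset Pool.Agent.N479.ER Pool.Agent.N479.SK

/-- the Gram matrix of a simplex is bounded below -/
lemma gram_lower {I' ι : Type} [Fintype I'] [Fintype ι] (u : I' → ι → ℝ)
    (hu : LinearIndependent ℝ u) :
    ∃ l : ℝ, 0 < l ∧ ∀ x : I' → ℝ, l * ∑ i, x i ^ 2 ≤ ∑ k, (∑ i, x i * u i k) ^ 2 := by
  classical
  obtain ⟨K, hK, hA⟩ := LinearMap.exists_antilipschitzWith (Fintype.linearCombination ℝ u)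
    (by
      rw [LinearMap.ker_eq_bot']
      intro x hx
      funext i
      exact Fintype.linearIndependent_iff.mp hu x hx i)
  refine ⟨1 / (Fintype.card I' * K ^ 2 + 1), by positivity, fun x => ?_⟩
  have h1 : ‖x‖ ≤ K * ‖Fintype.linearCombination ℝ u x‖ := by
    have := hA.le_mul_dist x 0
    simpa [dist_zero_right] using this
  have h2 : ∑ i, x i ^ 2 ≤ Fintype.card I' * ‖x‖ ^ 2 := by
    have : ∀ i ∈ (univ : Finset I'), x i ^ 2 ≤ ‖x‖ ^ 2 := by
      intro i _
      rw [← sq_abs (x i), ← Real.norm_eq_abs]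
      exact pow_le_pow_left₀ (norm_nonneg _) (norm_le_pi_norm x i) 2
    refine (Finset.sum_le_sum this).trans (le_of_eq ?_)
    rw [Finset.sum_const, Finset.card_univ, nsmul_eq_mul]
  have h3 : ‖Fintype.linearCombination ℝ u x‖ ^ 2 ≤ ∑ k, (∑ i, x i * u i k) ^ 2 := by
    have e : ∀ k, (Fintype.linearCombination ℝ u x) k = ∑ i, x i * u i k := by
      intro k
      rw [Fintype.linearCombination_apply, Finset.sum_apply]
      rfl
    have hS : 0 ≤ ∑ k, (∑ i, x i * u i k) ^ 2 := Finset.sum_nonneg fun k _ => sq_nonneg _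
    have h4 : ‖Fintype.linearCombination ℝ u x‖ ≤ √(∑ k, (∑ i, x i * u i k) ^ 2) := by
      refine (pi_norm_le_iff_of_nonneg (Real.sqrt_nonneg _)).mpr fun k => ?_
      rw [e, Real.norm_eq_abs]
      apply Real.abs_le_sqrt
      exact Finset.single_le_sum (f := fun k => (∑ i, x i * u i k) ^ 2)
        (fun k _ => sq_nonneg _) (Finset.mem_univ k)
    calc ‖Fintype.linearCombination ℝ u x‖ ^ 2 ≤ (√(∑ k, (∑ i, x i * u i k) ^ 2)) ^ 2 :=
          pow_le_pow_left₀ (norm_nonneg _) h4 2
      _ = _ := Real.sq_sqrt hS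
  have h4 : ‖x‖ ^ 2 ≤ K ^ 2 * ∑ k, (∑ i, x i * u i k) ^ 2 := by
    calc ‖x‖ ^ 2 ≤ (K * ‖Fintype.linearCombination ℝ u x‖) ^ 2 :=
          pow_le_pow_left₀ (norm_nonneg _) h1 2
      _ = K ^ 2 * ‖Fintype.linearCombination ℝ u x‖ ^ 2 := by rw [mul_pow]
      _ ≤ _ := mul_le_mul_of_nonneg_left h3 (by positivity)
  rw [div_mul_eq_mul_div, one_mul, div_le_iff₀ (by positivity)]
  have hS : 0 ≤ ∑ k, (∑ i, x i * u i k) ^ 2 := Finset.sum_nonneg fun k _ => sq_nonneg _
  have h5 : (Fintype.card I' : ℝ) * ‖x‖ ^ 2 ≤ Fintype.card I' *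
      (K ^ 2 * ∑ k, (∑ i, x i * u i k) ^ 2) := mul_le_mul_of_nonneg_left h4 (by positivity)
  nlinarith

/-- a positive semidefinite symmetric kernel is a Gram kernel -/
lemma gram_of {I' : Type} [Fintype I'] (M : I' → I' → ℝ) (hs : ∀ i j, M i j = M j i)
    (hp : ∀ x : I' → ℝ, 0 ≤ ∑ i, ∑ j, x i * x j * M i j) :
    ∃ (m : ℕ) (w : I' → Fin m → ℝ), ∀ i j, ∑ k, w i k * w j k = M i j := by
  classical
  have h : (Matrix.of M).PosSemidef := by
    refine Matrix.PosSemidef.of_dotProduct_mulVec_nonneg ?_ fun x => ?_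
    · ext i j
      simp [hs i j]
    · have := hp x
      simp only [dotProduct, Matrix.mulVec, Matrix.of_apply, star_trivial]
      refine this.trans (le_of_eq ?_)
      refine Finset.sum_congr rfl fun i _ => ?_
      rw [Finset.mul_sum]
      exact Finset.sum_congr rfl fun j _ => by ring
  obtain ⟨m, v, hv⟩ := Matrix.posSemidef_iff_eq_sum_vecMulVec.mp h
  refine ⟨m, fun i k => v k i, fun i j => ?_⟩
  have := congrFun (congrFun hv i) j
  rw [Matrix.of_apply] at this
  rw [this, Matrix.sum_apply]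
  refine Finset.sum_congr rfl fun k _ => ?_
  simp [Matrix.vecMulVec_apply]

/-- small perturbations of simplices are found monochromatic -/
theorem simplex_stable {I ι : Type} [Fintype I] [Fintype ι] (s : I → ι → ℝ)
    (hs : AffineIndependent ℝ s) : ∃ μ : ℝ, 0 < μ ∧ ∀ E : I → I → ℝ, (∀ i j, |E i j| ≤ μ) →
      (∀ i, E i i = 0) → (∀ i j, E i j = E j i) → GoodE (fun i j => sq (s i) (s j) - E i j) := by
  classical
  rcases isEmpty_or_nonempty I with hI | ⟨⟨i₀⟩⟩
  · exact ⟨1, one_pos, fun E _ _ _ => GoodE.zero.congr fun b => (hI.false b).elim⟩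
  let I' := {i : I // i ≠ i₀}
  let u : I' → ι → ℝ := fun i => s i - s i₀
  have hu : LinearIndependent ℝ u := (affineIndependent_iff_linearIndependent_vsub ℝ s i₀).mp hs
  obtain ⟨l, hl, hlow⟩ := gram_lower u hu
  let n : ℝ := Fintype.card I'
  have hn : 0 ≤ n := by positivity
  let g : ℝ := l / (4 * (n + 1))
  have hg : 0 < g := by positivity
  let μ : ℝ := l / (4 * (n + 1))
  have hμ : 0 < μ := by positivity
  refine ⟨μ, hμ, fun E hE hE0 hEs => ?_⟩
  let N : I' → I' → ℝ := fun i j => ∑ k, u i k * u j k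
  let P : I' → I' → ℝ := fun i j => 1 / 2 * (E i i₀ + E i₀ j - E i j)
  let M : I' → I' → ℝ := fun i j => N i j - P i j - g * (1 + if i = j then 1 else 0)
  have hP : ∀ i j, |P i j| ≤ 3 / 2 * μ := by
    intro i j
    simp only [P]
    have h1 := abs_le.mp (hE i i₀)
    have h2 := abs_le.mp (hE i₀ j)
    have h3 := abs_le.mp (hE i j)
    rw [abs_le]
    constructor <;> linarith [h1.1, h1.2, h2.1, h2.2, h3.1, h3.2]
  obtain ⟨m, w, hw⟩ := gram_of M (fun i j => by
      simp only [M, N, P, hEs i i₀, hEs i₀ j, hEs i j, eq_comm (a := i) (b := j), mul_comm (u i _)]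
      ring) (fun x => by
      have e1 : ∑ i, ∑ j, x i * x j * N i j = ∑ k, (∑ i, x i * u i k) ^ 2 := by
        have h1 : ∀ i, ∑ j, x i * x j * N i j = ∑ k, ∑ j, x i * u i k * (x j * u j k) := by
          intro i
          rw [Finset.sum_comm]
          refine Finset.sum_congr rfl fun j _ => ?_
          simp only [N]
          rw [Finset.mul_sum]
          exact Finset.sum_congr rfl fun k _ => by ring
        rw [Finset.sum_congr rfl fun i _ => h1 i, Finset.sum_comm]
        refine Finset.sum_congr rfl fun k _ => ?_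
        rw [pow_two, Finset.sum_mul_sum]
      have e2 : ∑ i, ∑ j, x i * x j * (g * (1 + if i = j then 1 else 0)) =
          g * ((∑ i, x i) ^ 2 + ∑ i, x i ^ 2) := by
        have : ∀ i, ∑ j, x i * x j * (g * (1 + if i = j then 1 else 0)) =
            g * (x i * ∑ j, x j) + g * x i ^ 2 := by
          intro i
          have h1 : ∀ j, x i * x j * (g * (1 + if i = j then 1 else 0)) =
              g * (x i * x j) + (if i = j then g * (x i * x j) else 0) := by
            intro j
            split_ifs <;> ring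
          have h2 : ∑ j, (if i = j then g * (x i * x j) else 0) = g * (x i * x i) := by
            rw [Finset.sum_ite_eq]
            simp
          rw [Finset.sum_congr rfl fun j _ => h1 j, Finset.sum_add_distrib, h2, ← Finset.mul_sum,
            ← Finset.mul_sum]
          ring
        simp only [this, Finset.sum_add_distrib, ← Finset.mul_sum, ← Finset.sum_mul]
        ring
      have e3 : |∑ i, ∑ j, x i * x j * P i j| ≤ 3 / 2 * μ * (∑ i, |x i|) ^ 2 := by
        refine (Finset.abs_sum_le_sum_abs _ _).trans ?_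
        have : (3 / 2 * μ * (∑ i, |x i|) ^ 2) = ∑ i, ∑ j, |x i| * |x j| * (3 / 2 * μ) := by
          rw [pow_two, Finset.sum_mul_sum, Finset.mul_sum]
          refine Finset.sum_congr rfl fun i _ => ?_
          rw [Finset.mul_sum]
          exact Finset.sum_congr rfl fun j _ => by ring
        rw [this]
        refine Finset.sum_le_sum fun i _ => (Finset.abs_sum_le_sum_abs _ _).trans
          (Finset.sum_le_sum fun j _ => ?_)
        rw [abs_mul, abs_mul]
        exact mul_le_mul_of_nonneg_left (hP i j) (by positivity)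
      have e4 : (∑ i, |x i|) ^ 2 ≤ n * ∑ i, x i ^ 2 := by
        have := sq_sum_le_card_mul_sum_sq (s := (univ : Finset I')) (f := fun i => |x i|)
        simpa [n, sq_abs, Finset.card_univ] using this
      have e5 : (∑ i, x i) ^ 2 ≤ n * ∑ i, x i ^ 2 := by
        have := sq_sum_le_card_mul_sum_sq (s := (univ : Finset I')) (f := fun i => x i)
        simpa [n, Finset.card_univ] using this
      have e6 := hlow x
      have e7 : ∑ i, ∑ j, x i * x j * M i j = ∑ k, (∑ i, x i * u i k) ^ 2
          - ∑ i, ∑ j, x i * x j * P i j - g * ((∑ i, x i) ^ 2 + ∑ i, x i ^ 2) := by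
        rw [← e1, ← e2, ← Finset.sum_sub_distrib, ← Finset.sum_sub_distrib]
        refine Finset.sum_congr rfl fun i _ => ?_
        rw [← Finset.sum_sub_distrib, ← Finset.sum_sub_distrib]
        exact Finset.sum_congr rfl fun j _ => by simp only [M]; ring
      rw [e7]
      have hX : 0 ≤ ∑ i, x i ^ 2 := Finset.sum_nonneg fun i _ => sq_nonneg _
      set X := ∑ i, x i ^ 2
      have e8 := (abs_le.mp e3).2
      have e9 : 3 / 2 * μ * (∑ i, |x i|) ^ 2 ≤ 3 / 2 * μ * (n * X) :=
        mul_le_mul_of_nonneg_left e4 (by positivity)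
      have e10 : g * ((∑ i, x i) ^ 2 + X) ≤ g * (n * X + X) :=
        mul_le_mul_of_nonneg_left (by linarith) hg.le
      have e11 : 3 / 2 * μ * (n * X) + g * (n * X + X) ≤ l * X := by
        have hgn : g * (n + 1) = l / 4 := by
          simp only [g]
          field_simp
        have hμn : μ * n ≤ l / 4 := by
          have : μ * (n + 1) = l / 4 := by
            simp only [μ]
            field_simp
          nlinarith
        have : 3 / 2 * μ * (n * X) + g * (n * X + X) = (3 / 2 * (μ * n) + g * (n + 1)) * X := by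
          ring
        rw [this, hgn]
        refine mul_le_mul_of_nonneg_right ?_ hX
        linarith
      linarith)
  let W : I → Fin m → ℝ := fun i => if h : i = i₀ then 0 else w ⟨i, h⟩
  have hW0 : W i₀ = 0 := by simp [W]
  have hW : ∀ i : I', W i = w i := by
    intro i
    simp only [W]
    rw [dif_neg i.2]
  have hww : ∀ i j : I', sq (w i) (w j) = M i i + M j j - 2 * M i j := by
    intro i j
    unfold Pool.Agent.N479.ER.sq
    rw [← hw, ← hw, ← hw, Finset.mul_sum, ← Finset.sum_add_distrib, ← Finset.sum_sub_distrib]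
    exact Finset.sum_congr rfl fun k _ => by ring
  have hw0 : ∀ i : I', sq (w i) 0 = M i i := by
    intro i
    unfold Pool.Agent.N479.ER.sq
    rw [← hw]
    exact Finset.sum_congr rfl fun k _ => by simp; ring
  have hN : ∀ i j : I', sq (s i) (s j) = N i i + N j j - 2 * N i j := by
    intro i j
    unfold Pool.Agent.N479.ER.sq
    simp only [N, u, Pi.sub_apply]
    rw [Finset.mul_sum, ← Finset.sum_add_distrib, ← Finset.sum_sub_distrib]
    exact Finset.sum_congr rfl fun k _ => by ring
  have hN0 : ∀ i : I', sq (s i) (s i₀) = N i i := by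
    intro i
    unfold Pool.Agent.N479.ER.sq
    simp only [N, u, Pi.sub_apply]
    exact Finset.sum_congr rfl fun k _ => by ring
  have key0 : ∀ i : I', sq (s i) (s i₀) - E i i₀ = M i i + 2 * g := by
    intro i
    rw [hN0]
    simp only [M, P, hE0, if_true, hEs i₀ i]
    ring
  refine (simplex_goodE W g hg).congr fun b b' => ?_
  by_cases h : b = b'
  · subst h
    simp [sq_self, hE0]
  · rw [if_neg h]
    by_cases hb : b = i₀
    · have hb' : b' ≠ i₀ := fun e => h (hb.trans e.symm)
      have h1 := hW ⟨b', hb'⟩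
      simp only at h1
      rw [hb, hW0, h1, sq_comm, hw0, sq_comm, hEs, key0 ⟨b', hb'⟩]
    · by_cases hb' : b' = i₀
      · have h1 := hW ⟨b, hb⟩
        simp only at h1
        rw [hb', hW0, h1, hw0, key0 ⟨b, hb⟩]
      · have h1 := hW ⟨b, hb⟩
        have h2 := hW ⟨b', hb'⟩
        simp only at h1 h2
        rw [h1, h2, hww, hN ⟨b, hb⟩ ⟨b', hb'⟩]
        have hne : (⟨b, hb⟩ : I') ≠ ⟨b', hb'⟩ := fun e => h (congrArg Subtype.val e)
        simp only [M, P, hE0, if_true, if_neg hne, hEs i₀ b, hEs i₀ b']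
        ring

end Pool.Agent.Run7.h764.Q
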