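import Pool.Agent.N479.SR.Main
import Pool.Agent.N479.SK.Kite
import Pool.Agent.Run7.h764.QSimp

set_option autoImplicit false

/-! # Adding a point of the sphere to `A × S`, `A` found monochromatic on spheres, `S` a simplex -/

namespace Pool.Agent.Run7.h764.Q

open Finset Pool.Agent.N479.ER Pool.Agent.N479.SK

/-- `A × S` is realized over every finite spherical set -/
theorem over_prod {A J ι : Type} [Fintype A] [Fintype J] [Fintype ι] (DA : A → A → ℝ)
    (hA : GoodE DA) (s : J → ι → ℝ) (hs : AffineIndependent ℝ s) (w : A × J → ℝ)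
    (hw : ∑ p, w p = 1) (h0 : qf w (fun p q => DA p.1 q.1 + sq (s p.2) (s q.2)) = 0)
    (j₁ j₂ : J) (h12 : j₁ ≠ j₂) (h1 : ∑ a, w (a, j₁) ≠ 0) (h2 : ∑ a, w (a, j₂) ≠ 0) :
    Over w (fun p q => DA p.1 q.1 + sq (s p.2) (s q.2)) := by
  classical
  obtain ⟨μ, hμ, hst⟩ := simplex_stable s hs
  let ρ : J → Fin 3 := fun j => if j = j₁ then 1 else if j = j₂ then 2 else 0
  let v : Fin 3 → ℝ := fun a => ∑ p, (if ρ p.2 = a then w p else 0)
  have hv : ∑ a, v a = 1 := by
    simp only [v]
    rw [Finset.sum_comm, ← hw]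
    refine Finset.sum_congr rfl fun p _ => ?_
    rw [Finset.sum_ite_eq]
    simp
  have hfib : ∀ (a : Fin 3) (j : J), (∀ j', ρ j' = a ↔ j' = j) → v a = ∑ b, w (b, j) := by
    intro a j h
    simp only [v]
    rw [Fintype.sum_prod_type, Finset.sum_congr rfl fun b _ => ?_]
    simp only [h]
    rw [Finset.sum_ite_eq']
    simp
  have hv1 : v 1 = ∑ b, w (b, j₁) := hfib 1 j₁ fun j' => by
    by_cases e : j' = j₁
    · simp [ρ, e]
    · by_cases e' : j' = j₂
      · subst e'
        simp [ρ, e]
      · simp [ρ, e, e']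
  have hv2 : v 2 = ∑ b, w (b, j₂) := hfib 2 j₂ fun j' => by
    by_cases e : j' = j₁
    · subst e
      simp [ρ, h12]
    · by_cases e' : j' = j₂
      · subst e'
        simp [ρ, e]
      · simp [ρ, e, e']
  refine fun ι Y _ _ _ _ y R hR => over_of w _ h0 (fun p => ρ p.2) v hv (by rw [hv1]; exact h1)
    (by rw [hv2]; exact h2) (fun a => rfl) μ hμ (fun E hE hE0 hEs => ?_) ι Y y R hR
  refine ((hA.comap Prod.fst).add ((hst (fun i j => E (ρ i) (ρ j)) (fun i j => hE _ _)
    (fun i => hE0 _) (fun i j => hEs _ _)).comap Prod.snd)).congr fun p q => ?_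
  ring

/-- adding a combination of the points -/
theorem good_add {I : Type} [Fintype I] (w : I → ℝ) (hw : ∑ i, w i = 1) (Δ : I → I → ℝ)
    (h0 : qf w Δ = 0) (hO : Over w Δ) (D : Option I → Option I → ℝ)
    (hD : ∀ i j, D (some i) (some j) = Δ i j)
    (hD' : ∀ j, D none (some j) = ∑ i, w i * Δ i j) (hDs : ∀ a b, D a b = D b a)
    (hD0 : D none none = 0) : GoodE D := by
  classical
  have hI : Nonempty I := by
    by_contra h
    rw [not_nonempty_iff] at h
    rw [Finset.univ_eq_empty, Finset.sum_empty] at hw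
    exact zero_ne_one hw
  intro κ _
  rcases isEmpty_or_nonempty κ with hκ | hκ
  · exact ⟨Unit, inferInstance, ∅, fun c => (hκ.false (c 0)).elim⟩
  obtain ⟨ι, i, n, W, R, -, hR, H⟩ := mainG (κ := κ) w hw Δ h0 hO (Nat.card κ)
  refine ⟨ι, i, W, fun c => ?_⟩
  obtain ⟨f, hf, hfw, e, hc⟩ := H c (by
    refine (Set.ncard_le_ncard (Set.subset_univ _) (Set.toFinite _)).trans ?_
    rw [Set.ncard_univ])
  have hW : ∀ o : Option I, o.elim (comb w f) f ∈ W := by
    rintro (_ | i)
    · exact hfw
    · exact hf i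
  have key : ∀ j, sq (comb w f) (f j) = ∑ i, w i * Δ i j := by
    intro j
    rw [sq_comb_pt w hw]
    have : qf w (fun i j => sq (f i) (f j)) = 0 := by
      simp only [e]
      exact h0
    rw [this, mul_zero, sub_zero]
    exact Finset.sum_congr rfl fun i _ => by rw [e]
  refine ⟨fun o => o.elim (comb w f) f, hW, ?_, fun a b => by rw [hR _ (hW a), hR _ (hW b)], ?_⟩
  · rintro (_ | a) (_ | b)
    · simp only [Option.elim_none]
      rw [sq_self, hD0]
    · simp only [Option.elim_none, Option.elim_some]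
      rw [key, hD']
    · simp only [Option.elim_none, Option.elim_some]
      rw [sq_comm, key, hDs, hD']
    · simp only [Option.elim_some]
      rw [e, hD]
  · have hall : ∀ o : Option I, c (o.elim (comb w f) f) = c (comb w f) := by
      rintro (_ | i)
      · rfl
      · exact hc i
    intro a b
    rw [hall, hall]

end Pool.Agent.Run7.h764.Q
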