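import Pool.Agent.N479.SK.Real
import Pool.Agent.Run7.h764.QGad

set_option autoImplicit false

/-! # Words whose combinations with the weights `v` form a given spherical set -/

namespace Pool.Agent.Run7.h764.Q

open Finset Pool.Agent.N479.ER Pool.Agent.N479.SK

theorem words3 {ι : Type} [Fintype ι] [Nonempty ι] {Y : Type} [Finite Y] [Nonempty Y]
    (y : Y → ι → ℝ) (R : ℝ) (hR : ∀ p, ∑ i, y p i ^ 2 = R) (v : Fin 3 → ℝ)
    (hv : ∑ i, v i = 1) (hv1 : v 1 ≠ 0) (hv2 : v 2 ≠ 0) (μ : ℝ) (hμ : 0 < μ) :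
    ∃ (G : Y × Fin 3 → Y × Fin 3 → ℝ) (E : Fin 3 → Fin 3 → ℝ), GoodE G ∧
      (∀ i j, |E i j| ≤ μ) ∧ (∀ p i j, G (p, i) (p, j) = E i j) ∧
      ∀ p p', ∑ i, ∑ j, v i * v j * G (p, i) (p', j) - qf v E = sq (y p) (y p') := by
  classical
  have := Fintype.ofFinite Y
  obtain ⟨p₀⟩ := ‹Nonempty Y›
  let nY : ℝ := Fintype.card Y
  have hnY : 0 ≤ nY := by positivity
  let C : ℝ := 1 / (v 1) ^ 2 + 1 / (v 2) ^ 2
  have hC : 0 < C := by positivity
  let ε : ℝ := μ / (9 * C * nY + C + 1)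
  have hε : 0 < ε := by positivity
  obtain ⟨J, iJ, g, t, c, hc, hiso, hlaw, ht0, herr⟩ := sample y R hR ε hε
  let z : Y → J → ℝ := fun p j => ∑ i, g j i * y p i
  let h : Y → J → ℝ := fun p j => t p j - |z p j|
  let k : Y → J → ℝ := fun p j => t p j + |z p j|
  have hk0 : ∀ p j, 0 ≤ k p j := fun p j => add_nonneg (ht0 p j) (abs_nonneg _)
  have hhk : ∀ p j, |h p j| ≤ k p j := by
    intro p j
    have h1 := ht0 p j
    have h2 := abs_nonneg (z p j)
    simp only [h, k]
    rw [abs_le]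
    constructor <;> linarith
  have hhk' : ∀ p j, h p j * k p j = (t p j) ^ 2 - (z p j) ^ 2 := by
    intro p j
    simp only [h, k]
    rw [← sq_abs (z p j)]
    ring
  let m : Y → J → ℕ := fun p j => if h p j = 0 then 0 else ⌈k p j / |h p j|⌉₊
  have hm0 : ∀ p j, h p j = 0 → m p j = 0 := fun p j h0 => if_pos h0
  have hm1 : ∀ p j, h p j ≠ 0 → m p j = ⌈k p j / |h p j|⌉₊ := fun p j h0 => if_neg h0
  have hm2 : ∀ p j, h p j ≠ 0 → 0 < m p j := by
    intro p j h0
    rw [hm1 p j h0]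
    have := abs_pos.mpr h0
    exact Nat.ceil_pos.mpr (div_pos (lt_of_lt_of_le this (hhk p j)) this)
  let U := Σ q : Y × J, Fin (m q.1 q.2)
  let ow : U → Y := fun u => u.1.1
  let xu : U → ℝ := fun u => - t u.1.1 u.1.2 + ((u.2 : ℕ) : ℝ) * (k u.1.1 u.1.2 / m u.1.1 u.1.2)
  let au : U → ℝ := fun u => h u.1.1 u.1.2 / v 1
  let bu : U → ℝ := fun u => k u.1.1 u.1.2 / m u.1.1 u.1.2 / v 2
  have hva : ∀ u, v 1 * au u = h u.1.1 u.1.2 := fun u => mul_div_cancel₀ _ hv1
  have hvb : ∀ u, v 2 * bu u = k u.1.1 u.1.2 / m u.1.1 u.1.2 := fun u => mul_div_cancel₀ _ hv2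
  let F : Y × Fin 3 → (J × Bool) ⊕ (U × Fin 5) → ℝ := grow v z ow xu au bu
  -- sums over the units of one point
  have hown : ∀ (f : U → ℝ) (p : Y), ∑ u, (if ow u = p then f u else 0) =
      ∑ j, ∑ e : Fin (m p j), f ⟨(p, j), e⟩ := by
    intro f p
    rw [Fintype.sum_sigma, Fintype.sum_prod_type, Finset.sum_eq_single p]
    · refine Finset.sum_congr rfl fun j _ => Finset.sum_congr rfl fun e _ => ?_
      exact if_pos rfl
    · intro p' _ hp'
      refine Finset.sum_eq_zero fun j _ => Finset.sum_eq_zero fun e _ => ?_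
      exact if_neg hp'
    · intro hh
      exact absurd (Finset.mem_univ _) hh
  -- the laws
  have habs : ∀ (φ : ℝ → ℝ) (s : ℝ), φ |s| + φ (-|s|) = φ s + φ (-s) := by
    intro φ s
    rcases abs_choice s with h1 | h1
    · rw [h1]
    · rw [h1, neg_neg, add_comm]
  have hF : ∀ (φ : ℝ → ℝ) (p : Y) (i : Fin 3), ∑ ω, φ (F (p, i) ω) =
      ∑ j, (φ (t p j) + φ (- t p j)) +
      ∑ u, (φ (xu u) + φ (xu u + v 1 * au u) + φ (xu u + v 2 * bu u) + φ (xu u + au u)
        + φ (xu u + bu u)) := by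
    intro φ p i
    simp only [F]
    rw [grow_law, hown]
    have h1 : ∀ j, ∑ e : Fin (m p j), (φ (xu ⟨(p, j), e⟩ + v 1 * au ⟨(p, j), e⟩
          + v 2 * bu ⟨(p, j), e⟩)
        - φ (xu ⟨(p, j), e⟩ + v 1 * au ⟨(p, j), e⟩) - φ (xu ⟨(p, j), e⟩ + v 2 * bu ⟨(p, j), e⟩)
        + φ (xu ⟨(p, j), e⟩)) = (φ (t p j) + φ (- t p j)) - (φ (z p j) + φ (- z p j)) := by
      intro j
      by_cases h0 : h p j = 0
      · have h2 : m p j = 0 := hm0 p j h0
        have h3 : IsEmpty (Fin (m p j)) := by rw [h2]; infer_instance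
        have h4 : t p j = |z p j| := by simp only [h] at h0; linarith
        rw [Finset.univ_eq_empty, Finset.sum_empty, h4, habs, sub_self]
      · have h2 := telescope φ (- t p j) (h p j) (k p j) (m p j) (hm2 p j h0)
        simp only [hva, hvb]
        simp only [xu]
        rw [h2, ← habs φ (z p j)]
        rw [show - t p j + k p j + h p j = t p j by simp only [h, k]; ring,
          show - t p j + k p j = |z p j| by simp only [k]; ring,
          show - t p j + h p j = - |z p j| by simp only [h]; ring]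
        ring
    rw [Finset.sum_congr rfl fun j _ => h1 j, Finset.sum_sub_distrib]
    ring
  have hF' : ∀ (φ : ℝ → ℝ) (b b' : Y × Fin 3), ∑ ω, φ (F b ω) = ∑ ω, φ (F b' ω) := by
    rintro φ ⟨p, i⟩ ⟨p', i'⟩
    rw [hF, hF, hlaw (fun s => φ s + φ (-s)) p p']
  have hgood : GoodE (fun b b' => sq (F b) (F b')) := GoodE.words F hF'
  -- the metric
  let δ : ℝ := 2 / (v 1 * v 2) * ((∑ j, (t p₀ j) ^ 2) - c * R)
  have hδ : ∀ p, ∑ u, (if ow u = p then 2 * au u * bu u else 0) = δ := by
    intro p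
    rw [hown]
    have h1 : ∀ j, ∑ e : Fin (m p j), 2 * au ⟨(p, j), e⟩ * bu ⟨(p, j), e⟩ =
        2 / (v 1 * v 2) * ((t p j) ^ 2 - (z p j) ^ 2) := by
      intro j
      rw [← hhk']
      simp only [au, bu]
      rw [Finset.sum_const, Finset.card_univ, Fintype.card_fin, nsmul_eq_mul]
      by_cases h0 : h p j = 0
      · rw [h0]
        simp
      · have h2 : (m p j : ℝ) ≠ 0 := by exact_mod_cast (hm2 p j h0).ne'
        field_simp
    rw [Finset.sum_congr rfl fun j _ => h1 j, ← Finset.mul_sum, Finset.sum_sub_distrib]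
    simp only [δ]
    rw [hlaw (fun s => s ^ 2) p p₀]
    congr 2
    simp only [z]
    rw [hiso (y p), hR p]
  let E₀ : Fin 3 → Fin 3 → ℝ := fun i j => ∑ u, gm (au u) (bu u) i j + gd i j * δ
  have hm' : ∀ p i j, sq (F (p, i)) (F (p, j)) = E₀ i j := by
    intro p i j
    have := grow_m v z ow xu au bu p i j
    rw [hδ] at this
    exact this
  -- the size of the metric
  have herr' : ∀ p, ∑ j, |(t p j) ^ 2 - (z p j) ^ 2| ≤ ε * c := herr
  have hE1 : ∀ i j, ∑ u, gm (au u) (bu u) i j ≤ 9 * C * (nY * (ε * c)) := by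
    intro i j
    rw [Fintype.sum_sigma, Fintype.sum_prod_type]
    have h1 : ∀ p l, ∑ e : Fin (m p l), gm (au ⟨(p, l), e⟩) (bu ⟨(p, l), e⟩) i j ≤
        9 * C * |(t p l) ^ 2 - (z p l) ^ 2| := by
      intro p l
      rw [← hhk']
      simp only [au, bu]
      rw [Finset.sum_const, Finset.card_univ, Fintype.card_fin, nsmul_eq_mul]
      by_cases h0 : h p l = 0
      · rw [hm0 p l h0]
        simp [h0]
      · have h2 := cell_cost (h p l) (k p l) (m p l) (hk0 p l) (hhk p l) h0 (hm1 p l h0)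
        have h3 := gm_le (h p l / v 1) (k p l / m p l / v 2) i j
        have h4 : (0 : ℝ) ≤ m p l := by positivity
        have h5 : 3 * ((h p l / v 1) ^ 2 + (k p l / m p l / v 2) ^ 2) ≤
            3 * C * (h p l ^ 2 + (k p l / m p l) ^ 2) := by
          simp only [C]
          rw [div_pow _ (v 1), div_pow _ (v 2)]
          have e1 : (0 : ℝ) ≤ 1 / v 1 ^ 2 * (k p l / m p l) ^ 2 := by positivity
          have e2 : (0 : ℝ) ≤ 1 / v 2 ^ 2 * h p l ^ 2 := by positivity
          have e3 : (k p l / m p l) ^ 2 / v 2 ^ 2 = 1 / v 2 ^ 2 * (k p l / m p l) ^ 2 := by ring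
          have e4 : h p l ^ 2 / v 1 ^ 2 = 1 / v 1 ^ 2 * h p l ^ 2 := by ring
          rw [e3, e4]
          nlinarith
        calc (m p l : ℝ) * gm (h p l / v 1) (k p l / m p l / v 2) i j
            ≤ m p l * (3 * C * ((h p l) ^ 2 + (k p l / m p l) ^ 2)) :=
              mul_le_mul_of_nonneg_left (h3.trans h5) h4
          _ = 3 * C * (m p l * ((h p l) ^ 2 + (k p l / m p l) ^ 2)) := by ring
          _ ≤ 3 * C * (3 * (|h p l| * k p l)) :=
              mul_le_mul_of_nonneg_left h2 (by positivity)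
          _ = 9 * C * |h p l * k p l| := by
              rw [abs_mul, abs_of_nonneg (hk0 p l)]
              ring
    have h2 : ∀ p, ∑ l, ∑ e : Fin (m p l), gm (au ⟨(p, l), e⟩) (bu ⟨(p, l), e⟩) i j ≤
        9 * C * (ε * c) := by
      intro p
      refine (Finset.sum_le_sum fun l _ => h1 p l).trans ?_
      rw [← Finset.mul_sum]
      exact mul_le_mul_of_nonneg_left (herr' p) (by positivity)
    refine (Finset.sum_le_sum fun p _ => h2 p).trans (le_of_eq ?_)
    rw [Finset.sum_const, Finset.card_univ, nsmul_eq_mul]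
    simp only [nY]
    ring
  have hCv : |2 / (v 1 * v 2)| ≤ C := by
    have e1 : |2 / (v 1 * v 2)| = 2 * (1 / |v 1|) * (1 / |v 2|) := by
      rw [abs_div, abs_mul, abs_of_pos (by norm_num : (0 : ℝ) < 2)]
      have h1 : |v 1| ≠ 0 := abs_ne_zero.mpr hv1
      have h2 : |v 2| ≠ 0 := abs_ne_zero.mpr hv2
      field_simp
    have e2 : C = (1 / |v 1|) ^ 2 + (1 / |v 2|) ^ 2 := by
      simp only [C]
      rw [div_pow, div_pow, sq_abs, sq_abs, one_pow]
    rw [e1, e2]
    exact two_mul_le_add_sq _ _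
  have hδ1 : |δ| ≤ C * (ε * c) := by
    have h1 : δ = 2 / (v 1 * v 2) * ∑ j, ((t p₀ j) ^ 2 - (z p₀ j) ^ 2) := by
      simp only [δ]
      rw [Finset.sum_sub_distrib]
      congr 2
      simp only [z]
      rw [hiso (y p₀), hR p₀]
    rw [h1, abs_mul]
    refine mul_le_mul hCv ?_ (abs_nonneg _) hC.le
    exact (Finset.abs_sum_le_sum_abs _ _).trans (herr' p₀)
  have hE2 : ∀ i j, |E₀ i j| ≤ 2 * c * μ := by
    intro i j
    have h1 : |E₀ i j| ≤ ∑ u, gm (au u) (bu u) i j + |gd i j| * |δ| := by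
      simp only [E₀]
      refine (abs_add_le _ _).trans ?_
      rw [abs_mul, abs_of_nonneg (Finset.sum_nonneg fun u _ => gm_nonneg _ _ _ _)]
    have h2 : |gd i j| * |δ| ≤ C * (ε * c) := by
      have := mul_le_mul (gd_le i j) hδ1 (abs_nonneg _) (by norm_num)
      linarith
    have h3 := hE1 i j
    have h4 : 9 * C * (nY * (ε * c)) + C * (ε * c) ≤ 2 * c * μ := by
      have e1 : 9 * C * (nY * (ε * c)) + C * (ε * c) =
          c * ((9 * C * nY + C) * ε) := by ring
      have e2 : (9 * C * nY + C) * ε ≤ μ := by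
        simp only [ε]
        rw [mul_div_assoc', div_le_iff₀ (by positivity)]
        nlinarith
      rw [e1]
      have e3 : 0 < c * μ := by positivity
      have e4 := mul_le_mul_of_nonneg_left e2 hc.le
      linarith
    linarith
  have hcc : c ≠ 0 := hc.ne'
  refine ⟨fun b b' => 1 / (2 * c) * sq (F b) (F b'), fun i j => 1 / (2 * c) * E₀ i j,
    hgood.smul (by positivity), fun i j => ?_, fun p i j => ?_, fun p p' => ?_⟩
  · rw [abs_mul, abs_of_pos (by positivity : (0 : ℝ) < 1 / (2 * c))]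
    have := hE2 i j
    rw [div_mul_eq_mul_div, div_le_iff₀ (by positivity)]
    linarith
  · simp only
    rw [hm']
  · have h1 := sq_comb_comb v hv (fun i => F (p, i)) (fun i => F (p', i))
    have h2 : sq (comb v fun i => F (p, i)) (comb v fun i => F (p', i))
        = 2 * (c * sq (y p) (y p')) := by
      rw [show sq (comb v fun i => F (p, i)) (comb v fun i => F (p', i))
        = 2 * ∑ j, (z p j - z p' j) ^ 2 from grow_Z v hv z ow xu au bu p p']
      congr 1
      have h4 := hiso (fun i => y p i - y p' i)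
      unfold Pool.Agent.N479.ER.sq
      rw [← h4]
      refine Finset.sum_congr rfl fun j _ => ?_
      simp only [z]
      rw [← Finset.sum_sub_distrib]
      congr 1
      exact Finset.sum_congr rfl fun i _ => by ring
    simp only [hm'] at h1
    rw [h2] at h1
    have h5 : qf v (fun i j => 1 / (2 * c) * E₀ i j) = 1 / (2 * c) * qf v E₀ := by
      unfold qf
      rw [Finset.mul_sum]
      refine Finset.sum_congr rfl fun i _ => ?_
      rw [Finset.mul_sum]
      exact Finset.sum_congr rfl fun j _ => by ring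
    have h6 : ∑ i, ∑ j, v i * v j * (1 / (2 * c) * sq (F (p, i)) (F (p', j))) =
        1 / (2 * c) * ∑ i, ∑ j, v i * v j * sq (F (p, i)) (F (p', j)) := by
      rw [Finset.mul_sum]
      refine Finset.sum_congr rfl fun i _ => ?_
      rw [Finset.mul_sum]
      exact Finset.sum_congr rfl fun j _ => by ring
    rw [h5, h6]
    have h7 : ∑ i, ∑ j, v i * v j * sq (F (p, i)) (F (p', j)) =
        2 * (c * sq (y p) (y p')) + qf v E₀ := by linarith
    rw [h7]
    field_simp
    ring

/-- the criterion: small perturbations of `Δ` along `π` stay good -/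
theorem over_of {I : Type} [Fintype I] (w : I → ℝ) (Δ : I → I → ℝ) (h0 : qf w Δ = 0)
    (π : I → Fin 3) (v : Fin 3 → ℝ) (hv : ∑ i, v i = 1) (hv1 : v 1 ≠ 0) (hv2 : v 2 ≠ 0)
    (hπ : ∀ a : Fin 3, ∑ i, (if π i = a then w i else 0) = v a) (μ : ℝ) (hμ : 0 < μ)
    (hst : ∀ E : Fin 3 → Fin 3 → ℝ, (∀ i j, |E i j| ≤ μ) → (∀ i, E i i = 0) →
      (∀ i j, E i j = E j i) → GoodE (fun i j => Δ i j - E (π i) (π j))) :
    ∀ (ι Y : Type) [Fintype ι] [Nonempty ι] [Finite Y] [Nonempty Y] (y : Y → ι → ℝ) (R : ℝ),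
    (∀ p, ∑ i, y p i ^ 2 = R) →
    ∃ D : Y × I → Y × I → ℝ, GoodE D ∧ (∀ p i j, D (p, i) (p, j) = Δ i j) ∧
      ∀ p p', ∑ i, ∑ j, w i * w j * D (p, i) (p', j) = sq (y p) (y p') := by
  classical
  intro ι Y _ _ _ _ y R hR
  obtain ⟨G, E, hG, hE, hGE, hZ⟩ := words3 y R hR v hv hv1 hv2 μ hμ
  obtain ⟨p₀⟩ := ‹Nonempty Y›
  have hE0 : ∀ i, E i i = 0 := fun i => by rw [← hGE p₀]; exact hG.good.diag _
  have hEs : ∀ i j, E i j = E j i := fun i j => by
    rw [← hGE p₀, ← hGE p₀]; exact hG.good.symm _ _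
  have hpush : ∀ K : Fin 3 → Fin 3 → ℝ, ∑ i, ∑ j, w i * w j * K (π i) (π j) =
      ∑ a, ∑ b, v a * v b * K a b := by
    intro K
    have h1 : ∀ (f : Fin 3 → ℝ), ∑ i, w i * f (π i) = ∑ a, v a * f a := by
      intro f
      have h2 : ∀ i, w i * f (π i) = ∑ a, (if π i = a then w i else 0) * f a := by
        intro i
        rw [Finset.sum_eq_single (π i)]
        · simp
        · intro b _ hb
          rw [if_neg hb.symm, zero_mul]
        · intro h
          exact absurd (Finset.mem_univ _) h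
      simp_rw [h2]
      rw [Finset.sum_comm]
      refine Finset.sum_congr rfl fun a _ => ?_
      rw [← Finset.sum_mul, hπ]
    have h3 : ∀ i, ∑ j, w i * w j * K (π i) (π j) = w i * ∑ b, v b * K (π i) b := by
      intro i
      rw [← h1 (fun b => K (π i) b), Finset.mul_sum]
      exact Finset.sum_congr rfl fun j _ => by ring
    simp_rw [h3]
    rw [h1 (fun a => ∑ b, v b * K a b)]
    refine Finset.sum_congr rfl fun a _ => ?_
    rw [Finset.mul_sum]
    exact Finset.sum_congr rfl fun b _ => by ring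
  refine ⟨fun b b' => G (b.1, π b.2) (b'.1, π b'.2) + (Δ b.2 b'.2 - E (π b.2) (π b'.2)),
    (hG.comap fun b : Y × I => (b.1, π b.2)).add ((hst E hE hE0 hEs).comap Prod.snd),
    fun p i j => ?_, fun p p' => ?_⟩
  · simp only
    rw [hGE]
    ring
  · have h2 : ∀ i j, w i * w j * (G (p, π i) (p', π j) + (Δ i j - E (π i) (π j))) =
        w i * w j * G (p, π i) (p', π j) + w i * w j * Δ i j - w i * w j * E (π i) (π j) :=
      fun i j => by ring
    simp only [h2, Finset.sum_add_distrib, Finset.sum_sub_distrib]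
    rw [hpush (fun a b => G (p, a) (p', b)), hpush E]
    have h3 := hZ p p'
    unfold qf at h3 h0
    rw [h0]
    linarith

end Pool.Agent.Run7.h764.Q
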