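import Pool.Agent.Run7.h764.SGrp
set_option autoImplicit false

/-! Averages over the cells of a cubic grid. -/

namespace Run7.h764.S

open MeasureTheory Metric Set
open scoped ENNReal RealInnerProductSpace

variable {d : ℕ}

/-- index of the cell -/
noncomputable def cell (a : ℝ) (x : Eu d) : Fin d → ℤ := fun i => ⌊x i / a⌋

lemma cell_meas (a : ℝ) : Measurable (cell a : Eu d → Fin d → ℤ) := by
  refine measurable_pi_lambda _ fun i => ?_
  apply Int.measurable_floor.comp
  have : Continuous (fun x : Eu d => x i / a) := by fun_prop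
  exact this.measurable

open Classical in
/-- same-cell kernel -/
noncomputable def chi (a : ℝ) (x y : Eu d) : ℝ := if cell a x = cell a y then 1 else 0

lemma chi_symm (a : ℝ) (x y : Eu d) : chi a x y = chi a y x := by
  unfold chi
  simp only [eq_comm]

lemma chi_nonneg (a : ℝ) (x y : Eu d) : 0 ≤ chi a x y := by
  unfold chi; split_ifs <;> norm_num

lemma chi_le_one (a : ℝ) (x y : Eu d) : chi a x y ≤ 1 := by
  unfold chi; split_ifs <;> norm_num

lemma chi_meas (a : ℝ) : Measurable (fun p : Eu d × Eu d => chi a p.1 p.2) := by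
  unfold chi
  apply Measurable.ite
  · exact measurableSet_eq_fun ((cell_meas a).comp measurable_fst) ((cell_meas a).comp measurable_snd)
  · exact measurable_const
  · exact measurable_const

/-- a box in Euclidean space -/
lemma vol_box (l u : Fin d → ℝ) :
    volume {x : Eu d | ∀ i, l i ≤ x i ∧ x i < u i} = ∏ i, ENNReal.ofReal (u i - l i) := by
  have h := (PiLp.volume_preserving_ofLp (Fin d)).measure_preimage
    (s := univ.pi fun i => Ico (l i) (u i))
    (MeasurableSet.univ_pi fun i => measurableSet_Ico).nullMeasurableSet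
  rw [Real.volume_pi_Ico] at h
  rw [← h]
  congr 1
  ext x
  simp [mem_pi]

lemma cell_eq_iff {a : ℝ} (ha : 0 < a) (x : Eu d) (k : Fin d → ℤ) :
    cell a x = k ↔ ∀ i, (k i : ℝ) * a ≤ x i ∧ x i < (k i + 1) * a := by
  unfold cell
  rw [funext_iff]
  refine forall_congr' fun i => ?_
  rw [Int.floor_eq_iff, le_div_iff₀ ha, div_lt_iff₀ ha]

lemma vol_cell {a : ℝ} (ha : 0 < a) (k : Fin d → ℤ) :
    volume {x : Eu d | cell a x = k} = ENNReal.ofReal (a ^ d) := by
  have : {x : Eu d | cell a x = k} = {x : Eu d | ∀ i, (k i : ℝ) * a ≤ x i ∧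
      x i < (k i + 1) * a} := by
    ext x
    exact cell_eq_iff ha x k
  rw [this, vol_box]
  have h2 : ∀ i : Fin d, ((k i : ℝ) + 1) * a - k i * a = a := fun i => by ring
  simp only [h2]
  rw [Finset.prod_const, Finset.card_univ, Fintype.card_fin, ENNReal.ofReal_pow ha.le]

lemma cell_measSet (a : ℝ) (k : Fin d → ℤ) : MeasurableSet {x : Eu d | cell a x = k} :=
  (cell_meas a) (measurableSet_singleton k)

lemma chi_eq_ind (a : ℝ) (x : Eu d) :
    chi a x = {y : Eu d | cell a y = cell a x}.indicator (fun _ => (1:ℝ)) := by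
  ext y
  unfold chi
  by_cases h : cell a x = cell a y
  · rw [if_pos h, indicator_of_mem]
    exact h.symm
  · rw [if_neg h, indicator_of_notMem]
    exact fun hc => h hc.symm

lemma chi_integrable {a : ℝ} (ha : 0 < a) (x : Eu d) : Integrable (chi a x) := by
  rw [chi_eq_ind, integrable_indicator_iff (cell_measSet a _)]
  refine integrableOn_const ?_ (by simp)
  rw [vol_cell ha]
  exact ENNReal.ofReal_ne_top

lemma chi_int {a : ℝ} (ha : 0 < a) (x : Eu d) : ∫ y, chi a x y = a ^ d := by
  rw [chi_eq_ind, integral_indicator_const _ (cell_measSet a _), Measure.real, vol_cell ha,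
    ENNReal.toReal_ofReal (by positivity)]
  simp

/-- average over cells -/
noncomputable def EA (a : ℝ) (f : Eu d → ℝ) (x : Eu d) : ℝ := (a ^ d)⁻¹ * ∫ y, chi a x y * f y

lemma EA_cell {a : ℝ} (f : Eu d → ℝ) {x y : Eu d} (h : cell a x = cell a y) :
    EA a f x = EA a f y := by
  unfold EA chi
  rw [h]

lemma EA_meas (a : ℝ) (f : Eu d → ℝ) : Measurable (EA a f) := by
  classical
  have : EA a f = (fun k : Fin d → ℤ => (a ^ d)⁻¹ * ∫ y, (if k = cell a y then 1 else 0) * f y) ∘
      cell a := by
    ext x
    simp only [EA, chi, Function.comp]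
  rw [this]
  exact Measurable.of_discrete.comp (cell_meas a)

lemma chi_mul_integrable {a : ℝ} (ha : 0 < a) (x : Eu d) {f : Eu d → ℝ} (hf : Measurable f)
    (hb : ∀ y, |f y| ≤ 1) : Integrable (fun y => chi a x y * f y) := by
  have h := (chi_integrable ha x).bdd_mul (c := 1) hf.aestronglyMeasurable
    (Filter.Eventually.of_forall fun y => by rw [Real.norm_eq_abs]; exact hb y)
  refine h.congr (Filter.Eventually.of_forall fun y => ?_)
  simp only
  ring

lemma EA_abs_le {a : ℝ} (ha : 0 < a) {f : Eu d → ℝ}
    {c : ℝ} (x : Eu d) (hb : ∀ y, cell a x = cell a y → |f y| ≤ c) :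
    |EA a f x| ≤ c := by
  unfold EA
  have hpos : 0 < a ^ d := by positivity
  rw [abs_mul, abs_of_pos (inv_pos.2 hpos)]
  have h1 : |∫ y, chi a x y * f y| ≤ ∫ y, chi a x y * c := by
    rw [← Real.norm_eq_abs]
    refine norm_integral_le_of_norm_le ((chi_integrable ha x).mul_const c)
      (Filter.Eventually.of_forall fun y => ?_)
    rw [norm_mul, Real.norm_eq_abs, Real.norm_eq_abs, abs_of_nonneg (chi_nonneg a x y)]
    by_cases h : cell a x = cell a y
    · exact mul_le_mul_of_nonneg_left (hb y h) (chi_nonneg a x y)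
    · have : chi a x y = 0 := by unfold chi; rw [if_neg h]
      rw [this, zero_mul, zero_mul]
  rw [integral_mul_const, chi_int ha] at h1
  calc (a ^ d)⁻¹ * |∫ y, chi a x y * f y| ≤ (a ^ d)⁻¹ * (a ^ d * c) :=
        mul_le_mul_of_nonneg_left h1 (inv_pos.2 hpos).le
    _ = c := by field_simp

lemma EA_nonneg {a : ℝ} (ha : 0 < a) {f : Eu d → ℝ} (hf : ∀ y, 0 ≤ f y) (x : Eu d) :
    0 ≤ EA a f x := by
  unfold EA
  exact mul_nonneg (by positivity) (integral_nonneg fun y => mul_nonneg (chi_nonneg a x y) (hf y))

lemma EA_const {a : ℝ} (ha : 0 < a) {F : Eu d → ℝ}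
    (hF : ∀ x y, cell a x = cell a y → F x = F y) (x : Eu d) : EA a F x = F x := by
  unfold EA
  have h : ∀ y, chi a x y * F y = chi a x y * F x := by
    intro y
    by_cases h : cell a x = cell a y
    · rw [hF x y h]
    · have : chi a x y = 0 := by unfold chi; rw [if_neg h]
      rw [this, zero_mul, zero_mul]
  rw [integral_congr_ae (Filter.Eventually.of_forall h), integral_mul_const, chi_int ha]
  have hpos : 0 < a ^ d := by positivity
  field_simp

/-- the kernel times an integrable function is integrable on the product -/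
lemma kernel_integrable {a : ℝ} (ha : 0 < a) {f : Eu d → ℝ} (hf : Measurable f)
    (hfi : Integrable f) :
    Integrable (fun p : Eu d × Eu d => chi a p.1 p.2 * f p.2) (volume.prod volume) := by
  have hm : Measurable (fun p : Eu d × Eu d => chi a p.1 p.2 * f p.2) :=
    (chi_meas a).mul (hf.comp measurable_snd)
  rw [integrable_prod_iff' hm.aestronglyMeasurable]
  constructor
  · refine Filter.Eventually.of_forall fun y => ?_
    have := (chi_integrable ha y).mul_const (f y)
    refine this.congr (Filter.Eventually.of_forall fun x => ?_)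
    simp only
    rw [chi_symm]
  · have : (fun y : Eu d => ∫ x, ‖chi a x y * f y‖) = fun y => a ^ d * ‖f y‖ := by
      ext y
      have h : ∀ x, ‖chi a x y * f y‖ = chi a y x * ‖f y‖ := by
        intro x
        rw [norm_mul, Real.norm_eq_abs, abs_of_nonneg (chi_nonneg a x y), chi_symm]
      simp only [h]
      rw [integral_mul_const, chi_int ha]
    rw [this]
    exact hfi.norm.const_mul _

lemma EA_integrable {a : ℝ} (ha : 0 < a) {f : Eu d → ℝ} (hf : Measurable f)
    (hfi : Integrable f) : Integrable (EA a f) := by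
  have := (kernel_integrable ha hf hfi).integral_prod_left
  exact this.const_mul _

lemma EA_adj {a : ℝ} (ha : 0 < a) {f g : Eu d → ℝ} (hf : Measurable f)
    (hfi : Integrable f) (hg : Measurable g) {c : ℝ} (hb : ∀ y, |g y| ≤ c) :
    ∫ x, EA a f x * g x = ∫ x, f x * EA a g x := by
  have h1 : Integrable (fun p : Eu d × Eu d => (chi a p.1 p.2 * f p.2) * g p.1)
      (volume.prod volume) := by
    have h := (kernel_integrable ha hf hfi).bdd_mul (c := c)
      (hg.comp measurable_fst).aestronglyMeasurable
      (Filter.Eventually.of_forall fun p => by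
        simp only [Function.comp]
        rw [Real.norm_eq_abs]; exact hb p.1)
    refine h.congr (Filter.Eventually.of_forall fun p => ?_)
    simp only [Function.comp]
    ring
  have h2 := integral_integral_swap (f := fun x y => (chi a x y * f y) * g x) h1
  calc ∫ x, EA a f x * g x = (a ^ d)⁻¹ * ∫ x, ∫ y, (chi a x y * f y) * g x := by
        rw [← integral_const_mul]
        congr 1
        ext x
        rw [EA, integral_mul_const]
        ring
    _ = (a ^ d)⁻¹ * ∫ y, ∫ x, (chi a x y * f y) * g x := by rw [h2]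
    _ = ∫ x, f x * EA a g x := by
        rw [← integral_const_mul]
        congr 1
        ext y
        rw [EA]
        have : ∀ x, (chi a x y * f y) * g x = f y * (chi a y x * g x) := by
          intro x
          rw [chi_symm a x y]
          ring
        simp only [this]
        rw [integral_const_mul]
        ring

lemma EA_sub {a : ℝ} (ha : 0 < a) {f g : Eu d → ℝ} (hf : Measurable f)
    (hfb : ∀ y, |f y| ≤ 1) (hg : Measurable g) (hgb : ∀ y, |g y| ≤ 1) (x : Eu d) :
    EA a (fun y => f y - g y) x = EA a f x - EA a g x := by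
  unfold EA
  have : ∀ y, chi a x y * (f y - g y) = chi a x y * f y - chi a x y * g y := fun y => by ring
  simp only [this]
  rw [integral_sub (chi_mul_integrable ha x hf hfb) (chi_mul_integrable ha x hg hgb)]
  ring

lemma cell_nested {a : ℝ} (n : ℕ) {x y : Eu d} (h : cell a x = cell a y) :
    cell (n * a) x = cell (n * a) y := by
  unfold cell at h ⊢
  ext i
  have h1 := congrFun h i
  simp only at h1
  have h2 : ∀ z : ℝ, ⌊z / (n * a)⌋ = ⌊z / a⌋ / n := by
    intro z
    rw [← Int.floor_div_natCast]
    congr 1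
    rw [div_div, mul_comm]
  rw [h2, h2, h1]

lemma cell_dist {a : ℝ} (ha : 0 < a) {x y : Eu d} (h : cell a x = cell a y) :
    ‖x - y‖ ≤ d * a := by
  have h1 := (cell_eq_iff ha x (cell a y)).1 h
  have h2 := (cell_eq_iff ha y (cell a y)).1 rfl
  have h3 : ‖x - y‖ ^ 2 ≤ (d * a) ^ 2 := by
    rw [EuclideanSpace.norm_sq_eq]
    have h4 : ∀ i : Fin d, ‖(x - y) i‖ ^ 2 ≤ a ^ 2 := by
      intro i
      rw [PiLp.sub_apply, Real.norm_eq_abs, sq_abs]
      apply sq_le_sq'
      · have := (h1 i).1; have := (h2 i).2; linarith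
      · have := (h1 i).2; have := (h2 i).1; linarith
    calc ∑ i : Fin d, ‖(x - y) i‖ ^ 2 ≤ ∑ _i : Fin d, a ^ 2 := Finset.sum_le_sum fun i _ => h4 i
      _ = d * a ^ 2 := by simp
      _ ≤ (d * a) ^ 2 := by
        rw [mul_pow]
        apply mul_le_mul_of_nonneg_right _ (sq_nonneg a)
        rcases Nat.eq_zero_or_pos d with h0 | h0
        · subst h0; simp
        · have : (1:ℝ) ≤ d := by exact_mod_cast h0
          nlinarith
  have h5 : 0 ≤ (d:ℝ) * a := by positivity
  exact (pow_le_pow_iff_left₀ (norm_nonneg _) h5 two_ne_zero).1 h3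

end Run7.h764.S
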