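import Pool.Agent.Run7.h764.SGrid
set_option autoImplicit false

/-! Energy identity and the well-inside part of cells. -/

namespace Run7.h764.S

open MeasureTheory Metric Set
open scoped ENNReal RealInnerProductSpace

variable {d : ℕ}

/-- admissible functions: measurable, bounded by one, integrable -/
structure Adm (f : Eu d → ℝ) : Prop where
  meas : Measurable f
  bd : ∀ x, |f x| ≤ 1
  int : Integrable f

lemma Adm.EA {a : ℝ} (ha : 0 < a) {f : Eu d → ℝ} (hf : Adm f) : Adm (EA a f) :=
  ⟨EA_meas a f, fun x => EA_abs_le ha x fun y _ => hf.bd y, EA_integrable ha hf.meas hf.int⟩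

lemma EA_EA_nested {a : ℝ} (ha : 0 < a) (n : ℕ) (f : Eu d → ℝ) (x : Eu d) :
    EA a (EA (n * a) f) x = EA (n * a) f x :=
  EA_const ha (fun _ _ h => EA_cell f (cell_nested n h)) x

lemma Adm.mul_int {f g : Eu d → ℝ} (hf : Adm f) (hg : Adm g) :
    Integrable (fun x => f x * g x) :=
  hg.int.bdd_mul (c := 1) hf.meas.aestronglyMeasurable
    (Filter.Eventually.of_forall fun y => by rw [Real.norm_eq_abs]; exact hf.bd y)

lemma energy {a : ℝ} (ha : 0 < a) {n : ℕ} (hn : 0 < n) {f : Eu d → ℝ} (hf : Adm f) :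
    ∫ x, (EA a f x - EA (n * a) f x) ^ 2 =
      (∫ x, EA a f x ^ 2) - ∫ x, EA (n * a) f x ^ 2 := by
  have hna : 0 < (n : ℝ) * a := by positivity
  have hA := hf.EA ha
  have hB := hf.EA hna
  have h1 : ∫ x, EA a f x * EA (n * a) f x = ∫ x, f x * EA (n * a) f x := by
    rw [EA_adj ha hf.meas hf.int hB.meas hB.bd]
    congr 1
    ext x
    rw [EA_EA_nested ha]
  have h2 : ∫ x, EA (n * a) f x * EA (n * a) f x = ∫ x, f x * EA (n * a) f x := by
    rw [EA_adj hna hf.meas hf.int hB.meas hB.bd]
    congr 1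
    ext x
    rw [EA_const hna (fun _ _ h => EA_cell f h)]
  have h3 : ∀ x, (EA a f x - EA (n * a) f x) ^ 2 = EA a f x * EA a f x -
      (2 * (EA a f x * EA (n * a) f x) - EA (n * a) f x * EA (n * a) f x) := fun x => by ring
  simp only [h3]
  have iAA := hA.mul_int hA
  have iAB := hA.mul_int hB
  have iBB := hB.mul_int hB
  have i1 : Integrable (fun x => 2 * (EA a f x * EA (n * a) f x) -
      EA (n * a) f x * EA (n * a) f x) := (iAB.const_mul 2).sub iBB
  rw [integral_sub iAA i1, integral_sub (iAB.const_mul 2) iBB,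
    integral_const_mul, h1, h2]
  have h4 : ∫ x, EA a f x ^ 2 = ∫ x, EA a f x * EA a f x := by
    congr 1; ext x; ring
  have h5 : ∫ x, EA (n * a) f x ^ 2 = ∫ x, f x * EA (n * a) f x := by
    rw [← h2]; congr 1; ext x; ring
  rw [h4, h5]
  ring

/-- the part of the cells at distance more than `r` from the walls -/
def Gd (b r : ℝ) : Set (Eu d) := {x | ∀ i, ⌊(x i - r) / b⌋ = ⌊x i / b⌋ ∧ ⌊(x i + r) / b⌋ = ⌊x i / b⌋}

lemma Gd_meas (b r : ℝ) : MeasurableSet (Gd b r : Set (Eu d)) := by
  have : (Gd b r : Set (Eu d)) = ⋂ i, ({x : Eu d | ⌊(x i - r) / b⌋ = ⌊x i / b⌋} ∩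
      {x : Eu d | ⌊(x i + r) / b⌋ = ⌊x i / b⌋}) := by
    ext x
    simp [Gd]
  rw [this]
  refine MeasurableSet.iInter fun i => MeasurableSet.inter ?_ ?_
  · exact measurableSet_eq_fun (Int.measurable_floor.comp (by
      have : Continuous (fun x : Eu d => (x i - r) / b) := by fun_prop
      exact this.measurable)) (Int.measurable_floor.comp (by
      have : Continuous (fun x : Eu d => x i / b) := by fun_prop
      exact this.measurable))
  · exact measurableSet_eq_fun (Int.measurable_floor.comp (by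
      have : Continuous (fun x : Eu d => (x i + r) / b) := by fun_prop
      exact this.measurable)) (Int.measurable_floor.comp (by
      have : Continuous (fun x : Eu d => x i / b) := by fun_prop
      exact this.measurable))

lemma Gd_cell {b r : ℝ} (hb : 0 < b) {x : Eu d} (hx : x ∈ Gd b r) {y : Eu d} (hy : ‖y‖ ≤ r) :
    cell b (x + y) = cell b x := by
  ext i
  unfold cell
  have hyi : |y i| ≤ r := by
    have := PiLp.norm_apply_le y i
    rw [Real.norm_eq_abs] at this
    exact this.trans hy
  have h1 := (hx i).1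
  have h2 := (hx i).2
  rw [abs_le] at hyi
  have h3 : ⌊(x i - r) / b⌋ ≤ ⌊(x + y) i / b⌋ := by
    apply Int.floor_le_floor
    apply div_le_div_of_nonneg_right _ hb.le
    rw [PiLp.add_apply]
    linarith
  have h4 : ⌊(x + y) i / b⌋ ≤ ⌊(x i + r) / b⌋ := by
    apply Int.floor_le_floor
    apply div_le_div_of_nonneg_right _ hb.le
    rw [PiLp.add_apply]
    linarith
  omega

lemma Gd_vol {b r : ℝ} (hb : 0 < b) (hr : 0 ≤ r) (hrb : 2 * r ≤ b) (k : Fin d → ℤ) :
    volume (Gd b r ∩ {x : Eu d | cell b x = k}) = ENNReal.ofReal ((b - 2 * r) ^ d) := by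
  have : Gd b r ∩ {x : Eu d | cell b x = k} =
      {x : Eu d | ∀ i, (k i : ℝ) * b + r ≤ x i ∧ x i < (k i + 1) * b - r} := by
    ext x
    simp only [mem_inter_iff, mem_ofPred_eq, Gd]
    constructor
    · rintro ⟨h1, h2⟩ i
      have hk : ⌊x i / b⌋ = k i := congrFun h2 i
      have h3 := (h1 i).1
      have h4 := (h1 i).2
      rw [hk, Int.floor_eq_iff, le_div_iff₀ hb, div_lt_iff₀ hb] at h3 h4
      constructor
      · linarith [h3.1]
      · linarith [h4.2]
    · intro h
      have hk : ∀ i, ⌊x i / b⌋ = k i := by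
        intro i
        rw [Int.floor_eq_iff, le_div_iff₀ hb, div_lt_iff₀ hb]
        constructor
        · linarith [(h i).1]
        · linarith [(h i).2]
      refine ⟨fun i => ?_, funext hk⟩
      rw [hk i]
      constructor
      · rw [Int.floor_eq_iff, le_div_iff₀ hb, div_lt_iff₀ hb]
        constructor
        · linarith [(h i).1]
        · linarith [(h i).2]
      · rw [Int.floor_eq_iff, le_div_iff₀ hb, div_lt_iff₀ hb]
        constructor
        · linarith [(h i).1]
        · linarith [(h i).2]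
  rw [this, vol_box]
  have h2 : ∀ i : Fin d, ((k i : ℝ) + 1) * b - r - (k i * b + r) = b - 2 * r := fun i => by ring
  simp only [h2]
  rw [Finset.prod_const, Finset.card_univ, Fintype.card_fin, ENNReal.ofReal_pow (by linarith)]

lemma EA_Gd {b r : ℝ} (hb : 0 < b) (hr : 0 ≤ r) (hrb : 2 * r ≤ b) (x : Eu d) :
    EA b ((Gd b r : Set (Eu d)).indicator 1) x = ((b - 2 * r) / b) ^ d := by
  unfold EA
  have h1 : (fun y => chi b x y * (Gd b r : Set (Eu d)).indicator 1 y) =
      (Gd b r ∩ {y : Eu d | cell b y = cell b x}).indicator (fun _ => (1:ℝ)) := by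
    ext y
    rw [chi_eq_ind]
    by_cases hA : y ∈ (Gd b r : Set (Eu d)) <;> by_cases hB : y ∈ {y : Eu d | cell b y = cell b x}
    · rw [indicator_of_mem hA, indicator_of_mem hB, indicator_of_mem (mem_inter hA hB)]; simp
    · rw [indicator_of_mem hA, indicator_of_notMem hB, indicator_of_notMem (fun h => hB h.2)]; simp
    · rw [indicator_of_notMem hA, indicator_of_mem hB, indicator_of_notMem (fun h => hA h.1)]; simp
    · rw [indicator_of_notMem hA, indicator_of_notMem hB, indicator_of_notMem (fun h => hA h.1)]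
      simp
  rw [h1, integral_indicator_const _ ((Gd_meas b r).inter (cell_measSet b _)), Measure.real,
    Gd_vol hb hr hrb, ENNReal.toReal_ofReal (by
      have : 0 ≤ b - 2 * r := by linarith
      positivity)]
  rw [smul_eq_mul, mul_one, div_pow]
  ring

/-- the integral of a cellwise constant function over the inner part -/
lemma int_Gd {b r : ℝ} (hb : 0 < b) (hr : 0 ≤ r) (hrb : 2 * r ≤ b) {F : Eu d → ℝ} (hF : Adm F)
    (hc : ∀ x y, cell b x = cell b y → F x = F y) :
    ∫ x, F x * (Gd b r : Set (Eu d)).indicator 1 x = ((b - 2 * r) / b) ^ d * ∫ x, F x := by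
  have h1 : ∫ x, F x * (Gd b r : Set (Eu d)).indicator 1 x =
      ∫ x, EA b F x * (Gd b r : Set (Eu d)).indicator 1 x := by
    congr 1
    ext x
    rw [EA_const hb hc]
  rw [h1, EA_adj hb hF.meas hF.int (measurable_one.indicator (Gd_meas b r)) (c := 1)]
  · simp only [EA_Gd hb hr hrb]
    rw [integral_mul_const, mul_comm]
  · intro y
    by_cases h : y ∈ (Gd b r : Set (Eu d))
    · rw [indicator_of_mem h]; simp
    · rw [indicator_of_notMem h]; simp

end Run7.h764.S
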