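import Mathlib
set_option autoImplicit false

/-! The orthogonal group as a compact group acting on Euclidean space, with its Haar probability
measure. -/

namespace Run7.h764.S

open MeasureTheory Metric Set
open scoped ENNReal RealInnerProductSpace

/-- Euclidean space -/
abbrev Eu (d : ℕ) := EuclideanSpace ℝ (Fin d)

/-- the orthogonal group -/
noncomputable abbrev OG (d : ℕ) := unitary (Eu d →L[ℝ] Eu d)

instance instCSt (d : ℕ) : ContinuousStar (Eu d →L[ℝ] Eu d) := ⟨by
  have h : Continuous (fun f : Eu d →L[ℝ] Eu d => ContinuousLinearMap.adjoint f) :=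
    ContinuousLinearMap.adjoint.continuous
  exact h⟩

variable {d : ℕ}

instance instCompactOG : CompactSpace (OG d) := by
  have hp : ProperSpace (Eu d →L[ℝ] Eu d) := FiniteDimensional.proper ℝ _
  have h : IsCompact ((unitary (Eu d →L[ℝ] Eu d) : Submonoid _) : Set (Eu d →L[ℝ] Eu d)) := by
    apply Metric.isCompact_of_isClosed_isBounded isClosed_unitary
    rw [isBounded_iff_forall_norm_le]
    refine ⟨1, fun u hu => ?_⟩
    refine ContinuousLinearMap.opNorm_le_bound _ zero_le_one fun x => ?_
    rw [ContinuousLinearMap.norm_map_of_mem_unitary hu, one_mul]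
  exact isCompact_iff_compactSpace.1 h

instance : SecondCountableTopology (Eu d →L[ℝ] Eu d) := by
  have hp : ProperSpace (Eu d →L[ℝ] Eu d) := FiniteDimensional.proper ℝ _
  infer_instance

/-- Haar probability measure on the orthogonal group -/
noncomputable def hm (d : ℕ) : Measure (OG d) := Measure.haarMeasure ⊤

instance : IsProbabilityMeasure (hm d) := ⟨by
  have := Measure.haarMeasure_self (K₀ := (⊤ : TopologicalSpace.PositiveCompacts (OG d)))
  simpa [hm] using this⟩

instance : (hm d).IsHaarMeasure := by
  unfold hm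
  infer_instance

instance : (hm d).IsMulLeftInvariant := by
  unfold hm
  infer_instance

instance : (hm d).IsMulRightInvariant := by
  refine ⟨fun g => ?_⟩
  have h1 : Measure.IsMulLeftInvariant (Measure.map (· * g) (hm d)) := inferInstance
  have h2 : IsProbabilityMeasure (Measure.map (· * g) (hm d)) :=
    Measure.isProbabilityMeasure_map (measurable_mul_const g).aemeasurable
  have h3 := Measure.isMulInvariant_eq_smul_of_compactSpace (Measure.map (· * g) (hm d)) (hm d)
  have h4 : (Measure.map (· * g) (hm d)) univ = (hm d) univ := by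
    rw [measure_univ, measure_univ]
  rw [h3, Measure.smul_apply, measure_univ] at h4
  have h5 : (Measure.haarScalarFactor (Measure.map (· * g) (hm d)) (hm d)) = 1 := by
    have h6 : ((Measure.haarScalarFactor (Measure.map (· * g) (hm d)) (hm d) : NNReal) : ℝ≥0∞)
        = 1 := by
      rw [ENNReal.smul_def, smul_eq_mul, mul_one] at h4
      exact h4
    exact_mod_cast h6
  rw [h3, h5, one_smul]

/-- action on vectors -/
noncomputable def act (U : OG d) (x : Eu d) : Eu d := (U : Eu d →L[ℝ] Eu d) x

lemma act_add (U : OG d) (x y : Eu d) : act U (x + y) = act U x + act U y :=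
  map_add (U : Eu d →L[ℝ] Eu d) x y

lemma act_sub (U : OG d) (x y : Eu d) : act U (x - y) = act U x - act U y :=
  map_sub (U : Eu d →L[ℝ] Eu d) x y

lemma act_neg (U : OG d) (x : Eu d) : act U (-x) = -act U x :=
  map_neg (U : Eu d →L[ℝ] Eu d) x

lemma act_zero (U : OG d) : act U (0 : Eu d) = 0 := map_zero (U : Eu d →L[ℝ] Eu d)

lemma act_smul (U : OG d) (c : ℝ) (x : Eu d) : act U (c • x) = c • act U x :=
  map_smul (U : Eu d →L[ℝ] Eu d) c x

lemma norm_act (U : OG d) (x : Eu d) : ‖act U x‖ = ‖x‖ := Unitary.norm_map U x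

lemma act_mul (U V : OG d) (x : Eu d) : act (U * V) x = act U (act V x) := rfl

lemma act_one (x : Eu d) : act (1 : OG d) x = x := rfl

lemma act_inv_act (U : OG d) (x : Eu d) : act U⁻¹ (act U x) = x := by
  rw [← act_mul, inv_mul_cancel, act_one]

lemma act_act_inv (U : OG d) (x : Eu d) : act U (act U⁻¹ x) = x := by
  rw [← act_mul, mul_inv_cancel, act_one]

lemma continuous_act : Continuous (fun p : OG d × Eu d => act p.1 p.2) := by
  have : Continuous (fun p : OG d × Eu d => ((p.1 : Eu d →L[ℝ] Eu d), p.2)) := by fun_prop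
  exact (isBoundedBilinearMap_apply.continuous).comp this

/-- from linear isometry equivalences to the orthogonal group -/
noncomputable def ofLI (e : Eu d ≃ₗᵢ[ℝ] Eu d) : OG d := Unitary.linearIsometryEquiv.symm e

lemma act_ofLI (e : Eu d ≃ₗᵢ[ℝ] Eu d) (x : Eu d) : act (ofLI e) x = e x := rfl

/-- the linear isometry equivalence of an element -/
noncomputable def toLI (U : OG d) : Eu d ≃ₗᵢ[ℝ] Eu d := Unitary.linearIsometryEquiv U

lemma toLI_apply (U : OG d) (x : Eu d) : toLI U x = act U x := rfl

/-- transitivity on spheres -/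
lemma exists_act_eq {x y : Eu d} (h : ‖x‖ = ‖y‖) : ∃ V : OG d, act V x = y := by
  refine ⟨ofLI ((ℝ ∙ (x - y))ᗮ.reflection), ?_⟩
  rw [act_ofLI]
  exact Submodule.reflection_sub h

lemma measurePreserving_act (U : OG d) : MeasurePreserving (act U) volume volume :=
  (toLI U).measurePreserving

end Run7.h764.S
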