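import Pool.Agent.Run7.h764.SGrp
set_option autoImplicit false

/-! Rotations in a plane spanned by an orthonormal pair. -/

namespace Run7.h764.S

open MeasureTheory Metric Set
open scoped ENNReal RealInnerProductSpace

variable {d : ℕ}

/-- orthonormal pairs -/
structure ON2 (d : ℕ) where
  /-- first vector -/
  a : Eu d
  /-- second vector -/
  b : Eu d
  ha : ‖a‖ = 1
  hb : ‖b‖ = 1
  hab : ⟪a, b⟫ = 0

/-- the linear map of the rotation -/
noncomputable def rotLin (p : ON2 d) (θ : ℝ) : Eu d →ₗ[ℝ] Eu d where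
  toFun x := x + ((Real.cos θ - 1) * ⟪p.a, x⟫ - Real.sin θ * ⟪p.b, x⟫) • p.a +
    (Real.sin θ * ⟪p.a, x⟫ + (Real.cos θ - 1) * ⟪p.b, x⟫) • p.b
  map_add' x y := by
    simp only [inner_add_right]
    module
  map_smul' c x := by
    simp only [inner_smul_right, RingHom.id_apply]
    module

lemma ON2.aa (p : ON2 d) : ⟪p.a, p.a⟫ = (1 : ℝ) := by
  rw [real_inner_self_eq_norm_sq, p.ha]; norm_num

lemma ON2.bb (p : ON2 d) : ⟪p.b, p.b⟫ = (1 : ℝ) := by
  rw [real_inner_self_eq_norm_sq, p.hb]; norm_num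

lemma ON2.ba (p : ON2 d) : ⟪p.b, p.a⟫ = (0 : ℝ) := by
  rw [real_inner_comm]; exact p.hab

lemma rotLin_norm (p : ON2 d) (θ : ℝ) (x : Eu d) : ‖rotLin p θ x‖ = ‖x‖ := by
  have h : ⟪rotLin p θ x, rotLin p θ x⟫ = ⟪x, x⟫ := by
    simp only [rotLin, LinearMap.coe_mk, AddHom.coe_mk, inner_add_left, inner_add_right,
      real_inner_smul_left, real_inner_smul_right, p.aa, p.bb, p.ba, p.hab]
    rw [real_inner_comm p.a x, real_inner_comm p.b x]
    have := Real.sin_sq_add_cos_sq θ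
    linear_combination (⟪p.a, x⟫ ^ 2 + ⟪p.b, x⟫ ^ 2) * this
  rw [real_inner_self_eq_norm_sq, real_inner_self_eq_norm_sq] at h
  exact (pow_left_inj₀ (norm_nonneg _) (norm_nonneg _) two_ne_zero).1 h

/-- the rotation by `θ` in the plane of `p` -/
noncomputable def rot (p : ON2 d) (θ : ℝ) : OG d :=
  ofLI (LinearIsometry.toLinearIsometryEquiv ⟨rotLin p θ, rotLin_norm p θ⟩ rfl)

lemma act_rot (p : ON2 d) (θ : ℝ) (x : Eu d) :
    act (rot p θ) x = x + ((Real.cos θ - 1) * ⟪p.a, x⟫ - Real.sin θ * ⟪p.b, x⟫) • p.a +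
    (Real.sin θ * ⟪p.a, x⟫ + (Real.cos θ - 1) * ⟪p.b, x⟫) • p.b := rfl

lemma act_rot_a (p : ON2 d) (θ : ℝ) :
    act (rot p θ) p.a = Real.cos θ • p.a + Real.sin θ • p.b := by
  rw [act_rot, p.aa, p.ba]
  module

lemma act_rot_b (p : ON2 d) (θ : ℝ) :
    act (rot p θ) p.b = -Real.sin θ • p.a + Real.cos θ • p.b := by
  rw [act_rot, p.bb, p.hab]
  module

lemma act_rot_fix (p : ON2 d) (θ : ℝ) {x : Eu d} (ha : ⟪p.a, x⟫ = (0 : ℝ))
    (hb : ⟪p.b, x⟫ = (0 : ℝ)) : act (rot p θ) x = x := by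
  rw [act_rot, ha, hb]
  simp

lemma OG_ext {U V : OG d} (h : ∀ x, act U x = act V x) : U = V := by
  apply Subtype.ext
  ext1 x
  exact h x

lemma rot_add (p : ON2 d) (θ φ : ℝ) : rot p (θ + φ) = rot p θ * rot p φ := by
  apply OG_ext
  intro x
  rw [act_mul, act_rot p φ x, act_rot p θ, act_rot p (θ + φ)]
  simp only [inner_add_right, inner_smul_right, p.aa, p.bb, p.ba, p.hab, Real.cos_add,
    Real.sin_add]
  module

lemma rot_zero (p : ON2 d) : rot p 0 = 1 := by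
  apply OG_ext
  intro x
  rw [act_rot, act_one]
  simp

lemma rot_neg (p : ON2 d) (θ : ℝ) : rot p (-θ) = (rot p θ)⁻¹ := by
  rw [eq_inv_iff_mul_eq_one, ← rot_add]
  simp [rot_zero]

lemma rot_inv_mul (p : ON2 d) (θ φ : ℝ) : (rot p θ)⁻¹ * rot p φ = rot p (φ - θ) := by
  rw [← rot_neg, ← rot_add]
  congr 1
  ring

end Run7.h764.S
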