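import Pool.Agent.Run7.h764.SNull
import Pool.Agent.Run7.h764.SRot
set_option autoImplicit false

/-! Absolute continuity of the law of `V u - U u` for independent random rotations. -/

namespace Run7.h764.S

open MeasureTheory Metric Set
open scoped ENNReal RealInnerProductSpace

variable {d : ℕ}

lemma continuous_act_left (x : Eu d) : Continuous (fun V : OG d => act V x) :=
  continuous_act.comp (by fun_prop : Continuous fun V : OG d => (V, x))

lemma inner_act_act (V : OG d) (x y : Eu d) : ⟪act V x, act V y⟫ = (⟪x, y⟫ : ℝ) :=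
  (toLI V).inner_map_map x y

lemma inner_act_left (V : OG d) (x y : Eu d) : ⟪act V x, y⟫ = (⟪x, act V⁻¹ y⟫ : ℝ) := by
  conv_lhs => rw [← act_act_inv V y]
  exact inner_act_act V x _

/-- the circle-averaged set -/
lemma circle_set_measurable (p : ON2 d) (u : Eu d) {N : Set ℝ} (hN : MeasurableSet N) :
    MeasurableSet {q : OG d × ℝ | ⟪act q.1 p.a, u⟫ * Real.cos q.2 +
      ⟪act q.1 p.b, u⟫ * Real.sin q.2 ∈ N} := by
  have h1 : Continuous (fun q : OG d × ℝ => act q.1 p.a) :=
    (continuous_act_left p.a).comp continuous_fst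
  have h2 : Continuous (fun q : OG d × ℝ => act q.1 p.b) :=
    (continuous_act_left p.b).comp continuous_fst
  have h3 : Continuous (fun q : OG d × ℝ => ⟪act q.1 p.a, u⟫ * Real.cos q.2 +
      ⟪act q.1 p.b, u⟫ * Real.sin q.2) := by
    have c1 := h1.inner (𝕜 := ℝ) (continuous_const (y := u))
    have c2 := h2.inner (𝕜 := ℝ) (continuous_const (y := u))
    exact (c1.mul (Real.continuous_cos.comp continuous_snd)).add
      (c2.mul (Real.continuous_sin.comp continuous_snd))
  exact h3.measurable hN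

lemma circle_symm (p : ON2 d) (u : Eu d) {N : Set ℝ} (hN : MeasurableSet N) :
    hm d {V : OG d | ⟪act V p.a, u⟫ ∈ N} =
      ((hm d).prod (volume.restrict (Icc (0:ℝ) 1))) {q : OG d × ℝ | ⟪act q.1 p.a, u⟫ * Real.cos q.2 +
      ⟪act q.1 p.b, u⟫ * Real.sin q.2 ∈ N} := by
  rw [Measure.prod_apply_symm (circle_set_measurable p u hN)]
  have h : ∀ θ : ℝ, hm d ((fun x => (x, θ)) ⁻¹' {q : OG d × ℝ | ⟪act q.1 p.a, u⟫ * Real.cos q.2 +
      ⟪act q.1 p.b, u⟫ * Real.sin q.2 ∈ N}) = hm d {V : OG d | ⟪act V p.a, u⟫ ∈ N} := by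
    intro θ
    rw [← measure_preimage_mul_right (hm d) (rot p θ) {V : OG d | ⟪act V p.a, u⟫ ∈ N}]
    congr 1
    ext V
    simp only [mem_preimage, mem_ofPred_eq]
    have : act (V * rot p θ) p.a = Real.cos θ • act V p.a + Real.sin θ • act V p.b := by
      rw [act_mul, act_rot_a, act_add, act_smul, act_smul]
    rw [this, inner_add_left, real_inner_smul_left, real_inner_smul_left, mul_comm,
      mul_comm (Real.sin θ)]
  simp only [h]
  rw [lintegral_const, Measure.restrict_apply_univ, Real.volume_Icc]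
  simp

lemma lawA (p : ON2 d) (u : Eu d) {N : Set ℝ} (hN : MeasurableSet N) (h0 : volume N = 0)
    (hz : (0 : ℝ) ∉ N) : hm d {V : OG d | ⟪act V p.a, u⟫ ∈ N} = 0 := by
  rw [circle_symm p u hN, Measure.prod_apply (circle_set_measurable p u hN)]
  rw [lintegral_eq_zero_iff' (measurable_measure_prodMk_left
    (circle_set_measurable p u hN)).aemeasurable]
  refine Filter.Eventually.of_forall fun V => ?_
  simp only [Pi.zero_apply]
  apply measure_mono_null (t := _) Subset.rfl
  refine le_antisymm ((Measure.restrict_apply_le _ _).trans (le_of_eq ?_)) bot_le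
  by_cases hab : ((⟪act V p.a, u⟫ : ℝ) = 0 ∧ (⟪act V p.b, u⟫ : ℝ) = 0)
  · have : (Prod.mk V ⁻¹' {q : OG d × ℝ | ⟪act q.1 p.a, u⟫ * Real.cos q.2 +
      ⟪act q.1 p.b, u⟫ * Real.sin q.2 ∈ N}) = ∅ := by
      ext θ
      simp only [mem_preimage, mem_ofPred_eq, hab.1, hab.2, zero_mul, add_zero, mem_empty_iff_false,
        iff_false]
      exact hz
    rw [this, measure_empty]
  · exact trig_preimage_null h0 hab

/-- standard basis vector -/
noncomputable abbrev eb (i : Fin d) : Eu d := EuclideanSpace.single i (1 : ℝ)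

lemma inner_eb (i : Fin d) (x : Eu d) : ⟪eb i, x⟫ = x i := by
  simp [eb, EuclideanSpace.inner_single_left]

/-- standard pair -/
noncomputable def stdP {i j : Fin d} (hij : i ≠ j) : ON2 d where
  a := eb i
  b := eb j
  ha := by simp [eb]
  hb := by simp [eb]
  hab := by
    rw [inner_eb]
    simp [eb, hij]

lemma lawB (_hd : 2 ≤ d) {u : Eu d} (hu : u ≠ 0) (i : Fin d) :
    hm d {V : OG d | (⟪act V (eb i), u⟫ : ℝ) = 0} = 0 := by
  have hZm : ∀ j : Fin d, MeasurableSet {V : OG d | (⟪act V (eb j), u⟫ : ℝ) = 0} := by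
    intro j
    have c1 := (continuous_act_left (eb j)).inner (𝕜 := ℝ) (continuous_const (y := u))
    exact c1.measurable (measurableSet_singleton 0)
  have hdiff : ∀ j : Fin d, j ≠ i → hm d ({V : OG d | (⟪act V (eb i), u⟫ : ℝ) = 0} \
      {V : OG d | (⟪act V (eb j), u⟫ : ℝ) = 0}) = 0 := by
    intro j hj
    set p : ON2 d := stdP hj.symm with hp
    have hpa : p.a = eb i := rfl
    have hpb : p.b = eb j := rfl
    have h1 := circle_symm p u (measurableSet_singleton (0:ℝ))
    rw [Measure.prod_apply (circle_set_measurable p u (measurableSet_singleton (0:ℝ)))] at h1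
    have h2 : ∀ V : OG d, (volume.restrict (Icc (0:ℝ) 1))
        (Prod.mk V ⁻¹' {q : OG d × ℝ | ⟪act q.1 p.a, u⟫ * Real.cos q.2 +
          ⟪act q.1 p.b, u⟫ * Real.sin q.2 ∈ ({0} : Set ℝ)}) =
        ({V : OG d | (⟪act V (eb i), u⟫ : ℝ) = 0} ∩
          {V : OG d | (⟪act V (eb j), u⟫ : ℝ) = 0}).indicator 1 V := by
      intro V
      by_cases hab : ((⟪act V p.a, u⟫ : ℝ) = 0 ∧ (⟪act V p.b, u⟫ : ℝ) = 0)
      · have e1 : (Prod.mk V ⁻¹' {q : OG d × ℝ | ⟪act q.1 p.a, u⟫ * Real.cos q.2 +
          ⟪act q.1 p.b, u⟫ * Real.sin q.2 ∈ ({0} : Set ℝ)}) = univ := by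
          ext θ
          simp [hab.1, hab.2]
        rw [e1, indicator_of_mem]
        · simp
        · exact ⟨hab.1, hab.2⟩
      · rw [indicator_of_notMem]
        · refine le_antisymm ((Measure.restrict_apply_le _ _).trans (le_of_eq ?_)) bot_le
          exact trig_preimage_null (N := {0}) (measure_singleton 0) hab
        · exact hab
    simp only [h2] at h1
    rw [lintegral_indicator_one ((hZm i).inter (hZm j))] at h1
    have h3 : {V : OG d | (⟪act V p.a, u⟫ : ℝ) ∈ ({0} : Set ℝ)} =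
        {V : OG d | (⟪act V (eb i), u⟫ : ℝ) = 0} := by
      ext V
      simp [hpa]
    rw [h3] at h1
    rw [measure_sdiff' _ (hZm j).nullMeasurableSet (measure_ne_top _ _)]
    have h4 : hm d ({V : OG d | (⟪act V (eb i), u⟫ : ℝ) = 0} ∪
        {V : OG d | (⟪act V (eb j), u⟫ : ℝ) = 0}) + hm d ({V : OG d | (⟪act V (eb i), u⟫ : ℝ) = 0} ∩
        {V : OG d | (⟪act V (eb j), u⟫ : ℝ) = 0}) = hm d {V : OG d | (⟪act V (eb i), u⟫ : ℝ) = 0} +
        hm d {V : OG d | (⟪act V (eb j), u⟫ : ℝ) = 0} := measure_union_add_inter _ (hZm j)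
    rw [← h1, add_comm (hm d {V : OG d | (⟪act V (eb i), u⟫ : ℝ) = 0})] at h4
    have h5 := (ENNReal.add_left_inj (measure_ne_top _ _)).1 h4
    rw [h5, tsub_self]
  have hsub : {V : OG d | (⟪act V (eb i), u⟫ : ℝ) = 0} ⊆
      ⋃ j : {j : Fin d // j ≠ i}, ({V : OG d | (⟪act V (eb i), u⟫ : ℝ) = 0} \
      {V : OG d | (⟪act V (eb j.1), u⟫ : ℝ) = 0}) := by
    intro V hV
    by_contra hcon
    simp only [mem_iUnion, not_exists] at hcon
    apply hu
    have hall : ∀ j : Fin d, (act V⁻¹ u) j = 0 := by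
      intro j
      rw [← inner_eb, ← inner_act_left]
      by_cases hji : j = i
      · rw [hji]; exact hV
      · have := hcon ⟨j, hji⟩
        by_contra hne
        exact this ⟨hV, hne⟩
    have h0 : act V⁻¹ u = 0 := by
      ext j
      exact hall j
    rw [← act_act_inv V u, h0, act_zero]
  exact measure_mono_null hsub (measure_iUnion_null fun j => hdiff j.1 j.2)

lemma lawD (hd : 2 ≤ d) {x u : Eu d} (hx : x ≠ 0) (hu : u ≠ 0) {N : Set ℝ}
    (hN : volume N = 0) : hm d {V : OG d | (⟪act V x, u⟫ : ℝ) ∈ N} = 0 := by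
  have hi : 0 < d := by omega
  set i : Fin d := ⟨0, hi⟩ with hidef
  set j : Fin d := ⟨1, by omega⟩ with hjdef
  have hij : i ≠ j := by
    intro h
    have := congrArg Fin.val h
    simp [hidef, hjdef] at this
  have hx0 : 0 < ‖x‖ := norm_pos_iff.2 hx
  obtain ⟨W, hW⟩ := exists_act_eq (x := ‖x‖ • eb i) (y := x) (by simp [norm_smul, eb])
  -- measurable null superset
  set M : Set ℝ := toMeasurable volume ((fun t => ‖x‖ * t) ⁻¹' N) with hM
  have hM0 : volume M = 0 := by
    rw [hM, measure_toMeasurable, Real.volume_preimage_mul_left hx0.ne', hN, mul_zero]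
  have hMm : MeasurableSet M := measurableSet_toMeasurable _ _
  have h1 : hm d {V : OG d | (⟪act V (eb i), u⟫ : ℝ) ∈ M} = 0 := by
    have hsub : {V : OG d | (⟪act V (eb i), u⟫ : ℝ) ∈ M} ⊆
        {V : OG d | (⟪act V (stdP hij).a, u⟫ : ℝ) ∈ M \ {0}} ∪
        {V : OG d | (⟪act V (eb i), u⟫ : ℝ) = 0} := by
      intro V hV
      by_cases h : (⟪act V (eb i), u⟫ : ℝ) = 0
      · exact Or.inr h
      · exact Or.inl ⟨hV, h⟩
    refine measure_mono_null hsub (measure_union_null ?_ (lawB hd hu i))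
    exact lawA _ u (hMm.diff (measurableSet_singleton 0)) (measure_mono_null sdiff_subset hM0)
      (by simp)
  have h2 : {V : OG d | (⟪act V x, u⟫ : ℝ) ∈ N} ⊆
      (fun V => V * W) ⁻¹' {V : OG d | (⟪act V (eb i), u⟫ : ℝ) ∈ M} := by
    intro V hV
    simp only [mem_preimage, mem_ofPred_eq]
    apply subset_toMeasurable
    simp only [mem_preimage]
    have : ‖x‖ * (⟪act (V * W) (eb i), u⟫ : ℝ) = ⟪act V x, u⟫ := by
      rw [act_mul, ← real_inner_smul_left, ← act_smul, ← act_smul, hW]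
    rw [this]
    exact hV
  refine measure_mono_null h2 ?_
  rw [measure_preimage_mul_right]
  exact h1

/-- radial distribution function of a set -/
noncomputable def psi (N : Set (Eu d)) (e : Eu d) (r : ℝ) : ℝ≥0∞ :=
  hm d {W : OG d | act W (r • e) ∈ N}

lemma psi_meas {N : Set (Eu d)} (hNm : MeasurableSet N) (e : Eu d) : Measurable (psi N e) := by
  have hS : MeasurableSet {q : ℝ × OG d | act q.2 (q.1 • e) ∈ N} := by
    have : Continuous (fun q : ℝ × OG d => act q.2 (q.1 • e)) :=
      continuous_act.comp (by fun_prop : Continuous fun q : ℝ × OG d => (q.2, q.1 • e))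
    exact this.measurable hNm
  exact measurable_measure_prodMk_left hS

lemma psi_norm (N : Set (Eu d)) {e : Eu d} (he : ‖e‖ = 1) (x : Eu d) :
    hm d {W : OG d | act W x ∈ N} = psi N e ‖x‖ := by
  obtain ⟨W', hW'⟩ := exists_act_eq (x := ‖x‖ • e) (y := x) (by simp [norm_smul, he])
  unfold psi
  rw [← measure_preimage_mul_right (hm d) W' {W : OG d | act W (‖x‖ • e) ∈ N}]
  congr 1
  ext W
  simp only [mem_preimage, mem_ofPred_eq]
  rw [act_mul, hW']

lemma psi_vol {N : Set (Eu d)} (hNm : MeasurableSet N) (hN : volume N = 0) {e : Eu d}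
    (he : ‖e‖ = 1) : volume {x : Eu d | ‖x‖ ∈ {r : ℝ | psi N e r ≠ 0}} = 0 := by
  have hS : MeasurableSet {q : OG d × Eu d | act q.1 q.2 ∈ N} := continuous_act.measurable hNm
  have h1 : ((hm d).prod volume) {q : OG d × Eu d | act q.1 q.2 ∈ N} = 0 := by
    rw [Measure.prod_apply hS]
    rw [lintegral_eq_zero_iff (measurable_measure_prodMk_left hS)]
    refine Filter.Eventually.of_forall fun V => ?_
    simp only [Pi.zero_apply]
    have h2 : (Prod.mk V ⁻¹' {q : OG d × Eu d | act q.1 q.2 ∈ N}) = act V ⁻¹' N := rfl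
    rw [h2, (measurePreserving_act V).measure_preimage hNm.nullMeasurableSet, hN]
  rw [Measure.prod_apply_symm hS] at h1
  have h3 : ∀ x : Eu d, hm d ((fun W => (W, x)) ⁻¹' {q : OG d × Eu d | act q.1 q.2 ∈ N}) =
      psi N e ‖x‖ := fun x => psi_norm N he x
  simp only [h3] at h1
  have hψn : Measurable (fun x : Eu d => psi N e ‖x‖) := (psi_meas hNm e).comp measurable_norm
  rw [lintegral_eq_zero_iff hψn] at h1
  rw [Filter.EventuallyEq, ae_iff] at h1
  exact h1

lemma continuous_diff (u : Eu d) :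
    Continuous (fun q : OG d × OG d => act q.2 u - act q.1 u) :=
  ((continuous_act_left u).comp continuous_snd).sub ((continuous_act_left u).comp continuous_fst)

lemma psi_pair (hd : 2 ≤ d) {u : Eu d} (hu : u ≠ 0) {N : Set (Eu d)} (hNm : MeasurableSet N)
    (hN : volume N = 0) {e : Eu d} (he : ‖e‖ = 1) :
    ((hm d).prod (hm d)) {q : OG d × OG d | psi N e ‖act q.2 u - act q.1 u‖ ≠ 0} = 0 := by
  have : NeZero d := ⟨by omega⟩
  have hψm := psi_meas hNm e
  have hN1m : MeasurableSet {r : ℝ | psi N e r ≠ 0} := hψm (measurableSet_singleton 0).compl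
  have hN1 := radial_null hN1m (psi_vol hNm hN he)
  set N1 : Set ℝ := {r : ℝ | psi N e r ≠ 0} ∩ Ioi 0 with hN1def
  set N2 : Set ℝ := (fun r => ‖u‖ ^ 2 - r ^ 2 / 2) '' (N1 ∪ {0}) with hN2def
  have hN2 : volume N2 = 0 := by
    apply MeasureTheory.addHaar_image_eq_zero_of_differentiableOn_of_addHaar_eq_zero
    · fun_prop
    · exact measure_union_null hN1 (measure_singleton 0)
  have hSm : MeasurableSet {q : OG d × OG d | psi N e ‖act q.2 u - act q.1 u‖ ≠ 0} :=
    (hψm.comp (measurable_norm.comp (continuous_diff u).measurable))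
      (measurableSet_singleton 0).compl
  rw [Measure.prod_apply hSm]
  rw [lintegral_eq_zero_iff (measurable_measure_prodMk_left hSm)]
  refine Filter.Eventually.of_forall fun U => ?_
  simp only [Pi.zero_apply]
  have hUu : act U u ≠ 0 := by
    rw [← norm_pos_iff, norm_act]
    exact norm_pos_iff.2 hu
  refine measure_mono_null ?_ (lawD hd hu hUu hN2)
  intro V hV
  simp only [mem_preimage, mem_ofPred_eq] at hV ⊢
  refine ⟨‖act V u - act U u‖, ?_, ?_⟩
  · rcases (norm_nonneg (act V u - act U u)).eq_or_lt with h | h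
    · right
      exact h.symm
    · left
      exact ⟨hV, h⟩
  · simp only
    rw [norm_sub_sq_real, norm_act, norm_act]
    ring

lemma pair_inv {u : Eu d} {N : Set (Eu d)} (W : OG d) :
    ((hm d).prod (hm d)) {q : OG d × OG d | act W (act q.2 u - act q.1 u) ∈ N} =
      ((hm d).prod (hm d)) {q : OG d × OG d | act q.2 u - act q.1 u ∈ N} := by
  have h := measure_preimage_mul ((hm d).prod (hm d)) ((W, W) : OG d × OG d)
    {q : OG d × OG d | act q.2 u - act q.1 u ∈ N}
  rw [← h]
  congr 1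
  ext q
  simp only [mem_preimage, mem_ofPred_eq, Prod.fst_mul, Prod.snd_mul, act_mul, act_sub]

lemma triple_meas (u : Eu d) {N : Set (Eu d)} (hNm : MeasurableSet N) :
    MeasurableSet {p : OG d × (OG d × OG d) | act p.1 (act p.2.2 u - act p.2.1 u) ∈ N} := by
  have : Continuous (fun p : OG d × (OG d × OG d) => act p.1 (act p.2.2 u - act p.2.1 u)) :=
    continuous_act.comp (continuous_fst.prodMk ((continuous_diff u).comp continuous_snd))
  exact this.measurable hNm

lemma triple_one {u : Eu d} {N : Set (Eu d)} (hNm : MeasurableSet N) :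
    ((hm d).prod ((hm d).prod (hm d))) {p : OG d × (OG d × OG d) |
      act p.1 (act p.2.2 u - act p.2.1 u) ∈ N} =
    ((hm d).prod (hm d)) {q : OG d × OG d | act q.2 u - act q.1 u ∈ N} := by
  rw [Measure.prod_apply (triple_meas u hNm)]
  have h2 : ∀ W : OG d, ((hm d).prod (hm d)) (Prod.mk W ⁻¹' {p : OG d × (OG d × OG d) |
    act p.1 (act p.2.2 u - act p.2.1 u) ∈ N}) =
    ((hm d).prod (hm d)) {q : OG d × OG d | act q.2 u - act q.1 u ∈ N} := fun W => pair_inv W
  rw [lintegral_congr h2, lintegral_const, measure_univ, mul_one]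

lemma triple_two (hd : 2 ≤ d) {u : Eu d} (hu : u ≠ 0) {N : Set (Eu d)} (hNm : MeasurableSet N)
    (hN : volume N = 0) {e : Eu d} (he : ‖e‖ = 1) :
    ((hm d).prod ((hm d).prod (hm d))) {p : OG d × (OG d × OG d) |
      act p.1 (act p.2.2 u - act p.2.1 u) ∈ N} = 0 := by
  rw [Measure.prod_apply_symm (triple_meas u hNm)]
  have h3 : ∀ q : OG d × OG d, hm d ((fun W => (W, q)) ⁻¹' {p : OG d × (OG d × OG d) |
      act p.1 (act p.2.2 u - act p.2.1 u) ∈ N}) = psi N e ‖act q.2 u - act q.1 u‖ := by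
    intro q
    have h4 : ((fun W => (W, q)) ⁻¹' {p : OG d × (OG d × OG d) |
      act p.1 (act p.2.2 u - act p.2.1 u) ∈ N}) =
      {W : OG d | act W (act q.2 u - act q.1 u) ∈ N} := by
      ext W
      simp only [mem_preimage, mem_ofPred_eq]
    rw [h4, psi_norm N he (act q.2 u - act q.1 u)]
  rw [lintegral_congr h3]
  have hψq : Measurable (fun q : OG d × OG d => psi N e ‖act q.2 u - act q.1 u‖) :=
    (psi_meas hNm e).comp (measurable_norm.comp (continuous_diff u).measurable)
  rw [lintegral_eq_zero_iff hψq]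
  rw [Filter.EventuallyEq, ae_iff]
  exact psi_pair hd hu hNm hN he

/-- law of the difference is absolutely continuous -/
theorem law_ac (hd : 2 ≤ d) {u : Eu d} (hu : u ≠ 0) {N : Set (Eu d)} (hNm : MeasurableSet N)
    (hN : volume N = 0) :
    ((hm d).prod (hm d)) {q : OG d × OG d | act q.2 u - act q.1 u ∈ N} = 0 := by
  have he : ‖eb (⟨0, by omega⟩ : Fin d)‖ = 1 := by simp [eb]
  rw [← triple_one hNm]
  exact triple_two hd hu hNm hN he

end Run7.h764.S
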