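import Pool.Agent.Run7.h764.SStep
set_option autoImplicit false

/-! From decay to large dilates. -/

namespace Run7.h764.S

open MeasureTheory Metric Set
open scoped ENNReal RealInnerProductSpace

variable {d : ℕ} {ι : Type*} [Fintype ι]

/-- the multilinear form -/
noncomputable def Tf (l : ℝ) (v : ι → Eu d) (F : ι → Eu d → ℝ) : ℝ :=
  ∫ p, ∏ j, F j (ev l (v j) p) ∂(PX d)

/-- the decay property of a configuration -/
def Dec (v : ι → Eu d) : Prop := ∀ η : ℝ, 0 < η → ∃ ε : ℝ, 0 < ε ∧ ∀ l : ℝ, 0 < l →
  ∀ a : ℝ, 0 < a → a ≤ ε * l → ∀ V : ℝ, ∀ F : ι → Eu d → ℝ, (∀ j, Adm (F j)) →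
    (∀ j, ∫ x, |F j x| ≤ V) → ∀ q : ι, MZ a (F q) → |Tf l v F| ≤ η * V

lemma prod_bd {α : Type*} {F : ι → α → ℝ} (hF : ∀ j x, |F j x| ≤ 1) (q : ι)
    (x : α) : |∏ j, F j x| ≤ |F q x| := by
  classical
  rw [← Finset.mul_prod_erase Finset.univ (fun j => F j x) (Finset.mem_univ q), abs_mul]
  refine mul_le_of_le_one_right (abs_nonneg _) ?_
  rw [Finset.abs_prod]
  exact Finset.prod_le_one (fun j _ => abs_nonneg _) fun j _ => hF j x

lemma prod_adm {α : Type*} [MeasurableSpace α] {μ : Measure α} {F : ι → α → ℝ}
    (hF : ∀ j, AdmX μ (F j)) (q : ι) : AdmX μ (fun x => ∏ j, F j x) := by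
  have hm : Measurable (fun x => ∏ j, F j x) := Finset.measurable_prod _ fun j _ => (hF j).meas
  refine ⟨hm, fun x => (prod_bd (fun j => (hF j).bd) q x).trans ((hF q).bd x), ?_⟩
  refine (hF q).int.mono hm.aestronglyMeasurable (Filter.Eventually.of_forall fun x => ?_)
  rw [Real.norm_eq_abs, Real.norm_eq_abs]
  exact prod_bd (fun j => (hF j).bd) q x

lemma Tf_le {l : ℝ} {v : ι → Eu d} {F : ι → Eu d → ℝ} (hF : ∀ j, Adm (F j)) (q : ι) :
    |Tf l v F| ≤ ∫ x, |F q x| := by
  unfold Tf
  have h1 : ∀ j, AdmX (PX d) (fun p => F j (ev l (v j) p)) := fun j => adm_ev (hF j)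
  refine (abs_integral_le _).trans ?_
  rw [← adm_ev_abs (l := l) (w := v q) (hF q)]
  refine integral_mono (prod_adm h1 q).int.abs (h1 q).int.abs fun p => ?_
  exact prod_bd (F := fun j p => F j (ev l (v j) p)) (fun j => (h1 j).bd) q p

open Classical in
/-- replacing all functions one at a time -/
lemma telescope [Nonempty ι] {l : ℝ} {v : ι → Eu d} {f g : Eu d → ℝ} (hf : Adm f) (hg : Adm g)
    {β : ℝ}
    (hβ : ∀ q : ι, ∀ H : ι → Eu d → ℝ, (∀ j, j ≠ q → H j = f ∨ H j = g) →
      H q = (fun x => g x - f x) → |Tf l v H| ≤ β) :
    |Tf l v (fun _ => g) - Tf l v (fun _ => f)| ≤ Fintype.card ι * β := by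
  have key : ∀ s : Finset ι, |Tf l v (fun j => if j ∈ s then g else f) - Tf l v (fun _ => f)| ≤
      s.card * β := by
    intro s
    induction s using Finset.induction_on with
    | empty => simp
    | insert q s hq ih =>
      have hstep : Tf l v (fun j => if j ∈ insert q s then g else f) =
          Tf l v (fun j => if j ∈ s then g else f) +
          Tf l v (fun j => if j = q then (fun x => g x - f x) else if j ∈ s then g else f) := by
        have hadm : ∀ t : Finset ι, ∀ j, Adm (if j ∈ t then g else f) := by
          intro t j
          split_ifs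
          · exact hg
          · exact hf
        have h1 : ∀ t : Finset ι, Integrable (fun p =>
            ∏ j, (if j ∈ t then g else f) (ev l (v j) p)) (PX d) := by
          intro t
          exact (prod_adm (fun j => adm_ev (hadm t j)) q).int
        have h2 : ∀ p, ∏ j, (if j ∈ insert q s then g else f) (ev l (v j) p) =
            ∏ j, (if j ∈ s then g else f) (ev l (v j) p) +
            ∏ j, (if j = q then (fun x => g x - f x) else if j ∈ s then g else f)
              (ev l (v j) p) := by
          intro p
          rw [← Finset.mul_prod_erase Finset.univ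
              (fun j => (if j ∈ insert q s then g else f) (ev l (v j) p)) (Finset.mem_univ q),
            ← Finset.mul_prod_erase Finset.univ
              (fun j => (if j ∈ s then g else f) (ev l (v j) p)) (Finset.mem_univ q),
            ← Finset.mul_prod_erase Finset.univ
              (fun j => (if j = q then (fun x => g x - f x) else if j ∈ s then g else f)
              (ev l (v j) p)) (Finset.mem_univ q)]
          have e1 : ∀ j ∈ Finset.univ.erase q,
              (if j ∈ insert q s then g else f) (ev l (v j) p) =
              (if j ∈ s then g else f) (ev l (v j) p) := by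
            intro j hj
            have hjq : j ≠ q := Finset.ne_of_mem_erase hj
            have : j ∈ insert q s ↔ j ∈ s := by simp [hjq]
            simp only [this]
          have e2 : ∀ j ∈ Finset.univ.erase q,
              (if j = q then (fun x => g x - f x) else if j ∈ s then g else f) (ev l (v j) p) =
              (if j ∈ s then g else f) (ev l (v j) p) := by
            intro j hj
            rw [if_neg (Finset.ne_of_mem_erase hj)]
          rw [Finset.prod_congr rfl e1, Finset.prod_congr rfl e2]
          rw [if_pos (Finset.mem_insert_self q s), if_neg hq, if_pos rfl]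
          ring
        unfold Tf
        rw [← integral_add (h1 s)]
        · congr 1
          ext p
          exact h2 p
        · have h3 := (h1 (insert q s)).sub (h1 s)
          refine h3.congr (Filter.Eventually.of_forall fun p => ?_)
          simp only [Pi.sub_apply]
          rw [h2 p]
          ring
      have hb := hβ q (fun j => if j = q then (fun x => g x - f x) else if j ∈ s then g else f)
        (fun j hj => by
          simp only [if_neg hj]
          split_ifs
          · exact Or.inr rfl
          · exact Or.inl rfl) (by simp)
      rw [hstep, Finset.card_insert_of_notMem hq]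
      push_cast
      have e : Tf l v (fun j => if j ∈ s then g else f) +
          Tf l v (fun j => if j = q then (fun x => g x - f x) else if j ∈ s then g else f) -
          Tf l v (fun _ => f) = (Tf l v (fun j => if j ∈ s then g else f) - Tf l v (fun _ => f)) +
          Tf l v (fun j => if j = q then (fun x => g x - f x) else if j ∈ s then g else f) := by
        ring
      rw [e]
      refine (abs_add_le _ _).trans ?_
      linarith
  have := key Finset.univ
  simpa using this

end Run7.h764.S
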