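import Pool.Agent.Run7.h764.SMain
set_option autoImplicit false

/-! From decay to large dilates: the counting argument at one scale. -/

namespace Run7.h764.S

open MeasureTheory Metric Set
open scoped ENNReal RealInnerProductSpace

variable {d : ℕ} {ι : Type*} [Fintype ι]

/-- the cube `[-T, T]^d` -/
def Qb (d : ℕ) (T : ℝ) : Set (Eu d) := {x | ∀ i, |x i| ≤ T}

lemma Qb_meas (T : ℝ) : MeasurableSet (Qb d T) := by
  have : Qb d T = ⋂ i, {x : Eu d | |x i| ≤ T} := by ext x; simp [Qb]
  rw [this]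
  refine MeasurableSet.iInter fun i => ?_
  have h : Continuous (fun x : Eu d => |x i|) := by fun_prop
  exact h.measurable measurableSet_Iic

lemma Qb_vol {T : ℝ} (hT : 0 ≤ T) : volume (Qb d T) = ENNReal.ofReal ((2 * T) ^ d) := by
  have h := (PiLp.volume_preserving_ofLp (Fin d)).measure_preimage
    (s := Icc (fun _ : Fin d => -T) (fun _ => T)) measurableSet_Icc.nullMeasurableSet
  rw [Real.volume_Icc_pi] at h
  have e : (WithLp.ofLp ⁻¹' Icc (fun _ : Fin d => -T) (fun _ => T) : Set (Eu d)) = Qb d T := by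
    ext x
    simp only [mem_preimage, mem_Icc, Pi.le_def, Qb, mem_ofPred_eq, abs_le]
    constructor
    · rintro ⟨h1, h2⟩ i
      exact ⟨h1 i, h2 i⟩
    · intro h1
      exact ⟨fun i => (h1 i).1, fun i => (h1 i).2⟩
  rw [e] at h
  rw [h, Finset.prod_const, Finset.card_univ, Fintype.card_fin, sub_neg_eq_add,
    ENNReal.ofReal_pow (by positivity), two_mul]

lemma EA_supp {T b : ℝ} (hb : 0 < b) {f : Eu d → ℝ} (hf : ∀ x, x ∉ Qb d T → f x = 0)
    {x : Eu d} (hx : x ∉ Qb d (T + b)) : EA b f x = 0 := by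
  have h := EA_abs_le hb (f := f) (c := 0) x fun y hy => by
    have hy' : y ∉ Qb d T := by
      intro hyT
      apply hx
      intro i
      have h1 := (cell_eq_iff hb x (cell b y)).1 hy i
      have h2 := (cell_eq_iff hb y (cell b y)).1 rfl i
      have h3 := abs_le.1 (hyT i)
      rw [abs_le]
      constructor
      · linarith [h1.1, h2.2, h3.1]
      · linarith [h1.2, h2.1, h3.2]
    rw [hf y hy', abs_zero]
  exact abs_eq_zero.1 (le_antisymm h (abs_nonneg _))

lemma EA_int {b : ℝ} (hb : 0 < b) {f : Eu d → ℝ} (hf : Adm f) : ∫ x, EA b f x = ∫ x, f x := by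
  have h := EA_adj hb hf.meas hf.int (g := fun _ => 1) measurable_const (c := 1) (by simp)
  simp only [mul_one] at h
  rw [h]
  congr 1
  ext x
  rw [EA_const hb (F := fun _ => (1:ℝ)) (fun _ _ _ => rfl), mul_one]

lemma pow_adm {F : Eu d → ℝ} (hF : Adm F) {n : ℕ} (hn : 0 < n) : Adm (fun x => F x ^ n) := by
  refine ⟨hF.meas.pow_const n, fun x => ?_, ?_⟩
  · rw [abs_pow]
    exact pow_le_one₀ (abs_nonneg _) (hF.bd x)
  · refine hF.int.mono (hF.meas.pow_const n).aestronglyMeasurable
      (Filter.Eventually.of_forall fun x => ?_)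
    rw [norm_pow, Real.norm_eq_abs]
    obtain ⟨m, rfl⟩ : ∃ m, n = m + 1 := ⟨n - 1, by omega⟩
    rw [pow_succ]
    exact mul_le_of_le_one_left (abs_nonneg _) (pow_le_one₀ (abs_nonneg _) (hF.bd x))

/-- lower bound for a cellwise constant function -/
lemma lower [Nonempty ι] {b l M : ℝ} (hb : 0 < b) (hl : 0 < l) (hM : 0 ≤ M) {v : ι → Eu d}
    (hv : ∀ j, ‖v j‖ ≤ M) (hlb : 4 * (d + 1) * M * l ≤ b) {f : Eu d → ℝ} (hf : Adm f)
    (hf0 : ∀ x, 0 ≤ f x) :
    1 / 2 * ∫ x, EA b f x ^ Fintype.card ι ≤ Tf l v (fun _ => EA b f) := by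
  set F := EA b f with hF
  have hFa : Adm F := hf.EA hb
  have hF0 : ∀ x, 0 ≤ F x := fun x => EA_nonneg hb hf0 x
  set n := Fintype.card ι with hn
  have hn0 : 0 < n := Fintype.card_pos
  set r := l * M with hr
  have hr0 : 0 ≤ r := by positivity
  have hd0 : (0 : ℝ) ≤ d := Nat.cast_nonneg d
  have h4r : 4 * (d + 1) * r ≤ b := by
    calc 4 * ((d:ℝ) + 1) * r = 4 * (d + 1) * M * l := by rw [hr]; ring
      _ ≤ b := hlb
  have h2r : 2 * r ≤ b := by nlinarith
  have hpn := pow_adm hFa hn0
  have h1 := int_Gd hb hr0 h2r hpn fun x y hxy => by rw [hF, EA_cell f hxy]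
  have h2 : (1:ℝ) / 2 ≤ ((b - 2 * r) / b) ^ d := by
    have e1 : (b - 2 * r) / b = 1 + (-(2 * r / b)) := by field_simp; ring
    have e2 : 2 * r / b ≤ 1 / (2 * (d + 1)) := by
      rw [div_le_div_iff₀ hb (by positivity)]
      linarith
    have e3 : 0 ≤ 2 * r / b := by positivity
    have e5 : 1 / (2 * ((d:ℝ) + 1)) ≤ 1 := by
      rw [div_le_one (by positivity)]
      linarith
    have e4 := one_add_mul_le_pow (a := -(2 * r / b)) (by linarith) d
    rw [e1]
    refine le_trans ?_ e4
    have e6 : (d:ℝ) * (2 * r / b) ≤ d * (1 / (2 * (d + 1))) := by gcongr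
    have e7 : (d:ℝ) * (1 / (2 * (d + 1))) ≤ 1 / 2 := by
      rw [mul_one_div, div_le_div_iff₀ (by positivity) (by norm_num)]
      linarith
    linarith
  have h3 : 0 ≤ ∫ x, F x ^ n := integral_nonneg fun x => pow_nonneg (hF0 x) n
  have hG : AdmX volume (fun x : Eu d => F x ^ n * (Gd b r : Set (Eu d)).indicator 1 x) := by
    have hm : Measurable ((Gd b r : Set (Eu d)).indicator (1 : Eu d → ℝ)) :=
      measurable_one.indicator (Gd_meas b r)
    have hbd : ∀ x, |(Gd b r : Set (Eu d)).indicator (1 : Eu d → ℝ) x| ≤ 1 := by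
      intro x
      by_cases h : x ∈ (Gd b r : Set (Eu d))
      · rw [indicator_of_mem h]; simp
      · rw [indicator_of_notMem h]; simp
    refine ⟨hpn.meas.mul hm, fun x => ?_, ?_⟩
    · rw [abs_mul]
      exact mul_le_one₀ (hpn.bd x) (abs_nonneg _) (hbd x)
    · exact (hpn.int.bdd_mul (c := 1) hm.aestronglyMeasurable
        (Filter.Eventually.of_forall fun y => by rw [Real.norm_eq_abs]; exact hbd y)).congr
        (Filter.Eventually.of_forall fun y => by simp only; ring)
  have h0 : MeasurePreserving (fun p : OG d × Eu d => p.2) (PX d) volume := by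
    have := ev_mp (d := d) 0 0
    have e : (ev 0 0 : OG d × Eu d → Eu d) = fun p => p.2 := by
      ext p
      rw [ev_zero]
    rwa [e] at this
  calc 1 / 2 * ∫ x, F x ^ n ≤ ((b - 2 * r) / b) ^ d * ∫ x, F x ^ n := by gcongr
    _ = ∫ x, F x ^ n * (Gd b r : Set (Eu d)).indicator 1 x := h1.symm
    _ = ∫ p, F (p.2) ^ n * (Gd b r : Set (Eu d)).indicator 1 p.2 ∂(PX d) :=
        (mp_integral h0 hG.meas).symm
    _ ≤ Tf l v (fun _ => F) := by
        unfold Tf
        refine integral_mono (hG.comp h0).int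
          (prod_adm (fun j : ι => adm_ev (w := v j) hFa) (Classical.arbitrary ι)).int fun p => ?_
        simp only
        by_cases hp : p.2 ∈ (Gd b r : Set (Eu d))
        · rw [indicator_of_mem hp, Pi.one_apply, mul_one]
          have : ∀ j : ι, F (ev l (v j) p) = F p.2 := by
            intro j
            apply EA_cell
            apply Gd_cell hb hp
            rw [norm_smul, norm_act, Real.norm_eq_abs, abs_of_pos hl]
            exact mul_le_mul_of_nonneg_left (hv j) hl.le
          simp only [this]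
          rw [Finset.prod_const, Finset.card_univ]
        · rw [indicator_of_notMem hp, mul_zero]
          exact Finset.prod_nonneg fun j _ => hF0 _

/-- power mean bound -/
lemma power_lower {F : Eu d → ℝ} (hF : Adm F) (hF0 : ∀ x, 0 ≤ F x) {n : ℕ} (hn : 0 < n)
    {S : Set (Eu d)} (hS : MeasurableSet S) (hSf : volume S ≠ ∞) (hsupp : ∀ x, x ∉ S → F x = 0)
    {t : ℝ} (ht : 0 ≤ t) :
    t ^ (n - 1) * ((∫ x, F x) - t * volume.real S) ≤ ∫ x, F x ^ n := by
  have hint : Integrable (S.indicator (fun _ : Eu d => t)) := by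
    rw [integrable_indicator_iff hS]
    exact integrableOn_const hSf (by simp)
  have h1 : t ^ (n - 1) * ((∫ x, F x) - t * volume.real S) =
      ∫ x, t ^ (n - 1) * (F x - S.indicator (fun _ => t) x) := by
    rw [integral_const_mul, integral_sub hF.int hint, integral_indicator_const _ hS, smul_eq_mul]
    ring
  rw [h1]
  refine integral_mono ((hF.int.sub hint).const_mul _) (pow_adm hF hn).int fun x => ?_
  simp only
  obtain ⟨m, rfl⟩ : ∃ m, n = m + 1 := ⟨n - 1, by omega⟩
  rw [Nat.add_sub_cancel]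
  by_cases hx : x ∈ S
  · rw [indicator_of_mem hx]
    by_cases hle : t ≤ F x
    · calc t ^ m * (F x - t) ≤ t ^ m * F x := by
            apply mul_le_mul_of_nonneg_left _ (pow_nonneg ht m)
            linarith
        _ ≤ F x ^ m * F x := by
            apply mul_le_mul_of_nonneg_right _ (hF0 x)
            exact pow_le_pow_left₀ ht hle m
        _ = F x ^ (m + 1) := (pow_succ _ _).symm
    · have h2 : t ^ m * (F x - t) ≤ 0 :=
        mul_nonpos_of_nonneg_of_nonpos (pow_nonneg ht m) (by linarith)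
      exact h2.trans (pow_nonneg (hF0 x) _)
  · rw [indicator_of_notMem hx, hsupp x hx]
    simp

end Run7.h764.S
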