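import Pool.Agent.Run7.h764.SMain2
set_option autoImplicit false

/-! From decay to large dilates: conclusion. -/

namespace Run7.h764.S

open MeasureTheory Metric Set
open scoped ENNReal RealInnerProductSpace

variable {d : ℕ} {ι : Type*} [Fintype ι]

/-- a dilation factor is bad for a set -/
def Bad (v : ι → Eu d) (A : Set (Eu d)) (l : ℝ) : Prop :=
  ∀ (U : OG d) (x : Eu d), ¬ ∀ j, x + l • act U (v j) ∈ A

lemma sub_adm {f g : Eu d → ℝ} (hf : Adm f) (hg : Adm g) (hf0 : ∀ x, 0 ≤ f x)
    (hg0 : ∀ x, 0 ≤ g x) : Adm (fun x => g x - f x) := by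
  refine ⟨hg.meas.sub hf.meas, fun x => ?_, hg.int.sub hf.int⟩
  have h1 := (abs_le.1 (hf.bd x)).2
  have h2 := (abs_le.1 (hg.bd x)).2
  rw [abs_le]
  constructor <;> linarith [hf0 x, hg0 x]

/-- the argument at one scale -/
lemma core [Nonempty ι] {v : ι → Eu d} {A : Set (Eu d)} (hA : MeasurableSet A)
    {M δ : ℝ} (hM : 0 ≤ M) (hv : ∀ j, ‖v j‖ ≤ M) (hδ : 0 < δ)
    {t c η lam : ℝ} (ht : t = δ / 2 ^ (d + 1)) (hc : c = t ^ (Fintype.card ι - 1) * δ / 4)
    (hη : η = c / (16 * Fintype.card ι)) (hlam : lam = c / (4 * Fintype.card ι * 2 ^ d))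
    {l a b T τ : ℝ} {k : ℕ} (hk : 0 < k) (hbk : b = k * a)
    (hl : 0 < l) (ha : 0 < a) (hlb : 4 * (d + 1) * M * l ≤ b) (hbT : b ≤ T)
    (hT : 0 < T) (hbad : Bad v A l)
    (hdens : δ * (2 * T) ^ d ≤ volume.real (A ∩ Qb d T))
    (hdec : ∀ F : ι → Eu d → ℝ, (∀ j, Adm (F j)) →
      (∀ j, ∫ x, |F j x| ≤ 2 * (2 * T) ^ d) → ∀ q : ι, MZ a (F q) →
        |Tf l v F| ≤ η * (2 * (2 * T) ^ d))
    (hτ : τ = lam * c / (4 * Fintype.card ι))
    (hen : ∫ x, (EA a ((A ∩ Qb d T).indicator 1) x - EA b ((A ∩ Qb d T).indicator 1) x) ^ 2 ≤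
      τ * (2 * T) ^ d) : False := by
  set n := Fintype.card ι with hn
  have hn0 : 0 < n := Fintype.card_pos
  have hn' : (0 : ℝ) < n := by exact_mod_cast hn0
  have ht0 : 0 < t := by rw [ht]; positivity
  have hc0 : 0 < c := by rw [hc]; positivity
  have hlam0 : 0 < lam := by rw [hlam]; positivity
  have hk' : (0 : ℝ) < k := by exact_mod_cast hk
  have hb : 0 < b := by rw [hbk]; positivity
  set V0 : ℝ := (2 * T) ^ d with hV0
  have hV0p : 0 < V0 := by positivity
  have hAQ : MeasurableSet (A ∩ Qb d T) := hA.inter (Qb_meas T)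
  have hQf : volume (Qb d T) ≠ ∞ := by rw [Qb_vol hT.le]; exact ENNReal.ofReal_ne_top
  have hAQf : volume (A ∩ Qb d T) ≠ ∞ := ne_top_of_le_ne_top hQf (measure_mono inter_subset_right)
  set f : Eu d → ℝ := (A ∩ Qb d T).indicator 1 with hf
  have hf0 : ∀ x, 0 ≤ f x := fun x => indicator_nonneg (fun _ _ => zero_le_one) x
  have hfa : Adm f := by
    refine ⟨measurable_one.indicator hAQ, fun x => ?_, ?_⟩
    · rw [hf]
      by_cases h : x ∈ A ∩ Qb d T
      · rw [indicator_of_mem h]; simp
      · rw [indicator_of_notMem h]; simp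
    · rw [hf, integrable_indicator_iff hAQ]
      exact integrableOn_const (C := (1:ℝ)) hAQf (by simp)
  have hfint : ∫ x, f x = volume.real (A ∩ Qb d T) := by
    rw [hf]
    exact integral_indicator_one hAQ
  have hfV : ∫ x, f x ≤ V0 := by
    rw [hfint, Measure.real]
    have h1 : volume (A ∩ Qb d T) ≤ ENNReal.ofReal V0 := by
      rw [← Qb_vol hT.le]
      exact measure_mono inter_subset_right
    exact ENNReal.toReal_le_of_le_ofReal hV0p.le h1
  have hfabs : ∫ x, |f x| ≤ V0 := by
    have : ∀ x, |f x| = f x := fun x => abs_of_nonneg (hf0 x)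
    simp only [this]
    exact hfV
  have hfs : ∀ x, x ∉ Qb d T → f x = 0 := fun x hx => by
    rw [hf, indicator_of_notMem fun h => hx h.2]
  -- averages
  have hEa : Adm (EA a f) := hfa.EA ha
  have hEb : Adm (EA b f) := hfa.EA hb
  have hEa0 : ∀ x, 0 ≤ EA a f x := fun x => EA_nonneg ha hf0 x
  have hEb0 : ∀ x, 0 ≤ EA b f x := fun x => EA_nonneg hb hf0 x
  have hEabs : ∫ x, |EA a f x| ≤ V0 := by
    have : ∀ x, |EA a f x| = EA a f x := fun x => abs_of_nonneg (hEa0 x)
    simp only [this]
    rw [EA_int ha hfa]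
    exact hfV
  -- the form vanishes
  have hzero : Tf l v (fun _ => f) = 0 := by
    unfold Tf
    have : ∀ p : OG d × Eu d, ∏ j : ι, f (ev l (v j) p) = 0 := by
      intro p
      obtain ⟨j, hj⟩ := not_forall.1 (hbad p.1 p.2)
      apply Finset.prod_eq_zero (Finset.mem_univ j)
      rw [hf, indicator_of_notMem]
      exact fun h => hj h.1
    simp only [this, integral_zero]
  -- first replacement
  have hMZ : MZ a (fun x => f x - EA a f x) := by
    intro x
    rw [EA_sub ha hfa.meas hfa.bd hEa.meas hEa.bd, EA_const ha (fun _ _ h => EA_cell f h), sub_self]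
  have r1 : |Tf l v (fun _ => f) - Tf l v (fun _ => EA a f)| ≤ n * (η * (2 * V0)) := by
    refine telescope hEa hfa fun q H hH hq => ?_
    have hsub := sub_adm hEa hfa hEa0 hf0
    have hHa : ∀ j, Adm (H j) := by
      intro j
      by_cases hj : j = q
      · rw [hj, hq]; exact hsub
      · rcases hH j hj with h | h <;> rw [h]
        · exact hEa
        · exact hfa
    refine hdec H hHa (fun j => ?_) q ?_
    · by_cases hj : j = q
      · rw [hj, hq]
        have h1 : ∫ x, |f x - EA a f x| ≤ ∫ x, (|f x| + |EA a f x|) := by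
          refine integral_mono hsub.int.abs (hfa.int.abs.add hEa.int.abs) fun x => ?_
          exact abs_sub _ _
        rw [integral_add hfa.int.abs hEa.int.abs] at h1
        linarith
      · rcases hH j hj with h | h <;> rw [h] <;> linarith
    · rw [hq]
      exact hMZ
  -- second replacement
  set S : Set (Eu d) := Qb d (2 * T) with hS
  have hSvol : volume.real S = 2 ^ d * V0 := by
    rw [Measure.real, hS, Qb_vol (by positivity), ENNReal.toReal_ofReal (by positivity), hV0,
      ← mul_pow]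
  have hSf : volume S ≠ ∞ := by rw [hS, Qb_vol (by positivity)]; exact ENNReal.ofReal_ne_top
  have hsuppb : ∀ x, x ∉ S → EA b f x = 0 := by
    intro x hx
    apply EA_supp hb hfs
    intro hx2
    apply hx
    intro i
    exact (hx2 i).trans (by linarith)
  have hab : a ≤ b := by
    rw [hbk]
    have : (1 : ℝ) ≤ k := by exact_mod_cast hk
    nlinarith
  have hsuppa : ∀ x, x ∉ S → EA a f x = 0 := by
    intro x hx
    apply EA_supp ha hfs
    intro hx2
    apply hx
    intro i
    exact (hx2 i).trans (by linarith)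
  have hD : ∫ x, |EA a f x - EA b f x| ≤ lam / 2 * (2 ^ d * V0) + 1 / (2 * lam) * (τ * V0) := by
    have i1 : Integrable (fun x => (EA a f x - EA b f x) ^ 2) := by
      have h := sub_adm hEb hEa hEb0 hEa0
      exact (h.mul_int h).congr (Filter.Eventually.of_forall fun x => by simp only; ring)
    have i2 : Integrable (S.indicator (fun _ : Eu d => lam / 2)) := by
      rw [integrable_indicator_iff (Qb_meas _)]
      exact integrableOn_const hSf (by simp)
    have i3 : Integrable (fun x => S.indicator (fun _ : Eu d => lam / 2) x +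
        1 / (2 * lam) * (EA a f x - EA b f x) ^ 2) := i2.add (i1.const_mul _)
    have h1 : ∫ x, |EA a f x - EA b f x| ≤ ∫ x, (S.indicator (fun _ : Eu d => lam / 2) x +
        1 / (2 * lam) * (EA a f x - EA b f x) ^ 2) := by
      refine integral_mono (hEa.int.sub hEb.int).abs i3 fun x => ?_
      simp only
      by_cases hx : x ∈ S
      · rw [indicator_of_mem hx]
        have h2 : |EA a f x - EA b f x| ^ 2 = (EA a f x - EA b f x) ^ 2 := sq_abs _
        rw [← h2]
        have h4 : lam / 2 + 1 / (2 * lam) * |EA a f x - EA b f x| ^ 2 - |EA a f x - EA b f x| =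
            1 / (2 * lam) * (lam - |EA a f x - EA b f x|) ^ 2 := by
          field_simp
          ring
        have h5 : 0 ≤ 1 / (2 * lam) * (lam - |EA a f x - EA b f x|) ^ 2 := by positivity
        linarith
      · rw [indicator_of_notMem hx, hsuppa x hx, hsuppb x hx]
        simp
    rw [integral_add i2 (i1.const_mul _), integral_indicator_const _ (Qb_meas _),
      integral_const_mul, smul_eq_mul, hSvol] at h1
    refine h1.trans ?_
    have : 1 / (2 * lam) * ∫ x, (EA a f x - EA b f x) ^ 2 ≤ 1 / (2 * lam) * (τ * V0) := by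
      gcongr
    linarith
  have r2 : |Tf l v (fun _ => EA b f) - Tf l v (fun _ => EA a f)| ≤
      n * (lam / 2 * (2 ^ d * V0) + 1 / (2 * lam) * (τ * V0)) := by
    refine telescope hEa hEb fun q H hH hq => ?_
    have hsub := sub_adm hEa hEb hEa0 hEb0
    have hHa : ∀ j, Adm (H j) := by
      intro j
      by_cases hj : j = q
      · rw [hj, hq]; exact hsub
      · rcases hH j hj with h | h <;> rw [h]
        · exact hEa
        · exact hEb
    refine (Tf_le hHa q).trans ?_
    rw [hq]
    refine le_trans (le_of_eq ?_) hD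
    congr 1
    ext x
    rw [abs_sub_comm]
  -- lower bound
  have r3 := lower (v := v) hb hl hM hv hlb hfa hf0
  have r4 := power_lower hEb hEb0 hn0 (Qb_meas _) hSf hsuppb ht0.le
  rw [EA_int hb hfa, hfint, hSvol] at r4
  have r5 : t * (2 ^ d * V0) = δ / 2 * V0 := by
    rw [ht, pow_succ]
    field_simp
  rw [r5] at r4
  have r6 : t ^ (n - 1) * (δ / 2 * V0) ≤ t ^ (n - 1) * (volume.real (A ∩ Qb d T) - δ / 2 * V0) := by
    apply mul_le_mul_of_nonneg_left _ (pow_nonneg ht0.le _)
    linarith
  have r7 : c * V0 ≤ Tf l v (fun _ => EA b f) := by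
    refine le_trans ?_ r3
    have : c * V0 = 1 / 2 * (t ^ (n - 1) * (δ / 2 * V0)) := by rw [hc]; ring
    rw [this]
    have := r6.trans r4
    linarith
  -- conclusion
  have r8 : n * (η * (2 * V0)) = c * V0 / 8 := by
    rw [hη]
    field_simp
    ring
  have r9 : n * (lam / 2 * (2 ^ d * V0) + 1 / (2 * lam) * (τ * V0)) = c * V0 / 4 := by
    rw [hτ]
    have e1 : n * (lam / 2 * (2 ^ d * V0)) = c * V0 / 8 := by
      rw [hlam]
      field_simp
      ring
    have e2 : n * (1 / (2 * lam) * (lam * c / (4 * n) * V0)) = c * V0 / 8 := by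
      field_simp
      ring
    rw [mul_add, e1, e2]
    ring
  rw [r8, hzero] at r1
  rw [r9] at r2
  have h1 := (abs_le.1 r1).1
  have h2 := (abs_le.1 r2).2
  have hpos : 0 < c * V0 := by positivity
  linarith

end Run7.h764.S
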