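import Pool.Agent.Run7.h764.SMain3
set_option autoImplicit false

/-! From decay to large dilates: pigeonhole over scales. -/

namespace Run7.h764.S

open MeasureTheory Metric Set
open scoped ENNReal RealInnerProductSpace

variable {d : ℕ} {ι : Type*} [Fintype ι]

theorem large_dilates [Nonempty ι] {v : ι → Eu d} (hdec : Dec v) {A : Set (Eu d)}
    (hA : MeasurableSet A) {δ : ℝ} (hδ : 0 < δ)
    (hdens : ∀ T0 : ℝ, ∃ T : ℝ, T0 ≤ T ∧ δ * (2 * T) ^ d ≤ volume.real (A ∩ Qb d T)) :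
    ∃ l0 : ℝ, 0 < l0 ∧ ∀ l : ℝ, l0 ≤ l → ¬ Bad v A l := by
  by_contra hcon
  push Not at hcon
  choose g hg1 hg2 using fun x : {x : ℝ // 0 < x} => hcon x.1 x.2
  set n := Fintype.card ι with hn
  have hn0 : 0 < n := Fintype.card_pos
  have hn' : (0 : ℝ) < n := by exact_mod_cast hn0
  set M : ℝ := ∑ j, ‖v j‖ with hM
  have hM0 : 0 ≤ M := Finset.sum_nonneg fun j _ => norm_nonneg _
  have hvM : ∀ j, ‖v j‖ ≤ M := fun j =>
    Finset.single_le_sum (f := fun j => ‖v j‖) (fun i _ => norm_nonneg _) (Finset.mem_univ j)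
  obtain ⟨t, ht⟩ : ∃ t : ℝ, t = δ / 2 ^ (d + 1) := ⟨_, rfl⟩
  have ht0 : 0 < t := by rw [ht]; positivity
  obtain ⟨c, hc⟩ : ∃ c : ℝ, c = t ^ (n - 1) * δ / 4 := ⟨_, rfl⟩
  have hc0 : 0 < c := by rw [hc]; positivity
  obtain ⟨η, hη⟩ : ∃ η : ℝ, η = c / (16 * n) := ⟨_, rfl⟩
  have hη0 : 0 < η := by rw [hη]; positivity
  obtain ⟨lam, hlam⟩ : ∃ lam : ℝ, lam = c / (4 * n * 2 ^ d) := ⟨_, rfl⟩
  have hlam0 : 0 < lam := by rw [hlam]; positivity
  obtain ⟨τ, hτ⟩ : ∃ τ : ℝ, τ = lam * c / (4 * n) := ⟨_, rfl⟩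
  have hτ0 : 0 < τ := by rw [hτ]; positivity
  obtain ⟨ε, hε, hdecε⟩ := hdec η hη0
  obtain ⟨K, hK⟩ := pow_unbounded_of_one_lt (8 * (d + 1) * M / ε) (one_lt_two)
  obtain ⟨J, hJ⟩ := exists_nat_gt (1 / τ)
  -- the sequence of bad dilation factors
  set step : {x : ℝ // 0 < x} → {x : ℝ // 0 < x} := fun x =>
    ⟨g ⟨2 ^ (K + 1) * x.1, by have := x.2; positivity⟩,
      lt_of_lt_of_le (by have := x.2; positivity) (hg1 _)⟩ with hstep
  have hg11 : 0 < g ⟨1, one_pos⟩ := lt_of_lt_of_le one_pos (hg1 ⟨1, one_pos⟩)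
  set L : ℕ → {x : ℝ // 0 < x} := fun j => Nat.rec ⟨g ⟨1, one_pos⟩, hg11⟩
    (fun _ x => step x) j with hL
  have hLs : ∀ j, L (j + 1) = step (L j) := fun j => rfl
  have hLbad : ∀ j, Bad v A (L j).1 := by
    intro j
    cases j with
    | zero => exact hg2 _
    | succ j => rw [hLs]; exact hg2 _
  have hLgrow : ∀ j, 2 ^ (K + 1) * (L j).1 ≤ (L (j + 1)).1 := by
    intro j
    rw [hLs]
    have hpos : 0 < 2 ^ (K + 1) * (L j).1 := by have := (L j).2; positivity
    exact hg1 ⟨2 ^ (K + 1) * (L j).1, hpos⟩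
  have hLmono : ∀ j, (L 0).1 ≤ (L j).1 := by
    intro j
    induction j with
    | zero => exact le_rfl
    | succ j ih =>
      refine ih.trans (le_trans ?_ (hLgrow j))
      have h1 : (1 : ℝ) ≤ 2 ^ (K + 1) := one_le_pow₀ (by norm_num)
      have h2 := (L j).2
      nlinarith
  have hL0 := (L 0).2
  set a0 : ℝ := ε * (L 0).1 with ha0
  have ha0p : 0 < a0 := by positivity
  have hkex : ∀ j, ∃ k : ℕ, (2 : ℝ) ^ k ≤ (L j).1 / (L 0).1 ∧ (L j).1 / (L 0).1 < 2 ^ (k + 1) := by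
    intro j
    apply exists_nat_pow_near
    · rw [le_div_iff₀ hL0, one_mul]
      exact hLmono j
    · norm_num
  choose k hk1 hk2 using hkex
  have hka : ∀ j, 2 ^ k j * a0 ≤ ε * (L j).1 := by
    intro j
    have := hk1 j
    rw [le_div_iff₀ hL0] at this
    calc 2 ^ k j * a0 = ε * (2 ^ k j * (L 0).1) := by rw [ha0]; ring
      _ ≤ ε * (L j).1 := by gcongr
  have hkb : ∀ j, ε * (L j).1 ≤ 2 * (2 ^ k j * a0) := by
    intro j
    have := hk2 j
    rw [div_lt_iff₀ hL0] at this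
    calc ε * (L j).1 ≤ ε * (2 ^ (k j + 1) * (L 0).1) := by gcongr
      _ = 2 * (2 ^ k j * a0) := by rw [ha0]; ring
  have hkstep : ∀ j, k j + K ≤ k (j + 1) := by
    intro j
    have h1 := hk2 (j + 1)
    have h2 : (2 : ℝ) ^ (K + 1) * 2 ^ k j ≤ (L (j + 1)).1 / (L 0).1 := by
      rw [le_div_iff₀ hL0]
      have h3 := hk1 j
      rw [le_div_iff₀ hL0] at h3
      calc (2 : ℝ) ^ (K + 1) * 2 ^ k j * (L 0).1 = 2 ^ (K + 1) * (2 ^ k j * (L 0).1) := by ring
        _ ≤ 2 ^ (K + 1) * (L j).1 := by gcongr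
        _ ≤ _ := hLgrow j
    have h4 := h2.trans_lt h1
    rw [← pow_add] at h4
    have h5 := (pow_lt_pow_iff_right₀ (by norm_num : (1:ℝ) < 2)).1 h4
    omega
  -- the large cube
  obtain ⟨T, hT1, hTd⟩ := hdens (∑ j ∈ Finset.range (J + 1), 2 ^ K * (ε * (L j).1) + 1)
  have hsum0 : 0 ≤ ∑ j ∈ Finset.range (J + 1), 2 ^ K * (ε * (L j).1) :=
    Finset.sum_nonneg fun j _ => by have := (L j).2; positivity
  have hT0 : 0 < T := by linarith
  have hbT : ∀ j, j < J + 1 → (2 : ℝ) ^ K * (2 ^ k j * a0) ≤ T := by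
    intro j hj
    have h1 : (2 : ℝ) ^ K * (2 ^ k j * a0) ≤ 2 ^ K * (ε * (L j).1) := by
      have := hka j
      gcongr
    have h2 : 2 ^ K * (ε * (L j).1) ≤ ∑ j ∈ Finset.range (J + 1), 2 ^ K * (ε * (L j).1) :=
      Finset.single_le_sum (f := fun j => 2 ^ K * (ε * (L j).1))
        (fun i _ => by have := (L i).2; positivity) (Finset.mem_range.2 hj)
    linarith
  set V0 : ℝ := (2 * T) ^ d with hV0
  have hV0p : 0 < V0 := by positivity
  have hAQ : MeasurableSet (A ∩ Qb d T) := hA.inter (Qb_meas T)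
  have hQf : volume (Qb d T) ≠ ∞ := by rw [Qb_vol hT0.le]; exact ENNReal.ofReal_ne_top
  have hAQf : volume (A ∩ Qb d T) ≠ ∞ := ne_top_of_le_ne_top hQf (measure_mono inter_subset_right)
  set f : Eu d → ℝ := (A ∩ Qb d T).indicator 1 with hf
  have hf0 : ∀ x, 0 ≤ f x := fun x => indicator_nonneg (fun _ _ => zero_le_one) x
  have hfa : Adm f := by
    refine ⟨measurable_one.indicator hAQ, fun x => ?_, ?_⟩
    · rw [hf]
      by_cases h : x ∈ A ∩ Qb d T
      · rw [indicator_of_mem h]; simp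
      · rw [indicator_of_notMem h]; simp
    · rw [hf, integrable_indicator_iff hAQ]
      exact integrableOn_const (C := (1:ℝ)) hAQf (by simp)
  have hfint : ∫ x, f x = volume.real (A ∩ Qb d T) := by
    rw [hf]
    exact integral_indicator_one hAQ
  have hfV : ∫ x, f x ≤ V0 := by
    rw [hfint, Measure.real]
    have h1 : volume (A ∩ Qb d T) ≤ ENNReal.ofReal V0 := by
      rw [← Qb_vol hT0.le]
      exact measure_mono inter_subset_right
    exact ENNReal.toReal_le_of_le_ofReal hV0p.le h1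
  set s : ℕ → ℝ := fun m => ∫ x, EA (2 ^ m * a0) f x ^ 2 with hs
  have hen : ∀ m m' : ℕ, ∫ x, (EA (2 ^ m * a0) f x - EA (2 ^ m' * (2 ^ m * a0)) f x) ^ 2 =
      s m - s (m + m') := by
    intro m m'
    have h := energy (a := 2 ^ m * a0) (by positivity) (n := 2 ^ m') (by positivity) hfa
    push_cast at h
    rw [h, hs]
    simp only
    congr 2
    ext x
    congr 2
    ring
  have hanti : ∀ m m' : ℕ, s (m + m') ≤ s m := by
    intro m m'
    have h : 0 ≤ ∫ x, (EA (2 ^ m * a0) f x - EA (2 ^ m' * (2 ^ m * a0)) f x) ^ 2 :=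
      integral_nonneg fun x => sq_nonneg _
    rw [hen] at h
    linarith
  have hs0 : ∀ m, 0 ≤ s m := fun m => integral_nonneg fun x => sq_nonneg _
  have hsV : ∀ m, s m ≤ V0 := by
    intro m
    have hE : Adm (EA (2 ^ m * a0) f) := hfa.EA (by positivity)
    have h1 := hE.toX.sq_le
    have h2 : ∫ x, |EA (2 ^ m * a0) f x| = ∫ x, EA (2 ^ m * a0) f x := by
      congr 1
      ext x
      exact abs_of_nonneg (EA_nonneg (by positivity) hf0 x)
    rw [h2, EA_int (by positivity) hfa] at h1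
    exact h1.trans hfV
  have hdrop : ∀ j, j < J + 1 → s (k j + K) < s (k j) - τ * V0 := by
    intro j hj
    by_contra hle
    push Not at hle
    have hLj := (L j).2
    refine core hA hM0 hvM hδ ht hc hη hlam (l := (L j).1) (a := 2 ^ k j * a0)
      (b := (2 ^ K : ℕ) * (2 ^ k j * a0)) (T := T) (τ := τ) (k := 2 ^ K) (by positivity) rfl
      hLj (by positivity) ?_ ?_ hT0 (hLbad j) hTd ?_ hτ ?_
    · push_cast
      have h1 := hkb j
      have h2 : 8 * (d + 1) * M ≤ 2 ^ K * ε := by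
        rw [div_lt_iff₀ hε] at hK
        exact hK.le
      calc 4 * (d + 1) * M * (L j).1 = (8 * (d + 1) * M) * (L j).1 / 2 := by ring
        _ ≤ (2 ^ K * ε) * (L j).1 / 2 := by gcongr
        _ = 2 ^ K * (ε * (L j).1) / 2 := by ring
        _ ≤ 2 ^ K * (2 * (2 ^ k j * a0)) / 2 := by gcongr
        _ = 2 ^ K * (2 ^ k j * a0) := by ring
    · push_cast
      exact hbT j hj
    · intro F hF hFV q hq
      exact hdecε (L j).1 hLj (2 ^ k j * a0) (by positivity) (hka j) _ F hF hFV q hq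
    · push_cast
      rw [hen]
      linarith
  have hind : ∀ j, j ≤ J → s (k j) ≤ V0 - j * (τ * V0) := by
    intro j
    induction j with
    | zero =>
      intro _
      have := hsV (k 0)
      push_cast
      linarith
    | succ j ih =>
      intro hj
      have h1 := ih (by omega)
      have h2 := hdrop j (by omega)
      have h3 : s (k (j + 1)) ≤ s (k j + K) := by
        obtain ⟨m, hm⟩ := Nat.exists_eq_add_of_le (hkstep j)
        rw [hm]
        exact hanti _ _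
      push_cast
      linarith
  have h1 := hind J le_rfl
  have h2 := hs0 (k J)
  have h3 : 1 < J * τ := by
    rw [div_lt_iff₀ hτ0] at hJ
    exact hJ
  nlinarith

end Run7.h764.S
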