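import Pool.Agent.Run7.h764.SStep3
set_option autoImplicit false

/-! Decay of the simplex form. -/

namespace Run7.h764.S

open MeasureTheory Metric Set
open scoped ENNReal RealInnerProductSpace

variable {d : ℕ}

/-- the pair of functions attached to two points -/
noncomputable def fp (l : ℝ) (g h : Eu d → ℝ) (P Q : Eu d) (p : OG d × Eu d) : ℝ :=
  g (ev l P p) * h (ev l Q p)

lemma fp_adm {l : ℝ} {g h : Eu d → ℝ} (hg : Adm g) (hh : Adm h) (P Q : Eu d) :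
    AdmX (PX d) (fp l g h P Q) := (adm_ev hg).mul (adm_ev hh)

lemma fp_abs {l : ℝ} {g h : Eu d → ℝ} (hg : Adm g) (hh : Adm h) (P Q : Eu d) {V : ℝ}
    (hV : ∫ x, |g x| ≤ V) : ∫ p, |fp l g h P Q p| ∂(PX d) ≤ V := by
  refine ((adm_ev hg).abs_mul_le (adm_ev hh)).trans ?_
  rw [adm_ev_abs hg]
  exact hV

lemma fp_fp_le {l : ℝ} {g h : Eu d → ℝ} (hg : Adm g) (hh : Adm h) (P Q P' Q' : Eu d) {V : ℝ}
    (hV : ∫ x, |g x| ≤ V) : ∫ p, fp l g h P Q p * fp l g h P' Q' p ∂(PX d) ≤ V := by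
  refine (le_abs_self _).trans ((abs_integral_le _).trans ?_)
  exact ((fp_adm hg hh P Q).abs_mul_le (fp_adm hg hh P' Q')).trans (fp_abs hg hh P Q hV)

lemma fp_rtr {l : ℝ} {g h : Eu d → ℝ} (P Q : Eu d) (R : OG d) (p : OG d × Eu d) :
    fp l g h P Q (rtr R p) = fp l g h (act R P) (act R Q) p := by
  unfold fp
  rw [ev_rtr, ev_rtr]

lemma fp_shear {l : ℝ} {g h : Eu d → ℝ} (P Q w : Eu d) (p : OG d × Eu d) :
    fp l g h P Q (shear l w p) = fp l g h (P + w) (Q + w) p := by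
  unfold fp
  rw [ev_shear, ev_shear]

/-- first Cauchy-Schwarz step -/
lemma step1 {N : ℕ} (hN : 0 < N) (q : ON2 d) {π κ : Eu d} {η l V : ℝ} (hη : 0 < η)
    {B : OG d × Eu d → ℝ} (hB : AdmX (PX d) B) (hBV : ∫ p, |B p| ∂(PX d) ≤ V)
    (hinv : ∀ θ p, B (rtr (rot q θ) p) = B p) {g h : Eu d → ℝ} (hg : Adm g) (hh : Adm h)
    (hrow : ∀ i < N, ∑ j ∈ Finset.range N,
      ∫ p, fp l g h (act (rot q (ang N i)) π) (act (rot q (ang N i)) κ) p *
        fp l g h (act (rot q (ang N j)) π) (act (rot q (ang N j)) κ) p ∂(PX d) ≤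
        N * (η ^ 2 * V)) :
    |∫ p, B p * fp l g h π κ p ∂(PX d)| ≤ η * V := by
  have hN' : (0 : ℝ) < N := by exact_mod_cast hN
  have hT : ∀ i : ℕ, ∫ p, B p * fp l g h π κ p ∂(PX d) =
      ∫ p, B p * fp l g h (act (rot q (ang N i)) π) (act (rot q (ang N i)) κ) p ∂(PX d) := by
    intro i
    have := mp_integral (rtr_mp (rot q (ang N i))) (hB.mul (fp_adm (l := l) hg hh π κ)).meas
    rw [← this]
    congr 1
    ext p
    rw [fp_rtr, hinv]
  have hcard : ((Finset.range N).card : ℝ) = N := by simp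
  have hmain := csAvg (Finset.range N) ⟨0, Finset.mem_range.2 hN⟩
    (F := fun i p => fp l g h (act (rot q (ang N i)) π) (act (rot q (ang N i)) κ) p) (μ := PX d)
    (fun i _ => fp_adm hg hh _ _) hB hη hBV ?_
  · rw [hcard] at hmain
    have h3 : (N : ℝ)⁻¹ * ∑ i ∈ Finset.range N, ∫ p, B p *
        fp l g h (act (rot q (ang N i)) π) (act (rot q (ang N i)) κ) p ∂(PX d) =
        ∫ p, B p * fp l g h π κ p ∂(PX d) := by
      rw [Finset.sum_congr rfl fun i _ => (hT i).symm, Finset.sum_const, Finset.card_range,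
        nsmul_eq_mul]
      field_simp
    rw [h3] at hmain
    exact hmain
  · rw [hcard]
    calc _ ≤ ∑ _i ∈ Finset.range N, N * (η ^ 2 * V) :=
          Finset.sum_le_sum fun i hi => hrow i (Finset.mem_range.1 hi)
      _ = (N : ℝ) ^ 2 * (η ^ 2 * V) := by
          rw [Finset.sum_const, Finset.card_range, nsmul_eq_mul]
          ring

/-- decay of the simplex form, first case -/
lemma simp_decA (hd : 4 ≤ d) (q : ON2 d) {π κ : Eu d} (hb : (⟪q.b, κ - π⟫ : ℝ) = 0)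
    (ha : (⟪q.a, κ - π⟫ : ℝ) ≠ 0) (hπ : (⟪q.b, π⟫ : ℝ) ≠ 0)
    (hw : κ - π - (⟪q.a, κ - π⟫ : ℝ) • q.a ≠ 0) {η : ℝ} (hη : 0 < η) :
    ∃ ε : ℝ, 0 < ε ∧ ∀ l : ℝ, 0 < l → ∀ a : ℝ, 0 < a → a ≤ ε * l → ∀ V : ℝ,
      ∀ B : OG d × Eu d → ℝ, AdmX (PX d) B → ∫ p, |B p| ∂(PX d) ≤ V →
      (∀ θ p, B (rtr (rot q θ) p) = B p) →
      ∀ g h : Eu d → ℝ, Adm g → Adm h → ∫ x, |g x| ≤ V → ∫ x, |h x| ≤ V → MZ a h →
        |∫ p, B p * fp l g h π κ p ∂(PX d)| ≤ η * V := by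
  obtain ⟨N, hN⟩ := exists_nat_gt (2 / η ^ 2)
  have hNpos' : (0 : ℝ) < N := lt_trans (by positivity) hN
  have hNpos : 0 < N := by exact_mod_cast hNpos'
  have hex : ∀ x : ℕ × ℕ, ∃ ε : ℝ, 0 < ε ∧ (x.1 < N → x.2 < N → x.1 ≠ x.2 →
      ∀ l : ℝ, 0 < l → ∀ a : ℝ, 0 < a → a ≤ ε * l → ∀ V : ℝ, ∀ g h : Eu d → ℝ, Adm g → Adm h →
      ∫ x, |g x| ≤ V → ∫ x, |h x| ≤ V → MZ a h →
      |∫ p, fp l g h (act (rot q (ang N x.1)) π) (act (rot q (ang N x.1)) κ) p *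
        fp l g h (act (rot q (ang N x.2)) π) (act (rot q (ang N x.2)) κ) p ∂(PX d)| ≤
          η ^ 2 / 2 * V) := by
    intro x
    by_cases hx : x.1 < N ∧ x.2 < N ∧ x.1 ≠ x.2
    · obtain ⟨ε, hε, h⟩ := caseA hd q hb ha hπ hw (ang_sub_ne hNpos hx.2.2)
        (ang_sub_lt hx.1 hx.2.1) (η ^ 2 / 2) (by positivity)
      exact ⟨ε, hε, fun _ _ _ => h⟩
    · exact ⟨1, one_pos, fun a1 a2 a3 => absurd ⟨a1, a2, a3⟩ hx⟩
  choose e he0 he using hex
  obtain ⟨ε, hε, hεe⟩ := finite_min (Finset.range N ×ˢ Finset.range N) e fun i _ => he0 i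
  refine ⟨ε, hε, fun l hl a ha hal V B hB hBV hinv g h hg hh hgV hhV hMZ => ?_⟩
  have hV0 : 0 ≤ V := le_trans (integral_nonneg fun x => abs_nonneg _) hgV
  apply step1 hNpos q hη hB hBV hinv hg hh
  intro i hi
  have hpt : ∀ j ∈ Finset.range N,
      ∫ p, fp l g h (act (rot q (ang N i)) π) (act (rot q (ang N i)) κ) p *
        fp l g h (act (rot q (ang N j)) π) (act (rot q (ang N j)) κ) p ∂(PX d) ≤
        η ^ 2 / 2 * V + (if i = j then V else 0) := by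
    intro j hj
    by_cases hij : i = j
    · rw [if_pos hij]
      have h4 := fp_fp_le (l := l) hg hh (act (rot q (ang N i)) π) (act (rot q (ang N i)) κ)
        (act (rot q (ang N j)) π) (act (rot q (ang N j)) κ) hgV
      have : 0 ≤ η ^ 2 / 2 * V := by positivity
      linarith
    · rw [if_neg hij, add_zero]
      refine (le_abs_self _).trans ?_
      have hmem : (i, j) ∈ Finset.range N ×ˢ Finset.range N :=
        Finset.mem_product.2 ⟨Finset.mem_range.2 hi, hj⟩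
      exact he (i, j) hi (Finset.mem_range.1 hj) hij l hl a ha
        (hal.trans (mul_le_mul_of_nonneg_right (hεe (i, j) hmem) hl.le)) V g h hg hh hgV hhV hMZ
  refine (Finset.sum_le_sum hpt).trans ?_
  rw [Finset.sum_add_distrib, Finset.sum_const, Finset.card_range, nsmul_eq_mul,
    Finset.sum_ite_eq, if_pos (Finset.mem_range.2 hi)]
  have h6 : 1 ≤ N * (η ^ 2 / 2) := by
    rw [div_lt_iff₀ (by positivity)] at hN
    linarith
  have h7 : V ≤ N * (η ^ 2 / 2) * V := by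
    calc V = 1 * V := by ring
      _ ≤ N * (η ^ 2 / 2) * V := by gcongr
  nlinarith

/-- a unit vector orthogonal to a pair -/
lemma exists_third (hd : 3 ≤ d) (q : ON2 d) : ∃ q2 : ON2 d, q2.a = q.b ∧
    (⟪q2.b, q.a⟫ : ℝ) = 0 := by
  classical
  have hfr : Module.finrank ℝ (Submodule.span ℝ (({q.a, q.b} : Finset (Eu d)) : Set (Eu d))) < d := by
    have h1 := finrank_span_finset_le_card (R := ℝ) ({q.a, q.b} : Finset (Eu d))
    have h2 : ({q.a, q.b} : Finset (Eu d)).card ≤ 2 := Finset.card_le_two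
    have h3 : Module.finrank ℝ (Submodule.span ℝ (({q.a, q.b} : Finset (Eu d)) : Set (Eu d))) ≤
      ({q.a, q.b} : Finset (Eu d)).card := h1
    omega
  obtain ⟨m, hm0, hm⟩ := exists_orth hfr
  refine ⟨⟨q.b, ‖m‖⁻¹ • m, q.hb, norm_inv_smul hm0, ?_⟩, rfl, ?_⟩
  · rw [real_inner_smul_right, real_inner_comm, hm q.b (Submodule.subset_span (by simp)), mul_zero]
  · simp only [real_inner_smul_left]
    rw [hm q.a (Submodule.subset_span (by simp)), mul_zero]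

lemma trig_ne {ζ ζ' : ℝ} (h0 : ζ ≠ 0) (h0' : ζ' ≠ 0) (h1 : |ζ| < 1) (h1' : |ζ'| < 1)
    (h2 : ζ' - ζ ≠ 0) :
    Real.sin ζ * (1 - Real.cos ζ') - Real.sin ζ' * (1 - Real.cos ζ) ≠ 0 := by
  have e : Real.sin ζ * (1 - Real.cos ζ') - Real.sin ζ' * (1 - Real.cos ζ) =
      4 * Real.sin (ζ / 2) * Real.sin (ζ' / 2) * Real.sin ((ζ' - ζ) / 2) := by
    have a1 : Real.sin ζ = 2 * Real.sin (ζ / 2) * Real.cos (ζ / 2) := by
      rw [← Real.sin_two_mul]; congr 1; ring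
    have a2 : Real.sin ζ' = 2 * Real.sin (ζ' / 2) * Real.cos (ζ' / 2) := by
      rw [← Real.sin_two_mul]; congr 1; ring
    have a3 : Real.cos ζ = 1 - 2 * Real.sin (ζ / 2) ^ 2 := by
      have := Real.cos_two_mul (ζ / 2)
      have h3 := Real.sin_sq_add_cos_sq (ζ / 2)
      rw [show 2 * (ζ / 2) = ζ by ring] at this
      linarith
    have a4 : Real.cos ζ' = 1 - 2 * Real.sin (ζ' / 2) ^ 2 := by
      have := Real.cos_two_mul (ζ' / 2)
      have h3 := Real.sin_sq_add_cos_sq (ζ' / 2)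
      rw [show 2 * (ζ' / 2) = ζ' by ring] at this
      linarith
    have a5 : Real.sin ((ζ' - ζ) / 2) = Real.sin (ζ' / 2) * Real.cos (ζ / 2) -
        Real.cos (ζ' / 2) * Real.sin (ζ / 2) := by
      rw [← Real.sin_sub]; congr 1; ring
    rw [a1, a2, a3, a4, a5]
    ring
  rw [e]
  rw [abs_lt] at h1 h1'
  have b1 : Real.sin (ζ / 2) ≠ 0 := sin_ne (by intro h; apply h0; linarith)
    (by rw [abs_lt]; constructor <;> linarith)
  have b2 : Real.sin (ζ' / 2) ≠ 0 := sin_ne (by intro h; apply h0'; linarith)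
    (by rw [abs_lt]; constructor <;> linarith)
  have b3 : Real.sin ((ζ' - ζ) / 2) ≠ 0 := sin_ne (by intro h; apply h2; linarith)
    (by rw [abs_lt]; constructor <;> linarith)
  positivity

lemma shiftI (q : ON2 d) {π κ : Eu d} {l : ℝ} {g h : Eu d → ℝ} (hg : Adm g) (hh : Adm h)
    (θ θ' : ℝ) (S : OG d) (hS : act S (κ - π) = κ - π) :
    ∫ p, fp l g h (act (rot q θ) π) (act (rot q θ) κ) p *
        fp l g h (act (rot q θ') π) (act (rot q θ') κ) p ∂(PX d) =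
    ∫ p, fp l g h 0 (κ - π) p * fp l g h (act S (act (rot q (θ' - θ)) π - π))
      (act S (act (rot q (θ' - θ)) κ - π)) p ∂(PX d) := by
  have e1 : ∫ p, fp l g h (act (rot q θ) π) (act (rot q θ) κ) p *
        fp l g h (act (rot q θ') π) (act (rot q θ') κ) p ∂(PX d) =
      ∫ p, fp l g h π κ p *
        fp l g h (act (rot q (θ' - θ)) π) (act (rot q (θ' - θ)) κ) p ∂(PX d) := by
    rw [← mp_integral (rtr_mp (rot q θ)⁻¹) ((fp_adm (l := l) hg hh _ _).mul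
      (fp_adm (l := l) hg hh _ _)).meas]
    congr 1
    ext p
    rw [fp_rtr, fp_rtr, act_inv_act, act_inv_act, ← act_mul, ← act_mul, rot_inv_mul]
  have e2 : ∫ p, fp l g h π κ p *
        fp l g h (act (rot q (θ' - θ)) π) (act (rot q (θ' - θ)) κ) p ∂(PX d) =
      ∫ p, fp l g h 0 (κ - π) p * fp l g h (act (rot q (θ' - θ)) π - π)
        (act (rot q (θ' - θ)) κ - π) p ∂(PX d) := by
    rw [← mp_integral (shear_mp l (-π)) ((fp_adm (l := l) hg hh _ _).mul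
      (fp_adm (l := l) hg hh _ _)).meas]
    congr 1
    ext p
    rw [fp_shear, fp_shear, add_neg_cancel, ← sub_eq_add_neg, ← sub_eq_add_neg, ← sub_eq_add_neg]
  rw [e1, e2]
  rw [← mp_integral (rtr_mp S) ((fp_adm (l := l) hg hh _ _).mul
      (fp_adm (l := l) hg hh _ _)).meas]
  congr 1
  ext p
  rw [fp_rtr, fp_rtr, act_zero, hS]

lemma sum_if_snd {N : ℕ} {m : ℕ} (hm : m < N) (V : ℝ) :
    ∑ y ∈ Finset.range N ×ˢ Finset.range N, (if m = y.2 then V else 0) = N * V := by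
  rw [Finset.sum_product]
  simp only
  rw [Finset.sum_congr rfl (g := fun _ => V)]
  · rw [Finset.sum_const, Finset.card_range, nsmul_eq_mul]
  · intro j _
    rw [Finset.sum_ite_eq, if_pos (Finset.mem_range.2 hm)]

lemma sum_if_fst {N : ℕ} {m : ℕ} (hm : m < N) (V : ℝ) :
    ∑ y ∈ Finset.range N ×ˢ Finset.range N, (if m = y.1 then V else 0) = N * V := by
  rw [Finset.sum_product_right]
  simp only
  rw [Finset.sum_congr rfl (g := fun _ => V)]
  · rw [Finset.sum_const, Finset.card_range, nsmul_eq_mul]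
  · intro j _
    rw [Finset.sum_ite_eq, if_pos (Finset.mem_range.2 hm)]

/-- second Cauchy-Schwarz step -/
lemma step2 {N : ℕ} (hN : 0 < N) (q q2 : ON2 d) (hq2 : q2.a = q.b) (hq2b : (⟪q2.b, q.a⟫ : ℝ) = 0)
    {π κ : Eu d} {t : ℝ} (hκ : κ = π + t • q.a) {η l V : ℝ} (hη : 0 < η)
    (hNη : 8 / η ^ 2 ≤ N)
    {g h : Eu d → ℝ} (hg : Adm g) (hh : Adm h) (hgV : ∫ x, |g x| ≤ V) {i : ℕ} (hi : i < N)
    (hgood : ∀ j m k n : ℕ, j < N → m < N → k < N → n < N → j ≠ i → k ≠ i → j ≠ k → m ≠ n →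
      ∫ p, fp l g h (act (rot q2 (ang N m)) (act (rot q (ang N j - ang N i)) π - π))
          (act (rot q2 (ang N m)) (act (rot q (ang N j - ang N i)) κ - π)) p *
        fp l g h (act (rot q2 (ang N n)) (act (rot q (ang N k - ang N i)) π - π))
          (act (rot q2 (ang N n)) (act (rot q (ang N k - ang N i)) κ - π)) p ∂(PX d) ≤
          η ^ 2 / 2 * V) :
    ∑ j ∈ Finset.range N,
      ∫ p, fp l g h (act (rot q (ang N i)) π) (act (rot q (ang N i)) κ) p *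
        fp l g h (act (rot q (ang N j)) π) (act (rot q (ang N j)) κ) p ∂(PX d) ≤
        N * (η * V) := by
  have hV0 : 0 ≤ V := le_trans (integral_nonneg fun x => abs_nonneg _) hgV
  have hN' : (0 : ℝ) < N := by exact_mod_cast hN
  have hfix : ∀ φ : ℝ, act (rot q2 φ) (κ - π) = κ - π := by
    intro φ
    have e : κ - π = t • q.a := by rw [hκ]; abel
    apply act_rot_fix
    · rw [e, real_inner_smul_right, hq2, q.ba, mul_zero]
    · rw [e, real_inner_smul_right, hq2b, mul_zero]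
  set Ψ : ℕ × ℕ → OG d × Eu d → ℝ := fun x =>
    fp l g h (act (rot q2 (ang N x.2)) (act (rot q (ang N x.1 - ang N i)) π - π))
          (act (rot q2 (ang N x.2)) (act (rot q (ang N x.1 - ang N i)) κ - π)) with hΨ
  have hB : AdmX (PX d) (fp l g h 0 (κ - π)) := fp_adm hg hh _ _
  have hcard : ((Finset.range N ×ˢ Finset.range N).card : ℝ) = N * N := by
    rw [Finset.card_product, Finset.card_range]
    push_cast
    ring
  have hmain := csAvg (Finset.range N ×ˢ Finset.range N)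
    ⟨(0, 0), Finset.mem_product.2 ⟨Finset.mem_range.2 hN, Finset.mem_range.2 hN⟩⟩
    (F := Ψ) (μ := PX d) (fun x _ => fp_adm hg hh _ _) hB hη (fp_abs hg hh _ _ hgV) ?_
  · rw [hcard] at hmain
    have h3 : ∑ x ∈ Finset.range N ×ˢ Finset.range N, ∫ p, fp l g h 0 (κ - π) p * Ψ x p ∂(PX d) =
        N * ∑ j ∈ Finset.range N,
      ∫ p, fp l g h (act (rot q (ang N i)) π) (act (rot q (ang N i)) κ) p *
        fp l g h (act (rot q (ang N j)) π) (act (rot q (ang N j)) κ) p ∂(PX d) := by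
      rw [Finset.sum_product, Finset.mul_sum]
      refine Finset.sum_congr rfl fun j _ => ?_
      rw [Finset.sum_congr rfl (g := fun _ =>
        ∫ p, fp l g h (act (rot q (ang N i)) π) (act (rot q (ang N i)) κ) p *
        fp l g h (act (rot q (ang N j)) π) (act (rot q (ang N j)) κ) p ∂(PX d))]
      · rw [Finset.sum_const, Finset.card_range, nsmul_eq_mul]
      · intro m _
        rw [shiftI q hg hh (ang N i) (ang N j) (rot q2 (ang N m)) (hfix _)]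
    rw [h3] at hmain
    have h4 := (le_abs_self _).trans hmain
    rw [mul_inv, mul_assoc, ← mul_assoc (N : ℝ)⁻¹ (N : ℝ), inv_mul_cancel₀ hN'.ne', one_mul,
      inv_mul_le_iff₀ hN'] at h4
    exact h4
  · rw [hcard]
    have hpt : ∀ x ∈ Finset.range N ×ˢ Finset.range N, ∀ y ∈ Finset.range N ×ˢ Finset.range N,
        ∫ p, Ψ x p * Ψ y p ∂(PX d) ≤ η ^ 2 / 2 * V + (if x.2 = y.2 then V else 0) +
          (if x.1 = y.1 then V else 0) + (if i = x.1 then V else 0) +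
          (if i = y.1 then V else 0) := by
      intro x hx y hy
      have hx' := Finset.mem_product.1 hx
      have hy' := Finset.mem_product.1 hy
      rw [Finset.mem_range, Finset.mem_range] at hx' hy'
      have p0 : 0 ≤ η ^ 2 / 2 * V := by positivity
      have p1 : 0 ≤ (if x.2 = y.2 then V else 0) := by split_ifs <;> simp [hV0]
      have p2 : 0 ≤ (if x.1 = y.1 then V else 0) := by split_ifs <;> simp [hV0]
      have p3 : 0 ≤ (if i = x.1 then V else 0) := by split_ifs <;> simp [hV0]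
      have p4 : 0 ≤ (if i = y.1 then V else 0) := by split_ifs <;> simp [hV0]
      have htriv : ∫ p, Ψ x p * Ψ y p ∂(PX d) ≤ V := fp_fp_le hg hh _ _ _ _ hgV
      by_cases c1 : x.2 = y.2
      · rw [if_pos c1]; linarith
      by_cases c2 : x.1 = y.1
      · rw [if_pos c2]; linarith
      by_cases c3 : i = x.1
      · rw [if_pos c3]; linarith
      by_cases c4 : i = y.1
      · rw [if_pos c4]; linarith
      have := hgood x.1 x.2 y.1 y.2 hx'.1 hx'.2 hy'.1 hy'.2 (fun h => c3 h.symm)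
        (fun h => c4 h.symm) c2 c1
      have h5 : ∫ p, Ψ x p * Ψ y p ∂(PX d) ≤ η ^ 2 / 2 * V := this
      linarith
    have hrow : ∀ x ∈ Finset.range N ×ˢ Finset.range N,
        ∑ y ∈ Finset.range N ×ˢ Finset.range N, ∫ p, Ψ x p * Ψ y p ∂(PX d) ≤
        N * N * (η ^ 2 / 2 * V) + 3 * (N * V) + N * N * (if i = x.1 then V else 0) := by
      intro x hx
      have hx' := Finset.mem_product.1 hx
      rw [Finset.mem_range, Finset.mem_range] at hx'
      refine (Finset.sum_le_sum (hpt x hx)).trans (le_of_eq ?_)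
      simp only [Finset.sum_add_distrib, Finset.sum_const, nsmul_eq_mul, hcard]
      rw [sum_if_snd hx'.2, sum_if_fst hx'.1, sum_if_fst hi]
      ring
    refine (Finset.sum_le_sum hrow).trans ?_
    simp only [Finset.sum_add_distrib, Finset.sum_const, nsmul_eq_mul, hcard, ← Finset.mul_sum]
    rw [sum_if_fst hi]
    have h6 : 8 ≤ N * η ^ 2 := by
      rw [div_le_iff₀ (by positivity)] at hNη
      linarith
    have h7 : 4 * ((N : ℝ) ^ 3 * V) ≤ (N : ℝ) ^ 4 * (η ^ 2 / 2 * V) := by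
      calc 4 * ((N : ℝ) ^ 3 * V) = (N : ℝ) ^ 3 * V * (8 / 2) := by ring
        _ ≤ (N : ℝ) ^ 3 * V * ((N * η ^ 2) / 2) := by gcongr
        _ = _ := by ring
    nlinarith

/-- decay of the simplex form, second case -/
lemma simp_decB (hd : 4 ≤ d) (q : ON2 d) {π κ : Eu d} {t : ℝ} (ht : t ≠ 0)
    (hκ : κ = π + t • q.a) (hπ : (⟪q.b, π⟫ : ℝ) ≠ 0) {η : ℝ} (hη : 0 < η) :
    ∃ ε : ℝ, 0 < ε ∧ ∀ l : ℝ, 0 < l → ∀ a : ℝ, 0 < a → a ≤ ε * l → ∀ V : ℝ,
      ∀ B : OG d × Eu d → ℝ, AdmX (PX d) B → ∫ p, |B p| ∂(PX d) ≤ V →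
      (∀ θ p, B (rtr (rot q θ) p) = B p) →
      ∀ g h : Eu d → ℝ, Adm g → Adm h → ∫ x, |g x| ≤ V → ∫ x, |h x| ≤ V → MZ a h →
        |∫ p, B p * fp l g h π κ p ∂(PX d)| ≤ η * V := by
  obtain ⟨q2, hq2, hq2b⟩ := exists_third (by omega) q
  obtain ⟨N, hN⟩ := exists_nat_gt (8 / (η ^ 2) ^ 2)
  have hNpos' : (0 : ℝ) < N := lt_trans (by positivity) hN
  have hNpos : 0 < N := by exact_mod_cast hNpos'
  have hη2 : 0 < η ^ 2 := by positivity
  -- index type `(i, (j, m), (k, n))`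
  have hex : ∀ x : ℕ × ((ℕ × ℕ) × (ℕ × ℕ)), ∃ ε : ℝ, 0 < ε ∧ (x.1 < N → x.2.1.1 < N →
      x.2.1.2 < N → x.2.2.1 < N → x.2.2.2 < N → x.2.1.1 ≠ x.1 → x.2.2.1 ≠ x.1 →
      x.2.1.1 ≠ x.2.2.1 → x.2.1.2 ≠ x.2.2.2 →
      ∀ l : ℝ, 0 < l → ∀ a : ℝ, 0 < a → a ≤ ε * l → ∀ V : ℝ, ∀ g h : Eu d → ℝ, Adm g → Adm h →
      ∫ x, |g x| ≤ V → ∫ x, |h x| ≤ V → MZ a h →
      |∫ p, fp l g h (act (rot q2 (ang N x.2.1.2)) (act (rot q (ang N x.2.1.1 - ang N x.1)) π - π))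
          (act (rot q2 (ang N x.2.1.2)) (act (rot q (ang N x.2.1.1 - ang N x.1)) κ - π)) p *
        fp l g h (act (rot q2 (ang N x.2.2.2)) (act (rot q (ang N x.2.2.1 - ang N x.1)) π - π))
          (act (rot q2 (ang N x.2.2.2)) (act (rot q (ang N x.2.2.1 - ang N x.1)) κ - π)) p
          ∂(PX d)| ≤ (η ^ 2) ^ 2 / 2 * V) := by
    intro x
    by_cases hx : x.1 < N ∧ x.2.1.1 < N ∧ x.2.1.2 < N ∧ x.2.2.1 < N ∧ x.2.2.2 < N ∧
      x.2.1.1 ≠ x.1 ∧ x.2.2.1 ≠ x.1 ∧ x.2.1.1 ≠ x.2.2.1 ∧ x.2.1.2 ≠ x.2.2.2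
    · obtain ⟨b1, b2, b3, b4, b5, b6, b7, b8, b9⟩ := hx
      have s1 : ang N x.2.1.1 - ang N x.1 ≠ 0 := ang_sub_ne hNpos b6.symm
      have s2 : ang N x.2.2.1 - ang N x.1 ≠ 0 := ang_sub_ne hNpos b7.symm
      have s3 : |ang N x.2.1.1 - ang N x.1| < 1 := ang_sub_lt b1 b2
      have s4 : |ang N x.2.2.1 - ang N x.1| < 1 := ang_sub_lt b1 b4
      have s5 : (ang N x.2.2.1 - ang N x.1) - (ang N x.2.1.1 - ang N x.1) ≠ 0 := by
        rw [sub_sub_sub_cancel_right]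
        exact ang_sub_ne hNpos b8
      have s6 : Real.sin (ang N x.2.1.2 - ang N x.2.2.2) ≠ 0 := by
        apply sin_ne (ang_sub_ne hNpos b9.symm)
        exact (ang_sub_lt b5 b3).trans (by norm_num)
      have s7 : Real.sin (ang N x.2.1.1 - ang N x.1) ≠ 0 := sin_ne s1 (s3.trans (by norm_num))
      obtain ⟨ε, hε, h⟩ := caseB hd q q2 hq2 hq2b ht hκ hπ s7 s6 (trig_ne s1 s2 s3 s4 s5)
        ((η ^ 2) ^ 2 / 2) (by positivity)
      exact ⟨ε, hε, fun _ _ _ _ _ _ _ _ _ => h⟩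
    · exact ⟨1, one_pos, fun a1 a2 a3 a4 a5 a6 a7 a8 a9 =>
        absurd ⟨a1, a2, a3, a4, a5, a6, a7, a8, a9⟩ hx⟩
  choose e he0 he using hex
  obtain ⟨ε, hε, hεe⟩ := finite_min (Finset.range N ×ˢ ((Finset.range N ×ˢ Finset.range N) ×ˢ
    (Finset.range N ×ˢ Finset.range N))) e fun i _ => he0 i
  refine ⟨ε, hε, fun l hl a ha hal V B hB hBV hinv g h hg hh hgV hhV hMZ => ?_⟩
  apply step1 hNpos q hη hB hBV hinv hg hh
  intro i hi
  refine step2 hNpos q q2 hq2 hq2b hκ hη2 hN.le hg hh hgV hi ?_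
  intro j m k n hj hm hk hn hji hki hjk hmn
  refine (le_abs_self _).trans ?_
  have hmem : (i, ((j, m), (k, n))) ∈ Finset.range N ×ˢ ((Finset.range N ×ˢ Finset.range N) ×ˢ
    (Finset.range N ×ˢ Finset.range N)) := by
    simp only [Finset.mem_product, Finset.mem_range]
    exact ⟨hi, ⟨hj, hm⟩, hk, hn⟩
  exact he (i, ((j, m), (k, n))) hi hj hm hk hn hji hki hjk hmn l hl a ha
        (hal.trans (mul_le_mul_of_nonneg_right (hεe _ hmem) hl.le)) V g h hg hh hgV hhV hMZ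

/-- decay of the simplex form -/
theorem simp_dec (hd : 4 ≤ d) (q : ON2 d) {π κ : Eu d} (hb : (⟪q.b, κ - π⟫ : ℝ) = 0)
    (ha : (⟪q.a, κ - π⟫ : ℝ) ≠ 0) (hπ : (⟪q.b, π⟫ : ℝ) ≠ 0) {η : ℝ} (hη : 0 < η) :
    ∃ ε : ℝ, 0 < ε ∧ ∀ l : ℝ, 0 < l → ∀ a : ℝ, 0 < a → a ≤ ε * l → ∀ V : ℝ,
      ∀ B : OG d × Eu d → ℝ, AdmX (PX d) B → ∫ p, |B p| ∂(PX d) ≤ V →
      (∀ θ p, B (rtr (rot q θ) p) = B p) →
      ∀ g h : Eu d → ℝ, Adm g → Adm h → ∫ x, |g x| ≤ V → ∫ x, |h x| ≤ V → MZ a h →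
        |∫ p, B p * fp l g h π κ p ∂(PX d)| ≤ η * V := by
  by_cases hw : κ - π - (⟪q.a, κ - π⟫ : ℝ) • q.a = 0
  · refine simp_decB hd q ha ?_ hπ hη
    rw [sub_eq_zero] at hw
    rw [← hw]
    abel
  · exact simp_decA hd q hb ha hπ hw hη

end Run7.h764.S
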