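import Pool.Agent.Run7.h764.SMain4
import Pool.Agent.Run7.h764.SStep4
set_option autoImplicit false

/-! Decay for nondegenerate simplices in dimension at least four. -/

namespace Run7.h764.S

open MeasureTheory Metric Set
open scoped ENNReal RealInnerProductSpace

variable {d : ℕ}

lemma orth_all {v : Fin (d + 1) → Eu d} (hv : AffineIndependent ℝ v) (b0 : Fin (d + 1))
    {x : Eu d} (hx : ∀ j, (⟪x, v j - v b0⟫ : ℝ) = 0) : x = 0 := by
  have h1 : affineSpan ℝ (range v) = ⊤ := by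
    rw [hv.affineSpan_eq_top_iff_card_eq_finrank_add_one]
    simp
  have h2 : vectorSpan ℝ (range v) = ⊤ := AffineSubspace.vectorSpan_eq_top_of_affineSpan_eq_top
    ℝ _ _ h1
  rw [vectorSpan_range_eq_span_range_vsub_right ℝ v b0] at h2
  have h3 : ∀ y : Eu d, (⟪x, y⟫ : ℝ) = 0 := by
    intro y
    have hy : y ∈ Submodule.span ℝ (range fun i => v i -ᵥ v b0) := by rw [h2]; trivial
    induction hy using Submodule.span_induction with
    | mem y hy =>
      obtain ⟨j, rfl⟩ := hy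
      exact hx j
    | zero => exact inner_zero_right _
    | add y z _ _ h1 h2 => rw [inner_add_right, h1, h2, add_zero]
    | smul c y _ h => rw [real_inner_smul_right, h, mul_zero]
  have h4 := h3 x
  rwa [inner_self_eq_zero] at h4

lemma pair_for {v : Fin (d + 1) → Eu d} (hv : AffineIndependent ℝ v) {q p0 b0 : Fin (d + 1)}
    (h1 : p0 ≠ q) (h2 : b0 ≠ q) (h3 : b0 ≠ p0) :
    ∃ r : ON2 d, (∀ b, b ≠ p0 → b ≠ q → (⟪r.a, v b - v b0⟫ : ℝ) = 0 ∧
      (⟪r.b, v b - v b0⟫ : ℝ) = 0) ∧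
      (⟪r.b, (v q - v b0) - (v p0 - v b0)⟫ : ℝ) = 0 ∧
      (⟪r.a, (v q - v b0) - (v p0 - v b0)⟫ : ℝ) ≠ 0 ∧ (⟪r.b, v p0 - v b0⟫ : ℝ) ≠ 0 := by
  classical
  set s : Finset (Fin (d + 1)) := ((Finset.univ.erase p0).erase q).erase b0 with hs
  have hscard : s.card + 3 = d + 1 := by
    have e1 : (Finset.univ.erase p0 : Finset (Fin (d + 1))).card + 1 = d + 1 := by
      rw [Finset.card_erase_add_one (Finset.mem_univ _)]
      simp
    have e2 : ((Finset.univ.erase p0 : Finset (Fin (d + 1))).erase q).card + 1 =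
        (Finset.univ.erase p0 : Finset (Fin (d + 1))).card :=
      Finset.card_erase_add_one (Finset.mem_erase.2 ⟨h1.symm, Finset.mem_univ _⟩)
    have e3 : s.card + 1 = ((Finset.univ.erase p0 : Finset (Fin (d + 1))).erase q).card :=
      Finset.card_erase_add_one (Finset.mem_erase.2 ⟨h2, Finset.mem_erase.2
        ⟨h3, Finset.mem_univ _⟩⟩)
    omega
  have hmem : ∀ b, b ≠ p0 → b ≠ q → b ≠ b0 → b ∈ s := fun b e1 e2 e3 =>
    Finset.mem_erase.2 ⟨e3, Finset.mem_erase.2 ⟨e2, Finset.mem_erase.2 ⟨e1, Finset.mem_univ _⟩⟩⟩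
  have hfin : ∀ w : Eu d, Module.finrank ℝ (Submodule.span ℝ
      ((insert w (s.image fun b => v b - v b0) : Finset (Eu d)) : Set (Eu d))) < d := by
    intro w
    have e1 := finrank_span_finset_le_card (R := ℝ) (insert w (s.image fun b => v b - v b0))
    have e2 : (insert w (s.image fun b => v b - v b0)).card ≤
      (s.image fun b => v b - v b0).card + 1 := Finset.card_insert_le _ _
    have e3 : (s.image fun b => v b - v b0).card ≤ s.card := Finset.card_image_le
    have e4 : Module.finrank ℝ (Submodule.span ℝ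
      ((insert w (s.image fun b => v b - v b0) : Finset (Eu d)) : Set (Eu d))) ≤
      (insert w (s.image fun b => v b - v b0)).card := e1
    omega
  set π := v p0 - v b0 with hπ
  set κ := v q - v b0 with hκ
  obtain ⟨m2, hm20, hm2⟩ := exists_orth (hfin (κ - π))
  obtain ⟨m1, hm10, hm1⟩ := exists_orth (hfin m2)
  have i0 : ∀ w : Eu d, w ∈ Submodule.span ℝ
      ((insert w (s.image fun b => v b - v b0) : Finset (Eu d)) : Set (Eu d)) := fun w =>
    Submodule.subset_span (by simp)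
  have ib : ∀ w : Eu d, ∀ b, b ≠ p0 → b ≠ q → v b - v b0 ∈ Submodule.span ℝ
      ((insert w (s.image fun b => v b - v b0) : Finset (Eu d)) : Set (Eu d)) := by
    intro w b e1 e2
    by_cases e3 : b = b0
    · rw [e3, sub_self]
      exact Submodule.zero_mem _
    · apply Submodule.subset_span
      rw [Finset.mem_coe]
      exact Finset.mem_insert_of_mem (Finset.mem_image_of_mem _ (hmem b e1 e2 e3))
  have f1 : (⟪m1, m2⟫ : ℝ) = 0 := hm1 _ (i0 _)
  have f2 : (⟪m2, κ - π⟫ : ℝ) = 0 := hm2 _ (i0 _)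
  have f3 : ∀ b, b ≠ p0 → b ≠ q → (⟪m1, v b - v b0⟫ : ℝ) = 0 := fun b e1 e2 =>
    hm1 _ (ib _ b e1 e2)
  have f4 : ∀ b, b ≠ p0 → b ≠ q → (⟪m2, v b - v b0⟫ : ℝ) = 0 := fun b e1 e2 =>
    hm2 _ (ib _ b e1 e2)
  have f5 : (⟪m2, π⟫ : ℝ) ≠ 0 := by
    intro h0
    apply hm20
    apply orth_all hv b0
    intro j
    by_cases e1 : j = p0
    · rw [e1]; exact h0
    by_cases e2 : j = q
    · rw [e2]
      rw [inner_sub_right, h0, sub_zero] at f2
      exact f2
    · exact f4 j e1 e2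
  have f6 : (⟪m1, κ - π⟫ : ℝ) ≠ 0 := by
    intro h0
    rw [inner_sub_right] at h0 f2
    have hx : m1 - (⟪m1, π⟫ / ⟪m2, π⟫ : ℝ) • m2 = 0 := by
      apply orth_all hv b0
      intro j
      rw [inner_sub_left, real_inner_smul_left]
      by_cases e1 : j = p0
      · rw [e1, ← hπ]
        field_simp
        ring
      by_cases e2 : j = q
      · rw [e2, ← hκ]
        have g1 : (⟪m1, κ⟫ : ℝ) = ⟪m1, π⟫ := by linarith
        have g2 : (⟪m2, κ⟫ : ℝ) = ⟪m2, π⟫ := by linarith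
        rw [g1, g2]
        field_simp
        ring
      · rw [f3 j e1 e2, f4 j e1 e2]
        ring
    have h7 : (⟪m1, m1 - (⟪m1, π⟫ / ⟪m2, π⟫ : ℝ) • m2⟫ : ℝ) = 0 := by rw [hx, inner_zero_right]
    rw [inner_sub_right, real_inner_smul_right, f1, mul_zero, sub_zero, inner_self_eq_zero] at h7
    exact hm10 h7
  refine ⟨⟨‖m1‖⁻¹ • m1, ‖m2‖⁻¹ • m2, norm_inv_smul hm10, norm_inv_smul hm20, ?_⟩,
    fun b e1 e2 => ⟨?_, ?_⟩, ?_, ?_, ?_⟩
  · rw [real_inner_smul_left, real_inner_smul_right, f1]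
    simp
  · simp only [real_inner_smul_left, f3 b e1 e2, mul_zero]
  · simp only [real_inner_smul_left, f4 b e1 e2, mul_zero]
  · simp only [real_inner_smul_left, f2, mul_zero]
  · simp only [real_inner_smul_left]
    exact mul_ne_zero (inv_ne_zero (norm_ne_zero_iff.2 hm10)) f6
  · simp only [real_inner_smul_left]
    exact mul_ne_zero (inv_ne_zero (norm_ne_zero_iff.2 hm20)) f5

lemma prod_bdS {α ι : Type*} {s : Finset ι} {F : ι → α → ℝ} (hF : ∀ j x, |F j x| ≤ 1) {q : ι}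
    (hq : q ∈ s) (x : α) : |∏ j ∈ s, F j x| ≤ |F q x| := by
  classical
  rw [← Finset.mul_prod_erase s (fun j => F j x) hq, abs_mul]
  refine mul_le_of_le_one_right (abs_nonneg _) ?_
  rw [Finset.abs_prod]
  exact Finset.prod_le_one (fun j _ => abs_nonneg _) fun j _ => hF j x

lemma prod_admS {α ι : Type*} [MeasurableSpace α] {μ : Measure α} {s : Finset ι} {F : ι → α → ℝ}
    (hF : ∀ j, AdmX μ (F j)) {q : ι} (hq : q ∈ s) : AdmX μ (fun x => ∏ j ∈ s, F j x) := by
  have hm : Measurable (fun x => ∏ j ∈ s, F j x) := Finset.measurable_prod _ fun j _ => (hF j).meas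
  refine ⟨hm, fun x => (prod_bdS (fun j => (hF j).bd) hq x).trans ((hF q).bd x), ?_⟩
  refine (hF q).int.mono hm.aestronglyMeasurable (Filter.Eventually.of_forall fun x => ?_)
  rw [Real.norm_eq_abs, Real.norm_eq_abs]
  exact prod_bdS (fun j => (hF j).bd) hq x

/-- decay with the rough function at a given vertex -/
lemma dec_at (hd : 4 ≤ d) {v : Fin (d + 1) → Eu d} (hv : AffineIndependent ℝ v)
    (q : Fin (d + 1)) {η : ℝ} (hη : 0 < η) : ∃ ε : ℝ, 0 < ε ∧ ∀ l : ℝ, 0 < l →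
  ∀ a : ℝ, 0 < a → a ≤ ε * l → ∀ V : ℝ, ∀ F : Fin (d + 1) → Eu d → ℝ, (∀ j, Adm (F j)) →
    (∀ j, ∫ x, |F j x| ≤ V) → MZ a (F q) → |Tf l v F| ≤ η * V := by
  classical
  obtain ⟨p0, hp0⟩ : ∃ p0 : Fin (d + 1), p0 ≠ q := by
    by_contra hcon
    push Not at hcon
    have h1 := hcon ⟨0, by omega⟩
    have h2 := hcon ⟨1, by omega⟩
    rw [← h2] at h1
    simp at h1
  obtain ⟨b0, hb0⟩ : ∃ b0 : Fin (d + 1), b0 ≠ q ∧ b0 ≠ p0 := by
    have hcard : 2 < (Finset.univ : Finset (Fin (d + 1))).card := by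
      rw [Finset.card_univ, Fintype.card_fin]; omega
    have : ∃ b ∈ (Finset.univ : Finset (Fin (d + 1))), b ∉ ({q, p0} : Finset (Fin (d + 1))) := by
      apply Finset.exists_mem_notMem_of_card_lt_card
      exact lt_of_le_of_lt Finset.card_le_two hcard
    obtain ⟨b, _, hb⟩ := this
    simp only [Finset.mem_insert, Finset.mem_singleton, not_or] at hb
    exact ⟨b, hb.1, hb.2⟩
  obtain ⟨r, hr1, hr2, hr3, hr4⟩ := pair_for hv hp0 hb0.1 hb0.2
  obtain ⟨ε, hε, hdec⟩ := simp_dec hd r hr2 hr3 hr4 hη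
  refine ⟨ε, hε, fun l hl a ha hal V F hF hFV hMZ => ?_⟩
  set s : Finset (Fin (d + 1)) := (Finset.univ.erase p0).erase q with hs
  have hb0s : b0 ∈ s := Finset.mem_erase.2 ⟨hb0.1, Finset.mem_erase.2 ⟨hb0.2, Finset.mem_univ _⟩⟩
  set B : OG d × Eu d → ℝ := fun p => ∏ j ∈ s, F j (ev l (v j - v b0) p) with hB
  have hadm : ∀ j, AdmX (PX d) (fun p => F j (ev l (v j - v b0) p)) := fun j => adm_ev (hF j)
  have hBa : AdmX (PX d) B := prod_admS hadm hb0s
  have hBV : ∫ p, |B p| ∂(PX d) ≤ V := by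
    refine le_trans (integral_mono hBa.int.abs (hadm b0).int.abs fun p => ?_) ?_
    · exact prod_bdS (F := fun j p => F j (ev l (v j - v b0) p)) (fun j => (hadm j).bd) hb0s p
    · rw [adm_ev_abs (hF b0)]
      exact hFV b0
  have hinv : ∀ θ p, B (rtr (rot r θ) p) = B p := by
    intro θ p
    rw [hB]
    simp only
    refine Finset.prod_congr rfl fun j hj => ?_
    have hj1 := Finset.ne_of_mem_erase hj
    have hj2 := Finset.ne_of_mem_erase (Finset.mem_of_mem_erase hj)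
    have h := hr1 j hj2 hj1
    rw [ev_rtr, act_rot_fix r θ h.1 h.2]
  have hmain := hdec l hl a ha hal V B hBa hBV hinv (F p0) (F q) (hF p0) (hF q) (hFV p0) (hFV q) hMZ
  have heq : Tf l v F = ∫ p, B p * fp l (F p0) (F q) (v p0 - v b0) (v q - v b0) p ∂(PX d) := by
    unfold Tf
    have hm : Measurable (fun p : OG d × Eu d => ∏ j, F j (ev l (v j) p)) :=
      (prod_adm (fun j => adm_ev (w := v j) (hF j)) q).meas
    rw [← mp_integral (shear_mp l (-v b0)) hm]
    congr 1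
    ext p
    have e1 : ∀ j, F j (ev l (v j) (shear l (-v b0) p)) = F j (ev l (v j - v b0) p) := by
      intro j
      rw [ev_shear, ← sub_eq_add_neg]
    simp only [e1]
    rw [← Finset.mul_prod_erase Finset.univ (fun j => F j (ev l (v j - v b0) p))
      (Finset.mem_univ p0), ← Finset.mul_prod_erase (Finset.univ.erase p0)
      (fun j => F j (ev l (v j - v b0) p)) (Finset.mem_erase.2 ⟨hp0.symm, Finset.mem_univ q⟩)]
    simp only [hB, fp, hs]
    ring
  rw [heq]
  exact hmain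

theorem dec_simplex (hd : 4 ≤ d) {v : Fin (d + 1) → Eu d} (hv : AffineIndependent ℝ v) :
    Dec v := by
  intro η hη
  choose e he0 he using fun q : Fin (d + 1) => dec_at hd hv q hη
  obtain ⟨ε, hε, hεe⟩ := finite_min Finset.univ e fun i _ => he0 i
  refine ⟨ε, hε, fun l hl a ha hal V F hF hFV q hMZ => ?_⟩
  exact he q l hl a ha
    (hal.trans (mul_le_mul_of_nonneg_right (hεe q (Finset.mem_univ q)) hl.le)) V F hF hFV hMZ

end Run7.h764.S
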