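import Pool.Agent.Run7.h764.SGrp
set_option autoImplicit false

/-! One-dimensional null set lemmas, plane rotations, and absolute continuity of the law of
`V u - U u`. -/

namespace Run7.h764.S

open MeasureTheory Metric Set
open scoped ENNReal RealInnerProductSpace

variable {d : ℕ}

lemma cos_preimage_null {N : Set ℝ} (hN : volume N = 0) : volume (Real.cos ⁻¹' N) = 0 := by
  have h1 : volume (Real.arccos '' N) = 0 := by
    have hsub : Real.arccos '' N ⊆ Real.arccos '' (N \ {-1, 1}) ∪ Real.arccos '' {-1, 1} := by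
      rw [← image_union]
      apply image_mono
      intro x hx
      by_cases h : x ∈ ({-1, 1} : Set ℝ)
      · exact Or.inr h
      · exact Or.inl ⟨hx, h⟩
    refine measure_mono_null hsub (measure_union_null ?_ ?_)
    · apply MeasureTheory.addHaar_image_eq_zero_of_differentiableOn_of_addHaar_eq_zero
      · intro x hx
        have hx' : x ≠ -1 ∧ x ≠ 1 := by
          have := hx.2
          simp only [mem_insert_iff, mem_singleton_iff, not_or] at this
          exact this
        exact (Real.hasDerivAt_arccos hx'.1 hx'.2).differentiableAt.differentiableWithinAt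
      · exact measure_mono_null sdiff_subset hN
    · exact (((Set.finite_singleton (1:ℝ)).insert (-1:ℝ)).image _).measure_zero _
  have h2 : Real.cos ⁻¹' N ⊆ ⋃ k : ℤ,
      ((fun s : ℝ => s + 2 * k * Real.pi) '' (Real.arccos '' N) ∪
       (fun s : ℝ => -s + 2 * k * Real.pi) '' (Real.arccos '' N)) := by
    intro t ht
    have hc : Real.cos (Real.arccos (Real.cos t)) = Real.cos t :=
      Real.cos_arccos (Real.neg_one_le_cos t) (Real.cos_le_one t)
    rw [Real.cos_eq_cos_iff] at hc
    obtain ⟨k, hk⟩ := hc
    rw [mem_iUnion]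
    refine ⟨k, ?_⟩
    rcases hk with hk | hk
    · left
      exact ⟨Real.arccos (Real.cos t), mem_image_of_mem _ ht, by simp only; linarith⟩
    · right
      exact ⟨Real.arccos (Real.cos t), mem_image_of_mem _ ht, by simp only; linarith⟩
  refine measure_mono_null h2 (measure_iUnion_null fun k => measure_union_null ?_ ?_)
  · rw [image_add_right, measure_preimage_add_right]
    exact h1
  · have : (fun s : ℝ => -s + 2 * k * Real.pi) '' (Real.arccos '' N) =
        (fun s => s + 2 * k * Real.pi) '' ((fun s => -s) '' (Real.arccos '' N)) :=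
      (image_image (fun s : ℝ => s + 2 * k * Real.pi) (fun s : ℝ => -s) (Real.arccos '' N)).symm
    rw [this, image_add_right, measure_preimage_add_right, image_neg_eq_neg]
    rw [Measure.measure_neg]
    exact h1

lemma trig_preimage_null {N : Set ℝ} (hN : volume N = 0) {α β : ℝ} (h : ¬ (α = 0 ∧ β = 0)) :
    volume {θ : ℝ | α * Real.cos θ + β * Real.sin θ ∈ N} = 0 := by
  set z : ℂ := ⟨α, β⟩ with hz
  have hz0 : z ≠ 0 := by
    intro h0
    apply h
    have h1 := congrArg Complex.re h0
    have h2 := congrArg Complex.im h0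
    exact ⟨h1, h2⟩
  set r := ‖z‖ with hr
  have hr0 : 0 < r := norm_pos_iff.2 hz0
  set φ := z.arg with hφ
  have hα : α = r * Real.cos φ := by
    have := Complex.norm_mul_cos_arg z
    rw [hr, hφ, this]
  have hβ : β = r * Real.sin φ := by
    have := Complex.norm_mul_sin_arg z
    rw [hr, hφ, this]
  have hset : {θ : ℝ | α * Real.cos θ + β * Real.sin θ ∈ N} =
      (fun θ => θ + (-φ)) ⁻¹' (Real.cos ⁻¹' ((fun t => r * t) ⁻¹' N)) := by
    ext θ
    simp only [mem_ofPred_eq, mem_preimage]
    have : α * Real.cos θ + β * Real.sin θ = r * Real.cos (θ + -φ) := by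
      rw [← sub_eq_add_neg, Real.cos_sub, hα, hβ]
      ring
    rw [this]
  rw [hset, measure_preimage_add_right]
  apply cos_preimage_null
  rw [Real.volume_preimage_mul_left hr0.ne', hN, mul_zero]

lemma radial_null [NeZero d] {S : Set ℝ} (hS : MeasurableSet S)
    (h : volume {x : Eu d | ‖x‖ ∈ S} = 0) : volume (S ∩ Ioi 0) = 0 := by
  have key : ∀ n : ℕ, volume ((S ∩ Ioi 0) ∩ Iio (n : ℝ)) = 0 := by
    intro n
    set T : Set ℝ := (S ∩ Ioi 0) ∩ Iio (n : ℝ) with hT
    have hTm : MeasurableSet T := (hS.inter measurableSet_Ioi).inter measurableSet_Iio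
    set f : ℝ → ℝ := T.indicator 1 with hf
    have h1 := integral_fun_norm_addHaar (volume : Measure (Eu d)) f
    have h2 : ∫ x : Eu d, f ‖x‖ = 0 := by
      apply integral_eq_zero_of_ae
      have h3 : ∀ᵐ x : Eu d, ‖x‖ ∉ S := by
        rw [ae_iff]
        simpa using h
      filter_upwards [h3] with x hx
      rw [hf]
      simp only [Pi.zero_apply]
      rw [indicator_of_notMem]
      intro hc
      exact hx hc.1.1
    rw [h2] at h1
    have hd : (0 : ℝ) < Module.finrank ℝ (Eu d) := by
      rw [finrank_euclideanSpace_fin]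
      exact_mod_cast Nat.pos_of_ne_zero (NeZero.ne d)
    have hb : 0 < (volume : Measure (Eu d)).real (ball 0 1) := by
      rw [Measure.real]
      exact ENNReal.toReal_pos (measure_ball_pos _ _ one_pos).ne' measure_ball_lt_top.ne
    have h4 : ∫ y in Ioi (0 : ℝ), y ^ (Module.finrank ℝ (Eu d) - 1) • f y = 0 := by
      have h5 := h1.symm
      rw [nsmul_eq_mul, smul_eq_mul] at h5
      rcases mul_eq_zero.1 h5 with h6 | h6
      · exact absurd h6 hd.ne'
      · rcases mul_eq_zero.1 h6 with h7 | h7
        · exact absurd h7 hb.ne'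
        · exact h7
    have hint : IntegrableOn (fun y : ℝ => y ^ (Module.finrank ℝ (Eu d) - 1) • f y) (Ioi 0) := by
      have h6 : (fun y : ℝ => y ^ (Module.finrank ℝ (Eu d) - 1) • f y) =
          T.indicator (fun y => y ^ (Module.finrank ℝ (Eu d) - 1)) := by
        ext y
        rw [hf]
        by_cases hy : y ∈ T
        · simp [indicator_of_mem hy]
        · simp [indicator_of_notMem hy]
      rw [h6]
      apply Integrable.integrableOn
      rw [integrable_indicator_iff hTm]
      apply IntegrableOn.mono_set (t := Icc 0 (n : ℝ))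
      · exact (continuous_pow _).continuousOn.integrableOn_Icc
      · intro y hy
        exact ⟨le_of_lt hy.1.2, le_of_lt hy.2⟩
    have hnn : 0 ≤ᵐ[volume.restrict (Ioi (0:ℝ))]
        (fun y : ℝ => y ^ (Module.finrank ℝ (Eu d) - 1) • f y) := by
      filter_upwards [ae_restrict_mem measurableSet_Ioi] with y hy
      simp only [Pi.zero_apply]
      exact smul_nonneg (pow_nonneg (le_of_lt hy) _) (indicator_nonneg (fun _ _ => zero_le_one) _)
    have h7 := (integral_eq_zero_iff_of_nonneg_ae hnn hint).1 h4
    have h8 : ∀ᵐ y : ℝ, y ∉ T := by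
      rw [Filter.EventuallyEq, ae_restrict_iff' measurableSet_Ioi] at h7
      filter_upwards [h7] with y hy hyT
      have hy0 : 0 < y := hyT.1.2
      have := hy hy0
      rw [hf, indicator_of_mem hyT] at this
      simp only [Pi.one_apply, smul_eq_mul, mul_one, Pi.zero_apply] at this
      exact (pow_pos hy0 _).ne' this
    rw [ae_iff] at h8
    simpa using h8
  have hsub : S ∩ Ioi 0 ⊆ ⋃ n : ℕ, ((S ∩ Ioi 0) ∩ Iio (n : ℝ)) := by
    intro x hx
    obtain ⟨n, hn⟩ := exists_nat_gt x
    exact mem_iUnion.2 ⟨n, hx, hn⟩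
  exact measure_mono_null hsub (measure_iUnion_null key)

end Run7.h764.S
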