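import Pool.Agent.Run7.h764.STwo
set_option autoImplicit false

/-! The Cauchy-Schwarz steps. -/

namespace Run7.h764.S

open MeasureTheory Metric Set
open scoped ENNReal RealInnerProductSpace

variable {d : ℕ}

lemma finite_min {ι : Type*} (s : Finset ι) (e : ι → ℝ) (he : ∀ i ∈ s, 0 < e i) :
    ∃ ε : ℝ, 0 < ε ∧ ∀ i ∈ s, ε ≤ e i := by
  classical
  induction s using Finset.induction_on with
  | empty => exact ⟨1, one_pos, by simp⟩
  | insert a s ha ih =>
    obtain ⟨ε, hε, h⟩ := ih fun i hi => he i (Finset.mem_insert_of_mem hi)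
    refine ⟨min ε (e a), lt_min hε (he a (Finset.mem_insert_self a s)), fun i hi => ?_⟩
    rcases Finset.mem_insert.1 hi with rfl | hi
    · exact min_le_right _ _
    · exact (min_le_left _ _).trans (h i hi)

lemma sin_ne {x : ℝ} (h0 : x ≠ 0) (h1 : |x| < 2) : Real.sin x ≠ 0 := by
  have hpi := Real.pi_gt_three
  rw [abs_lt] at h1
  rcases lt_or_gt_of_ne h0 with h | h
  · have : 0 < Real.sin (-x) := Real.sin_pos_of_pos_of_lt_pi (by linarith) (by linarith)
    rw [Real.sin_neg] at this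
    linarith
  · exact (Real.sin_pos_of_pos_of_lt_pi h (by linarith)).ne'

/-- the angles -/
noncomputable def ang (N : ℕ) (i : ℕ) : ℝ := i / N

lemma ang_sub_ne {N i j : ℕ} (hN : 0 < N) (h : i ≠ j) : ang N j - ang N i ≠ 0 := by
  unfold ang
  rw [← sub_div]
  have hN' : (N : ℝ) ≠ 0 := by exact_mod_cast hN.ne'
  apply div_ne_zero _ hN'
  rw [sub_ne_zero]
  exact_mod_cast h.symm

lemma ang_sub_lt {N i j : ℕ} (hi : i < N) (hj : j < N) : |ang N j - ang N i| < 1 := by
  unfold ang
  have hN : (0 : ℝ) < N := by exact_mod_cast (Nat.zero_le i).trans_lt hi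
  rw [← sub_div, abs_div, abs_of_pos hN, div_lt_one hN, abs_lt]
  have h1 : (i : ℝ) < N := by exact_mod_cast hi
  have h2 : (j : ℝ) < N := by exact_mod_cast hj
  have h3 : (0 : ℝ) ≤ i := Nat.cast_nonneg _
  have h4 : (0 : ℝ) ≤ j := Nat.cast_nonneg _
  constructor <;> linarith

/-- distinct angles give distinct points of the circle -/
lemma circ_ne {x y : ℝ} (h0 : y - x ≠ 0) (h1 : |y - x| < 1) :
    0 < (Real.cos y - Real.cos x) ^ 2 + (Real.sin y - Real.sin x) ^ 2 := by
  have h2 : (Real.cos y - Real.cos x) ^ 2 + (Real.sin y - Real.sin x) ^ 2 =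
      (2 * Real.sin ((y - x) / 2)) ^ 2 := by
    have e1 : Real.cos (y - x) = Real.cos y * Real.cos x + Real.sin y * Real.sin x :=
      Real.cos_sub y x
    have e2 : Real.cos (y - x) = 1 - 2 * Real.sin ((y - x) / 2) ^ 2 := by
      have := Real.cos_two_mul ((y - x) / 2)
      have h3 := Real.sin_sq_add_cos_sq ((y - x) / 2)
      rw [show 2 * ((y - x) / 2) = y - x by ring] at this
      linarith
    have e3 := Real.sin_sq_add_cos_sq y
    have e4 := Real.sin_sq_add_cos_sq x
    nlinarith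
  rw [h2]
  have h3 : Real.sin ((y - x) / 2) ≠ 0 := by
    apply sin_ne
    · intro h; apply h0; linarith
    · rw [abs_div]; norm_num; linarith
  positivity

lemma pair_shift {l : ℝ} {w1 w2 : Eu d} {h g : Eu d → ℝ} (hh : Adm h) (hg : Adm g) :
    ∫ p, h (ev l w1 p) * g (ev l w2 p) ∂(PX d) =
      ∫ p, h p.2 * g (ev l (w2 - w1) p) ∂(PX d) := by
  have hm : AdmX (PX d) (fun p => h p.2 * g (ev l (w2 - w1) p)) := by
    have h0 := hh.toX.comp (ev_mp l (0 : Eu d))
    simp only [ev_zero] at h0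
    exact h0.mul (hg.toX.comp (ev_mp l _))
  have := mp_integral (shear_mp l w1) hm.meas
  rw [← this]
  congr 1
  ext p
  rw [ev_shear, sub_add_cancel]
  rfl

lemma adm_ev {l : ℝ} {w : Eu d} {h : Eu d → ℝ} (hh : Adm h) :
    AdmX (PX d) (fun p => h (ev l w p)) := hh.toX.comp (ev_mp l w)

lemma adm_ev_abs {l : ℝ} {w : Eu d} {h : Eu d → ℝ} (hh : Adm h) :
    ∫ p, |h (ev l w p)| ∂(PX d) = ∫ x, |h x| :=
  mp_integral (ev_mp l w) (g := fun x => |h x|) hh.meas.abs

/-- extension step: adding a point that can be rotated while the rest is fixed -/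
theorem ext_step (hd : 2 ≤ d) (q : ON2 d) {u : Eu d} (h1 : (⟪q.a, u⟫ : ℝ) ≠ 0)
    (h2 : (⟪q.b, u⟫ : ℝ) = 0) {η : ℝ} (hη : 0 < η) :
    ∃ ε : ℝ, 0 < ε ∧ ∀ l : ℝ, 0 < l → ∀ a : ℝ, 0 < a → a ≤ ε * l → ∀ V : ℝ,
      ∀ F : OG d × Eu d → ℝ, AdmX (PX d) F → ∫ p, |F p| ∂(PX d) ≤ V →
      (∀ θ p, F (rtr (rot q θ) p) = F p) →
      ∀ h : Eu d → ℝ, Adm h → MZ a h → ∫ x, |h x| ≤ V →
        |∫ p, F p * h (ev l u p) ∂(PX d)| ≤ η * V := by
  obtain ⟨N, hN⟩ := exists_nat_gt (2 / η ^ 2)
  have hNpos' : (0 : ℝ) < N := lt_trans (by positivity) hN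
  have hNpos : 0 < N := by exact_mod_cast hNpos'
  set R : ℕ → OG d := fun i => rot q (ang N i) with hR
  have hne : ∀ i j, i < N → j < N → i ≠ j → act (R j) u - act (R i) u ≠ 0 := by
    intro i j hi hj hij hzero
    have hpos := circ_ne (ang_sub_ne hNpos hij) (ang_sub_lt hi hj)
    have e1 : (⟪q.a, act (R j) u - act (R i) u⟫ : ℝ) =
        (Real.cos (ang N j) - Real.cos (ang N i)) * ⟪q.a, u⟫ := by
      rw [hR]
      simp only
      rw [act_rot, act_rot]
      simp only [inner_sub_right, inner_add_right, real_inner_smul_right, q.aa, q.hab, h2]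
      ring
    have e2 : (⟪q.b, act (R j) u - act (R i) u⟫ : ℝ) =
        (Real.sin (ang N j) - Real.sin (ang N i)) * ⟪q.a, u⟫ := by
      rw [hR]
      simp only
      rw [act_rot, act_rot]
      simp only [inner_sub_right, inner_add_right, real_inner_smul_right, q.bb, q.ba, h2]
      ring
    rw [hzero, inner_zero_right] at e1 e2
    have e3 : Real.cos (ang N j) - Real.cos (ang N i) = 0 := by
      rcases mul_eq_zero.1 e1.symm with h | h
      · exact h
      · exact absurd h h1
    have e4 : Real.sin (ang N j) - Real.sin (ang N i) = 0 := by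
      rcases mul_eq_zero.1 e2.symm with h | h
      · exact h
      · exact absurd h h1
    rw [e3, e4] at hpos
    norm_num at hpos
  have hex : ∀ x : ℕ × ℕ, ∃ ε : ℝ, 0 < ε ∧ (x.1 < N → x.2 < N → x.1 ≠ x.2 →
      ∀ l : ℝ, 0 < l → ∀ a : ℝ, 0 < a → a ≤ ε * l → ∀ V : ℝ,
      ∀ h : Eu d → ℝ, Adm h → MZ a h → ∫ x, |h x| ≤ V →
        |∫ p, h p.2 * h (ev l (act (R x.2) u - act (R x.1) u) p) ∂(PX d)| ≤ η ^ 2 / 2 * V) := by
    intro x
    by_cases hx : x.1 < N ∧ x.2 < N ∧ x.1 ≠ x.2
    · obtain ⟨ε, hε, h⟩ := two_point hd (hne x.1 x.2 hx.1 hx.2.1 hx.2.2)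
        (by positivity : 0 < η ^ 2 / 2)
      exact ⟨ε, hε, fun _ _ _ => h⟩
    · exact ⟨1, one_pos, fun a1 a2 a3 => absurd ⟨a1, a2, a3⟩ hx⟩
  choose e he0 he using hex
  obtain ⟨ε, hε, hεe⟩ := finite_min (Finset.range N ×ˢ Finset.range N) e fun i _ => he0 i
  refine ⟨ε, hε, fun l hl a ha hal V F hF hFV hinv h hh hMZ hV => ?_⟩
  have hV0 : 0 ≤ V := le_trans (integral_nonneg fun x => abs_nonneg _) hV
  have hT : ∀ i, ∫ p, F p * h (ev l u p) ∂(PX d) =
      ∫ p, F p * h (ev l (act (R i) u) p) ∂(PX d) := by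
    intro i
    have := mp_integral (rtr_mp (R i)) (hF.mul (adm_ev (l := l) (w := u) hh)).meas
    rw [← this]
    congr 1
    ext p
    rw [ev_rtr]
    congr 1
    exact hinv _ p
  have hcard : ((Finset.range N).card : ℝ) = N := by simp
  have hmain := csAvg (Finset.range N) ⟨0, Finset.mem_range.2 hNpos⟩
    (F := fun i p => h (ev l (act (R i) u) p)) (μ := PX d) (fun i _ => adm_ev hh) hF hη hFV ?_
  · rw [hcard] at hmain
    have h3 : (N : ℝ)⁻¹ * ∑ i ∈ Finset.range N, ∫ p, F p * h (ev l (act (R i) u) p) ∂(PX d) =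
        ∫ p, F p * h (ev l u p) ∂(PX d) := by
      rw [Finset.sum_congr rfl fun i _ => (hT i).symm, Finset.sum_const, Finset.card_range,
        nsmul_eq_mul]
      field_simp
    rw [h3] at hmain
    exact hmain
  · rw [hcard]
    have hpt : ∀ i ∈ Finset.range N, ∀ j ∈ Finset.range N,
        ∫ p, h (ev l (act (R i) u) p) * h (ev l (act (R j) u) p) ∂(PX d) ≤
          η ^ 2 / 2 * V + (if i = j then V else 0) := by
      intro i hi j hj
      by_cases hij : i = j
      · rw [if_pos hij]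
        have h4 : ∫ p, h (ev l (act (R i) u) p) * h (ev l (act (R j) u) p) ∂(PX d) ≤ V := by
          refine (le_abs_self _).trans ((abs_integral_le _).trans ?_)
          refine ((adm_ev hh).abs_mul_le (adm_ev hh)).trans ?_
          rw [adm_ev_abs hh]
          exact hV
        have : 0 ≤ η ^ 2 / 2 * V := by positivity
        linarith
      · rw [if_neg hij, add_zero, pair_shift hh hh]
        refine (le_abs_self _).trans ?_
        have hmem : (i, j) ∈ Finset.range N ×ˢ Finset.range N := Finset.mem_product.2 ⟨hi, hj⟩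
        exact he (i, j) (Finset.mem_range.1 hi) (Finset.mem_range.1 hj) hij l hl a ha
          (hal.trans (mul_le_mul_of_nonneg_right (hεe (i, j) hmem) hl.le)) V h hh hMZ hV
    calc ∑ i ∈ Finset.range N, ∑ j ∈ Finset.range N,
          ∫ p, h (ev l (act (R i) u) p) * h (ev l (act (R j) u) p) ∂(PX d)
        ≤ ∑ i ∈ Finset.range N, ∑ j ∈ Finset.range N, (η ^ 2 / 2 * V + (if i = j then V else 0)) :=
          Finset.sum_le_sum fun i hi => Finset.sum_le_sum fun j hj => hpt i hi j hj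
      _ = N * (N * (η ^ 2 / 2 * V)) + N * V := by
          simp only [Finset.sum_add_distrib, Finset.sum_const, Finset.card_range, nsmul_eq_mul]
          congr 1
          rw [Finset.sum_congr rfl (g := fun _ => V)]
          · simp
          · intro i hi
            rw [Finset.sum_ite_eq, if_pos hi]
      _ ≤ N ^ 2 * (η ^ 2 * V) := by
          have h5 : (N : ℝ) * V ≤ N ^ 2 * (η ^ 2 / 2 * V) := by
            have h6 : 1 ≤ N * (η ^ 2 / 2) := by
              rw [div_lt_iff₀ (by positivity)] at hN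
              linarith
            calc (N : ℝ) * V = N * V * 1 := by ring
              _ ≤ N * V * (N * (η ^ 2 / 2)) := by gcongr
              _ = _ := by ring
          nlinarith

end Run7.h764.S
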