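import Pool.Agent.Run7.h764.SStep
set_option autoImplicit false

/-! Four-point forms in general position. -/

namespace Run7.h764.S

open MeasureTheory Metric Set
open scoped ENNReal RealInnerProductSpace

variable {d : ℕ}

/-- decay of a four-point form -/
def D4 (P1 Q1 P2 Q2 : Eu d) : Prop := ∀ η : ℝ, 0 < η → ∃ ε : ℝ, 0 < ε ∧ ∀ l : ℝ, 0 < l →
  ∀ a : ℝ, 0 < a → a ≤ ε * l → ∀ V : ℝ, ∀ g h : Eu d → ℝ, Adm g → Adm h →
    ∫ x, |g x| ≤ V → ∫ x, |h x| ≤ V → MZ a h →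
    |∫ p, (g (ev l P1 p) * h (ev l Q1 p)) * (g (ev l P2 p) * h (ev l Q2 p)) ∂(PX d)| ≤ η * V

lemma norm_inv_smul {z : Eu d} (hz : z ≠ 0) : ‖‖z‖⁻¹ • z‖ = 1 := by
  rw [norm_smul, norm_inv, norm_norm, inv_mul_cancel₀ (norm_ne_zero_iff.2 hz)]

lemma exists_orth {K : Submodule ℝ (Eu d)} (h : Module.finrank ℝ K < d) :
    ∃ m : Eu d, m ≠ 0 ∧ ∀ x ∈ K, (⟪m, x⟫ : ℝ) = 0 := by
  have h1 : K ≠ ⊤ := by
    rintro rfl
    rw [finrank_top, finrank_euclideanSpace_fin] at h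
    exact lt_irrefl _ h
  have h2 : Kᗮ ≠ ⊥ := by
    intro hb
    exact h1 ((Submodule.orthogonal_eq_bot_iff).1 hb)
  obtain ⟨m, hm, hm0⟩ := Submodule.exists_mem_ne_zero_of_ne_bot h2
  exact ⟨m, hm0, fun x hx => (Submodule.mem_orthogonal' K m).1 hm x hx⟩

lemma exists_pair (hd : 4 ≤ d) {b c u : Eu d} (h : u ∉ Submodule.span ℝ {b, c}) :
    ∃ q : ON2 d, (⟪q.a, b⟫ : ℝ) = 0 ∧ (⟪q.b, b⟫ : ℝ) = 0 ∧ (⟪q.a, c⟫ : ℝ) = 0 ∧
      (⟪q.b, c⟫ : ℝ) = 0 ∧ (⟪q.b, u⟫ : ℝ) = 0 ∧ (⟪q.a, u⟫ : ℝ) ≠ 0 := by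
  classical
  set K := Submodule.span ℝ ({b, c} : Set (Eu d)) with hK
  obtain ⟨y, hy, z, hz, hu⟩ := K.exists_add_mem_mem_orthogonal u
  have hz0 : z ≠ 0 := by
    rintro rfl
    rw [add_zero] at hu
    exact h (hu ▸ hy)
  set K2 := Submodule.span ℝ (({b, c, u} : Finset (Eu d)) : Set (Eu d)) with hK2
  have hfr : Module.finrank ℝ K2 < d := by
    have h1 := finrank_span_finset_le_card (R := ℝ) ({b, c, u} : Finset (Eu d))
    have h2 : ({b, c, u} : Finset (Eu d)).card ≤ 3 := Finset.card_le_three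
    have h3 : Module.finrank ℝ K2 ≤ ({b, c, u} : Finset (Eu d)).card := h1
    omega
  obtain ⟨m, hm0, hm⟩ := exists_orth hfr
  have hb2 : b ∈ K2 := Submodule.subset_span (by simp)
  have hc2 : c ∈ K2 := Submodule.subset_span (by simp)
  have hu2 : u ∈ K2 := Submodule.subset_span (by simp)
  have hKK : K ≤ K2 := by
    rw [hK, Submodule.span_le]
    rintro x (rfl | rfl)
    · exact hb2
    · exact hc2
  have hz2 : z ∈ K2 := by
    have : z = u - y := by rw [hu]; abel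
    rw [this]
    exact K2.sub_mem hu2 (hKK hy)
  have hzK : ∀ x ∈ K, (⟪z, x⟫ : ℝ) = 0 := fun x hx => (Submodule.mem_orthogonal' K z).1 hz x hx
  have hbK : b ∈ K := Submodule.subset_span (by simp)
  have hcK : c ∈ K := Submodule.subset_span (by simp)
  refine ⟨⟨‖z‖⁻¹ • z, ‖m‖⁻¹ • m, norm_inv_smul hz0, norm_inv_smul hm0, ?_⟩, ?_, ?_, ?_, ?_, ?_, ?_⟩
  · rw [real_inner_smul_left, real_inner_smul_right, real_inner_comm, hm z hz2]
    simp
  · simp only [real_inner_smul_left, hzK b hbK, mul_zero]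
  · simp only [real_inner_smul_left, hm b hb2, mul_zero]
  · simp only [real_inner_smul_left, hzK c hcK, mul_zero]
  · simp only [real_inner_smul_left, hm c hc2, mul_zero]
  · simp only [real_inner_smul_left, hm u hu2, mul_zero]
  · simp only [real_inner_smul_left]
    have h5 : (⟪z, u⟫ : ℝ) = ‖z‖ ^ 2 := by
      rw [hu, inner_add_right, hzK y hy, zero_add, real_inner_self_eq_norm_sq]
    rw [h5]
    have hzn : 0 < ‖z‖ := norm_pos_iff.2 hz0
    positivity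

lemma D4_of (hd : 4 ≤ d) {P1 Q1 P2 Q2 : Eu d}
    (h : Q1 - P1 ∉ Submodule.span ℝ {P2 - P1, Q2 - P1}) : D4 P1 Q1 P2 Q2 := by
  obtain ⟨q, hab, hbb, hac, hbc, hbu, hau⟩ := exists_pair hd h
  intro η hη
  obtain ⟨ε, hε, hext⟩ := ext_step (by omega) q hau hbu hη
  refine ⟨ε, hε, fun l hl a ha hal V g h hg hh hgV hhV hMZ => ?_⟩
  have hg0 : AdmX (PX d) (fun p => g p.2) := by
    have h0 := hg.toX.comp (ev_mp l (0 : Eu d))
    simpa only [ev_zero] using h0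
  have hF : AdmX (PX d) (fun p => g p.2 * (g (ev l (P2 - P1) p) * h (ev l (Q2 - P1) p))) :=
    hg0.mul ((adm_ev hg).mul (adm_ev hh))
  have h1 : ∫ p, (g (ev l P1 p) * h (ev l Q1 p)) * (g (ev l P2 p) * h (ev l Q2 p)) ∂(PX d) =
      ∫ p, (g p.2 * (g (ev l (P2 - P1) p) * h (ev l (Q2 - P1) p))) *
        h (ev l (Q1 - P1) p) ∂(PX d) := by
    have := mp_integral (shear_mp l P1) (hF.mul (adm_ev (l := l) (w := Q1 - P1) hh)).meas
    rw [← this]
    congr 1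
    ext p
    rw [ev_shear, ev_shear, ev_shear, sub_add_cancel, sub_add_cancel, sub_add_cancel]
    have : (shear l P1 p).2 = ev l P1 p := rfl
    rw [this]
    ring
  rw [h1]
  refine hext l hl a ha hal V _ hF ?_ ?_ h hh hMZ hhV
  · refine (hg0.abs_mul_le ((adm_ev hg).mul (adm_ev hh))).trans ?_
    have := adm_ev_abs (l := l) (w := (0 : Eu d)) hg
    simp only [ev_zero] at this
    rw [this]
    exact hgV
  · intro θ p
    rw [ev_rtr, ev_rtr, act_rot_fix q θ hab hbb, act_rot_fix q θ hac hbc]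
    rfl

end Run7.h764.S
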