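import Pool.Agent.Run7.h764.SStep2
set_option autoImplicit false

/-! The simplex form: general position of the four points produced by Cauchy-Schwarz. -/

namespace Run7.h764.S

open MeasureTheory Metric Set
open scoped ENNReal RealInnerProductSpace

variable {d : ℕ}

lemma inner_a_rot (q : ON2 d) (θ : ℝ) (x : Eu d) :
    (⟪q.a, act (rot q θ) x⟫ : ℝ) = Real.cos θ * ⟪q.a, x⟫ - Real.sin θ * ⟪q.b, x⟫ := by
  rw [act_rot]
  simp only [inner_add_right, real_inner_smul_right, q.aa, q.hab]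
  ring

lemma inner_b_rot (q : ON2 d) (θ : ℝ) (x : Eu d) :
    (⟪q.b, act (rot q θ) x⟫ : ℝ) = Real.sin θ * ⟪q.a, x⟫ + Real.cos θ * ⟪q.b, x⟫ := by
  rw [act_rot]
  simp only [inner_add_right, real_inner_smul_right, q.bb, q.ba]
  ring

lemma inner_perp_rot (q : ON2 d) (θ : ℝ) {w : Eu d} (ha : (⟪w, q.a⟫ : ℝ) = 0)
    (hb : (⟪w, q.b⟫ : ℝ) = 0) (x : Eu d) : (⟪w, act (rot q θ) x⟫ : ℝ) = ⟪w, x⟫ := by
  rw [act_rot]
  simp only [inner_add_right, real_inner_smul_right, ha, hb]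
  ring

/-- first case: the edge is not orthogonal to the fixed face -/
lemma caseA (hd : 4 ≤ d) (q : ON2 d) {π κ : Eu d} (hb : (⟪q.b, κ - π⟫ : ℝ) = 0)
    (ha : (⟪q.a, κ - π⟫ : ℝ) ≠ 0) (hπ : (⟪q.b, π⟫ : ℝ) ≠ 0)
    (hw : κ - π - (⟪q.a, κ - π⟫ : ℝ) • q.a ≠ 0) {θ θ' : ℝ} (h0 : θ' - θ ≠ 0)
    (h1 : |θ' - θ| < 1) :
    D4 (act (rot q θ) π) (act (rot q θ) κ) (act (rot q θ') π) (act (rot q θ') κ) := by
  apply D4_of hd
  intro hmem
  rw [Submodule.mem_span_pair] at hmem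
  obtain ⟨α, β, hαβ⟩ := hmem
  set w := κ - π - (⟪q.a, κ - π⟫ : ℝ) • q.a with hwdef
  have hwa : (⟪w, q.a⟫ : ℝ) = 0 := by
    rw [hwdef, inner_sub_left, real_inner_smul_left, q.aa, real_inner_comm]
    ring
  have hwb : (⟪w, q.b⟫ : ℝ) = 0 := by
    rw [hwdef, inner_sub_left, real_inner_smul_left, q.hab, real_inner_comm, hb]
    ring
  have hww : (⟪w, κ - π⟫ : ℝ) = ‖w‖ ^ 2 := by
    have : κ - π = w + (⟪q.a, κ - π⟫ : ℝ) • q.a := by rw [hwdef]; abel
    rw [this, inner_add_right, real_inner_smul_right, hwa, real_inner_self_eq_norm_sq]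
    ring
  have hwn : 0 < ‖w‖ ^ 2 := by
    have := norm_pos_iff.2 hw
    positivity
  have e0 := congrArg (fun v => (⟪w, v⟫ : ℝ)) hαβ
  have e1 := congrArg (fun v => (⟪q.a, v⟫ : ℝ)) hαβ
  have e2 := congrArg (fun v => (⟪q.b, v⟫ : ℝ)) hαβ
  simp only [inner_add_right, real_inner_smul_right, inner_sub_right, inner_perp_rot q _ hwa hwb,
    inner_a_rot, inner_b_rot] at e0 e1 e2
  rw [inner_sub_right] at hww hb ha
  set πa := (⟪q.a, π⟫ : ℝ)
  set πb := (⟪q.b, π⟫ : ℝ)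
  set κa := (⟪q.a, κ⟫ : ℝ)
  set κb := (⟪q.b, κ⟫ : ℝ)
  have hκb : κb = πb := by linarith
  have hβ : β = 1 := by
    have : (1 - β) * ‖w‖ ^ 2 = 0 := by rw [← hww]; linarith
    rcases mul_eq_zero.1 this with h | h
    · linarith
    · exact absurd h hwn.ne'
  have hcirc := circ_ne h0 h1
  set C := Real.cos θ' - Real.cos θ with hC
  set S := Real.sin θ' - Real.sin θ with hS
  rw [hβ, hκb] at e1 e2
  have f1 : (α + 1) * (C * πa - S * πb) + C * (κa - πa) = 0 := by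
    rw [hC, hS]; linarith
  have f2 : (α + 1) * (S * πa + C * πb) + S * (κa - πa) = 0 := by
    rw [hC, hS]; linarith
  have f3 : (α + 1) * πb * (C ^ 2 + S ^ 2) = 0 := by linear_combination C * f2 - S * f1
  have hα : α + 1 = 0 := by
    rcases mul_eq_zero.1 f3 with h | h
    · rcases mul_eq_zero.1 h with h | h
      · exact h
      · exact absurd h hπ
    · exact absurd h hcirc.ne'
  rw [hα, zero_mul, zero_add] at f1 f2
  have hC0 : C = 0 := by
    rcases mul_eq_zero.1 f1 with h | h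
    · exact h
    · exact absurd h ha
  have hS0 : S = 0 := by
    rcases mul_eq_zero.1 f2 with h | h
    · exact h
    · exact absurd h ha
  rw [hC0, hS0] at hcirc
  norm_num at hcirc

/-- second case: the edge lies in the rotation plane -/
lemma caseB (hd : 4 ≤ d) (q q2 : ON2 d) (hq2 : q2.a = q.b) (hq2b : (⟪q2.b, q.a⟫ : ℝ) = 0)
    {π κ : Eu d} {t : ℝ} (ht : t ≠ 0) (hκ : κ = π + t • q.a) (hπ : (⟪q.b, π⟫ : ℝ) ≠ 0)
    {ζ ζ' φ φ' : ℝ} (h1 : Real.sin ζ ≠ 0) (h2 : Real.sin (φ - φ') ≠ 0)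
    (h3 : Real.sin ζ * (1 - Real.cos ζ') - Real.sin ζ' * (1 - Real.cos ζ) ≠ 0) :
    D4 (act (rot q2 φ) (act (rot q ζ) π - π)) (act (rot q2 φ) (act (rot q ζ) κ - π))
      (act (rot q2 φ') (act (rot q ζ') π - π)) (act (rot q2 φ') (act (rot q ζ') κ - π)) := by
  apply D4_of hd
  intro hmem
  rw [Submodule.mem_span_pair] at hmem
  obtain ⟨α, β, hαβ⟩ := hmem
  have ha2a : (⟪q.a, q2.a⟫ : ℝ) = 0 := by rw [hq2]; exact q.hab
  have ha2b : (⟪q.a, q2.b⟫ : ℝ) = 0 := by rw [real_inner_comm]; exact hq2b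
  have hna : (⟪q2.b, q.a⟫ : ℝ) = 0 := hq2b
  have hnb : (⟪q2.b, q.b⟫ : ℝ) = 0 := by
    rw [← hq2, real_inner_comm]; exact q2.hab
  have hbr : ∀ (φ : ℝ) (x : Eu d), (⟪q.b, act (rot q2 φ) x⟫ : ℝ) =
      Real.cos φ * ⟪q.b, x⟫ - Real.sin φ * ⟪q2.b, x⟫ := by
    intro φ x
    have := inner_a_rot q2 φ x
    rw [hq2] at this
    exact this
  have hnr : ∀ (φ : ℝ) (x : Eu d), (⟪q2.b, act (rot q2 φ) x⟫ : ℝ) =
      Real.sin φ * ⟪q.b, x⟫ + Real.cos φ * ⟪q2.b, x⟫ := by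
    intro φ x
    have := inner_b_rot q2 φ x
    rw [hq2] at this
    exact this
  have e1 := congrArg (fun v => (⟪q.a, v⟫ : ℝ)) hαβ
  have e2 := congrArg (fun v => (⟪q.b, v⟫ : ℝ)) hαβ
  have e3 := congrArg (fun v => (⟪q2.b, v⟫ : ℝ)) hαβ
  simp only [inner_add_right, real_inner_smul_right, inner_sub_right,
    inner_perp_rot q2 _ ha2a ha2b, hbr, hnr,
    inner_perp_rot q _ hna hnb, inner_a_rot q, inner_b_rot q, hκ, q.aa, q.ba, hna,
    act_add, act_smul] at e1 e2 e3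
  set πa := (⟪q.a, π⟫ : ℝ)
  set πb := (⟪q.b, π⟫ : ℝ)
  set πn := (⟪q2.b, π⟫ : ℝ)
  set c := Real.cos ζ
  set s := Real.sin ζ
  set c' := Real.cos ζ'
  set s' := Real.sin ζ'
  have hcs : s ^ 2 + c ^ 2 = 1 := Real.sin_sq_add_cos_sq ζ
  have hcs' : s' ^ 2 + c' ^ 2 = 1 := Real.sin_sq_add_cos_sq ζ'
  have hφ : Real.sin φ ^ 2 + Real.cos φ ^ 2 = 1 := Real.sin_sq_add_cos_sq φ
  rw [Real.sin_sub] at h2
  -- coordinates
  obtain ⟨x0, hx0⟩ : ∃ x0 : ℝ, x0 = c * πa - s * πb - πa := ⟨_, rfl⟩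
  obtain ⟨y0, hy0⟩ : ∃ y0 : ℝ, y0 = s * πa + c * πb - πb := ⟨_, rfl⟩
  obtain ⟨x2, hx2⟩ : ∃ x2 : ℝ, x2 = c' * πa - s' * πb - πa := ⟨_, rfl⟩
  obtain ⟨y2, hy2⟩ : ∃ y2 : ℝ, y2 = s' * πa + c' * πb - πb := ⟨_, rfl⟩
  have g1 : t * c = α * (x2 - x0) + β * (x2 + t * c' - x0) := by
    rw [hx0, hx2]; linarith
  have g2 : t * s * Real.cos φ = α * (y2 * Real.cos φ' - y0 * Real.cos φ) +
      β * ((y2 + t * s') * Real.cos φ' - y0 * Real.cos φ) := by
    rw [hy0, hy2]; linarith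
  have g3 : t * s * Real.sin φ = α * (y2 * Real.sin φ' - y0 * Real.sin φ) +
      β * ((y2 + t * s') * Real.sin φ' - y0 * Real.sin φ) := by
    rw [hy0, hy2]; linarith
  have k1 : (α * y2 + β * (y2 + t * s')) *
      (Real.sin φ * Real.cos φ' - Real.cos φ * Real.sin φ') = 0 := by
    linear_combination Real.cos φ * g3 - Real.sin φ * g2
  have k2 : α * y2 + β * (y2 + t * s') = 0 := by
    rcases mul_eq_zero.1 k1 with h | h
    · exact h
    · exact absurd h h2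
  have k3 : t * s = -(α + β) * y0 := by
    have : t * s * (Real.sin φ ^ 2 + Real.cos φ ^ 2) = -(α + β) * y0 *
        (Real.sin φ ^ 2 + Real.cos φ ^ 2) + (α * y2 + β * (y2 + t * s')) *
        (Real.cos φ * Real.cos φ' + Real.sin φ * Real.sin φ') := by
      linear_combination Real.cos φ * g2 + Real.sin φ * g3
    rw [hφ, k2] at this
    linarith
  have hσ : α + β ≠ 0 := by
    intro h
    rw [h] at k3
    have : t * s = 0 := by linarith
    rcases mul_eq_zero.1 this with h | h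
    · exact ht h
    · exact h1 h
  have k4 : (α + β) * (s * (s' * x0 - s' * x2 + c' * y2) - y0 * c * s') = 0 := by
    linear_combination s * s' * g1 - c * s' * k3 + s * c' * k2
  have k5 : s * (s' * x0 - s' * x2 + c' * y2) - y0 * c * s' = 0 := by
    rcases mul_eq_zero.1 k4 with h | h
    · exact absurd h hσ
    · exact h
  have k6 : πb * (s * (1 - c') - s' * (1 - c)) = 0 := by
    rw [hx0, hy0, hx2, hy2] at k5
    linear_combination k5 - s * πb * hcs' + s' * πb * hcs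
  rcases mul_eq_zero.1 k6 with h | h
  · exact hπ h
  · exact h3 h

end Run7.h764.S
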