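import Pool.Agent.Run7.h764.SX
set_option autoImplicit false

/-! Decay of the two-point form against functions with mean zero on small cells. -/

namespace Run7.h764.S

open MeasureTheory Metric Set
open scoped ENNReal RealInnerProductSpace

variable {d : ℕ}

/-- mean zero on the cells of side `a` -/
def MZ (a : ℝ) (h : Eu d → ℝ) : Prop := ∀ x, EA a h x = 0

/-- law of the difference -/
noncomputable def nu (u : Eu d) : Measure (Eu d) :=
  ((hm d).prod (hm d)).map (fun q => act q.2 u - act q.1 u)

instance (u : Eu d) : IsProbabilityMeasure (nu u) :=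
  Measure.isProbabilityMeasure_map (continuous_diff u).measurable.aemeasurable

lemma nu_ac (hd : 2 ≤ d) {u : Eu d} (hu : u ≠ 0) : nu u ≪ (volume : Measure (Eu d)) := by
  refine Measure.AbsolutelyContinuous.mk fun N hNm hN => ?_
  unfold nu
  rw [Measure.map_apply (continuous_diff u).measurable hNm]
  exact law_ac hd hu hNm hN

lemma EA_sub_const {a : ℝ} (ha : 0 < a) {κ : Eu d → ℝ} (hκ : Measurable κ) {C : ℝ}
    (hC : ∀ y, |κ y| ≤ C) (c : ℝ) (x : Eu d) : EA a (fun y => κ y - c) x = EA a κ x - c := by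
  unfold EA
  have i1 : Integrable (fun y => chi a x y * κ y) := by
    have h := (chi_integrable ha x).bdd_mul (c := C) hκ.aestronglyMeasurable
      (Filter.Eventually.of_forall fun y => by rw [Real.norm_eq_abs]; exact hC y)
    refine h.congr (Filter.Eventually.of_forall fun y => ?_)
    simp only
    ring
  have h1 : ∀ y, chi a x y * (κ y - c) = chi a x y * κ y - chi a x y * c := fun y => by ring
  simp only [h1]
  rw [integral_sub i1 ((chi_integrable ha x).mul_const c), integral_mul_const, chi_int ha]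
  have hpos : 0 < a ^ d := by positivity
  field_simp

/-- integral of a mean zero function against a continuous compactly supported kernel -/
lemma kernel_decay {k : Eu d → ℝ} (hk : Continuous k) (hkc : HasCompactSupport k)
    {η : ℝ} (hη : 0 < η) : ∃ ε : ℝ, 0 < ε ∧ ∀ l : ℝ, 0 < l → ∀ a : ℝ, 0 < a → a ≤ ε * l →
      ∀ h : Eu d → ℝ, Adm h → MZ a h → ∀ x, |∫ y, k y * h (x + l • y)| ≤ η := by
  obtain ⟨R, hR0, hR⟩ : ∃ R : ℝ, 0 < R ∧ ∀ y, R < ‖y‖ → k y = 0 := by
    obtain ⟨R, hR⟩ := hkc.isCompact.isBounded.subset_closedBall (0 : Eu d)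
    refine ⟨max R 1, lt_max_of_lt_right one_pos, fun y hy => ?_⟩
    by_contra hne
    have : y ∈ tsupport k := subset_tsupport k hne
    have := hR this
    rw [mem_closedBall_zero_iff] at this
    have := (le_max_left R 1)
    linarith
  set Bv : ℝ := (volume : Measure (Eu d)).real (ball 0 1) with hBv
  have hBv0 : 0 ≤ Bv := measureReal_nonneg
  set ω : ℝ := η / ((R + 1) ^ d * Bv + 1) with hω
  have hω0 : 0 < ω := by positivity
  have huc : UniformContinuous k := hkc.uniformContinuous_of_continuous hk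
  obtain ⟨δ, hδ, hδk⟩ := Metric.uniformContinuous_iff.1 huc ω hω0
  set ε : ℝ := min (δ / (2 * (d + 1))) (1 / (d + 1)) with hε
  have hε0 : 0 < ε := by positivity
  obtain ⟨C, hC⟩ : ∃ C : ℝ, ∀ y, |k y| ≤ C := by
    obtain ⟨C, hC⟩ := hk.bounded_above_of_compact_support hkc
    exact ⟨C, fun y => by rw [← Real.norm_eq_abs]; exact hC y⟩
  refine ⟨ε, hε0, fun l hl a ha hal h hh hMZ x => ?_⟩
  set κ : Eu d → ℝ := fun z => k (l⁻¹ • (z - x)) with hκ
  have hκc : Continuous κ := hk.comp (by fun_prop)
  have hκm : Measurable κ := hκc.measurable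
  have hκi : Integrable κ := by
    have h1 : Integrable k := hk.integrable_of_hasCompactSupport hkc
    have h2 := (h1.comp_smul (R := l⁻¹) (inv_ne_zero hl.ne')).comp_sub_right x
    exact h2
  have hEi : Integrable (EA a κ) := EA_integrable ha hκm hκi
  -- change of variables
  have hcv : ∫ y, k y * h (x + l • y) = (l ^ d)⁻¹ * ∫ z, κ z * h z := by
    have h1 : ∀ y, k y * h (x + l • y) = (fun z => κ (x + z) * h (x + z)) (l • y) := by
      intro y
      simp only [hκ]
      congr 2
      rw [add_sub_cancel_left, inv_smul_smul₀ hl.ne']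
    simp only [h1]
    rw [Measure.integral_comp_smul volume (fun z => κ (x + z) * h (x + z)) l]
    rw [finrank_euclideanSpace_fin, abs_of_pos (by positivity), smul_eq_mul]
    rw [integral_add_left_eq_self (fun z => κ z * h z) x]
  rw [hcv]
  -- subtract the cell average
  have h0 : ∫ z, EA a κ z * h z = 0 := by
    rw [EA_adj ha hκm hκi hh.meas hh.bd]
    have : ∀ z, κ z * EA a h z = 0 := fun z => by rw [hMZ z, mul_zero]
    simp only [this, integral_zero]
  have i1 : Integrable (fun z => κ z * h z) := by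
    have := hκi.bdd_mul (c := 1) hh.meas.aestronglyMeasurable
      (Filter.Eventually.of_forall fun y => by rw [Real.norm_eq_abs]; exact hh.bd y)
    exact this.congr (Filter.Eventually.of_forall fun y => by simp only; ring)
  have i2 : Integrable (fun z => EA a κ z * h z) := by
    have := hEi.bdd_mul (c := 1) hh.meas.aestronglyMeasurable
      (Filter.Eventually.of_forall fun y => by rw [Real.norm_eq_abs]; exact hh.bd y)
    exact this.congr (Filter.Eventually.of_forall fun y => by simp only; ring)
  have h3 : ∫ z, κ z * h z = ∫ z, (κ z * h z - EA a κ z * h z) := by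
    rw [integral_sub i1 i2, h0, sub_zero]
  have hpt : ∀ z, ‖κ z * h z - EA a κ z * h z‖ ≤
      (ball x (l * (R + 1))).indicator (fun _ => ω) z := by
    intro z
    have hosc : ∀ c : ℝ, 0 ≤ c → (∀ y, cell a z = cell a y → |κ y - κ z| ≤ c) →
        |EA a κ z - κ z| ≤ c := by
      intro c hc hy
      rw [← EA_sub_const ha hκm (C := C) (fun y => hC _) (κ z) z]
      exact EA_abs_le ha z hy
    have hcell : ∀ y, cell a z = cell a y → ‖l⁻¹ • (y - x) - l⁻¹ • (z - x)‖ ≤ d * ε := by
      intro y hy
      rw [← smul_sub, sub_sub_sub_cancel_right, norm_smul, norm_inv, Real.norm_eq_abs,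
        abs_of_pos hl]
      have h5 := cell_dist ha hy.symm
      calc l⁻¹ * ‖y - z‖ ≤ l⁻¹ * (d * (ε * l)) := by gcongr; exact h5.trans (by gcongr)
        _ = d * ε := by field_simp
    have hdε : (d:ℝ) * ε < δ := by
      have h6 : ε ≤ δ / (2 * (d + 1)) := min_le_left _ _
      have h7 : (0:ℝ) < d + 1 := by positivity
      calc (d:ℝ) * ε ≤ (d + 1) * (δ / (2 * (d + 1))) := by gcongr; linarith
        _ = δ / 2 := by field_simp
        _ < δ := by linarith
    have hdε1 : (d:ℝ) * ε < 1 + 0 := by
      have h6 : ε ≤ 1 / (d + 1) := min_le_right _ _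
      have h7 : (0:ℝ) < d + 1 := by positivity
      rcases Nat.eq_zero_or_pos d with hd0 | hd0
      · subst hd0; simp
      calc (d:ℝ) * ε < (d + 1) * ε := by nlinarith
        _ ≤ (d + 1) * (1 / (d + 1)) := by gcongr
        _ = 1 + 0 := by field_simp; ring
    have hw : |EA a κ z - κ z| ≤ ω := by
      apply hosc ω hω0.le
      intro y hy
      have h8 : dist (l⁻¹ • (y - x)) (l⁻¹ • (z - x)) < δ := by
        rw [dist_eq_norm]
        exact (hcell y hy).trans_lt hdε
      have h9 := hδk h8
      rw [Real.dist_eq] at h9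
      exact h9.le
    have hn : ‖κ z * h z - EA a κ z * h z‖ = |EA a κ z - κ z| * |h z| := by
      rw [← sub_mul, norm_mul, Real.norm_eq_abs, Real.norm_eq_abs, abs_sub_comm]
    rw [hn]
    by_cases hz : z ∈ ball x (l * (R + 1))
    · rw [indicator_of_mem hz]
      calc |EA a κ z - κ z| * |h z| ≤ ω * 1 := by
            gcongr
            exact hh.bd z
        _ = ω := mul_one _
    · rw [indicator_of_notMem hz]
      have hfar : l * (R + 1) ≤ ‖z - x‖ := by
        rw [mem_ball, dist_eq_norm, not_lt] at hz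
        exact hz
      have hz1 : R + 1 ≤ ‖l⁻¹ • (z - x)‖ := by
        rw [norm_smul, norm_inv, Real.norm_eq_abs, abs_of_pos hl, le_inv_mul_iff₀ hl]
        exact hfar
      have hκz : κ z = 0 := hR _ (by linarith)
      have hκy : ∀ y, cell a z = cell a y → |κ y - κ z| ≤ 0 := by
        intro y hy
        have h10 := hcell y hy
        have h11 : ‖l⁻¹ • (z - x)‖ ≤ ‖l⁻¹ • (y - x)‖ + ‖l⁻¹ • (y - x) - l⁻¹ • (z - x)‖ := by
          have := norm_sub_le (l⁻¹ • (y - x)) (l⁻¹ • (y - x) - l⁻¹ • (z - x))
          rwa [sub_sub_cancel] at this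
        have h12 : κ y = 0 := hR _ (by linarith)
        rw [h12, hκz]
        simp
      have h13 := hosc 0 le_rfl hκy
      have h14 : |EA a κ z - κ z| = 0 := le_antisymm h13 (abs_nonneg _)
      rw [h14, zero_mul]
  have hbound : |∫ z, κ z * h z| ≤ ω * ((l * (R + 1)) ^ d * Bv) := by
    rw [h3, ← Real.norm_eq_abs]
    have hlr : 0 < l * (R + 1) := by positivity
    have hvol : (volume : Measure (Eu d)).real (ball x (l * (R + 1))) =
        (l * (R + 1)) ^ d * Bv := by
      rw [hBv, Measure.real, Measure.real, Measure.addHaar_ball_of_pos volume x hlr,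
        finrank_euclideanSpace_fin, ENNReal.toReal_mul, ENNReal.toReal_ofReal (by positivity)]
    calc ‖∫ z, (κ z * h z - EA a κ z * h z)‖
        ≤ ∫ z, (ball x (l * (R + 1))).indicator (fun _ => ω) z := by
          refine norm_integral_le_of_norm_le ?_ (Filter.Eventually.of_forall hpt)
          rw [integrable_indicator_iff measurableSet_ball]
          exact integrableOn_const measure_ball_lt_top.ne (by simp)
      _ = (volume : Measure (Eu d)).real (ball x (l * (R + 1))) * ω := by
          rw [integral_indicator_const _ measurableSet_ball, smul_eq_mul]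
      _ = ω * ((l * (R + 1)) ^ d * Bv) := by rw [hvol]; ring
  rw [abs_mul, abs_of_pos (by positivity : (0:ℝ) < (l ^ d)⁻¹)]
  calc (l ^ d)⁻¹ * |∫ z, κ z * h z| ≤ (l ^ d)⁻¹ * (ω * ((l * (R + 1)) ^ d * Bv)) := by gcongr
    _ = ω * ((R + 1) ^ d * Bv) := by
        rw [mul_pow]
        field_simp
    _ ≤ η := by
        rw [hω, div_mul_eq_mul_div, div_le_iff₀ (by positivity)]
        have : 0 ≤ (R + 1) ^ d * Bv := by positivity
        nlinarith

/-- the average of `h` over the law of the difference is small -/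
lemma nu_decay (hd : 2 ≤ d) {u : Eu d} (hu : u ≠ 0) {η : ℝ} (hη : 0 < η) :
    ∃ ε : ℝ, 0 < ε ∧ ∀ l : ℝ, 0 < l → ∀ a : ℝ, 0 < a → a ≤ ε * l →
      ∀ h : Eu d → ℝ, Adm h → MZ a h → ∀ x, |∫ y, h (x + l • y) ∂(nu u)| ≤ η := by
  set ρ : Eu d → ℝ := fun y => ((nu u).rnDeriv volume y).toReal with hρ
  have hρi : Integrable ρ := Measure.integrable_toReal_rnDeriv
  obtain ⟨k, hkc, hk1, hk2, hk3⟩ := hρi.exists_hasCompactSupport_integral_sub_le
    (by positivity : 0 < η / 2)
  obtain ⟨ε, hε, hdec⟩ := kernel_decay hk2 hkc (by positivity : 0 < η / 2)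
  refine ⟨ε, hε, fun l hl a ha hal h hh hMZ x => ?_⟩
  have h1 := hdec l hl a ha hal h hh hMZ x
  have h2 : ∫ y, h (x + l • y) ∂(nu u) = ∫ y, ρ y * h (x + l • y) := by
    rw [← integral_rnDeriv_smul (nu_ac hd hu)]
    rfl
  have hhm : Measurable (fun y : Eu d => h (x + l • y)) :=
    hh.meas.comp (by fun_prop : Continuous fun y : Eu d => x + l • y).measurable
  have hb : ∀ᵐ y : Eu d, ‖h (x + l • y)‖ ≤ 1 :=
    Filter.Eventually.of_forall fun y => by rw [Real.norm_eq_abs]; exact hh.bd _
  have i1 : Integrable (fun y => ρ y * h (x + l • y)) :=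
    (hρi.bdd_mul (c := 1) hhm.aestronglyMeasurable hb).congr
      (Filter.Eventually.of_forall fun y => by simp only; ring)
  have i2 : Integrable (fun y => k y * h (x + l • y)) :=
    (hk3.bdd_mul (c := 1) hhm.aestronglyMeasurable hb).congr
      (Filter.Eventually.of_forall fun y => by simp only; ring)
  have h3 : ∫ y, ρ y * h (x + l • y) = (∫ y, (ρ y * h (x + l • y) - k y * h (x + l • y))) +
      ∫ y, k y * h (x + l • y) := by
    rw [integral_sub i1 i2]
    ring
  have h4 : |∫ y, (ρ y * h (x + l • y) - k y * h (x + l • y))| ≤ η / 2 := by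
    refine le_trans ?_ hk1
    rw [← Real.norm_eq_abs]
    refine norm_integral_le_of_norm_le (hρi.sub hk3).norm (Filter.Eventually.of_forall fun y => ?_)
    rw [← sub_mul, norm_mul]
    have h5 : ‖h (x + l • y)‖ ≤ 1 := by rw [Real.norm_eq_abs]; exact hh.bd _
    calc ‖ρ y - k y‖ * ‖h (x + l • y)‖ ≤ ‖ρ y - k y‖ * 1 := by gcongr
      _ = ‖(ρ - k) y‖ := by rw [mul_one]; rfl
  rw [h2, h3]
  calc |(∫ y, (ρ y * h (x + l • y) - k y * h (x + l • y))) + ∫ y, k y * h (x + l • y)| ≤
        |∫ y, (ρ y * h (x + l • y) - k y * h (x + l • y))| + |∫ y, k y * h (x + l • y)| :=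
        abs_add_le _ _
    _ ≤ η / 2 + η / 2 := add_le_add h4 h1
    _ = η := by ring

/-- shear on pairs of rotations -/
lemma shear2_mp {l : ℝ} {g : OG d × OG d → Eu d} (hg : Continuous g) :
    MeasurePreserving (fun p : (OG d × OG d) × Eu d => (p.1, p.2 + l • g p.1))
      (((hm d).prod (hm d)).prod volume) (((hm d).prod (hm d)).prod volume) := by
  refine MeasurePreserving.skew_product (f := id) (g := fun U x => x + l • g U)
    (MeasurePreserving.id _) ?_ ?_
  · have h : Continuous (fun p : (OG d × OG d) × Eu d => g p.1) := hg.comp continuous_fst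
    exact (continuous_snd.add (h.const_smul l)).measurable
  · exact Filter.Eventually.of_forall fun U => map_add_right_eq_self volume _

lemma ev2_mp {l : ℝ} {g : OG d × OG d → Eu d} (hg : Continuous g) :
    MeasurePreserving (fun p : (OG d × OG d) × Eu d => p.2 + l • g p.1)
      (((hm d).prod (hm d)).prod volume) volume := by
  have h1 : MeasurePreserving (Prod.snd : (OG d × OG d) × Eu d → Eu d)
      (((hm d).prod (hm d)).prod volume) volume := measurePreserving_snd
  exact h1.comp (shear2_mp (l := l) hg)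

/-- the two-point form is small -/
theorem two_point (hd : 2 ≤ d) {u : Eu d} (hu : u ≠ 0) {η : ℝ} (hη : 0 < η) :
    ∃ ε : ℝ, 0 < ε ∧ ∀ l : ℝ, 0 < l → ∀ a : ℝ, 0 < a → a ≤ ε * l → ∀ V : ℝ,
      ∀ h : Eu d → ℝ, Adm h → MZ a h → ∫ x, |h x| ≤ V →
        |∫ p, h p.2 * h (ev l u p) ∂(PX d)| ≤ η * V := by
  obtain ⟨ε, hε, hdec⟩ := nu_decay hd hu (by positivity : 0 < η ^ 2)
  refine ⟨ε, hε, fun l hl a ha hal V h hh hMZ hV => ?_⟩
  have hX : AdmX (PX d) (fun p => h (ev l u p)) := hh.toX.comp (ev_mp l u)
  have hX0 : AdmX (PX d) (fun p => h p.2) := by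
    have := hh.toX.comp (ev_mp l (0 : Eu d))
    simpa only [ev_zero] using this
  set G1 : Eu d → ℝ := fun x => ∫ U, h (x + l • act U u) ∂(hm d) with hG1
  have hG1a : AdmX volume G1 := by
    refine ⟨?_, fun x => ?_, ?_⟩
    · have := (hX.meas.stronglyMeasurable).integral_prod_left' (μ := hm d)
      exact this.measurable
    · rw [← Real.norm_eq_abs]
      have := norm_integral_le_of_norm_le_const (μ := hm d) (f := fun U => h (x + l • act U u))
        (C := 1) (Filter.Eventually.of_forall fun U => by rw [Real.norm_eq_abs]; exact hh.bd _)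
      simpa using this
    · exact hX.int.integral_prod_right
  have h1 : ∫ p, h p.2 * h (ev l u p) ∂(PX d) = ∫ x, h x * G1 x := by
    have := integral_prod_symm (fun p : OG d × Eu d => h p.2 * h (ev l u p))
      ((hX0.mul hX).int)
    rw [PX, this]
    congr 1
    ext x
    rw [hG1]
    simp only [ev]
    rw [integral_const_mul]
  rw [h1]
  apply csV hh.toX hG1a hη hV
  -- the square
  set P2 : Measure ((OG d × OG d) × Eu d) := ((hm d).prod (hm d)).prod volume with hP2
  have c1 : Continuous (fun q : OG d × OG d => act q.1 u) :=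
    (continuous_act_left u).comp continuous_fst
  have c2 : Continuous (fun q : OG d × OG d => act q.2 u) :=
    (continuous_act_left u).comp continuous_snd
  have a1 : AdmX P2 (fun p => h (p.2 + l • act p.1.1 u)) := hh.toX.comp (ev2_mp c1)
  have a2 : AdmX P2 (fun p => h (p.2 + l • act p.1.2 u)) := hh.toX.comp (ev2_mp c2)
  have a3 : AdmX P2 (fun p => h (p.2 + l • (act p.1.2 u - act p.1.1 u))) :=
    hh.toX.comp (ev2_mp (continuous_diff u))
  have a0 : AdmX P2 (fun p => h p.2) := hh.toX.comp measurePreserving_snd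
  have h2 : ∫ x, G1 x ^ 2 = ∫ p, h (p.2 + l • act p.1.1 u) * h (p.2 + l • act p.1.2 u) ∂P2 := by
    rw [hP2, integral_prod_symm _ (a1.mul a2).int]
    congr 1
    ext x
    rw [hG1]
    simp only
    rw [integral_prod_mul (fun U => h (x + l • act U u)) (fun U => h (x + l • act U u))]
    ring
  have h3 : ∫ p, h (p.2 + l • act p.1.1 u) * h (p.2 + l • act p.1.2 u) ∂P2 =
      ∫ p, h p.2 * h (p.2 + l • (act p.1.2 u - act p.1.1 u)) ∂P2 := by
    have := mp_integral (shear2_mp (l := l) c1) (a0.mul a3).meas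
    rw [← this]
    congr 1
    ext p
    simp only
    congr 2
    rw [smul_sub]
    abel
  have h4 : ∫ p, h p.2 * h (p.2 + l • (act p.1.2 u - act p.1.1 u)) ∂P2 =
      ∫ x, h x * ∫ y, h (x + l • y) ∂(nu u) := by
    rw [hP2, integral_prod_symm _ (a0.mul a3).int]
    congr 1
    ext x
    simp only
    rw [integral_const_mul]
    congr 1
    rw [nu, integral_map (continuous_diff u).measurable.aemeasurable]
    exact (hh.meas.comp (by fun_prop : Continuous fun y : Eu d => x + l • y).measurable
      ).aestronglyMeasurable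
  rw [h2, h3, h4]
  refine (le_abs_self _).trans ?_
  rw [← Real.norm_eq_abs]
  refine (norm_integral_le_of_norm_le (hh.int.abs.const_mul (η ^ 2))
    (Filter.Eventually.of_forall fun x => ?_)).trans ?_
  · rw [norm_mul, Real.norm_eq_abs, Real.norm_eq_abs, mul_comm]
    exact mul_le_mul_of_nonneg_right (hdec l hl a ha hal h hh hMZ x) (abs_nonneg _)
  · rw [integral_const_mul]
    exact mul_le_mul_of_nonneg_left hV (by positivity)

end Run7.h764.S
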