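import Pool.Agent.Run7.h764.SGrid2
import Pool.Agent.Run7.h764.SLaw
set_option autoImplicit false

/-! The configuration space `OG × E`, admissible functions on it, finite Cauchy-Schwarz. -/

namespace Run7.h764.S

open MeasureTheory Metric Set
open scoped ENNReal RealInnerProductSpace

variable {d : ℕ}

/-- measure on the configuration space -/
noncomputable def PX (d : ℕ) : Measure (OG d × Eu d) := (hm d).prod volume

instance : SFinite (PX d) := by unfold PX; infer_instance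

/-- the shear -/
noncomputable def shear (l : ℝ) (w : Eu d) (p : OG d × Eu d) : OG d × Eu d :=
  (p.1, p.2 + l • act p.1 w)

lemma shear_cont (l : ℝ) (w : Eu d) : Continuous (shear l w) := by
  unfold shear
  have h : Continuous (fun p : OG d × Eu d => act p.1 w) :=
    (continuous_act_left w).comp continuous_fst
  exact continuous_fst.prodMk (continuous_snd.add (h.const_smul l))

lemma shear_mp (l : ℝ) (w : Eu d) : MeasurePreserving (shear l w) (PX d) (PX d) := by
  unfold PX shear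
  refine MeasurePreserving.skew_product (f := id) (g := fun U x => x + l • act U w)
    (MeasurePreserving.id _) ?_ ?_
  · have h : Continuous (fun p : OG d × Eu d => act p.1 w) :=
      (continuous_act_left w).comp continuous_fst
    exact (continuous_snd.add (h.const_smul l)).measurable
  · exact Filter.Eventually.of_forall fun U => map_add_right_eq_self volume _

/-- right translation -/
noncomputable def rtr (R : OG d) (p : OG d × Eu d) : OG d × Eu d := (p.1 * R, p.2)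

lemma rtr_cont (R : OG d) : Continuous (rtr R) := by
  unfold rtr
  fun_prop

lemma rtr_mp (R : OG d) : MeasurePreserving (rtr R) (PX d) (PX d) := by
  unfold PX rtr
  exact (measurePreserving_mul_right (hm d) R).prod (MeasurePreserving.id _)

/-- evaluation point -/
noncomputable def ev (l : ℝ) (w : Eu d) (p : OG d × Eu d) : Eu d := p.2 + l • act p.1 w

lemma ev_cont (l : ℝ) (w : Eu d) : Continuous (ev l w) :=
  continuous_snd.comp (shear_cont l w)

lemma ev_mp (l : ℝ) (w : Eu d) : MeasurePreserving (ev l w) (PX d) volume := by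
  have h1 : MeasurePreserving (Prod.snd : OG d × Eu d → Eu d) (PX d) volume := by
    unfold PX
    exact measurePreserving_snd
  exact h1.comp (shear_mp l w)

lemma ev_shear (l : ℝ) (v w : Eu d) (p : OG d × Eu d) :
    ev l v (shear l w p) = ev l (v + w) p := by
  unfold ev shear
  simp only
  rw [act_add, smul_add]
  abel

lemma ev_rtr (l : ℝ) (v : Eu d) (R : OG d) (p : OG d × Eu d) :
    ev l v (rtr R p) = ev l (act R v) p := by
  unfold ev rtr
  simp only [act_mul]

lemma ev_zero (l : ℝ) (p : OG d × Eu d) : ev l 0 p = p.2 := by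
  unfold ev
  rw [act_zero, smul_zero, add_zero]

lemma mp_integral {α β : Type*} [MeasurableSpace α] [MeasurableSpace β] {μ : Measure α}
    {ν : Measure β} {f : α → β} (hf : MeasurePreserving f μ ν) {g : β → ℝ} (hg : Measurable g) :
    ∫ x, g (f x) ∂μ = ∫ y, g y ∂ν := by
  rw [← hf.map_eq, integral_map hf.measurable.aemeasurable hg.aestronglyMeasurable]

/-- admissible functions on a measure space -/
structure AdmX {α : Type*} [MeasurableSpace α] (μ : Measure α) (F : α → ℝ) : Prop where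
  meas : Measurable F
  bd : ∀ x, |F x| ≤ 1
  int : Integrable F μ

lemma AdmX.comp {α β : Type*} [MeasurableSpace α] [MeasurableSpace β] {μ : Measure α}
    {ν : Measure β} {f : α → β} (hf : MeasurePreserving f μ ν) {g : β → ℝ} (hg : AdmX ν g) :
    AdmX μ (fun x => g (f x)) :=
  ⟨hg.meas.comp hf.measurable, fun _ => hg.bd _, (hf.integrable_comp hg.int.aestronglyMeasurable).2
    hg.int⟩

lemma Adm.toX {f : Eu d → ℝ} (hf : Adm f) : AdmX volume f := ⟨hf.meas, hf.bd, hf.int⟩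

lemma AdmX.mul {α : Type*} [MeasurableSpace α] {μ : Measure α} {F G : α → ℝ} (hF : AdmX μ F)
    (hG : AdmX μ G) : AdmX μ (fun x => F x * G x) :=
  ⟨hF.meas.mul hG.meas, fun x => by
    rw [abs_mul]
    exact mul_le_one₀ (hF.bd x) (abs_nonneg _) (hG.bd x),
   hG.int.bdd_mul (c := 1) hF.meas.aestronglyMeasurable
    (Filter.Eventually.of_forall fun y => by rw [Real.norm_eq_abs]; exact hF.bd y)⟩

lemma AdmX.abs_mul_le {α : Type*} [MeasurableSpace α] {μ : Measure α} {F G : α → ℝ}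
    (hF : AdmX μ F) (hG : AdmX μ G) : ∫ x, |F x * G x| ∂μ ≤ ∫ x, |F x| ∂μ := by
  apply integral_mono (hF.mul hG).int.abs hF.int.abs
  intro x
  simp only
  rw [abs_mul]
  exact mul_le_of_le_one_right (abs_nonneg _) (hG.bd x)

lemma AdmX.abs_mul_le' {α : Type*} [MeasurableSpace α] {μ : Measure α} {F G : α → ℝ}
    (hF : AdmX μ F) (hG : AdmX μ G) : ∫ x, |F x * G x| ∂μ ≤ ∫ x, |G x| ∂μ := by
  have := hG.abs_mul_le hF
  refine le_trans (le_of_eq ?_) this
  congr 1
  ext x
  rw [mul_comm]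

lemma AdmX.sq_le {α : Type*} [MeasurableSpace α] {μ : Measure α} {F : α → ℝ}
    (hF : AdmX μ F) : ∫ x, F x ^ 2 ∂μ ≤ ∫ x, |F x| ∂μ := by
  have h := hF.abs_mul_le hF
  refine le_trans (le_of_eq ?_) h
  congr 1
  ext x
  rw [abs_mul_self]
  ring

lemma abs_integral_le {α : Type*} [MeasurableSpace α] {μ : Measure α} (F : α → ℝ) :
    |∫ x, F x ∂μ| ≤ ∫ x, |F x| ∂μ := by
  have := norm_integral_le_integral_norm (μ := μ) F
  simpa [Real.norm_eq_abs] using this

/-- Cauchy-Schwarz in normalised form -/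
lemma csV {α : Type*} [MeasurableSpace α] {μ : Measure α} {B Ψ : α → ℝ} (hB : AdmX μ B)
    (hΨ : AdmX μ Ψ) {V η : ℝ} (hη : 0 < η) (hV : ∫ x, |B x| ∂μ ≤ V)
    (h : ∫ x, Ψ x ^ 2 ∂μ ≤ η ^ 2 * V) : |∫ x, B x * Ψ x ∂μ| ≤ η * V := by
  have iB : Integrable (fun x => B x ^ 2) μ := by
    have := (hB.mul hB).int
    refine this.congr (Filter.Eventually.of_forall fun x => ?_)
    simp only; ring
  have iΨ : Integrable (fun x => Ψ x ^ 2) μ := by
    have := (hΨ.mul hΨ).int
    refine this.congr (Filter.Eventually.of_forall fun x => ?_)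
    simp only; ring
  have h1 : |∫ x, B x * Ψ x ∂μ| ≤ ∫ x, (η / 2 * B x ^ 2 + 1 / (2 * η) * Ψ x ^ 2) ∂μ := by
    refine (abs_integral_le _).trans ?_
    have i2 : Integrable (fun x => η / 2 * B x ^ 2 + 1 / (2 * η) * Ψ x ^ 2) μ :=
      (iB.const_mul _).add (iΨ.const_mul _)
    apply integral_mono (hB.mul hΨ).int.abs i2
    intro x
    simp only
    rw [abs_mul]
    have h2 : |B x| ^ 2 = B x ^ 2 := sq_abs _
    have h3 : |Ψ x| ^ 2 = Ψ x ^ 2 := sq_abs _
    rw [← h2, ← h3]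
    have h4 : η / 2 * |B x| ^ 2 + 1 / (2 * η) * |Ψ x| ^ 2 - |B x| * |Ψ x| =
        1 / (2 * η) * (η * |B x| - |Ψ x|) ^ 2 := by
      field_simp
      ring
    have h5 : 0 ≤ 1 / (2 * η) * (η * |B x| - |Ψ x|) ^ 2 := by positivity
    linarith
  rw [integral_add (iB.const_mul _) (iΨ.const_mul _), integral_const_mul, integral_const_mul] at h1
  have h6 : ∫ x, B x ^ 2 ∂μ ≤ V := hB.sq_le.trans hV
  calc |∫ x, B x * Ψ x ∂μ| ≤ η / 2 * ∫ x, B x ^ 2 ∂μ + 1 / (2 * η) * ∫ x, Ψ x ^ 2 ∂μ := h1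
    _ ≤ η / 2 * V + 1 / (2 * η) * (η ^ 2 * V) := by gcongr
    _ = η * V := by field_simp; ring

/-- finite average of admissible functions -/
lemma AdmX.avg {α ι : Type*} [MeasurableSpace α] {μ : Measure α} (s : Finset ι)
    (hs : s.Nonempty) {F : ι → α → ℝ} (hF : ∀ i ∈ s, AdmX μ (F i)) :
    AdmX μ (fun x => (s.card : ℝ)⁻¹ * ∑ i ∈ s, F i x) := by
  have hc : (0 : ℝ) < s.card := by exact_mod_cast hs.card_pos
  refine ⟨?_, fun x => ?_, ?_⟩
  · exact (Finset.measurable_sum s fun i hi => (hF i hi).meas).const_mul _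
  · rw [abs_mul, abs_of_pos (inv_pos.2 hc)]
    have : |∑ i ∈ s, F i x| ≤ s.card := by
      calc |∑ i ∈ s, F i x| ≤ ∑ i ∈ s, |F i x| := Finset.abs_sum_le_sum_abs _ _
        _ ≤ ∑ _i ∈ s, (1:ℝ) := Finset.sum_le_sum fun i hi => (hF i hi).bd x
        _ = s.card := by simp
    rw [inv_mul_le_iff₀ hc, mul_one]
    exact this
  · exact (integrable_finsetSum s fun i hi => (hF i hi).int).const_mul _

lemma avg_sq {α ι : Type*} [MeasurableSpace α] {μ : Measure α} (s : Finset ι)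
    {F : ι → α → ℝ} (hF : ∀ i ∈ s, AdmX μ (F i)) :
    ∫ x, ((s.card : ℝ)⁻¹ * ∑ i ∈ s, F i x) ^ 2 ∂μ =
      ((s.card : ℝ)⁻¹) ^ 2 * ∑ i ∈ s, ∑ j ∈ s, ∫ x, F i x * F j x ∂μ := by
  have h1 : ∀ x, ((s.card : ℝ)⁻¹ * ∑ i ∈ s, F i x) ^ 2 =
      ((s.card : ℝ)⁻¹) ^ 2 * ∑ i ∈ s, ∑ j ∈ s, F i x * F j x := by
    intro x
    rw [mul_pow, sq (∑ i ∈ s, F i x), Finset.sum_mul_sum]
  simp only [h1]
  rw [integral_const_mul, integral_finsetSum]
  · congr 1
    refine Finset.sum_congr rfl fun i hi => ?_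
    rw [integral_finsetSum]
    intro j hj
    exact ((hF i hi).mul (hF j hj)).int
  · intro i hi
    exact integrable_finsetSum _ fun j hj => ((hF i hi).mul (hF j hj)).int

/-- averaged Cauchy-Schwarz -/
lemma csAvg {α ι : Type*} [MeasurableSpace α] {μ : Measure α} (s : Finset ι)
    (hs : s.Nonempty) {F : ι → α → ℝ} (hF : ∀ i ∈ s, AdmX μ (F i)) {B : α → ℝ} (hB : AdmX μ B)
    {V η : ℝ} (hη : 0 < η) (hV : ∫ x, |B x| ∂μ ≤ V)
    (h : ∑ i ∈ s, ∑ j ∈ s, ∫ x, F i x * F j x ∂μ ≤ (s.card : ℝ) ^ 2 * (η ^ 2 * V)) :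
    |(s.card : ℝ)⁻¹ * ∑ i ∈ s, ∫ x, B x * F i x ∂μ| ≤ η * V := by
  have hc : (0 : ℝ) < s.card := by exact_mod_cast hs.card_pos
  have h1 : ∫ x, B x * ((s.card : ℝ)⁻¹ * ∑ i ∈ s, F i x) ∂μ =
      (s.card : ℝ)⁻¹ * ∑ i ∈ s, ∫ x, B x * F i x ∂μ := by
    have h2 : ∀ x, B x * ((s.card : ℝ)⁻¹ * ∑ i ∈ s, F i x) =
        (s.card : ℝ)⁻¹ * ∑ i ∈ s, B x * F i x := by
      intro x
      rw [Finset.mul_sum, Finset.mul_sum, Finset.mul_sum]
      exact Finset.sum_congr rfl fun i _ => by ring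
    simp only [h2]
    rw [integral_const_mul, integral_finsetSum]
    intro i hi
    exact (hB.mul (hF i hi)).int
  rw [← h1]
  apply csV hB (AdmX.avg s hs hF) hη hV
  rw [avg_sq s hF]
  rw [inv_pow, inv_mul_le_iff₀ (by positivity)]
  exact h

end Run7.h764.S
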