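import Pool.Agent.Run7.h764.VdC
set_option autoImplicit false

namespace Run7.h764

open MeasureTheory Complex Set
open scoped ENNReal NNReal

/-- the dual function -/
noncomputable def GG (ζ : ℂ) (g h P : ℂ → ℂ) (x : ℂ) : ℂ := ∫ w, g (x + w) * h (x + ζ * w) * P w

lemma GGint_BB (ζ : ℂ) {g h P : ℂ → ℂ} (hg : BB g) (hh : BB h) (hP : BB P) :
    BB (fun q : ℂ × ℂ => g (q.1 + q.2) * h (q.1 + ζ * q.2) * P q.2) := by
  have h1 : BB (fun q : ℂ × ℂ => g (q.1 + q.2) * P q.2) := by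
    refine hg.mul_comp hP (by fun_prop) measurable_snd (fun R => ⟨R + R, fun x h1 h2 => ?_⟩)
    have h3 : ‖x.1‖ ≤ R + R := by
      calc ‖x.1‖ = ‖(x.1 + x.2) - x.2‖ := by rw [add_sub_cancel_right]
        _ ≤ _ := (norm_sub_le _ _).trans (add_le_add h1 h2)
    have h4 : ‖x.2‖ ≤ R + R := by
      have := norm_nonneg (x.1 + x.2)
      linarith
    exact norm_prod_le_iff.2 ⟨h3, h4⟩
  have h2 := h1.mul_bdd (g := fun q : ℂ × ℂ => h (q.1 + ζ * q.2))
    (hh.meas.comp (by fun_prop)) (by obtain ⟨C, hC⟩ := hh.bdd; exact ⟨C, fun x => hC _⟩)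
  have e : (fun q : ℂ × ℂ => g (q.1 + q.2) * h (q.1 + ζ * q.2) * P q.2) =
      fun q : ℂ × ℂ => g (q.1 + q.2) * P q.2 * h (q.1 + ζ * q.2) := by
    funext q
    ring
  rw [e]
  exact h2

lemma GG_BB (ζ : ℂ) {g h P : ℂ → ℂ} (hg : BB g) (hh : BB h) (hP : BB P) : BB (GG ζ g h P) :=
  (GGint_BB ζ hg hh hP).integral_right volume

lemma GG_add (ζ : ℂ) {g h P Q : ℂ → ℂ} (hg : BB g) (hh : BB h) (hP : BB P) (hQ : BB Q) (x : ℂ) :
    GG ζ g h (fun w => P w + Q w) x = GG ζ g h P x + GG ζ g h Q x := by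
  unfold GG
  rw [← integral_add (((GGint_BB ζ hg hh hP).slice_left x).integrable volume)
    (((GGint_BB ζ hg hh hQ).slice_left x).integrable volume)]
  refine integral_congr_ae (Filter.Eventually.of_forall fun w => ?_)
  simp only
  ring

lemma TT_eq_GG (ζ : ℂ) {f g h F : ℂ → ℂ} (hf : BB f) (hg : BB g) (hh : BB h) (hF : BB F) :
    TT ζ f g h F = ∫ x, f x * GG ζ g h F x := by
  have hΦ : BB (fun p : ℂ × ℂ => f (p.1 - p.2) * (g p.1 * h (p.1 + (ζ - 1) * p.2) * F p.2)) := by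
    have h1 : BB (fun q : ℂ × ℂ => g q.1 * F q.2) := by
      refine hg.mul_comp hF measurable_fst measurable_snd (fun R => ⟨R, fun x h1 h2 => ?_⟩)
      exact norm_prod_le_iff.2 ⟨h1, h2⟩
    have h2 := h1.mul_bdd (g := fun p : ℂ × ℂ => h (p.1 + (ζ - 1) * p.2) * f (p.1 - p.2))
      ((hh.meas.comp (by fun_prop)).mul (hf.meas.comp (by fun_prop))) (by
        obtain ⟨C, hC0, hC⟩ := hh.bdd'
        obtain ⟨B, hB⟩ := hf.bdd
        refine ⟨C * B, fun x => ?_⟩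
        rw [norm_mul]
        exact mul_le_mul (hC _) (hB _) (norm_nonneg _) hC0.le)
    have e : (fun p : ℂ × ℂ => f (p.1 - p.2) * (g p.1 * h (p.1 + (ζ - 1) * p.2) * F p.2)) =
      fun p : ℂ × ℂ => g p.1 * F p.2 * (h (p.1 + (ζ - 1) * p.2) * f (p.1 - p.2)) := by
      funext q
      ring
    rw [e]
    exact h2
  have hΨ : BB (fun p : ℂ × ℂ => f p.1 * (g (p.1 + p.2) * h (p.1 + ζ * p.2) * F p.2)) := by
    exact (GGint_BB ζ hg hh hF).bdd_mul (hf.meas.comp measurable_fst)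
      (by obtain ⟨C, hC⟩ := hf.bdd; exact ⟨C, fun x => hC _⟩)
  have h6 : (volume : Measure (ℂ × ℂ)) = (volume : Measure ℂ).prod volume := rfl
  unfold TT
  rw [h6, integral_prod_symm _ (hΦ.integrable (volume.prod volume))]
  have e1 : ∀ w : ℂ, ∫ y : ℂ, f (y - w) * (g y * h (y + (ζ - 1) * w) * F w) =
      ∫ x : ℂ, f x * (g (x + w) * h (x + ζ * w) * F w) := by
    intro w
    rw [← integral_add_right_eq_self (μ := (volume : Measure ℂ))
      (fun y : ℂ => f (y - w) * (g y * h (y + (ζ - 1) * w) * F w)) w]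
    refine integral_congr_ae (Filter.Eventually.of_forall fun x => ?_)
    simp only
    have e2 : x + w + (ζ - 1) * w = x + ζ * w := by ring
    rw [add_sub_cancel_right, e2]
  simp_rw [e1]
  rw [← integral_integral_swap (f := fun (x w : ℂ) => f x * (g (x + w) * h (x + ζ * w) * F w))
    (hΨ.integrable (volume.prod volume))]
  refine integral_congr_ae (Filter.Eventually.of_forall fun x => ?_)
  simp only [GG]
  rw [← integral_const_mul]

/-- the correlation -/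
noncomputable def Th (ζ : ℂ) (g h : ℂ → ℂ) (q : ℂ × ℂ) : ℂ :=
  ∫ y, g y * h (y + (ζ - 1) * q.1) *
    (starRingEnd ℂ) (g (y + q.2) * h (y + (ζ - 1) * q.1 + ζ * q.2))

lemma Th_meas (ζ : ℂ) {g h : ℂ → ℂ} (hg : Measurable g) (hh : Measurable h) :
    Measurable (Th ζ g h) := by
  have m1 : Measurable (fun r : (ℂ × ℂ) × ℂ => g r.2 * h (r.2 + (ζ - 1) * r.1.1) *
      (starRingEnd ℂ) (g (r.2 + r.1.2) * h (r.2 + (ζ - 1) * r.1.1 + ζ * r.1.2))) := by
    refine Measurable.mul ((hg.comp (by fun_prop)).mul (hh.comp (by fun_prop))) ?_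
    refine Complex.continuous_conj.measurable.comp ?_
    exact (hg.comp (by fun_prop)).mul (hh.comp (by fun_prop))
  exact (m1.stronglyMeasurable.integral_prod_right' (ν := (volume : Measure ℂ))).measurable

lemma enorm_le_one_of {z : ℂ} (h : ‖z‖ ≤ 1) : ‖z‖ₑ ≤ 1 := by
  rw [← ofReal_norm, ← ENNReal.ofReal_one]
  exact ENNReal.ofReal_le_ofReal h

lemma Th_bdd (ζ : ℂ) {g h : ℂ → ℂ} (hg : BB g) (hh1 : ∀ x, ‖h x‖ ≤ 1) (q : ℂ × ℂ) :
    ‖Th ζ g h q‖ₑ ≤ 2 * ∫⁻ x, ‖g x‖ₑ ^ 2 := by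
  unfold Th
  refine (enorm_integral_le_lintegral_enorm _).trans ?_
  have h1 : ∀ y, ‖g y * h (y + (ζ - 1) * q.1) *
    (starRingEnd ℂ) (g (y + q.2) * h (y + (ζ - 1) * q.1 + ζ * q.2))‖ₑ ≤
      ‖g y‖ₑ ^ 2 + ‖g (y + q.2)‖ₑ ^ 2 := by
    intro y
    have k1 : ‖g y * h (y + (ζ - 1) * q.1)‖ₑ ≤ ‖g y‖ₑ := by
      rw [enorm_mul]
      calc _ ≤ ‖g y‖ₑ * 1 := mul_le_mul_right (enorm_le_one_of (hh1 _)) _
        _ = _ := mul_one _
    have k2 : ‖(starRingEnd ℂ) (g (y + q.2) * h (y + (ζ - 1) * q.1 + ζ * q.2))‖ₑ ≤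
        ‖g (y + q.2)‖ₑ := by
      rw [← ofReal_norm, RCLike.norm_conj, ofReal_norm, enorm_mul]
      calc _ ≤ ‖g (y + q.2)‖ₑ * 1 := mul_le_mul_right (enorm_le_one_of (hh1 _)) _
        _ = _ := mul_one _
    rw [enorm_mul]
    exact (mul_le_mul' k1 k2).trans (ennreal_mul_le_sq _ _)
  refine (lintegral_mono h1).trans ?_
  rw [lintegral_add_left (hg.meas.enorm.pow_const 2),
    lintegral_add_right_eq_self (fun y => ‖g y‖ₑ ^ 2) q.2, two_mul]

lemma pair_eq (ζ : ℂ) {g h P Q : ℂ → ℂ} (hg : BB g) (hh : BB h) (hP : BB P) (hQ : BB Q) :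
    ∫ x, GG ζ g h P x * (starRingEnd ℂ) (GG ζ g h Q x) =
      ∫ p : ℂ × ℂ, P p.1 * (starRingEnd ℂ) (Q p.2) * Th ζ g h (p.1, p.2 - p.1) := by
  have e1 : ∀ x, GG ζ g h P x * (starRingEnd ℂ) (GG ζ g h Q x) =
      ∫ p : ℂ × ℂ, (g (x + p.1) * h (x + ζ * p.1) * P p.1) *
        (starRingEnd ℂ) (g (x + p.2) * h (x + ζ * p.2) * Q p.2) := by
    intro x
    unfold GG
    rw [← integral_conj]
    exact (integral_prod_mul (μ := (volume : Measure ℂ)) (ν := (volume : Measure ℂ))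
      (fun w => g (x + w) * h (x + ζ * w) * P w)
      (fun w => (starRingEnd ℂ) (g (x + w) * h (x + ζ * w) * Q w))).symm
  simp_rw [e1]
  have hB2 : BB (fun r : ℂ × (ℂ × ℂ) => (g (r.1 + r.2.1) * h (r.1 + ζ * r.2.1) * P r.2.1) *
      (starRingEnd ℂ) (g (r.1 + r.2.2) * h (r.1 + ζ * r.2.2) * Q r.2.2)) := by
    refine (GGint_BB ζ hg hh hP).mul_comp (GGint_BB ζ hg hh hQ).conj
      (φ := fun r : ℂ × (ℂ × ℂ) => (r.1, r.2.1))
      (ψ := fun r : ℂ × (ℂ × ℂ) => (r.1, r.2.2)) (by fun_prop) (by fun_prop)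
      (fun R => ⟨R, fun x h1 h2 => ?_⟩)
    have h3 := norm_prod_le_iff.1 h1
    have h4 := norm_prod_le_iff.1 h2
    exact norm_prod_le_iff.2 ⟨h3.1, norm_prod_le_iff.2 ⟨h3.2, h4.2⟩⟩
  rw [integral_integral_swap (f := fun (x : ℂ) (p : ℂ × ℂ) =>
      (g (x + p.1) * h (x + ζ * p.1) * P p.1) *
        (starRingEnd ℂ) (g (x + p.2) * h (x + ζ * p.2) * Q p.2))
    (hB2.integrable (volume.prod volume))]
  refine integral_congr_ae (Filter.Eventually.of_forall fun p => ?_)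
  simp only [Th]
  rw [← integral_const_mul, ← integral_add_right_eq_self (μ := (volume : Measure ℂ))
    (fun y : ℂ => P p.1 * (starRingEnd ℂ) (Q p.2) * (g y * h (y + (ζ - 1) * p.1) *
    (starRingEnd ℂ) (g (y + (p.2 - p.1)) * h (y + (ζ - 1) * p.1 + ζ * (p.2 - p.1))))) p.1]
  refine integral_congr_ae (Filter.Eventually.of_forall fun x => ?_)
  simp only [map_mul]
  have e2 : x + p.1 + (ζ - 1) * p.1 = x + ζ * p.1 := by ring
  have e3 : x + ζ * p.1 + ζ * (p.2 - p.1) = x + ζ * p.2 := by ring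
  have e4 : x + p.1 + (p.2 - p.1) = x + p.2 := by ring
  rw [e2, e3, e4]
  ring

lemma main_bound {ζ : ℂ} (hM : ζ - 1 ≠ 0) {g h P : ℂ → ℂ} (hg : BB g) (hh : BB h) (hP : BB P)
    (hg1 : ∀ x, ‖g x‖ ≤ 1) (hh1 : ∀ x, ‖h x‖ ≤ 1) {s : ℝ≥0∞} (hs : s ≠ ∞)
    (hPs : ∀ ξ : ℂ, ‖∫ w, P w * ee (dot w ξ)‖ₑ ≤ s) (v : ℂ) :
    ‖∫ w, P w * Th ζ g h (w, v)‖ₑ ^ 2 ≤
      s ^ 2 * ((∫⁻ x, ‖g x‖ₑ ^ 2) * ∫⁻ x, ‖h x‖ₑ ^ 2) := by
  set D : ℂ → ℂ := fun y => h y * (starRingEnd ℂ) (h (y + ζ * v)) with hD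
  have hDB : BB D := hh.mul_bdd (Complex.continuous_conj.measurable.comp
    (hh.meas.comp (by fun_prop))) ⟨1, fun x => by rw [RCLike.norm_conj]; exact hh1 _⟩
  set G : ℂ → ℂ := fun y => g y * (starRingEnd ℂ) (g (y + v)) with hG
  have hGB : BB G := hg.mul_bdd (Complex.continuous_conj.measurable.comp
    (hg.meas.comp (by fun_prop))) ⟨1, fun x => by rw [RCLike.norm_conj]; exact hg1 _⟩
  have e1 : ∫ w, P w * Th ζ g h (w, v) = ∫ y, G y * ∫ w, D (y + (ζ - 1) * w) * P w := by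
    have hΨ : BB (fun r : ℂ × ℂ => P r.1 * G r.2) := by
      refine hP.mul_comp hGB measurable_fst measurable_snd (fun R => ⟨R, fun x h1 h2 => ?_⟩)
      exact norm_prod_le_iff.2 ⟨h1, h2⟩
    have hΨ2 : BB (fun r : ℂ × ℂ => P r.1 * G r.2 * D (r.2 + (ζ - 1) * r.1)) :=
      hΨ.mul_bdd (hDB.meas.comp (by fun_prop))
        (by obtain ⟨C, hC⟩ := hDB.bdd; exact ⟨C, fun x => hC _⟩)
    have e2 : ∀ w : ℂ, P w * Th ζ g h (w, v) = ∫ y, P w * G y * D (y + (ζ - 1) * w) := by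
      intro w
      simp only [Th]
      rw [← integral_const_mul]
      refine integral_congr_ae (Filter.Eventually.of_forall fun y => ?_)
      simp only [hG, hD, map_mul]
      ring
    simp_rw [e2]
    rw [integral_integral_swap (f := fun (w y : ℂ) => P w * G y * D (y + (ζ - 1) * w))
      (hΨ2.integrable (volume.prod volume))]
    refine integral_congr_ae (Filter.Eventually.of_forall fun y => ?_)
    simp only
    rw [← integral_const_mul]
    refine integral_congr_ae (Filter.Eventually.of_forall fun w => ?_)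
    simp only
    ring
  rw [e1]
  have mI : Measurable (fun y : ℂ => ∫ w, D (y + (ζ - 1) * w) * P w) := by
    have m1 : Measurable (fun r : ℂ × ℂ => D (r.1 + (ζ - 1) * r.2) * P r.2) :=
      (hDB.meas.comp (by fun_prop)).mul (hP.meas.comp measurable_snd)
    exact (m1.stronglyMeasurable.integral_prod_right' (ν := volume)).measurable
  refine (cs_enorm volume hGB.meas.aemeasurable mI.aemeasurable).trans ?_
  have k1 : ∫⁻ y, ‖G y‖ₑ ^ 2 ≤ ∫⁻ x, ‖g x‖ₑ ^ 2 := by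
    refine lintegral_mono fun y => pow_le_pow_left₀ zero_le ?_ 2
    simp only [hG]
    rw [enorm_mul]
    calc _ ≤ ‖g y‖ₑ * 1 := mul_le_mul_right (enorm_le_one_of
          (by rw [RCLike.norm_conj]; exact hg1 _)) _
      _ = _ := mul_one _
  have k2 : ∫⁻ y, ‖D y‖ₑ ^ 2 ≤ ∫⁻ x, ‖h x‖ₑ ^ 2 := by
    refine lintegral_mono fun y => pow_le_pow_left₀ zero_le ?_ 2
    simp only [hD]
    rw [enorm_mul]
    calc _ ≤ ‖h y‖ₑ * 1 := mul_le_mul_right (enorm_le_one_of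
          (by rw [RCLike.norm_conj]; exact hh1 _)) _
      _ = _ := mul_one _
  have k3 := mult_bound hDB hP hM hs hPs
  calc _ ≤ (∫⁻ x, ‖g x‖ₑ ^ 2) * (s ^ 2 * ∫⁻ y, ‖D y‖ₑ ^ 2) := mul_le_mul' k1 k3
    _ ≤ (∫⁻ x, ‖g x‖ₑ ^ 2) * (s ^ 2 * ∫⁻ x, ‖h x‖ₑ ^ 2) := by gcongr
    _ = _ := by ring

/-- almost orthogonality of two scales -/
lemma pair_bound {ζ : ℂ} (hM : ζ - 1 ≠ 0) {g h P Q : ℂ → ℂ} (hg : BB g) (hh : BB h)
    (hP : BB P) (hQ : BB Q) (hg1 : ∀ x, ‖g x‖ ≤ 1) (hh1 : ∀ x, ‖h x‖ ≤ 1) {s X τ : ℝ≥0∞}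
    (hs : s ≠ ∞) (hPs : ∀ ξ : ℂ, ‖∫ w, P w * ee (dot w ξ)‖ₑ ≤ s)
    (hgX : ∫⁻ x, ‖g x‖ₑ ^ 2 ≤ X) (hhX : ∫⁻ x, ‖h x‖ₑ ^ 2 ≤ X)
    (hτ : ∀ w, P w ≠ 0 → ∫⁻ v, ‖Q (w + v) - Q v‖ₑ ≤ τ) :
    ‖∫ x, GG ζ g h P x * (starRingEnd ℂ) (GG ζ g h Q x)‖ₑ ≤
      (∫⁻ w, ‖P w‖ₑ) * τ * (2 * X) + (∫⁻ w, ‖Q w‖ₑ) * (s * X) := by
  have hThm : Measurable (Th ζ g h) := Th_meas ζ hg.meas hh.meas
  have hThb : ∃ C : ℝ, ∀ q, ‖Th ζ g h q‖ ≤ C := by
    have hfin : (2 * ∫⁻ x, ‖g x‖ₑ ^ 2) ≠ ∞ := by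
      rw [lint_sq_eq hg volume]
      exact ENNReal.mul_ne_top (by norm_num) enorm_ne_top
    refine ⟨(2 * ∫⁻ x, ‖g x‖ₑ ^ 2).toReal, fun q => ?_⟩
    rw [← toReal_enorm]
    exact ENNReal.toReal_mono hfin (Th_bdd ζ hg hh1 q)
  have hBm : BB (fun r : ℂ × ℂ => P r.1 * (starRingEnd ℂ) (Q r.2) * Th ζ g h (r.1, r.2)) := by
    have h1 : BB (fun r : ℂ × ℂ => P r.1 * (starRingEnd ℂ) (Q r.2)) := by
      refine hP.mul_comp hQ.conj measurable_fst measurable_snd (fun R => ⟨R, fun x h1 h2 => ?_⟩)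
      exact norm_prod_le_iff.2 ⟨h1, h2⟩
    exact h1.mul_bdd (hThm.comp (by fun_prop)) (by obtain ⟨C, hC⟩ := hThb; exact ⟨C, fun x => hC _⟩)
  have hBs : BB (fun r : ℂ × ℂ => P r.1 * (starRingEnd ℂ) (Q r.2) *
      Th ζ g h (r.1, r.2 - r.1)) := by
    have h1 : BB (fun r : ℂ × ℂ => P r.1 * (starRingEnd ℂ) (Q r.2)) := by
      refine hP.mul_comp hQ.conj measurable_fst measurable_snd (fun R => ⟨R, fun x h1 h2 => ?_⟩)
      exact norm_prod_le_iff.2 ⟨h1, h2⟩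
    exact h1.mul_bdd (hThm.comp (by fun_prop)) (by obtain ⟨C, hC⟩ := hThb; exact ⟨C, fun x => hC _⟩)
  have hBt : BB (fun r : ℂ × ℂ => P r.1 * (starRingEnd ℂ) (Q (r.1 + r.2)) *
      Th ζ g h (r.1, r.2)) := by
    have h1 : BB (fun r : ℂ × ℂ => P r.1 * (starRingEnd ℂ) (Q (r.1 + r.2))) := by
      refine hP.mul_comp hQ.conj (ψ := fun r : ℂ × ℂ => r.1 + r.2) measurable_fst (by fun_prop)
        (fun R => ⟨R + R, fun x h1 h2 => ?_⟩)
      have h3 : ‖x.2‖ ≤ R + R := by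
        calc ‖x.2‖ = ‖(x.1 + x.2) - x.1‖ := by rw [add_sub_cancel_left]
          _ ≤ _ := (norm_sub_le _ _).trans (add_le_add h2 h1)
      have h4 : ‖x.1‖ ≤ R + R := by
        have := norm_nonneg (x.1 + x.2)
        linarith
      exact norm_prod_le_iff.2 ⟨h4, h3⟩
    exact h1.mul_bdd (hThm.comp (by fun_prop)) (by obtain ⟨C, hC⟩ := hThb; exact ⟨C, fun x => hC _⟩)
  have h6 : (volume : Measure (ℂ × ℂ)) = (volume : Measure ℂ).prod volume := rfl
  rw [pair_eq ζ hg hh hP hQ]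
  -- shift the second variable
  have e1 : ∫ p : ℂ × ℂ, P p.1 * (starRingEnd ℂ) (Q p.2) * Th ζ g h (p.1, p.2 - p.1) =
      ∫ p : ℂ × ℂ, P p.1 * (starRingEnd ℂ) (Q (p.1 + p.2)) * Th ζ g h (p.1, p.2) := by
    rw [h6, integral_prod _ (hBs.integrable (volume.prod volume)),
      integral_prod _ (hBt.integrable (volume.prod volume))]
    refine integral_congr_ae (Filter.Eventually.of_forall fun w => ?_)
    simp only
    rw [← integral_add_right_eq_self (μ := (volume : Measure ℂ))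
      (fun y : ℂ => P w * (starRingEnd ℂ) (Q y) * Th ζ g h (w, y - w)) w]
    refine integral_congr_ae (Filter.Eventually.of_forall fun v => ?_)
    simp only [add_sub_cancel_right]
    rw [add_comm v w]
  have e2 : ∫ p : ℂ × ℂ, P p.1 * (starRingEnd ℂ) (Q (p.1 + p.2)) * Th ζ g h (p.1, p.2) =
      (∫ p : ℂ × ℂ, P p.1 * (starRingEnd ℂ) (Q (p.1 + p.2) - Q p.2) * Th ζ g h (p.1, p.2)) +
      ∫ p : ℂ × ℂ, P p.1 * (starRingEnd ℂ) (Q p.2) * Th ζ g h (p.1, p.2) := by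
    rw [← integral_add]
    · refine integral_congr_ae (Filter.Eventually.of_forall fun p => ?_)
      simp only [map_sub]
      ring
    · have := (hBt.sub hBm).integrable (volume : Measure (ℂ × ℂ))
      refine this.congr (Filter.Eventually.of_forall fun p => ?_)
      simp only [map_sub]
      ring
    · exact hBm.integrable volume
  rw [e1, e2]
  refine (enorm_add_le _ _).trans (add_le_add ?_ ?_)
  · -- the error term
    refine (enorm_integral_le_lintegral_enorm _).trans ?_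
    have m1 : Measurable (fun p : ℂ × ℂ => P p.1 * (starRingEnd ℂ) (Q (p.1 + p.2) - Q p.2) *
        Th ζ g h (p.1, p.2)) := by
      refine Measurable.mul (Measurable.mul (hP.meas.comp measurable_fst)
        (Complex.continuous_conj.measurable.comp ?_)) (hThm.comp (by fun_prop))
      exact (hQ.meas.comp (by fun_prop)).sub (hQ.meas.comp measurable_snd)
    rw [h6, lintegral_prod _ m1.enorm.aemeasurable]
    have k1 : ∀ w : ℂ, ∫⁻ v, ‖P w * (starRingEnd ℂ) (Q (w + v) - Q v) * Th ζ g h (w, v)‖ₑ ≤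
        ‖P w‖ₑ * (τ * (2 * X)) := by
      intro w
      by_cases hw : P w = 0
      · simp [hw]
      have k2 : ∀ v, ‖P w * (starRingEnd ℂ) (Q (w + v) - Q v) * Th ζ g h (w, v)‖ₑ ≤
          ‖P w‖ₑ * (‖Q (w + v) - Q v‖ₑ * (2 * X)) := by
        intro v
        rw [enorm_mul, enorm_mul, mul_assoc]
        refine mul_le_mul_right (mul_le_mul' (le_of_eq ?_) ?_) _
        · rw [← ofReal_norm, RCLike.norm_conj, ofReal_norm]
        · exact (Th_bdd ζ hg hh1 _).trans (mul_le_mul_right hgX _)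
      refine (lintegral_mono k2).trans ?_
      have m2 : Measurable (fun v => ‖Q (w + v) - Q v‖ₑ) :=
        ((hQ.meas.comp (by fun_prop)).sub hQ.meas).enorm
      rw [lintegral_const_mul _ (m2.mul_const _), lintegral_mul_const _ m2]
      exact mul_le_mul_right (mul_le_mul_left (hτ w hw) _) _
    refine (lintegral_mono k1).trans (le_of_eq ?_)
    rw [lintegral_mul_const _ hP.meas.enorm]
    ring
  · -- the main term
    rw [h6, integral_prod_symm _ (hBm.integrable (volume.prod volume))]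
    refine (enorm_integral_le_lintegral_enorm _).trans ?_
    have k1 : ∀ v : ℂ, ‖∫ w, P w * (starRingEnd ℂ) (Q v) * Th ζ g h (w, v)‖ₑ ≤
        ‖Q v‖ₑ * (s * X) := by
      intro v
      have e3 : ∫ w, P w * (starRingEnd ℂ) (Q v) * Th ζ g h (w, v) =
          (starRingEnd ℂ) (Q v) * ∫ w, P w * Th ζ g h (w, v) := by
        rw [← integral_const_mul]
        refine integral_congr_ae (Filter.Eventually.of_forall fun w => ?_)
        simp only
        ring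
      rw [e3, enorm_mul]
      refine mul_le_mul' (le_of_eq ?_) ?_
      · rw [← ofReal_norm, RCLike.norm_conj, ofReal_norm]
      · have k2 := main_bound hM hg hh hP hg1 hh1 hs hPs v
        have k3 : ‖∫ w, P w * Th ζ g h (w, v)‖ₑ ^ 2 ≤ (s * X) ^ 2 := by
          refine k2.trans ?_
          rw [mul_pow, sq X]
          exact mul_le_mul_right (mul_le_mul' hgX hhX) _
        exact (ENNReal.pow_le_pow_left_iff two_ne_zero).1 k3
    refine (lintegral_mono k1).trans (le_of_eq ?_)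
    rw [lintegral_mul_const _ hQ.meas.enorm]

/-- trivial bound -/
lemma GG_triv (ζ : ℂ) {g h Q : ℂ → ℂ} (hg : BB g) (hh : BB h) (hQ : BB Q)
    (hh1 : ∀ x, ‖h x‖ ≤ 1) :
    ∫⁻ x, ‖GG ζ g h Q x‖ₑ ^ 2 ≤ (∫⁻ w, ‖Q w‖ₑ) ^ 2 * (2 * ∫⁻ x, ‖g x‖ₑ ^ 2) := by
  rw [lint_sq_eq (GG_BB ζ hg hh hQ) volume, pair_eq ζ hg hh hQ hQ]
  refine (enorm_integral_le_lintegral_enorm _).trans ?_
  have k1 : ∀ p : ℂ × ℂ, ‖Q p.1 * (starRingEnd ℂ) (Q p.2) * Th ζ g h (p.1, p.2 - p.1)‖ₑ ≤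
      ‖Q p.1‖ₑ * ‖Q p.2‖ₑ * (2 * ∫⁻ x, ‖g x‖ₑ ^ 2) := by
    intro p
    rw [enorm_mul, enorm_mul]
    refine mul_le_mul' (mul_le_mul' le_rfl (le_of_eq ?_)) (Th_bdd ζ hg hh1 _)
    rw [← ofReal_norm, RCLike.norm_conj, ofReal_norm]
  refine (lintegral_mono k1).trans (le_of_eq ?_)
  have m1 : Measurable (fun p : ℂ × ℂ => ‖Q p.1‖ₑ * ‖Q p.2‖ₑ) :=
    (hQ.meas.comp measurable_fst).enorm.mul (hQ.meas.comp measurable_snd).enorm
  have h6 : (volume : Measure (ℂ × ℂ)) = (volume : Measure ℂ).prod volume := rfl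
  rw [lintegral_mul_const _ m1, h6, lintegral_prod_mul hQ.meas.enorm.aemeasurable
    hQ.meas.enorm.aemeasurable, sq]

lemma GG_step (ζ : ℂ) {g h P Q : ℂ → ℂ} (hg : BB g) (hh : BB h) (hP : BB P) (hQ : BB Q) :
    ∫⁻ x, ‖GG ζ g h (fun w => P w + Q w) x‖ₑ ^ 2 ≤ (∫⁻ x, ‖GG ζ g h P x‖ₑ ^ 2) +
      (∫⁻ x, ‖GG ζ g h Q x‖ₑ ^ 2) +
      2 * ‖∫ x, GG ζ g h P x * (starRingEnd ℂ) (GG ζ g h Q x)‖ₑ := by
  have hA := GG_BB ζ hg hh hP
  have hB := GG_BB ζ hg hh hQ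
  rw [lint_sq_eq (GG_BB ζ hg hh (hP.add hQ)) volume, lint_sq_eq hA volume, lint_sq_eq hB volume]
  have i1 := (hA.mul hA.conj).integrable volume
  have i2 := (hB.mul hB.conj).integrable volume
  have i3 := (hA.mul hB.conj).integrable volume
  have i4 := (hB.mul hA.conj).integrable volume
  have e1 : ∫ x, GG ζ g h (fun w => P w + Q w) x *
      (starRingEnd ℂ) (GG ζ g h (fun w => P w + Q w) x) =
      (∫ x, GG ζ g h P x * (starRingEnd ℂ) (GG ζ g h P x)) +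
      (∫ x, GG ζ g h Q x * (starRingEnd ℂ) (GG ζ g h Q x)) +
      ((∫ x, GG ζ g h P x * (starRingEnd ℂ) (GG ζ g h Q x)) +
      ∫ x, GG ζ g h Q x * (starRingEnd ℂ) (GG ζ g h P x)) := by
    have i12 : Integrable (fun x => GG ζ g h P x * (starRingEnd ℂ) (GG ζ g h P x) +
      GG ζ g h Q x * (starRingEnd ℂ) (GG ζ g h Q x)) := i1.add i2
    have i34 : Integrable (fun x => GG ζ g h P x * (starRingEnd ℂ) (GG ζ g h Q x) +
      GG ζ g h Q x * (starRingEnd ℂ) (GG ζ g h P x)) := i3.add i4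
    rw [← integral_add i1 i2, ← integral_add i3 i4, ← integral_add i12 i34]
    refine integral_congr_ae (Filter.Eventually.of_forall fun x => ?_)
    simp only
    rw [GG_add ζ hg hh hP hQ, map_add]
    ring
  have e2 : ∫ x, GG ζ g h Q x * (starRingEnd ℂ) (GG ζ g h P x) =
      (starRingEnd ℂ) (∫ x, GG ζ g h P x * (starRingEnd ℂ) (GG ζ g h Q x)) := by
    rw [← integral_conj]
    refine integral_congr_ae (Filter.Eventually.of_forall fun x => ?_)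
    simp only [map_mul, Complex.conj_conj]
    ring
  rw [e1, e2]
  refine (enorm_add_le _ _).trans (add_le_add (enorm_add_le _ _) ?_)
  refine (enorm_add_le _ _).trans (le_of_eq ?_)
  rw [two_mul]
  congr 1
  rw [← ofReal_norm, RCLike.norm_conj, ofReal_norm]

end Run7.h764
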