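import Pool.Agent.Run7.h764.Scale
import Mathlib.MeasureTheory.Function.LpSpace.DomAct.Continuous
set_option autoImplicit false

namespace Run7.h764

open MeasureTheory Complex Set Filter Topology
open scoped ENNReal NNReal

lemma BB.memLp1 {f : ℂ → ℂ} (h : BB f) : MemLp f 1 volume :=
  memLp_one_iff_integrable.2 (h.integrable volume)

instance instFactOneNeTop : Fact ((1 : ℝ≥0∞) ≠ ∞) := ⟨by norm_num⟩

lemma L1_cont {k : ℂ → ℂ} (hk : BB k) {ε : ℝ≥0∞} (hε : 0 < ε) :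
    ∃ δ : ℝ, 0 < δ ∧ ∀ v : ℂ, ‖v‖ ≤ δ → ∫⁻ w, ‖k (v + w) - k w‖ₑ ≤ ε := by
  set F : Lp ℂ 1 (volume : Measure ℂ) := hk.memLp1.toLp k with hF
  have hc : Continuous (fun v : ℂ => (DomAddAct.mk v) +ᵥ F) := by
    have h1 : Continuous (fun v : ℂ => (DomAddAct.mk v)) := DomAddAct.continuous_mk
    exact h1.vadd continuous_const
  have h0 : (DomAddAct.mk (0 : ℂ)) +ᵥ F = F := by
    rw [DomAddAct.mk_zero, zero_vadd]
  have ht := hc.tendsto 0
  rw [h0] at ht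
  rw [EMetric.tendsto_nhds] at ht
  have h2 := ht ε hε
  rw [Metric.eventually_nhds_iff] at h2
  obtain ⟨δ, hδ, h3⟩ := h2
  refine ⟨δ / 2, by positivity, fun v hv => ?_⟩
  have h4 := (h3 (y := v) (by rw [dist_zero_right]; linarith)).le
  rw [Lp.edist_def] at h4
  rw [eLpNorm_one_eq_lintegral_enorm] at h4
  refine le_trans (le_of_eq ?_) h4
  have h5 : ⇑((DomAddAct.mk v) +ᵥ F) =ᵐ[volume] fun w => F (v + w) := DomAddAct.vadd_Lp_ae_eq _ _
  have h6 : F =ᵐ[volume] k := hk.memLp1.coeFn_toLp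
  have h7 : (fun w => F (v + w)) =ᵐ[volume] fun w => k (v + w) :=
    (measurePreserving_add_left volume v).quasiMeasurePreserving.ae_eq h6
  refine lintegral_congr_ae ?_
  filter_upwards [h5, h6, h7] with w a1 a2 a3
  rw [Pi.sub_apply, a1, a2, a3]

/-- the symbol -/
noncomputable def sy (k : ℂ → ℂ) (ξ : ℂ) : ℂ := ∫ w, k w * ee (dot w ξ)

lemma RL (k : ℂ → ℂ) {η : ℝ} (hη : 0 < η) :
    ∃ A : ℝ, 0 < A ∧ ∀ ξ : ℂ, A ≤ ‖ξ‖ → ‖sy k ξ‖ ≤ η := by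
  have h1 := tendsto_integral_exp_inner_smul_cocompact (V := ℂ) k
  rw [Metric.cobounded_eq_cocompact.symm] at h1
  have h2 := h1.eventually (Metric.closedBall_mem_nhds 0 hη)
  rw [Filter.hasBasis_cobounded_norm.eventually_iff] at h2
  obtain ⟨A, -, hA⟩ := h2
  refine ⟨max A 1, by positivity, fun ξ hξ => ?_⟩
  have h3 := hA (x := -ξ) (by simpa using (le_max_left _ _).trans hξ)
  have e : ∫ (v : ℂ), Real.fourierChar (-inner ℝ v (-ξ)) • k v = sy k ξ := by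
    unfold sy
    refine integral_congr_ae (Filter.Eventually.of_forall fun w => ?_)
    simp only [inner_neg_right, neg_neg]
    rw [Circle.smul_def, Real.fourierChar_apply, smul_eq_mul, mul_comm, ← dot_eq_inner]
    congr 1
  rw [e] at h3
  simpa using h3

lemma sy_le (k : ℂ → ℂ) (ξ : ℂ) : ‖sy k ξ‖ ≤ ∫ w, ‖k w‖ := by
  unfold sy
  refine (norm_integral_le_integral_norm _).trans (le_of_eq ?_)
  refine integral_congr_ae (Filter.Eventually.of_forall fun w => ?_)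
  simp only [norm_mul, norm_ee, mul_one]

lemma sy_int {k : ℂ → ℂ} (hk : BB k) (ξ : ℂ) : Integrable (fun w => k w * ee (dot w ξ)) := by
  refine (hk.mul_bdd (measurable_ee.comp ?_) ⟨1, fun x => (norm_ee _).le⟩).integrable volume
  unfold dot
  fun_prop

lemma abs_dot_le (w ξ : ℂ) : |dot w ξ| ≤ ‖w‖ * ‖ξ‖ := by
  rw [dot_eq_inner]
  exact abs_real_inner_le_norm w ξ

lemma sy_small {k : ℂ → ℂ} (hk : BB k) (h0 : ∫ w, k w = 0) {η : ℝ} (hη : 0 < η) :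
    ∃ a : ℝ, 0 < a ∧ ∀ ξ : ℂ, ‖ξ‖ ≤ a → ‖sy k ξ‖ ≤ η := by
  obtain ⟨r, hr0, hr⟩ := hk.supp'
  set N : ℝ := ∫ w, ‖k w‖ with hN
  have hN0 : 0 ≤ N := integral_nonneg fun _ => norm_nonneg _
  refine ⟨η / (2 * Real.pi * r * (N + 1)), by positivity, fun ξ hξ => ?_⟩
  have e1 : sy k ξ = ∫ w, k w * (ee (dot w ξ) - ee 0) := by
    have : ∀ w, k w * (ee (dot w ξ) - ee 0) = k w * ee (dot w ξ) - k w := by
      intro w
      rw [ee_zero]
      ring
    simp_rw [this]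
    rw [integral_sub (sy_int hk ξ) (hk.integrable volume), h0, sub_zero]
    rfl
  rw [e1]
  refine (norm_integral_le_integral_norm _).trans ?_
  have h1 : ∀ w, ‖k w * (ee (dot w ξ) - ee 0)‖ ≤ ‖k w‖ * (2 * Real.pi * (r * ‖ξ‖)) := by
    intro w
    rw [norm_mul]
    by_cases hw : r < ‖w‖
    · rw [hr w hw, norm_zero, zero_mul, zero_mul]
    · refine mul_le_mul_of_nonneg_left ((ee_sub_le _ _).trans ?_) (norm_nonneg _)
      rw [sub_zero]
      refine mul_le_mul_of_nonneg_left ((abs_dot_le w ξ).trans ?_) Real.two_pi_pos.le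
      exact mul_le_mul_of_nonneg_right (not_lt.1 hw) (norm_nonneg _)
  have i1 : Integrable (fun w => ‖k w‖ * (2 * Real.pi * (r * ‖ξ‖))) :=
    (hk.integrable volume).norm.mul_const _
  refine (integral_mono_of_nonneg (Filter.Eventually.of_forall fun _ => norm_nonneg _) i1
    (Filter.Eventually.of_forall h1)).trans ?_
  rw [integral_mul_const, ← hN]
  have hpi := Real.pi_pos
  rw [le_div_iff₀ (by positivity)] at hξ
  have : N * (2 * Real.pi * (r * ‖ξ‖)) ≤ ‖ξ‖ * (2 * Real.pi * r * (N + 1)) := by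
    have h2 : 0 ≤ 2 * Real.pi * (r * ‖ξ‖) := by positivity
    nlinarith
  linarith

/-- rescaled kernel -/
noncomputable def scl (k : ℂ → ℂ) (t : ℝ) (w : ℂ) : ℂ := (((t ^ 2)⁻¹ : ℝ) : ℂ) * k ((t⁻¹ : ℝ) * w)

lemma scl_BB {k : ℂ → ℂ} (hk : BB k) {t : ℝ} (ht : 0 < t) : BB (scl k t) := by
  have h1 : BB (fun w : ℂ => k ((t⁻¹ : ℝ) * w)) := by
    refine hk.comp (by fun_prop) (fun R => ⟨R * t, fun x hx => ?_⟩)
    rw [norm_mul, Complex.norm_real, Real.norm_eq_abs, abs_of_pos (inv_pos.2 ht),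
      inv_mul_eq_div, lt_div_iff₀ ht]
    exact hx
  exact h1.bdd_mul (g := fun _ => (((t ^ 2)⁻¹ : ℝ) : ℂ)) measurable_const ⟨_, fun _ => le_rfl⟩

lemma scl_lint {F : ℂ → ℝ≥0∞} {t : ℝ} (ht : 0 < t) :
    ∫⁻ w, ENNReal.ofReal (t ^ 2)⁻¹ * F (((t⁻¹ : ℝ) : ℂ) * w) = ∫⁻ w, F w := by
  have hne : ((t⁻¹ : ℝ) : ℂ) ≠ 0 := by
    exact_mod_cast (inv_pos.2 ht).ne'
  rw [lintegral_const_mul' _ _ ENNReal.ofReal_ne_top, lintegral_mul_left' hne, ← mul_assoc,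
    ← ENNReal.ofReal_mul (by positivity)]
  have : (t ^ 2)⁻¹ * (Complex.normSq ((t⁻¹ : ℝ) : ℂ))⁻¹ = 1 := by
    rw [Complex.normSq_ofReal]
    field_simp
  rw [this, ENNReal.ofReal_one, one_mul]

lemma scl_enorm (k : ℂ → ℂ) {t : ℝ} (ht : 0 < t) (w : ℂ) :
    ‖scl k t w‖ₑ = ENNReal.ofReal (t ^ 2)⁻¹ * ‖k (((t⁻¹ : ℝ) : ℂ) * w)‖ₑ := by
  unfold scl
  rw [enorm_mul]
  congr 1
  rw [← ofReal_norm, Complex.norm_real, Real.norm_eq_abs, abs_of_pos (by positivity)]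

lemma scl_norm1 (k : ℂ → ℂ) {t : ℝ} (ht : 0 < t) :
    ∫⁻ w, ‖scl k t w‖ₑ = ∫⁻ w, ‖k w‖ₑ := by
  simp_rw [scl_enorm k ht]
  exact scl_lint ht (F := fun w => ‖k w‖ₑ)

lemma scl_diff (k : ℂ → ℂ) {t : ℝ} (ht : 0 < t) (v : ℂ) :
    ∫⁻ w, ‖scl k t (v + w) - scl k t w‖ₑ = ∫⁻ w, ‖k ((t⁻¹ : ℝ) * v + w) - k w‖ₑ := by
  rw [← scl_lint ht (F := fun w => ‖k ((t⁻¹ : ℝ) * v + w) - k w‖ₑ)]
  refine lintegral_congr fun w => ?_
  unfold scl
  rw [← mul_sub, enorm_mul]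
  congr 1
  · rw [← ofReal_norm, Complex.norm_real, Real.norm_eq_abs, abs_of_pos (by positivity)]
  · rw [mul_add]

lemma scl_sy (k : ℂ → ℂ) {t : ℝ} (ht : 0 < t) (ξ : ℂ) :
    sy (scl k t) ξ = sy k (t * ξ) := by
  have hne : ((t⁻¹ : ℝ) : ℂ) ≠ 0 := by
    exact_mod_cast (inv_pos.2 ht).ne'
  unfold sy
  have h1 := integral_mul_left' hne (fun w => k w * ee (dot w (t * ξ)))
  have h2 : Complex.normSq ((t⁻¹ : ℝ) : ℂ) = (t ^ 2)⁻¹ := by
    rw [Complex.normSq_ofReal]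
    field_simp
  rw [h2, inv_inv] at h1
  have h3 : ∫ w, k w * ee (dot w (t * ξ)) = (((t ^ 2)⁻¹ : ℝ) : ℂ) *
      ∫ w, k ((t⁻¹ : ℝ) * w) * ee (dot ((t⁻¹ : ℝ) * w) (t * ξ)) := by
    rw [h1, ← mul_assoc, ← Complex.ofReal_mul, inv_mul_cancel₀ (by positivity),
      Complex.ofReal_one, one_mul]
  rw [h3, ← integral_const_mul]
  refine integral_congr_ae (Filter.Eventually.of_forall fun w => ?_)
  simp only [scl]
  rw [← mul_assoc]
  congr 2
  rw [dot_eq_re, dot_eq_re]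
  congr 1
  simp only [map_mul, Complex.conj_ofReal]
  have : ((t⁻¹ : ℝ) : ℂ) * (t : ℂ) = 1 := by
    rw [← Complex.ofReal_mul, inv_mul_cancel₀ ht.ne', Complex.ofReal_one]
  linear_combination (- w * (starRingEnd ℂ) ξ) * this

lemma BB_zero : BB (fun _ : ℂ => (0 : ℂ)) :=
  ⟨measurable_const, ⟨0, fun _ => by simp⟩, ⟨0, fun _ _ => rfl⟩⟩

/-- partial sums of kernels -/
noncomputable def PP (Q : ℕ → ℂ → ℂ) (n : ℕ) (w : ℂ) : ℂ := ∑ j ∈ Finset.range n, Q j w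

lemma PP_succ (Q : ℕ → ℂ → ℂ) (n : ℕ) :
    PP Q (n + 1) = fun w => PP Q n w + Q n w := by
  funext w
  simp only [PP, Finset.sum_range_succ]

lemma PP_BB {Q : ℕ → ℂ → ℂ} (hQ : ∀ j, BB (Q j)) (n : ℕ) : BB (PP Q n) := by
  induction n with
  | zero =>
    have : PP Q 0 = fun _ => 0 := by
      funext w
      simp [PP]
    rw [this]
    exact BB_zero
  | succ n ih =>
    rw [PP_succ]
    exact ih.add (hQ n)

lemma PP_sy {Q : ℕ → ℂ → ℂ} (hQ : ∀ j, BB (Q j)) (n : ℕ) (ξ : ℂ) :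
    sy (PP Q n) ξ = ∑ j ∈ Finset.range n, sy (Q j) ξ := by
  unfold sy PP
  rw [← integral_finsetSum _ (fun j _ => sy_int (hQ j) ξ)]
  refine integral_congr_ae (Filter.Eventually.of_forall fun w => ?_)
  simp only [Finset.sum_mul]

lemma PP_norm1 {Q : ℕ → ℂ → ℂ} (hQ : ∀ j, BB (Q j)) {N : ℝ≥0∞}
    (hN : ∀ j, ∫⁻ w, ‖Q j w‖ₑ ≤ N) (n : ℕ) : ∫⁻ w, ‖PP Q n w‖ₑ ≤ n * N := by
  have h1 : ∀ w, ‖PP Q n w‖ₑ ≤ ∑ j ∈ Finset.range n, ‖Q j w‖ₑ := fun w => enorm_sum_le _ _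
  refine (lintegral_mono h1).trans ?_
  rw [lintegral_finsetSum _ (fun j _ => (hQ j).meas.enorm)]
  refine (Finset.sum_le_sum fun j _ => hN j).trans (le_of_eq ?_)
  rw [Finset.sum_const, Finset.card_range, nsmul_eq_mul]

/-- abstract square function induction -/
lemma GG_induct {ζ : ℂ} (hM : ζ - 1 ≠ 0) {g h : ℂ → ℂ} (hg : BB g) (hh : BB h)
    (hg1 : ∀ x, ‖g x‖ ≤ 1) (hh1 : ∀ x, ‖h x‖ ≤ 1) {X : ℝ≥0∞}
    (hgX : ∫⁻ x, ‖g x‖ₑ ^ 2 ≤ X) (hhX : ∫⁻ x, ‖h x‖ₑ ^ 2 ≤ X)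
    {Q : ℕ → ℂ → ℂ} (hQ : ∀ j, BB (Q j)) {N s τ : ℝ≥0∞} (hs : s ≠ ∞)
    (hN : ∀ j, ∫⁻ w, ‖Q j w‖ₑ ≤ N) (J : ℕ)
    (hsy : ∀ n ≤ J, ∀ ξ, ‖sy (PP Q n) ξ‖ₑ ≤ s)
    (hτ : ∀ n < J, ∀ w, PP Q n w ≠ 0 → ∫⁻ v, ‖Q n (w + v) - Q n v‖ₑ ≤ τ) (n : ℕ) (hn : n ≤ J) :
    ∫⁻ x, ‖GG ζ g h (PP Q n) x‖ₑ ^ 2 ≤
      n * ((N ^ 2 * 2 + 2 * (J * N * τ * 2 + N * s)) * X) := by
  induction n with
  | zero =>
    have : ∀ x, GG ζ g h (PP Q 0) x = 0 := by
      intro x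
      unfold GG PP
      simp
    simp_rw [this]
    simp
  | succ n ih =>
    have ih' := ih (by omega)
    rw [PP_succ]
    refine (GG_step ζ hg hh (PP_BB hQ n) (hQ n)).trans ?_
    have k1 := pair_bound hM hg hh (PP_BB hQ n) (hQ n) hg1 hh1 hs
      (hsy n (by omega)) hgX hhX (hτ n (by omega))
    have k2 := GG_triv ζ hg hh (hQ n) hh1
    have k3 : ∫⁻ x, ‖GG ζ g h (Q n) x‖ₑ ^ 2 ≤ N ^ 2 * (2 * X) := by
      refine k2.trans ?_
      have := hN n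
      gcongr
    have k4 : ‖∫ x, GG ζ g h (PP Q n) x * (starRingEnd ℂ) (GG ζ g h (Q n) x)‖ₑ ≤
        J * N * τ * (2 * X) + N * (s * X) := by
      refine k1.trans ?_
      have h1 := PP_norm1 hQ hN n
      have h2 : (n : ℝ≥0∞) * N ≤ J * N := by
        have : (n : ℝ≥0∞) ≤ J := by exact_mod_cast (by omega : n ≤ J)
        gcongr
      have h3 := h1.trans h2
      have h4 := hN n
      gcongr
    calc _ ≤ n * ((N ^ 2 * 2 + 2 * (J * N * τ * 2 + N * s)) * X) + N ^ 2 * (2 * X) +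
          2 * (J * N * τ * (2 * X) + N * (s * X)) := by gcongr
      _ = _ := by
        push_cast
        ring

lemma TT_PP {ζ : ℂ} {f g h : ℂ → ℂ} (hf : BB f) (hg : BB g) (hh : BB h)
    {Q : ℕ → ℂ → ℂ} (hQ : ∀ j, BB (Q j)) (n : ℕ) :
    ∑ j ∈ Finset.range n, TT ζ f g h (Q j) = ∫ x, f x * GG ζ g h (PP Q n) x := by
  induction n with
  | zero =>
    have : ∀ x, GG ζ g h (PP Q 0) x = 0 := by
      intro x
      unfold GG PP
      simp
    simp_rw [this]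
    simp
  | succ n ih =>
    rw [Finset.sum_range_succ, ih, TT_eq_GG ζ hf hg hh (hQ n), PP_succ,
      ← integral_add ((hf.mul (GG_BB ζ hg hh (PP_BB hQ n))).integrable volume)
        ((hf.mul (GG_BB ζ hg hh (hQ n))).integrable volume)]
    refine integral_congr_ae (Filter.Eventually.of_forall fun x => ?_)
    simp only
    rw [GG_add ζ hg hh (PP_BB hQ n) (hQ n)]
    ring

lemma TT_const (ζ : ℂ) (f g h F : ℂ → ℂ) (c : ℂ) :
    TT ζ f g h (fun w => c * F w) = c * TT ζ f g h F := by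
  unfold TT
  rw [← integral_const_mul]
  refine integral_congr_ae (Filter.Eventually.of_forall fun p => ?_)
  simp only
  ring

/-- Comparison of scales. -/
theorem scaleB {ζ : ℂ} (hM : ζ - 1 ≠ 0) {k : ℂ → ℂ} (hk : BB k) (h0 : ∫ w, k w = 0) :
    ∃ C : ℝ≥0∞, C ≠ ∞ ∧ ∀ J : ℕ, ∃ Λ : ℝ, 1 < Λ ∧ ∀ R : ℕ → ℝ, (∀ j, 0 < R j) →
    (∀ j, Λ * R j ≤ R (j + 1)) → ∀ f g h : ℂ → ℂ, BB f → BB g → BB h →
    (∀ x, ‖g x‖ ≤ 1) → (∀ x, ‖h x‖ ≤ 1) → ∀ X : ℝ≥0∞, (∫⁻ x, ‖f x‖ₑ ^ 2 ≤ X) →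
    (∫⁻ x, ‖g x‖ₑ ^ 2 ≤ X) → (∫⁻ x, ‖h x‖ₑ ^ 2 ≤ X) →
    (∑ j ∈ Finset.range J, ‖TT ζ f g h (scl k (R j))‖ₑ) ^ 2 ≤ C * J * X ^ 2 := by
  set N : ℝ≥0∞ := ∫⁻ w, ‖k w‖ₑ with hN
  have hNt : N ≠ ∞ := (hk.integrable volume).2.ne
  set Nr : ℝ := ∫ w, ‖k w‖ with hNr
  have hNr0 : 0 ≤ Nr := integral_nonneg fun _ => norm_nonneg _
  set s : ℝ≥0∞ := ENNReal.ofReal (Nr + 1) with hs
  refine ⟨N ^ 2 * 2 + 2 * (N * 2 + N * s), ?_, fun J => ?_⟩
  · have h1 : N ^ 2 * 2 ≠ ∞ := ENNReal.mul_ne_top (ENNReal.pow_ne_top hNt) (by norm_num)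
    have h2 : N * 2 ≠ ∞ := ENNReal.mul_ne_top hNt (by norm_num)
    have h3 : N * s ≠ ∞ := ENNReal.mul_ne_top hNt ENNReal.ofReal_ne_top
    exact ENNReal.add_ne_top.2 ⟨h1, ENNReal.mul_ne_top (by norm_num) (ENNReal.add_ne_top.2 ⟨h2, h3⟩)⟩
  rcases Nat.eq_zero_or_pos J with hJ | hJ
  · subst hJ
    refine ⟨2, by norm_num, ?_⟩
    intros
    simp
  have hJr : (0 : ℝ) < J := by exact_mod_cast hJ
  obtain ⟨r, hr0, hr⟩ := hk.supp'
  obtain ⟨a, ha, hsmall⟩ := sy_small hk h0 (η := 1 / J) (by positivity)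
  obtain ⟨A, hA, hlarge⟩ := RL k (η := 1 / J) (by positivity)
  obtain ⟨δ, hδ, hL1⟩ := L1_cont hk (ε := ENNReal.ofReal (1 / J))
    (ENNReal.ofReal_pos.2 (by positivity))
  set Λ : ℝ := 1 + A / a + r / δ with hΛ
  have hΛ1 : 1 < Λ := by
    have : 0 < A / a := by positivity
    have : 0 < r / δ := by positivity
    linarith
  have hΛA : A ≤ Λ * a := by
    have h1 : A / a ≤ Λ := by
      have : 0 < r / δ := by positivity
      linarith
    rwa [div_le_iff₀ ha] at h1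
  have hΛr : r ≤ Λ * δ := by
    have h1 : r / δ ≤ Λ := by
      have : 0 < A / a := by positivity
      linarith
    rwa [div_le_iff₀ hδ] at h1
  refine ⟨Λ, hΛ1, ?_⟩
  intro R hR0 hR1 f g h hf hg hh hg1 hh1 X hfX hgX hhX
  have hmono : Monotone R := by
    refine monotone_nat_of_le_succ fun n => le_trans ?_ (hR1 n)
    have := hR0 n
    nlinarith
  have hgap : ∀ i j, i < j → Λ * R i ≤ R j := fun i j hij => (hR1 i).trans (hmono hij)
  -- unimodular coefficients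
  have hc : ∀ j, ∃ c : ℂ, ‖c‖ = 1 ∧ (‖TT ζ f g h (scl k (R j))‖ : ℂ) =
      c * TT ζ f g h (scl k (R j)) := fun j => Complex.exists_norm_eq_mul_self _
  choose c hc1 hc2 using hc
  set Q : ℕ → ℂ → ℂ := fun j w => c j * scl k (R j) w with hQdef
  have hQ : ∀ j, BB (Q j) := fun j =>
    (scl_BB hk (hR0 j)).bdd_mul (g := fun _ => c j) measurable_const ⟨_, fun _ => le_rfl⟩
  have hce : ∀ j, ‖c j‖ₑ = 1 := by
    intro j
    rw [← ofReal_norm, hc1, ENNReal.ofReal_one]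
  have hQN : ∀ j, ∫⁻ w, ‖Q j w‖ₑ ≤ N := by
    intro j
    simp only [hQdef, enorm_mul, hce, one_mul]
    exact (scl_norm1 k (hR0 j)).le
  have hQsy : ∀ j ξ, ‖sy (Q j) ξ‖ = ‖sy k (R j * ξ)‖ := by
    intro j ξ
    have : sy (Q j) ξ = c j * sy (scl k (R j)) ξ := by
      unfold sy
      rw [← integral_const_mul]
      refine integral_congr_ae (Filter.Eventually.of_forall fun w => ?_)
      simp only [hQdef]
      ring
    rw [this, norm_mul, hc1, one_mul, scl_sy k (hR0 j)]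
  have hsy : ∀ n ≤ J, ∀ ξ, ‖sy (PP Q n) ξ‖ₑ ≤ s := by
    intro n hn ξ
    rw [hs, ← ofReal_norm]
    apply ENNReal.ofReal_le_ofReal
    rw [PP_sy hQ]
    refine (norm_sum_le _ _).trans ?_
    set mid : Finset ℕ := (Finset.range n).filter
      (fun j => a < R j * ‖ξ‖ ∧ R j * ‖ξ‖ < A) with hmid
    have hcard : mid.card ≤ 1 := by
      rw [Finset.card_le_one]
      intro i hi j hj
      rw [hmid, Finset.mem_filter] at hi hj
      by_contra hij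
      rcases lt_or_gt_of_ne hij with h1 | h1
      · have h2 := hgap i j h1
        have h3 : Λ * R i * ‖ξ‖ ≤ R j * ‖ξ‖ := mul_le_mul_of_nonneg_right h2 (norm_nonneg _)
        have h4 : Λ * a < Λ * (R i * ‖ξ‖) := mul_lt_mul_of_pos_left hi.2.1 (by linarith)
        nlinarith [hj.2.2]
      · have h2 := hgap j i h1
        have h3 : Λ * R j * ‖ξ‖ ≤ R i * ‖ξ‖ := mul_le_mul_of_nonneg_right h2 (norm_nonneg _)
        have h4 : Λ * a < Λ * (R j * ‖ξ‖) := mul_lt_mul_of_pos_left hj.2.1 (by linarith)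
        nlinarith [hi.2.2]
    have hterm : ∀ j ∈ Finset.range n, ‖sy (Q j) ξ‖ ≤
        1 / J + (if (a < R j * ‖ξ‖ ∧ R j * ‖ξ‖ < A) then Nr else 0) := by
      intro j hj
      rw [hQsy]
      have hnorm : ‖(R j : ℂ) * ξ‖ = R j * ‖ξ‖ := by
        rw [norm_mul, Complex.norm_real, Real.norm_eq_abs, abs_of_pos (hR0 j)]
      have hJ0 : (0 : ℝ) ≤ 1 / J := by positivity
      split_ifs with hcond
      · have := sy_le k ((R j : ℂ) * ξ)
        linarith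
      · rw [add_zero]
        rw [not_and_or, not_lt, not_lt] at hcond
        rcases hcond with h1 | h1
        · exact hsmall _ (by rw [hnorm]; exact h1)
        · exact hlarge _ (by rw [hnorm]; exact h1)
    refine (Finset.sum_le_sum hterm).trans ?_
    rw [Finset.sum_add_distrib, Finset.sum_const, Finset.card_range, nsmul_eq_mul,
      ← Finset.sum_filter, ← hmid, Finset.sum_const, nsmul_eq_mul]
    have h5 : (n : ℝ) * (1 / J) ≤ 1 := by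
      rw [mul_one_div, div_le_one hJr]
      exact_mod_cast hn
    have h6 : (mid.card : ℝ) * Nr ≤ 1 * Nr := by
      have : (mid.card : ℝ) ≤ 1 := by exact_mod_cast hcard
      exact mul_le_mul_of_nonneg_right this hNr0
    linarith
  have hτ : ∀ n < J, ∀ w, PP Q n w ≠ 0 → ∫⁻ v, ‖Q n (w + v) - Q n v‖ₑ ≤
      ENNReal.ofReal (1 / J) := by
    intro n hn w hw
    have hj : ∃ j ∈ Finset.range n, Q j w ≠ 0 := by
      by_contra hcon
      push Not at hcon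
      exact hw (Finset.sum_eq_zero hcon)
    obtain ⟨j, hj1, hj2⟩ := hj
    rw [Finset.mem_range] at hj1
    have hwj : ‖w‖ ≤ r * R j := by
      by_contra hcon
      push Not at hcon
      apply hj2
      simp only [hQdef, scl]
      rw [hr, mul_zero, mul_zero]
      rw [norm_mul, Complex.norm_real, Real.norm_eq_abs, abs_of_pos (inv_pos.2 (hR0 j)),
        inv_mul_eq_div, lt_div_iff₀ (hR0 j)]
      exact hcon
    have hw2 : ‖(((R n)⁻¹ : ℝ) : ℂ) * w‖ ≤ δ := by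
      rw [norm_mul, Complex.norm_real, Real.norm_eq_abs, abs_of_pos (inv_pos.2 (hR0 n)),
        inv_mul_eq_div, div_le_iff₀ (hR0 n)]
      have h1 := hgap j n hj1
      have h2 := hR0 j
      calc ‖w‖ ≤ r * R j := hwj
        _ ≤ (Λ * δ) * R j := mul_le_mul_of_nonneg_right hΛr h2.le
        _ = δ * (Λ * R j) := by ring
        _ ≤ δ * R n := mul_le_mul_of_nonneg_left h1 hδ.le
    have e1 : ∫⁻ v, ‖Q n (w + v) - Q n v‖ₑ = ∫⁻ v, ‖scl k (R n) (w + v) - scl k (R n) v‖ₑ := by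
      refine lintegral_congr fun v => ?_
      simp only [hQdef]
      rw [← mul_sub, enorm_mul, hce, one_mul]
    rw [e1, scl_diff k (hR0 n)]
    exact hL1 _ hw2
  have hfin := GG_induct hM hg hh hg1 hh1 hgX hhX hQ (N := N) (s := s)
    (τ := ENNReal.ofReal (1 / J)) ENNReal.ofReal_ne_top hQN J hsy hτ J le_rfl
  have e2 : ∑ j ∈ Finset.range J, TT ζ f g h (Q j) =
      ((∑ j ∈ Finset.range J, ‖TT ζ f g h (scl k (R j))‖ : ℝ) : ℂ) := by
    rw [Complex.ofReal_sum]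
    refine Finset.sum_congr rfl fun j _ => ?_
    simp only [hQdef]
    rw [TT_const, hc2]
  have e3 : ∑ j ∈ Finset.range J, ‖TT ζ f g h (scl k (R j))‖ₑ =
      ‖∫ x, f x * GG ζ g h (PP Q J) x‖ₑ := by
    rw [← TT_PP hf hg hh hQ, e2, ← ofReal_norm, Complex.norm_real, Real.norm_eq_abs,
      abs_of_nonneg (Finset.sum_nonneg fun _ _ => norm_nonneg _),
      ENNReal.ofReal_sum_of_nonneg (fun _ _ => norm_nonneg _)]
    refine Finset.sum_congr rfl fun j _ => ?_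
    rw [ofReal_norm]
  rw [e3]
  refine (cs_enorm volume hf.meas.aemeasurable
    (GG_BB ζ hg hh (PP_BB hQ J)).meas.aemeasurable).trans ?_
  refine (mul_le_mul' hfX hfin).trans (le_of_eq ?_)
  have e4 : (J : ℝ≥0∞) * N * ENNReal.ofReal (1 / J) = N := by
    have h1 : (J : ℝ≥0∞) * ENNReal.ofReal (1 / J) = 1 := by
      rw [← ENNReal.ofReal_natCast, ← ENNReal.ofReal_mul hJr.le, mul_one_div, div_self hJr.ne',
        ENNReal.ofReal_one]
    calc _ = ((J : ℝ≥0∞) * ENNReal.ofReal (1 / J)) * N := by ring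
      _ = N := by rw [h1, one_mul]
  rw [e4]
  ring

end Run7.h764
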