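import Pool.Agent.Run7.h764.Term1
set_option autoImplicit false

namespace Run7.h764

open MeasureTheory Complex Set
open scoped ENNReal NNReal

lemma ee_sub_le (s t : ℝ) : ‖ee s - ee t‖ ≤ 2 * Real.pi * |s - t| := by
  have h1 : ee s - ee t = ee t * (ee (s - t) - 1) := by
    rw [mul_sub, ← ee_add, mul_one]
    congr 2
    ring
  rw [h1, norm_mul, norm_ee, one_mul]
  unfold ee
  have h2 := Real.norm_exp_I_mul_ofReal_sub_one_le (x := 2 * Real.pi * (s - t))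
  rw [mul_comm] at h2
  refine h2.trans (le_of_eq ?_)
  rw [Real.norm_eq_abs, abs_mul, abs_of_pos Real.two_pi_pos]

lemma subst_sqrt {G : ℝ → ℝ} {c0 σ : ℝ} (hc : 0 < c0) (hσ : 0 ≤ σ) (ξ : ℝ) :
    ∫ v in Ioi c0, (G (v ^ 2 + σ) : ℂ) * ee (ξ * v) =
      ∫ t in Ioi (√(c0 ^ 2 + σ)), (G (t ^ 2) : ℂ) * ee (ξ * √(t ^ 2 - σ)) *
        ((t / √(t ^ 2 - σ) : ℝ) : ℂ) := by
  set f : ℝ → ℝ := fun v => √(v ^ 2 + σ) with hf
  set f' : ℝ → ℝ := fun v => v / √(v ^ 2 + σ) with hf'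
  have himg : f '' Ioi c0 = Ioi (√(c0 ^ 2 + σ)) := by
    ext t
    simp only [mem_image, mem_Ioi, hf]
    constructor
    · rintro ⟨v, hv, rfl⟩
      apply Real.sqrt_lt_sqrt (by positivity)
      nlinarith
    · intro ht
      have ht0 : 0 < t := (Real.sqrt_nonneg _).trans_lt ht
      have h1 : c0 ^ 2 + σ < t ^ 2 := by
        rwa [Real.sqrt_lt' ht0] at ht
      refine ⟨√(t ^ 2 - σ), ?_, ?_⟩
      · apply Real.lt_sqrt_of_sq_lt
        linarith
      · rw [Real.sq_sqrt (by nlinarith), sub_add_cancel, Real.sqrt_sq ht0.le]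
  have hder : ∀ x ∈ Ioi c0, HasDerivWithinAt f (f' x) (Ioi c0) x := by
    intro x hx
    have hx0 : 0 < x := hc.trans hx
    have h1 : HasDerivAt (fun v : ℝ => v ^ 2 + σ) (2 * x) x := by
      simpa using ((hasDerivAt_id x).pow 2).add_const σ
    have h2 := h1.sqrt (by positivity)
    have h3 : f' x = 2 * x / (2 * √(x ^ 2 + σ)) := by
      simp only [hf']
      rw [mul_div_mul_left _ _ two_ne_zero]
    rw [h3]
    exact h2.hasDerivWithinAt
  have hinj : InjOn f (Ioi c0) := by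
    intro a ha b hb hab
    simp only [hf] at hab
    have ha0 : 0 < a := hc.trans ha
    have hb0 : 0 < b := hc.trans hb
    rw [Real.sqrt_inj (by positivity) (by positivity)] at hab
    exact (sq_eq_sq₀ ha0.le hb0.le).1 (by linarith)
  have h := integral_image_eq_integral_abs_deriv_smul measurableSet_Ioi hder hinj
    (fun t => (G (t ^ 2) : ℂ) * ee (ξ * √(t ^ 2 - σ)) * ((t / √(t ^ 2 - σ) : ℝ) : ℂ))
  rw [himg] at h
  rw [h]
  refine setIntegral_congr_fun measurableSet_Ioi fun v hv => ?_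
  have hv0 : 0 < v := hc.trans hv
  have h4 : 0 < √(v ^ 2 + σ) := Real.sqrt_pos.2 (by positivity)
  simp only [hf, hf']
  rw [Real.sq_sqrt (by positivity), add_sub_cancel_right, Real.sqrt_sq hv0.le,
    abs_of_pos (by positivity), Complex.real_smul]
  have h5 : ((v / √(v ^ 2 + σ) : ℝ) : ℂ) * (((√(v ^ 2 + σ) / v : ℝ)) : ℂ) = 1 := by
    rw [← Complex.ofReal_mul]
    have : v / √(v ^ 2 + σ) * (√(v ^ 2 + σ) / v) = 1 := by
      field_simp
    rw [this, Complex.ofReal_one]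
  calc _ = ((v / √(v ^ 2 + σ) : ℝ) : ℂ) * (((√(v ^ 2 + σ) / v : ℝ)) : ℂ) *
        ((G (v ^ 2 + σ) : ℂ) * ee (ξ * v)) := by rw [h5, one_mul]
    _ = _ := by ring

lemma norm_int_Ioi_le {f : ℝ → ℂ} {c B : ℝ} (hc : 0 ≤ c) (hB0 : 0 ≤ B)
    (hB : ∀ t, c < t → ‖f t‖ ≤ B) (h0 : ∀ t, 1.2 < t → f t = 0) :
    ‖∫ t in Ioi c, f t‖ ≤ 1.2 * B := by
  have e : ∫ t in Ioi c, f t = ∫ t in Ioc c 1.2, f t := by
    refine setIntegral_eq_of_subset_of_forall_sdiff_eq_zero measurableSet_Ioi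
      (fun t ht => ht.1) (fun t ht => ?_)
    apply h0
    by_contra h
    exact ht.2 ⟨ht.1, not_lt.1 h⟩
  rw [e]
  refine (norm_setIntegral_le_of_norm_le_const (C := B) (by simp)
    (fun t ht => hB t ht.1)).trans ?_
  rw [Real.volume_real_Ioc, mul_comm]
  refine mul_le_mul_of_nonneg_right ?_ hB0
  exact max_le (by linarith) (by norm_num)

lemma shift_1d {G : ℝ → ℝ} (hG : Measurable G) (hb : ∀ s, |G s| ≤ 1)
    (hs : ∀ s, 1.3 < s → G s = 0) {c0 σ ξ K : ℝ} (hc : 0 < c0) (hσ : 0 ≤ σ) (hξ : |ξ| ≤ K) :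
    ‖(∫ v in Ioi c0, (G (v ^ 2) : ℂ) * ee (ξ * v)) -
      ∫ v in Ioi c0, (G (v ^ 2 + σ) : ℂ) * ee (ξ * v)‖ ≤
      (1 / c0 + 1.2 * (2 * Real.pi * K / c0 + 1 / c0 ^ 2)) * σ := by
  rw [subst_sqrt hc hσ]
  set c1 : ℝ := √(c0 ^ 2 + σ) with hc1
  have hc1s : c1 ^ 2 = c0 ^ 2 + σ := Real.sq_sqrt (by positivity)
  have hc10 : 0 ≤ c1 := Real.sqrt_nonneg _
  have hc01 : c0 ≤ c1 := by
    apply Real.le_sqrt_of_sq_le
    linarith
  have hK : 0 ≤ K := (abs_nonneg _).trans hξ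
  set f1 : ℝ → ℂ := fun t => (G (t ^ 2) : ℂ) * ee (ξ * t) with hf1
  set f2 : ℝ → ℂ := fun t => (G (t ^ 2) : ℂ) * ee (ξ * √(t ^ 2 - σ)) *
        ((t / √(t ^ 2 - σ) : ℝ) : ℂ) with hf2
  have hGm : Measurable (fun t : ℝ => (G (t ^ 2) : ℂ)) :=
    Complex.measurable_ofReal.comp (hG.comp (by fun_prop))
  have hz : ∀ t : ℝ, 1.2 < t → G (t ^ 2) = 0 := by
    intro t ht
    apply hs
    nlinarith
  have hz1 : ∀ t : ℝ, 1.2 < t → f1 t = 0 := by
    intro t ht
    simp only [hf1, hz t ht, Complex.ofReal_zero, zero_mul]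
  have hz2 : ∀ t : ℝ, 1.2 < t → f2 t = 0 := by
    intro t ht
    simp only [hf2, hz t ht, Complex.ofReal_zero, zero_mul]
  have hGn : ∀ t : ℝ, ‖(G (t ^ 2) : ℂ)‖ ≤ 1 := by
    intro t
    rw [Complex.norm_real]
    exact hb _
  have hf1n : ∀ t, ‖f1 t‖ ≤ 1 := by
    intro t
    simp only [hf1]
    rw [norm_mul, norm_ee, mul_one]
    exact hGn t
  have hint : ∀ (f : ℝ → ℂ) (c B : ℝ), Measurable f → (∀ t, c < t → ‖f t‖ ≤ B) →
      (∀ t, 1.2 < t → f t = 0) → IntegrableOn f (Ioi c) := by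
    intro f c B hfm hfB hf0
    have h1 : IntegrableOn f (Ioc c 1.2) := by
      refine Measure.integrableOn_of_bounded (M := B) (by simp) hfm.aestronglyMeasurable ?_
      filter_upwards [ae_restrict_mem measurableSet_Ioc] with t ht
      exact hfB t ht.1
    refine h1.of_forall_sdiff_eq_zero measurableSet_Ioi (fun t ht => ?_)
    apply hf0
    by_contra h
    exact ht.2 ⟨ht.1, not_lt.1 h⟩
  have hm1 : Measurable f1 := hGm.mul (measurable_ee.comp (by fun_prop))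
  have hm2 : Measurable f2 := (hGm.mul (measurable_ee.comp (by fun_prop))).mul
    (Complex.measurable_ofReal.comp (by fun_prop))
  -- pointwise difference
  have hdiff : ∀ t, c1 < t → ‖f1 t - f2 t‖ ≤ (2 * Real.pi * K / c0 + 1 / c0 ^ 2) * σ := by
    intro t ht
    have ht0 : c0 < t := hc01.trans_lt ht
    set τ : ℝ := √(t ^ 2 - σ) with hτ
    have h1 : c0 ^ 2 < t ^ 2 - σ := by nlinarith
    have h2 : c0 < τ := Real.lt_sqrt_of_sq_lt h1
    have h3 : τ ^ 2 = t ^ 2 - σ := Real.sq_sqrt (by nlinarith)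
    have h4 : (t - τ) * (t + τ) = σ := by nlinarith
    have h5 : 0 ≤ t - τ := by
      by_contra h
      push Not at h
      nlinarith
    have h6 : t - τ ≤ σ / c0 := by
      rw [le_div_iff₀ hc]
      nlinarith
    have e1 : f1 t - f2 t = (G (t ^ 2) : ℂ) * ((ee (ξ * t) - ee (ξ * τ)) -
        ee (ξ * τ) * (((t - τ) / τ : ℝ) : ℂ)) := by
      have h7 : (t / τ : ℝ) = 1 + (t - τ) / τ := by
        have : τ ≠ 0 := (hc.trans h2).ne'
        field_simp
        ring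
      simp only [hf1, hf2]
      rw [h7]
      push_cast
      ring
    rw [e1, norm_mul]
    have h8 : ‖(ee (ξ * t) - ee (ξ * τ)) - ee (ξ * τ) * (((t - τ) / τ : ℝ) : ℂ)‖ ≤
        2 * Real.pi * K / c0 * σ + 1 / c0 ^ 2 * σ := by
      refine (norm_sub_le _ _).trans (add_le_add ?_ ?_)
      · refine (ee_sub_le _ _).trans ?_
        rw [← mul_sub, abs_mul, abs_of_nonneg h5]
        calc 2 * Real.pi * (|ξ| * (t - τ)) ≤ 2 * Real.pi * (K * (σ / c0)) := by gcongr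
          _ = _ := by ring
      · rw [norm_mul, norm_ee, one_mul, Complex.norm_real, Real.norm_eq_abs,
          abs_of_nonneg (div_nonneg h5 (hc.trans h2).le)]
        calc (t - τ) / τ ≤ (σ / c0) / c0 := by gcongr
          _ = _ := by
            field_simp
    calc _ ≤ 1 * (2 * Real.pi * K / c0 * σ + 1 / c0 ^ 2 * σ) :=
          mul_le_mul (hGn t) h8 (norm_nonneg _) zero_le_one
      _ = _ := by ring
  have hf2n : ∀ t, c1 < t → ‖f2 t‖ ≤ 1 + (2 * Real.pi * K / c0 + 1 / c0 ^ 2) * σ := by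
    intro t ht
    have := norm_sub_norm_le (f2 t) (f1 t)
    rw [norm_sub_rev] at this
    linarith [hdiff t ht, hf1n t]
  have hi1 : IntegrableOn f1 (Ioi c0) := hint f1 c0 1 hm1 (fun t _ => hf1n t) hz1
  have hi1' : IntegrableOn f1 (Ioi c1) := hi1.mono_set (Ioi_subset_Ioi hc01)
  have hi2 : IntegrableOn f2 (Ioi c1) := hint f2 c1 _ hm2 hf2n hz2
  have e2 : ∫ t in Ioi c0, f1 t = (∫ t in Ioc c0 c1, f1 t) + ∫ t in Ioi c1, f1 t := by
    rw [← Ioc_union_Ioi_eq_Ioi hc01, setIntegral_union _ measurableSet_Ioi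
      (hi1.mono_set Ioc_subset_Ioi_self) hi1']
    exact Set.Ioc_disjoint_Ioi le_rfl
  rw [e2, add_sub_assoc, ← integral_sub hi1' hi2]
  refine (norm_add_le _ _).trans ?_
  have h9 : ‖∫ t in Ioc c0 c1, f1 t‖ ≤ 1 / c0 * σ := by
    refine (norm_setIntegral_le_of_norm_le_const (C := 1) (by simp)
      (fun t _ => hf1n t)).trans ?_
    rw [Real.volume_real_Ioc_of_le hc01, one_mul, one_div, inv_mul_eq_div, le_div_iff₀ hc]
    nlinarith
  have h10 : ‖∫ t in Ioi c1, (f1 t - f2 t)‖ ≤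
      1.2 * ((2 * Real.pi * K / c0 + 1 / c0 ^ 2) * σ) := by
    refine norm_int_Ioi_le hc10 (by positivity) hdiff (fun t ht => ?_)
    rw [hz1 t ht, hz2 t ht, sub_zero]
  calc _ ≤ 1 / c0 * σ + 1.2 * ((2 * Real.pi * K / c0 + 1 / c0 ^ 2) * σ) := add_le_add h9 h10
    _ = _ := by ring

lemma halfplane {f : ℂ → ℂ} (hf : BB f) (c0 : ℝ) :
    ∫ w in {w : ℂ | c0 < w.im}, f w = ∫ x : ℝ, ∫ v in Ioi c0, f (x + v * I) := by
  have mp := Complex.volume_preserving_equiv_real_prod.symm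
  set e := Complex.measurableEquivRealProd with he
  have h1 := mp.setIntegral_preimage_emb e.symm.measurableEmbedding f {w : ℂ | c0 < w.im}
  rw [← h1]
  have h2 : e.symm ⁻¹' {w : ℂ | c0 < w.im} = (univ : Set ℝ) ×ˢ Ioi c0 := by
    ext p
    simp [he]
  rw [h2]
  have h3 : ∀ p : ℝ × ℝ, e.symm p = p.1 + p.2 * I := by
    intro p
    apply Complex.ext <;> simp [he]
  have h4 : Integrable (fun p : ℝ × ℝ => f (e.symm p)) :=
    (mp.integrable_comp_emb e.symm.measurableEmbedding).2 (hf.integrable volume)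
  have h5 := setIntegral_prod (μ := volume) (ν := volume) (s := univ) (t := Ioi c0)
    (fun p : ℝ × ℝ => f (e.symm p)) h4.integrableOn
  have h6 : (volume : Measure (ℝ × ℝ)) = (volume : Measure ℝ).prod volume := rfl
  rw [h6, h5, Measure.restrict_univ]
  refine integral_congr_ae (Filter.Eventually.of_forall fun x => ?_)
  refine integral_congr_ae (Filter.Eventually.of_forall fun v => ?_)
  simp only [h3]

/-- product weight -/
noncomputable def FF (ρ : ℝ → ℝ) (k w : ℂ) : ℂ :=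
  ((ρ (Complex.normSq w) * ρ (Complex.normSq (w + k)) : ℝ) : ℂ)

lemma FF_BB {ρ : ℝ → ℝ} (h : Wt ρ) (k : ℂ) : BB (FF ρ k) := by
  unfold FF
  refine ⟨Complex.measurable_ofReal.comp ((h.meas.comp (by fun_prop)).mul
    (h.meas.comp (by fun_prop))), ⟨1, fun w => ?_⟩, ⟨2, fun w hw => ?_⟩⟩
  · rw [Complex.norm_real, Real.norm_eq_abs, abs_mul]
    exact mul_le_one₀ (h.bdd _) (abs_nonneg _) (h.bdd _)
  · rw [h.supp (Complex.normSq w), zero_mul, Complex.ofReal_zero]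
    rw [Set.mem_Icc, Complex.normSq_eq_norm_sq]
    rintro ⟨h1, h2⟩
    nlinarith

lemma FF_norm {ρ : ℝ → ℝ} (h : Wt ρ) (k w : ℂ) : ‖FF ρ k w‖ ≤ 1 := by
  unfold FF
  rw [Complex.norm_real, Real.norm_eq_abs, abs_mul]
  exact mul_le_one₀ (h.bdd _) (abs_nonneg _) (h.bdd _)

/-- the smaller class of weights -/
structure Wt1 (ρ : ℝ → ℝ) : Prop where
  meas : Measurable ρ
  bdd : ∀ s, |ρ s| ≤ 1
  supp : ∀ s, s ∉ Set.Icc (1 : ℝ) 1.3 → ρ s = 0

lemma Wt1.shift {ρ : ℝ → ℝ} (h : Wt1 ρ) {σ : ℝ} (h0 : 0 ≤ σ) (h1 : σ ≤ 0.1) :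
    Wt (fun s => ρ (s + σ)) := by
  refine ⟨h.meas.comp (by fun_prop), fun s => h.bdd _, fun s hs => h.supp _ ?_⟩
  rw [Set.mem_Icc] at hs ⊢
  intro h2
  apply hs
  constructor
  · norm_num at *
    linarith [h2.1]
  · linarith [h2.2]

lemma Wt1.wt {ρ : ℝ → ℝ} (h : Wt1 ρ) : Wt ρ := by
  simpa using h.shift le_rfl (by norm_num)

lemma normSq_xv (x v : ℝ) : Complex.normSq (x + v * I) = x ^ 2 + v ^ 2 := by
  rw [Complex.normSq_apply]
  simp
  ring

lemma shift_half {ρ : ℝ → ℝ} (h : Wt1 ρ) (l : ℝ) {c0 σ ξ1 ξ2 K : ℝ} (hc : 0 < c0)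
    (hσ : 0 ≤ σ) (hσ1 : σ ≤ 0.1) (hξ : |ξ2| ≤ K) :
    ‖∫ w in {w : ℂ | c0 < w.im}, (FF ρ l w - FF (fun s => ρ (s + σ)) l w) *
        ee (ξ1 * w.re + ξ2 * w.im)‖ ≤
      2.4 * ((1 / c0 + 1.2 * (2 * Real.pi * K / c0 + 1 / c0 ^ 2)) * σ) := by
  have hB : BB (fun w => (FF ρ l w - FF (fun s => ρ (s + σ)) l w) *
        ee (ξ1 * w.re + ξ2 * w.im)) :=
    ((FF_BB h.wt l).sub (FF_BB (h.shift hσ hσ1) l)).mul_bdd (measurable_ee.comp (by fun_prop))
      ⟨1, fun x => (norm_ee _).le⟩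
  rw [halfplane hB]
  have hK : 0 ≤ K := (abs_nonneg _).trans hξ
  set B : ℝ := (1 / c0 + 1.2 * (2 * Real.pi * K / c0 + 1 / c0 ^ 2)) * σ with hBdef
  have hB0 : 0 ≤ B := by positivity
  set φ : ℝ → ℂ := fun x => ∫ v in Ioi c0, (FF ρ l (x + v * I) -
    FF (fun s => ρ (s + σ)) l (x + v * I)) * ee (ξ1 * ((x : ℂ) + v * I).re +
      ξ2 * ((x : ℂ) + v * I).im) with hφ
  set G : ℝ → ℝ → ℝ := fun x s => ρ (x ^ 2 + s) * ρ ((x + l) ^ 2 + s) with hG
  have hGm : ∀ x, Measurable (G x) := fun x =>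
    (h.meas.comp (by fun_prop)).mul (h.meas.comp (by fun_prop))
  have hGb : ∀ x s, |G x s| ≤ 1 := by
    intro x s
    simp only [hG]
    rw [abs_mul]
    exact mul_le_one₀ (h.bdd _) (abs_nonneg _) (h.bdd _)
  have hGz : ∀ x s, 1.3 < x ^ 2 + s → G x s = 0 := by
    intro x s hs
    simp only [hG]
    rw [h.supp (x ^ 2 + s) (fun h2 => absurd h2.2 (not_le.2 hs)), zero_mul]
  have hGBB : ∀ x τ : ℝ, 0 ≤ τ → BB (fun v : ℝ => (G x (v ^ 2 + τ) : ℂ) * ee (ξ2 * v)) := by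
    intro x τ hτ
    have h1 : BB (fun v : ℝ => (G x (v ^ 2 + τ) : ℂ)) := by
      refine ⟨Complex.measurable_ofReal.comp ((hGm x).comp (by fun_prop)), ⟨1, fun v => ?_⟩,
        ⟨2, fun v hv => ?_⟩⟩
      · rw [Complex.norm_real]
        exact hGb _ _
      · rw [hGz x _ ?_, Complex.ofReal_zero]
        rw [Real.norm_eq_abs] at hv
        have : 4 < v ^ 2 := by
          rw [← sq_abs]
          nlinarith
        nlinarith [sq_nonneg x]
    exact h1.mul_bdd (measurable_ee.comp (by fun_prop)) ⟨1, fun x => (norm_ee _).le⟩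
  have hφ2 : ∀ x : ℝ, φ x = ee (ξ1 * x) * ((∫ v in Ioi c0, (G x (v ^ 2) : ℂ) * ee (ξ2 * v)) -
      ∫ v in Ioi c0, (G x (v ^ 2 + σ) : ℂ) * ee (ξ2 * v)) := by
    intro x
    have i1 := ((hGBB x 0 le_rfl).integrable volume).integrableOn (s := Ioi c0)
    simp only [add_zero] at i1
    have i2 := ((hGBB x σ hσ).integrable volume).integrableOn (s := Ioi c0)
    rw [← integral_sub i1 i2, ← integral_const_mul]
    simp only [hφ]
    refine integral_congr_ae (Filter.Eventually.of_forall fun v => ?_)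
    simp only
    have e1 : Complex.normSq ((x : ℂ) + v * I + l) = (x + l) ^ 2 + v ^ 2 := by
      rw [← normSq_xv (x + l) v]
      congr 1
      push_cast
      ring
    have e2 : ((x : ℂ) + v * I).re = x := by simp
    have e3 : ((x : ℂ) + v * I).im = v := by simp
    have e4 : FF ρ l (x + v * I) = (G x (v ^ 2) : ℂ) := by
      rw [FF, e1, normSq_xv]
    have e5 : FF (fun s => ρ (s + σ)) l (x + v * I) = (G x (v ^ 2 + σ) : ℂ) := by
      rw [FF, e1, normSq_xv]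
      simp only [hG, add_assoc]
    rw [e2, e3, e4, e5, ee_add]
    ring
  have hφn : ∀ x, ‖φ x‖ ≤ B := by
    intro x
    rw [hφ2, norm_mul, norm_ee, one_mul]
    refine shift_1d (hGm x) (hGb x) (fun s hs => hGz x s ?_) hc hσ hξ
    nlinarith [sq_nonneg x]
  have hφz : ∀ x, x ∉ Icc (-1.2 : ℝ) 1.2 → φ x = 0 := by
    intro x hx
    have hx2 : 1.3 < x ^ 2 := by
      by_contra hcon
      push Not at hcon
      apply hx
      constructor <;> norm_num at hcon ⊢ <;> nlinarith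
    rw [hφ2]
    have z1 : ∀ v : ℝ, G x (v ^ 2) = 0 := fun v => hGz x _ (by nlinarith [sq_nonneg v])
    have z2 : ∀ v : ℝ, G x (v ^ 2 + σ) = 0 := fun v => hGz x _ (by nlinarith [sq_nonneg v])
    simp_rw [z1, z2]
    simp
  rw [← setIntegral_eq_integral_of_forall_compl_eq_zero (s := Icc (-1.2 : ℝ) 1.2) hφz]
  refine (norm_setIntegral_le_of_norm_le_const (C := B) (by simp)
    (fun x _ => hφn x)).trans (le_of_eq ?_)
  rw [Real.volume_real_Icc_of_le (by norm_num)]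
  norm_num
  ring

end Run7.h764
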