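import Pool.Agent.Run7.h764.Heis
set_option autoImplicit false

namespace Run7.h764

open MeasureTheory Complex
open scoped ENNReal NNReal

/-- one dimensional Fourier transform -/
noncomputable def ft (f : ℝ → ℂ) (N : ℝ) : ℂ := ∫ s, f s * ee (-(s * N))

lemma fourier_eq_ft (f : ℝ → ℂ) (N : ℝ) : FourierTransform.fourier f N = ft f N := by
  rw [Real.fourier_eq', ft]
  refine integral_congr_ae (Filter.Eventually.of_forall fun s => ?_)
  simp only [smul_eq_mul]
  rw [mul_comm]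
  congr 1
  unfold ee
  congr 2
  simp only [RCLike.inner_apply, conj_trivial]
  push_cast
  ring

lemma plancherel_ft {f : ℝ → ℂ} (hf : BB f) : ∫⁻ N, ‖ft f N‖ₑ ^ 2 = ∫⁻ s, ‖f s‖ₑ ^ 2 := by
  rw [← Pool.Agent.H153R4.plancherel f (hf.integrable volume) (hf.memLp volume)]
  refine lintegral_congr fun N => ?_
  rw [fourier_eq_ft]

lemma measurable_ft {f : ℝ → ℂ} (hf : Measurable f) : Measurable (ft f) := by
  have : Measurable (fun p : ℝ × ℝ => f p.2 * ee (-(p.2 * p.1))) :=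
    (hf.comp measurable_snd).mul (measurable_ee.comp (by fun_prop))
  exact (this.stronglyMeasurable.integral_prod_right' (ν := volume)).measurable

lemma parseval_ft {u v : ℝ → ℂ} (hu : BB u) (hv : BB v) :
    ∫ N, (starRingEnd ℂ) (ft u N) * ft v N = ∫ s, (starRingEnd ℂ) (u s) * v s := by
  have h1 := Pool.Agent.H153R4.fourier_ae_eq u (hu.integrable volume) (hu.memLp volume)
  have h2 := Pool.Agent.H153R4.fourier_ae_eq v (hv.integrable volume) (hv.memLp volume)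
  have h3 := Lp.inner_fourier_eq ((hu.memLp volume).toLp u) ((hv.memLp volume).toLp v)
  rw [L2.inner_def, L2.inner_def] at h3
  have e1 : ∫ N, (starRingEnd ℂ) (ft u N) * ft v N =
      ∫ N, inner ℂ ((FourierTransform.fourier ((hu.memLp volume).toLp u) : Lp ℂ 2 volume) N)
        ((FourierTransform.fourier ((hv.memLp volume).toLp v) : Lp ℂ 2 volume) N) := by
    refine integral_congr_ae ?_
    filter_upwards [h1, h2] with N k1 k2
    rw [k1, k2, fourier_eq_ft, fourier_eq_ft, RCLike.inner_apply, mul_comm]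
  rw [e1, h3]
  refine integral_congr_ae ?_
  filter_upwards [(hu.memLp volume).coeFn_toLp, (hv.memLp volume).coeFn_toLp] with N k1 k2
  rw [k1, k2, RCLike.inner_apply, mul_comm]

/-- the class of admissible weights -/
structure Wt (ρ : ℝ → ℝ) : Prop where
  meas : Measurable ρ
  bdd : ∀ s, |ρ s| ≤ 1
  supp : ∀ s, s ∉ Set.Icc (0.9 : ℝ) 1.3 → ρ s = 0

lemma Wt.BB {ρ : ℝ → ℝ} (h : Wt ρ) : BB (fun s => (ρ s : ℂ)) := by
  refine ⟨Complex.measurable_ofReal.comp h.meas, ⟨1, fun s => ?_⟩, ⟨2, fun s hs => ?_⟩⟩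
  · rw [Complex.norm_real]
    exact h.bdd s
  · rw [h.supp s, Complex.ofReal_zero]
    rw [Set.mem_Icc]
    rintro ⟨h1, h2⟩
    rw [Real.norm_eq_abs, abs_of_nonneg (by linarith)] at hs
    linarith

/-- the averaged weight -/
noncomputable def PF (ρ : ℝ → ℝ) (σ0 : ℝ) (k w : ℂ) : ℂ :=
  ((σ0⁻¹ * ∫ σ in Set.Icc 0 σ0, ρ (Complex.normSq w + σ) * ρ (Complex.normSq (w + k) + σ) : ℝ) : ℂ)

/-- the local piece of the weight -/
noncomputable def uu (ρ : ℝ → ℝ) (σ0 : ℝ) (w : ℂ) (s : ℝ) : ℝ :=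
  σ0⁻¹ * (Set.Icc 0 σ0).indicator (fun _ => (1 : ℝ)) (s - Complex.normSq w) * ρ s

lemma measurable_uu {ρ : ℝ → ℝ} (hρ : Measurable ρ) (σ0 : ℝ) :
    Measurable (fun p : ℂ × ℝ => uu ρ σ0 p.1 p.2) := by
  unfold uu
  have h1 : Measurable ((Set.Icc 0 σ0).indicator (fun _ => (1 : ℝ))) :=
    measurable_const.indicator measurableSet_Icc
  have h2 : Measurable (fun p : ℂ × ℝ => p.2 - Complex.normSq p.1) := by fun_prop
  exact ((h1.comp h2).const_mul _).mul (hρ.comp measurable_snd)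

lemma uu_abs {ρ : ℝ → ℝ} (h : Wt ρ) {σ0 : ℝ} (hσ : 0 < σ0) (w : ℂ) (s : ℝ) :
    |uu ρ σ0 w s| ≤ σ0⁻¹ * (Set.Icc (Complex.normSq w) (Complex.normSq w + σ0)).indicator
      (fun _ => (1 : ℝ)) s := by
  unfold uu
  by_cases hs : s - Complex.normSq w ∈ Set.Icc 0 σ0
  · have hs2 : s ∈ Set.Icc (Complex.normSq w) (Complex.normSq w + σ0) := by
      rw [Set.mem_Icc] at hs ⊢
      constructor <;> linarith [hs.1, hs.2]
    rw [Set.indicator_of_mem hs, Set.indicator_of_mem hs2, mul_one, abs_mul,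
      abs_of_pos (inv_pos.2 hσ)]
    calc _ ≤ σ0⁻¹ * 1 := mul_le_mul_of_nonneg_left (h.bdd s) (inv_pos.2 hσ).le
      _ = _ := mul_one _
  · rw [Set.indicator_of_notMem hs, mul_zero, zero_mul, abs_zero]
    refine mul_nonneg (inv_pos.2 hσ).le ?_
    exact Set.indicator_nonneg (fun _ _ => zero_le_one) _

lemma uu_BB {ρ : ℝ → ℝ} (h : Wt ρ) {σ0 : ℝ} (hσ : 0 < σ0) (w : ℂ) :
    BB (fun s => (uu ρ σ0 w s : ℂ)) := by
  refine ⟨?_, ⟨σ0⁻¹, fun s => ?_⟩, ⟨2, fun s hs => ?_⟩⟩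
  · have h1 := (measurable_uu h.meas σ0).comp (measurable_prodMk_left (x := w))
    exact Complex.measurable_ofReal.comp h1
  · rw [Complex.norm_real, Real.norm_eq_abs]
    refine (uu_abs h hσ w s).trans ?_
    have : (Set.Icc (Complex.normSq w) (Complex.normSq w + σ0)).indicator
      (fun _ => (1 : ℝ)) s ≤ 1 := Set.indicator_le_self' (fun _ _ => zero_le_one) _
    calc _ ≤ σ0⁻¹ * 1 := mul_le_mul_of_nonneg_left this (inv_pos.2 hσ).le
      _ = _ := mul_one _
  · unfold uu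
    rw [h.supp s, mul_zero, Complex.ofReal_zero]
    rw [Set.mem_Icc]
    rintro ⟨h1, h2⟩
    rw [Real.norm_eq_abs, abs_of_nonneg (by linarith)] at hs
    linarith

lemma uu_zero {ρ : ℝ → ℝ} (h : Wt ρ) (σ0 : ℝ) {w : ℂ} (hw : 2 < ‖w‖) (s : ℝ) :
    uu ρ σ0 w s = 0 := by
  unfold uu
  by_cases hs : s - Complex.normSq w ∈ Set.Icc 0 σ0
  · rw [h.supp s, mul_zero]
    rw [Set.mem_Icc]
    rintro ⟨h1, h2⟩
    have h3 := hs.1
    have h4 : (4 : ℝ) < Complex.normSq w := by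
      rw [Complex.normSq_eq_norm_sq]
      nlinarith
    linarith
  · rw [Set.indicator_of_notMem hs, mul_zero, zero_mul]

lemma PF_eq (ρ : ℝ → ℝ) (σ0 : ℝ) (k w : ℂ) :
    PF ρ σ0 k w = ∫ s, (starRingEnd ℂ) (uu ρ σ0 w s : ℂ) *
      ((ρ (s + (2 * dot w k + Complex.normSq k)) : ℝ) : ℂ) := by
  have e1 : ∀ s : ℝ, (starRingEnd ℂ) (uu ρ σ0 w s : ℂ) *
      ((ρ (s + (2 * dot w k + Complex.normSq k)) : ℝ) : ℂ) =
      ((uu ρ σ0 w s * ρ (s + (2 * dot w k + Complex.normSq k)) : ℝ) : ℂ) := by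
    intro s
    rw [Complex.conj_ofReal]
    push_cast
    rfl
  simp_rw [e1]
  rw [integral_complex_ofReal, PF]
  congr 1
  have e2 := integral_add_right_eq_self (μ := volume)
    (fun s => uu ρ σ0 w s * ρ (s + (2 * dot w k + Complex.normSq k))) (Complex.normSq w)
  rw [← e2, ← integral_const_mul, ← integral_indicator measurableSet_Icc]
  refine integral_congr_ae (Filter.Eventually.of_forall fun σ => ?_)
  have e3 : Complex.normSq (w + k) = Complex.normSq w + (2 * dot w k + Complex.normSq k) := by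
    rw [Complex.normSq_apply, Complex.normSq_apply, Complex.normSq_apply, dot]
    simp only [Complex.add_re, Complex.add_im]
    ring
  simp only [uu, add_sub_cancel_right, e3]
  by_cases hs : σ ∈ Set.Icc 0 σ0
  · rw [Set.indicator_of_mem hs, Set.indicator_of_mem hs]
    rw [add_comm σ (Complex.normSq w), add_right_comm]
    ring
  · rw [Set.indicator_of_notMem hs, Set.indicator_of_notMem hs]
    ring

/-- Fourier coefficient of the local piece -/
noncomputable def aa (ρ : ℝ → ℝ) (σ0 N : ℝ) (w : ℂ) : ℂ :=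
  (starRingEnd ℂ) (ft (fun s => (uu ρ σ0 w s : ℂ)) N)

lemma PF_eq2 {ρ : ℝ → ℝ} (h : Wt ρ) {σ0 : ℝ} (hσ : 0 < σ0) (k w : ℂ) :
    PF ρ σ0 k w = ∫ N, aa ρ σ0 N w * (ee (N * (2 * dot w k + Complex.normSq k)) *
      ft (fun s => (ρ s : ℂ)) N) := by
  set A : ℝ := 2 * dot w k + Complex.normSq k with hA
  have hv : BB (fun s => ((ρ (s + A) : ℝ) : ℂ)) := by
    refine h.BB.comp (by fun_prop) (fun R => ⟨R + |A|, fun x hx => ?_⟩)
    rw [Real.norm_eq_abs] at hx ⊢
    have := abs_sub_abs_le_abs_sub x (-A)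
    rw [sub_neg_eq_add, abs_neg] at this
    linarith
  rw [PF_eq, ← parseval_ft (uu_BB h hσ w) hv]
  refine integral_congr_ae (Filter.Eventually.of_forall fun N => ?_)
  simp only [aa]
  congr 1
  unfold ft
  have e2 := integral_add_right_eq_self (μ := volume)
    (fun s => (ρ s : ℂ) * ee (-(s * N)) * ee (N * A)) A
  rw [← integral_const_mul]
  have e3 : ∀ s : ℝ, (ρ s : ℂ) * ee (-(s * N)) * ee (N * A) =
    ee (N * A) * ((ρ s : ℂ) * ee (-(s * N))) := fun s => by ring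
  simp_rw [← e3]
  rw [← e2]
  refine integral_congr_ae (Filter.Eventually.of_forall fun s => ?_)
  simp only
  rw [mul_assoc, ← ee_add]
  congr 2
  ring

lemma measurable_aa {ρ : ℝ → ℝ} (hρ : Measurable ρ) (σ0 : ℝ) :
    Measurable (fun p : ℝ × ℂ => aa ρ σ0 p.1 p.2) := by
  have h1 : Measurable (fun q : (ℝ × ℂ) × ℝ => (uu ρ σ0 q.1.2 q.2 : ℂ) * ee (-(q.2 * q.1.1))) := by
    have h2 : Measurable (fun q : (ℝ × ℂ) × ℝ => (q.1.2, q.2)) := by fun_prop
    have h3 := (measurable_uu hρ σ0).comp h2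
    exact (Complex.measurable_ofReal.comp h3).mul (measurable_ee.comp (by fun_prop))
  exact Complex.continuous_conj.measurable.comp
    (h1.stronglyMeasurable.integral_prod_right' (ν := volume)).measurable

lemma aa_bdd {ρ : ℝ → ℝ} (h : Wt ρ) {σ0 : ℝ} (hσ : 0 < σ0) (N : ℝ) (w : ℂ) :
    ‖aa ρ σ0 N w‖ ≤ 1 := by
  unfold aa ft
  rw [RCLike.norm_conj]
  refine (norm_integral_le_integral_norm _).trans ?_
  have h1 : ∀ s : ℝ, ‖(uu ρ σ0 w s : ℂ) * ee (-(s * N))‖ ≤
      σ0⁻¹ * (Set.Icc (Complex.normSq w) (Complex.normSq w + σ0)).indicator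
      (fun _ => (1 : ℝ)) s := by
    intro s
    rw [norm_mul, norm_ee, mul_one, Complex.norm_real]
    exact uu_abs h hσ w s
  have h2 : Integrable (fun s => σ0⁻¹ * (Set.Icc (Complex.normSq w)
      (Complex.normSq w + σ0)).indicator (fun _ => (1 : ℝ)) s) := by
    refine Integrable.const_mul ?_ _
    rw [integrable_indicator_iff measurableSet_Icc]
    exact integrableOn_const (by simp) (by simp)
  refine (integral_mono_of_nonneg (Filter.Eventually.of_forall fun s => norm_nonneg _) h2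
    (Filter.Eventually.of_forall h1)).trans (le_of_eq ?_)
  rw [integral_const_mul, integral_indicator measurableSet_Icc, setIntegral_const]
  simp only [smul_eq_mul, mul_one, Real.volume_real_Icc, add_sub_cancel_left]
  rw [max_eq_left hσ.le, inv_mul_cancel₀ hσ.ne']

lemma aa_zero {ρ : ℝ → ℝ} (h : Wt ρ) (σ0 N : ℝ) {w : ℂ} (hw : 2 < ‖w‖) :
    aa ρ σ0 N w = 0 := by
  unfold aa ft
  simp_rw [uu_zero h σ0 hw]
  simp

lemma aa_BB {ρ : ℝ → ℝ} (h : Wt ρ) {σ0 : ℝ} (hσ : 0 < σ0) (N : ℝ) : BB (aa ρ σ0 N) := by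
  refine ⟨?_, ⟨1, aa_bdd h hσ N⟩, ⟨2, fun w hw => aa_zero h σ0 N hw⟩⟩
  have h1 : Measurable (Function.uncurry (aa ρ σ0)) := measurable_aa h.meas σ0
  exact h1.of_uncurry_left

lemma lint_aa {ρ : ℝ → ℝ} (h : Wt ρ) {σ0 : ℝ} (hσ : 0 < σ0) (w : ℂ) :
    ∫⁻ N, ‖aa ρ σ0 N w‖ₑ ^ 2 ≤
      (Metric.closedBall (0 : ℂ) 2).indicator (fun _ => ENNReal.ofReal σ0⁻¹) w := by
  by_cases hw : 2 < ‖w‖
  · simp_rw [aa_zero h σ0 _ hw]
    simp
  · rw [Set.indicator_of_mem (by rw [Metric.mem_closedBall, dist_zero_right]; exact not_lt.1 hw)]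
    have e1 : ∫⁻ N, ‖aa ρ σ0 N w‖ₑ ^ 2 = ∫⁻ s, ‖(uu ρ σ0 w s : ℂ)‖ₑ ^ 2 := by
      rw [← plancherel_ft (uu_BB h hσ w)]
      refine lintegral_congr fun N => ?_
      rw [aa, ← ofReal_norm, RCLike.norm_conj, ofReal_norm]
    rw [e1]
    have h1 : ∀ s : ℝ, ‖(uu ρ σ0 w s : ℂ)‖ₑ ^ 2 ≤
        (Set.Icc (Complex.normSq w) (Complex.normSq w + σ0)).indicator
          (fun _ => ENNReal.ofReal (σ0⁻¹ ^ 2)) s := by
      intro s
      have h2 := uu_abs h hσ w s
      rw [← ofReal_norm, Complex.norm_real, Real.norm_eq_abs,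
        ← ENNReal.ofReal_pow (abs_nonneg _)]
      by_cases hs : s ∈ Set.Icc (Complex.normSq w) (Complex.normSq w + σ0)
      · rw [Set.indicator_of_mem hs] at h2 ⊢
        rw [mul_one] at h2
        exact ENNReal.ofReal_le_ofReal (pow_le_pow_left₀ (abs_nonneg _) h2 2)
      · rw [Set.indicator_of_notMem hs] at h2 ⊢
        rw [mul_zero] at h2
        have h3 : |uu ρ σ0 w s| = 0 := le_antisymm h2 (abs_nonneg _)
        rw [h3]
        simp
    refine (lintegral_mono h1).trans (le_of_eq ?_)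
    rw [lintegral_indicator measurableSet_Icc, setLIntegral_const, Real.volume_Icc,
      add_sub_cancel_left, ← ENNReal.ofReal_mul (by positivity)]
    congr 1
    field_simp

lemma lint_lint_aa {ρ : ℝ → ℝ} (h : Wt ρ) {σ0 : ℝ} (hσ : 0 < σ0) :
    ∫⁻ N, ∫⁻ w, ‖aa ρ σ0 N w‖ₑ ^ 2 ≤
      ENNReal.ofReal σ0⁻¹ * volume (Metric.closedBall (0 : ℂ) 2) := by
  rw [lintegral_lintegral_swap (f := fun N w => ‖aa ρ σ0 N w‖ₑ ^ 2)
    ((measurable_aa h.meas σ0).enorm.pow_const 2).aemeasurable]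
  refine (lintegral_mono (lint_aa h hσ)).trans (le_of_eq ?_)
  rw [lintegral_indicator Metric.isClosed_closedBall.measurableSet, setLIntegral_const]

attribute [irreducible] aa

lemma measurable_aa_left {ρ : ℝ → ℝ} (hρ : Measurable ρ) (σ0 : ℝ) (w : ℂ) :
    Measurable (fun N => aa ρ σ0 N w) := by
  have h1 : Measurable (Function.uncurry (aa ρ σ0)) := measurable_aa hρ σ0
  exact h1.of_uncurry_right

lemma tonelli3 {α β γ : Type*} [MeasurableSpace α] [MeasurableSpace β] [MeasurableSpace γ]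
    (μ : Measure α) (ν : Measure β) (τ : Measure γ) [SFinite μ] [SFinite ν] [SFinite τ]
    (F : (α × β) × γ → ℝ≥0∞) (hF : Measurable F) :
    ∫⁻ a, ∫⁻ b, ∫⁻ c, F ((a, b), c) ∂τ ∂ν ∂μ = ∫⁻ c, ∫⁻ a, ∫⁻ b, F ((a, b), c) ∂ν ∂μ ∂τ := by
  have h1 : ∀ a, ∫⁻ b, ∫⁻ c, F ((a, b), c) ∂τ ∂ν = ∫⁻ c, ∫⁻ b, F ((a, b), c) ∂ν ∂τ := by
    intro a
    refine lintegral_lintegral_swap (f := fun b c => F ((a, b), c)) ?_
    have m1 : Measurable (fun q : β × γ => ((a, q.1), q.2)) := by fun_prop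
    exact (hF.comp m1).aemeasurable
  simp_rw [h1]
  refine lintegral_lintegral_swap (f := fun a c => ∫⁻ b, F ((a, b), c) ∂ν) ?_
  have m2 : Measurable (fun q : (α × γ) × β => F ((q.1.1, q.2), q.1.2)) := by
    have m1 : Measurable (fun q : (α × γ) × β => ((q.1.1, q.2), q.1.2)) := by fun_prop
    exact hF.comp m1
  exact (m2.lintegral_prod_right' (ν := ν)).aemeasurable

lemma ennreal_mul_le_sq (a b : ℝ≥0∞) : a * b ≤ a ^ 2 + b ^ 2 := by
  rcases le_total a b with h | h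
  · calc a * b ≤ b * b := mul_le_mul_left h b
      _ = b ^ 2 := (sq b).symm
      _ ≤ _ := le_add_self
  · calc a * b ≤ a * a := mul_le_mul_right h a
      _ = a ^ 2 := (sq a).symm
      _ ≤ _ := le_self_add

lemma cs_weight {R E : ℝ → ℂ} (hR : Measurable R) (hE : Measurable E) :
    ‖∫ N, R N * E N‖ₑ ^ 2 ≤ (∫⁻ N, ‖R N‖ₑ ^ 2 * ENNReal.ofReal (1 / (1 + |N|))) *
      ∫⁻ N, ENNReal.ofReal (1 + |N|) * ‖E N‖ₑ ^ 2 := by
  have h1 : ‖∫ N, R N * E N‖ₑ ≤ ∫⁻ N, (‖R N‖ₑ * ENNReal.ofReal (√(1 / (1 + |N|)))) *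
      (‖E N‖ₑ * ENNReal.ofReal (√(1 + |N|))) := by
    refine (enorm_integral_le_lintegral_enorm _).trans (le_of_eq ?_)
    refine lintegral_congr fun N => ?_
    have h0 : (0 : ℝ) < 1 + |N| := by positivity
    have h2 : ENNReal.ofReal (√(1 / (1 + |N|))) * ENNReal.ofReal (√(1 + |N|)) = 1 := by
      rw [← ENNReal.ofReal_mul (Real.sqrt_nonneg _), ← Real.sqrt_mul (by positivity),
        one_div, inv_mul_cancel₀ h0.ne', Real.sqrt_one, ENNReal.ofReal_one]
    rw [enorm_mul]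
    calc ‖R N‖ₑ * ‖E N‖ₑ = ‖R N‖ₑ * ‖E N‖ₑ *
          (ENNReal.ofReal (√(1 / (1 + |N|))) * ENNReal.ofReal (√(1 + |N|))) := by
          rw [h2, mul_one]
      _ = _ := by ring
  refine (pow_le_pow_left₀ zero_le h1 2).trans ?_
  refine (cs_lint volume ?_ ?_).trans (le_of_eq ?_)
  · exact (hR.enorm.mul (by fun_prop)).aemeasurable
  · exact (hE.enorm.mul (by fun_prop)).aemeasurable
  · congr 1
    · refine lintegral_congr fun N => ?_
      rw [mul_pow, ← ENNReal.ofReal_pow (Real.sqrt_nonneg _), Real.sq_sqrt (by positivity)]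
    · refine lintegral_congr fun N => ?_
      rw [mul_pow, ← ENNReal.ofReal_pow (Real.sqrt_nonneg _), Real.sq_sqrt (by positivity),
        mul_comm]

theorem term1 (H : St_heis) {ζ : ℂ} (hζ : ζ.im ≠ 0) : ∃ C : ℝ≥0∞, C ≠ ∞ ∧
    ∀ σ0 : ℝ, 0 < σ0 → ∀ ρ : ℝ → ℝ, Wt ρ → ∀ h g : ℂ → ℂ, BB h → BB g →
    (∀ x, ‖g x‖ ≤ 1) →
    ∫⁻ k in Metric.closedBall (0 : ℂ) (1 / 2), ∫⁻ y, ‖∫ w, h (y + (ζ - 1) * w) *
        g (y + (ζ - 1) * w + ζ * k) * PF ρ σ0 k w‖ₑ ^ 2 ≤
      C * ENNReal.ofReal σ0⁻¹ *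
        (∫⁻ N, ‖ft (fun s => (ρ s : ℂ)) N‖ₑ ^ 2 * ENNReal.ofReal (1 / (1 + |N|))) *
        ∫⁻ y, ‖h y‖ₑ ^ 2 := by
  obtain ⟨C, hC, hloc⟩ := heis_local H hζ
  refine ⟨C * volume (Metric.closedBall (0 : ℂ) 2), ENNReal.mul_ne_top hC
    (isCompact_closedBall (0 : ℂ) _).measure_lt_top.ne, ?_⟩
  intro σ0 hσ ρ hρ h g hh hg hg1
  set R : ℝ → ℂ := ft (fun s => (ρ s : ℂ)) with hR
  have hRm : Measurable R := measurable_ft hρ.BB.meas
  have hM : (ζ - 1) ≠ 0 := by
    intro h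
    apply hζ
    rw [sub_eq_zero.1 h]
    simp
  -- pointwise bound
  have key : ∀ k y : ℂ, ‖∫ w, h (y + (ζ - 1) * w) * g (y + (ζ - 1) * w + ζ * k) *
      PF ρ σ0 k w‖ₑ ^ 2 ≤ (∫⁻ N, ‖R N‖ₑ ^ 2 * ENNReal.ofReal (1 / (1 + |N|))) *
        ∫⁻ N, ENNReal.ofReal (1 + |N|) * XX ζ h g (aa ρ σ0 N) N k y := by
    intro k y
    set D : ℂ → ℂ := fun w => h (y + (ζ - 1) * w) * g (y + (ζ - 1) * w + ζ * k) with hD
    have hDB : BB D := by
      have h1 : BB (fun w : ℂ => h (y + (ζ - 1) * w)) := by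
        refine hh.comp (by fun_prop) (fun S => ⟨(S + ‖y‖) / ‖ζ - 1‖, fun x hx => ?_⟩)
        rw [div_lt_iff₀ (norm_pos_iff.2 hM)] at hx
        have h2 := norm_sub_le ((y + (ζ - 1) * x)) y
        rw [add_sub_cancel_left, norm_mul, mul_comm] at h2
        linarith
      refine h1.mul_bdd (hg.meas.comp (by fun_prop)) ⟨1, fun x => hg1 _⟩
    have e1 : ∫ w, D w * PF ρ σ0 k w = ∫ N, R N * (ee (N * Complex.normSq k) *
        ∫ w, D w * ee (2 * N * dot w k) * aa ρ σ0 N w) := by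
      have e2 : ∀ w, D w * PF ρ σ0 k w = ∫ N, D w * (aa ρ σ0 N w *
          (ee (N * (2 * dot w k + Complex.normSq k)) * R N)) := by
        intro w
        rw [PF_eq2 hρ hσ, integral_const_mul]
      simp_rw [e2]
      rw [integral_integral_swap]
      · refine integral_congr_ae (Filter.Eventually.of_forall fun N => ?_)
        simp only
        rw [← mul_assoc, ← integral_const_mul]
        refine integral_congr_ae (Filter.Eventually.of_forall fun w => ?_)
        simp only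
        have e3 : N * (2 * dot w k + Complex.normSq k) =
          N * Complex.normSq k + 2 * N * dot w k := by ring
        rw [e3, ee_add]
        ring
      · have hm : Measurable (Function.uncurry fun (w : ℂ) (N : ℝ) => D w * (aa ρ σ0 N w *
          (ee (N * (2 * dot w k + Complex.normSq k)) * R N))) := by
          have m1 : Measurable (fun p : ℂ × ℝ => aa ρ σ0 p.2 p.1) := by
            have h1 : Measurable (Function.uncurry (aa ρ σ0)) := measurable_aa hρ.meas σ0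
            exact h1.comp measurable_swap
          have m2 : Measurable (fun p : ℂ × ℝ => ee (p.2 * (2 * dot p.1 k + Complex.normSq k))) := by
            refine measurable_ee.comp ?_
            unfold dot
            fun_prop
          exact (hDB.meas.comp measurable_fst).mul (m1.mul (m2.mul (hRm.comp measurable_snd)))
        refine ⟨hm.aestronglyMeasurable, ?_⟩
        rw [HasFiniteIntegral, lintegral_prod _ hm.enorm.aemeasurable]
        simp only [Function.uncurry_apply_pair]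
        set R2 : ℝ≥0∞ := ∫⁻ N, ‖R N‖ₑ ^ 2 with hR2
        have hR2t : R2 ≠ ∞ := by
          rw [hR2, hR, plancherel_ft hρ.BB]
          have := (hρ.BB.memLp volume)
          have h2 := this.eLpNorm_lt_top
          have h3 := eLpNorm_nnreal_pow_eq_lintegral (f := fun s : ℝ => (ρ s : ℂ))
            (μ := (volume : Measure ℝ)) (p := 2) (by norm_num)
          simp only [NNReal.coe_ofNat, ENNReal.rpow_ofNat] at h3
          rw [← h3]
          exact ENNReal.pow_ne_top h2.ne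
        have h4 : ∀ w, ∫⁻ N, ‖D w * (aa ρ σ0 N w *
            (ee (N * (2 * dot w k + Complex.normSq k)) * R N))‖ₑ ≤
            ‖D w‖ₑ * (ENNReal.ofReal σ0⁻¹ + R2) := by
          intro w
          have h5 : ∀ N, ‖D w * (aa ρ σ0 N w *
            (ee (N * (2 * dot w k + Complex.normSq k)) * R N))‖ₑ ≤
              ‖D w‖ₑ * (‖aa ρ σ0 N w‖ₑ ^ 2 + ‖R N‖ₑ ^ 2) := by
            intro N
            rw [enorm_mul (D w), enorm_mul (aa ρ σ0 N w), enorm_mul (ee _), enorm_ee, one_mul]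
            exact mul_le_mul_right (ennreal_mul_le_sq _ _) _
          refine (lintegral_mono h5).trans ?_
          have m3 : Measurable (fun N => ‖aa ρ σ0 N w‖ₑ ^ 2) :=
            (measurable_aa_left hρ.meas σ0 w).enorm.pow_const 2
          have m4 : Measurable (fun N => ‖aa ρ σ0 N w‖ₑ ^ 2 + ‖R N‖ₑ ^ 2) :=
            m3.add (hRm.enorm.pow_const 2)
          rw [lintegral_const_mul _ m4, lintegral_add_left m3]
          refine mul_le_mul_right (add_le_add ?_ le_rfl) _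
          refine (lint_aa hρ hσ w).trans ?_
          exact Set.indicator_le_self' (fun _ _ => zero_le) _
        refine (lintegral_mono h4).trans_lt ?_
        rw [lintegral_mul_const _ hDB.meas.enorm]
        exact ENNReal.mul_lt_top (hDB.integrable volume).2
          (ENNReal.add_lt_top.2 ⟨ENNReal.ofReal_lt_top, hR2t.lt_top⟩)
    rw [e1]
    have hE : ∀ N, XX ζ h g (aa ρ σ0 N) N k y =
        ‖ee (N * Complex.normSq k) * ∫ w, D w * ee (2 * N * dot w k) * aa ρ σ0 N w‖ₑ ^ 2 := by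
      intro N
      rw [enorm_mul, enorm_ee, one_mul, XX]
    simp_rw [hE]
    refine cs_weight hRm ?_
    refine (measurable_ee.comp (by fun_prop)).mul ?_
    have m1 : Measurable (fun p : ℝ × ℂ => D p.2 * ee (2 * p.1 * dot p.2 k) *
        aa ρ σ0 p.1 p.2) := by
      refine ((hDB.meas.comp measurable_snd).mul (measurable_ee.comp ?_)).mul
        (measurable_aa hρ.meas σ0)
      unfold dot
      fun_prop
    exact (m1.stronglyMeasurable.integral_prod_right' (ν := volume)).measurable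
  set A : ℝ≥0∞ := ∫⁻ N, ‖R N‖ₑ ^ 2 * ENNReal.ofReal (1 / (1 + |N|)) with hA
  set F : (ℂ × ℂ) × ℝ → ℝ≥0∞ := fun q => ENNReal.ofReal (1 + |q.2|) *
    XX ζ h g (aa ρ σ0 q.2) q.2 q.1.1 q.1.2 with hF
  have hXm : Measurable (fun q : (ℂ × ℂ) × ℝ => XX ζ h g (aa ρ σ0 q.2) q.2 q.1.1 q.1.2) := by
    have : Measurable (fun p : ((ℂ × ℂ) × ℝ) × ℂ => h (p.1.1.2 + (ζ - 1) * p.2) *
        g (p.1.1.2 + (ζ - 1) * p.2 + ζ * p.1.1.1) * ee (2 * p.1.2 * dot p.2 p.1.1.1) *
        aa ρ σ0 p.1.2 p.2) := by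
      have m1 : Measurable (fun p : ((ℂ × ℂ) × ℝ) × ℂ => aa ρ σ0 p.1.2 p.2) := by
        have h1 : Measurable (Function.uncurry (aa ρ σ0)) := measurable_aa hρ.meas σ0
        have h2 : Measurable (fun p : ((ℂ × ℂ) × ℝ) × ℂ => (p.1.2, p.2)) := by fun_prop
        exact h1.comp h2
      refine (((hh.meas.comp (by fun_prop)).mul (hg.meas.comp (by fun_prop))).mul
        (measurable_ee.comp ?_)).mul m1
      unfold dot
      fun_prop
    exact (this.stronglyMeasurable.integral_prod_right' (ν := volume)).measurable.enorm.pow_const 2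
  have hFm : Measurable F := by
    refine Measurable.mul ?_ hXm
    fun_prop
  calc ∫⁻ k in Metric.closedBall (0 : ℂ) (1 / 2), ∫⁻ y, ‖∫ w, h (y + (ζ - 1) * w) *
        g (y + (ζ - 1) * w + ζ * k) * PF ρ σ0 k w‖ₑ ^ 2
      ≤ ∫⁻ k in Metric.closedBall (0 : ℂ) (1 / 2), ∫⁻ y, A * ∫⁻ N, F ((k, y), N) :=
        lintegral_mono fun k => lintegral_mono fun y => key k y
    _ = A * ∫⁻ k in Metric.closedBall (0 : ℂ) (1 / 2), ∫⁻ y, ∫⁻ N, F ((k, y), N) := by
        have m1 : Measurable (fun q : ℂ × ℂ => ∫⁻ N, F (q, N)) :=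
          hFm.lintegral_prod_right'
        have m2 : Measurable (fun k : ℂ => ∫⁻ y, ∫⁻ N, F ((k, y), N)) :=
          m1.lintegral_prod_right'
        rw [← lintegral_const_mul _ m2]
        refine lintegral_congr fun k => ?_
        rw [lintegral_const_mul]
        exact Measurable.of_uncurry_left (f := fun k y => ∫⁻ N, F ((k, y), N)) m1
    _ = A * ∫⁻ N, ∫⁻ k in Metric.closedBall (0 : ℂ) (1 / 2), ∫⁻ y, F ((k, y), N) := by
        rw [tonelli3 _ _ _ F hFm]
    _ ≤ A * ∫⁻ N, C * ((∫⁻ w, ‖aa ρ σ0 N w‖ₑ ^ 2) * ∫⁻ y, ‖h y‖ₑ ^ 2) := by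
        refine mul_le_mul_right (lintegral_mono fun N => ?_) _
        have e1 : ∫⁻ k in Metric.closedBall (0 : ℂ) (1 / 2), ∫⁻ y, F ((k, y), N) =
            ENNReal.ofReal (1 + |N|) * ∫⁻ k in Metric.closedBall (0 : ℂ) (1 / 2), ∫⁻ y,
              XX ζ h g (aa ρ σ0 N) N k y := by
          rw [← lintegral_const_mul' _ _ ENNReal.ofReal_ne_top]
          refine lintegral_congr fun k => ?_
          rw [← lintegral_const_mul' _ _ ENNReal.ofReal_ne_top]
        rw [e1]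
        have h2 := hloc h g (aa ρ σ0 N) hh hg (aa_BB hρ hσ N) hg1
          (fun w hw => aa_zero hρ σ0 N hw) N
        calc _ ≤ ENNReal.ofReal (1 + |N|) * (C * ENNReal.ofReal (1 / (1 + |N|)) *
              ((∫⁻ w, ‖aa ρ σ0 N w‖ₑ ^ 2) * ∫⁻ y, ‖h y‖ₑ ^ 2)) := mul_le_mul_right h2 _
          _ = (ENNReal.ofReal (1 + |N|) * ENNReal.ofReal (1 / (1 + |N|))) *
              (C * ((∫⁻ w, ‖aa ρ σ0 N w‖ₑ ^ 2) * ∫⁻ y, ‖h y‖ₑ ^ 2)) := by ring
          _ = _ := by
              have h0 : (0 : ℝ) < 1 + |N| := by positivity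
              rw [← ENNReal.ofReal_mul h0.le, mul_one_div, div_self h0.ne',
                ENNReal.ofReal_one, one_mul]
    _ = A * (C * ((∫⁻ N, ∫⁻ w, ‖aa ρ σ0 N w‖ₑ ^ 2) * ∫⁻ y, ‖h y‖ₑ ^ 2)) := by
        rw [lintegral_const_mul' _ _ hC, lintegral_mul_const]
        exact ((measurable_aa hρ.meas σ0).enorm.pow_const 2).lintegral_prod_right'
    _ ≤ A * (C * ((ENNReal.ofReal σ0⁻¹ * volume (Metric.closedBall (0 : ℂ) 2)) *
          ∫⁻ y, ‖h y‖ₑ ^ 2)) := by
        gcongr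
        exact lint_lint_aa hρ hσ
    _ = _ := by ring

end Run7.h764
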