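import Pool.Agent.Run7.h764.Shift
set_option autoImplicit false

namespace Run7.h764

open MeasureTheory Complex Set
open scoped ENNReal NNReal

/-- rotation -/
lemma integral_rot {u : ℂ} (hu : ‖u‖ = 1) (f : ℂ → ℂ) : ∫ w, f (u * w) = ∫ w, f w := by
  have hu0 : u ≠ 0 := by
    intro h
    rw [h, norm_zero] at hu
    exact zero_ne_one hu
  rw [integral_mul_left' hu0, Complex.normSq_eq_norm_sq, hu]
  simp

lemma FF_rot (ρ : ℝ → ℝ) {u : ℂ} (hu : ‖u‖ = 1) (l w : ℂ) :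
    FF ρ (u * l) (u * w) = FF ρ l w := by
  unfold FF
  rw [← mul_add, map_mul, map_mul, Complex.normSq_eq_norm_sq u, hu]
  simp

lemma dot_rot {u : ℂ} (w ξ : ℂ) : dot (u * w) ξ = dot w ((starRingEnd ℂ) u * ξ) := by
  rw [dot_eq_re, dot_eq_re]
  simp only [map_mul, Complex.conj_conj]
  congr 1
  ring

/-- reflection -/
lemma integral_conj_half (f : ℂ → ℂ) (c0 : ℝ) :
    ∫ w in {w : ℂ | w.im < -c0}, f w =
      ∫ w in {w : ℂ | c0 < w.im}, f ((starRingEnd ℂ) w) := by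
  have mp : MeasurePreserving (⇑Complex.conjLIE) volume volume :=
    Complex.conjLIE.measurePreserving
  have h1 := mp.setIntegral_preimage_emb Complex.conjLIE.toHomeomorph.measurableEmbedding f
    {w : ℂ | w.im < -c0}
  have h2 : ⇑Complex.conjLIE ⁻¹' {w : ℂ | w.im < -c0} = {w : ℂ | c0 < w.im} := by
    ext w
    simp
  rw [h2] at h1
  rw [← h1]
  rfl

lemma FF_conj (ρ : ℝ → ℝ) (l : ℝ) (w : ℂ) :
    FF ρ l ((starRingEnd ℂ) w) = FF ρ l w := by
  unfold FF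
  have : (starRingEnd ℂ) w + l = (starRingEnd ℂ) (w + l) := by
    rw [map_add, Complex.conj_ofReal]
  rw [this, Complex.normSq_conj, Complex.normSq_conj]

lemma volume_strip (c0 : ℝ) :
    volume {w : ℂ | w.re ∈ Icc (-1.2 : ℝ) 1.2 ∧ w.im ∈ Icc (-c0) c0} =
      ENNReal.ofReal (2.4 * (2 * c0)) := by
  have mp := Complex.volume_preserving_equiv_real_prod.symm
  have h1 := mp.measure_preimage_emb
    Complex.measurableEquivRealProd.symm.measurableEmbedding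
    {w : ℂ | w.re ∈ Icc (-1.2 : ℝ) 1.2 ∧ w.im ∈ Icc (-c0) c0}
  rw [← h1]
  have h2 : Complex.measurableEquivRealProd.symm ⁻¹'
      {w : ℂ | w.re ∈ Icc (-1.2 : ℝ) 1.2 ∧ w.im ∈ Icc (-c0) c0} =
      Icc (-1.2 : ℝ) 1.2 ×ˢ Icc (-c0) c0 := by
    ext p
    simp only [Set.mem_preimage, Set.mem_prod]
    exact Iff.rfl
  rw [h2]
  have h6 : (volume : Measure (ℝ × ℝ)) = (volume : Measure ℝ).prod volume := rfl
  rw [h6, Measure.prod_prod, Real.volume_Icc, Real.volume_Icc, ← ENNReal.ofReal_mul (by norm_num)]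
  congr 1
  ring

lemma norm_strip {f : ℂ → ℂ} {B : ℝ} (hB : ∀ w, ‖f w‖ ≤ B)
    (h0 : ∀ w, 1.2 < ‖w‖ → f w = 0) {c0 : ℝ} (hc : 0 ≤ c0) :
    ‖∫ w in {w : ℂ | w.im ∈ Icc (-c0) c0}, f w‖ ≤ B * (2.4 * (2 * c0)) := by
  have hm : MeasurableSet {w : ℂ | w.im ∈ Icc (-c0) c0} :=
    Complex.measurable_im measurableSet_Icc
  have e : ∫ w in {w : ℂ | w.im ∈ Icc (-c0) c0}, f w =
      ∫ w in {w : ℂ | w.re ∈ Icc (-1.2 : ℝ) 1.2 ∧ w.im ∈ Icc (-c0) c0}, f w := by
    refine setIntegral_eq_of_subset_of_forall_sdiff_eq_zero hm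
      (fun w hw => hw.2) (fun w hw => ?_)
    apply h0
    by_contra h
    apply hw.2
    refine ⟨?_, hw.1⟩
    have h3 := (Complex.abs_re_le_norm w).trans (not_lt.1 h)
    exact abs_le.1 h3
  rw [e]
  refine (norm_setIntegral_le_of_norm_le_const (C := B) ?_ (fun w _ => hB w)).trans ?_
  · rw [volume_strip c0]
    exact ENNReal.ofReal_lt_top
  · rw [Measure.real, volume_strip c0, ENNReal.toReal_ofReal (by positivity)]

lemma split3 {f : ℂ → ℂ} (hf : BB f) {c0 : ℝ} (hc : 0 < c0) :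
    ∫ w, f w = (∫ w in {w : ℂ | c0 < w.im}, f w) + (∫ w in {w : ℂ | w.im < -c0}, f w) +
      ∫ w in {w : ℂ | w.im ∈ Icc (-c0) c0}, f w := by
  have hi := hf.integrable volume
  have m1 : MeasurableSet {w : ℂ | c0 < w.im} :=
    measurableSet_lt measurable_const Complex.measurable_im
  have m2 : MeasurableSet {w : ℂ | w.im < -c0} :=
    measurableSet_lt Complex.measurable_im measurable_const
  have m3 : MeasurableSet {w : ℂ | w.im ∈ Icc (-c0) c0} :=
    Complex.measurable_im measurableSet_Icc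
  rw [← setIntegral_union ?_ m2 hi.integrableOn hi.integrableOn,
    ← setIntegral_union ?_ m3 hi.integrableOn hi.integrableOn, ← setIntegral_univ]
  · congr 2
    ext w
    simp only [mem_univ, mem_union, Set.mem_ofPred_eq, mem_Icc, true_iff]
    by_cases h1 : c0 < w.im
    · exact Or.inl (Or.inl h1)
    by_cases h2 : w.im < -c0
    · exact Or.inl (Or.inr h2)
    exact Or.inr ⟨not_lt.1 h2, not_lt.1 h1⟩
  · rw [Set.disjoint_left]
    rintro w (h1 | h1) h2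
    · exact absurd h2.2 (not_le.2 h1)
    · exact absurd h2.1 (not_le.2 h1)
  · rw [Set.disjoint_left]
    intro w h1 h2
    simp only [Set.mem_ofPred_eq] at h1 h2
    linarith

/-- the main bound on half planes -/
lemma half_bound (H : St_osc) {l0 c0 ε : ℝ} (hl0 : 0 < l0) (hc : 0 < c0) (hε : 0 < ε) :
    ∃ σ1 : ℝ, 0 < σ1 ∧ σ1 ≤ 0.1 ∧ ∀ σ : ℝ, 0 ≤ σ → σ ≤ σ1 → ∀ ρ : ℝ → ℝ, Wt1 ρ →
      ∀ l : ℝ, l0 ≤ l → l ≤ 1 / 2 → ∀ ξ1 ξ2 : ℝ,
      ‖∫ w in {w : ℂ | c0 < w.im}, (FF ρ l w - FF (fun s => ρ (s + σ)) l w) *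
        ee (ξ1 * w.re + ξ2 * w.im)‖ ≤ ε := by
  obtain ⟨K, hK, hosc⟩ := H l0 c0 (ε / 2) hl0 hc (by positivity)
  set A : ℝ := 2.4 * (1 / c0 + 1.2 * (2 * Real.pi * K / c0 + 1 / c0 ^ 2)) with hA
  have hA0 : 0 < A := by positivity
  refine ⟨min 0.1 (ε / A), by positivity, min_le_left _ _, ?_⟩
  intro σ hσ0 hσ1 ρ hρ l hl1 hl2 ξ1 ξ2
  have hσ2 : σ ≤ 0.1 := hσ1.trans (min_le_left _ _)
  have hσ3 : σ ≤ ε / A := hσ1.trans (min_le_right _ _)
  by_cases hξ : |ξ2| ≤ K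
  · refine (shift_half hρ l hc hσ0 hσ2 hξ).trans ?_
    rw [← mul_assoc, ← hA]
    rw [le_div_iff₀ hA0] at hσ3
    linarith
  · push Not at hξ
    have h1 := hosc l hl1 hl2 ρ hρ.meas hρ.bdd hρ.wt.supp ξ1 ξ2 hξ.le
    have hw := hρ.shift hσ0 hσ2
    have h2 := hosc l hl1 hl2 (fun s => ρ (s + σ)) hw.meas hw.bdd hw.supp ξ1 ξ2 hξ.le
    have i1 : BB (fun w => FF ρ l w * ee (ξ1 * w.re + ξ2 * w.im)) :=
      (FF_BB hρ.wt l).mul_bdd (measurable_ee.comp (by fun_prop)) ⟨1, fun x => (norm_ee _).le⟩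
    have i2 : BB (fun w => FF (fun s => ρ (s + σ)) l w * ee (ξ1 * w.re + ξ2 * w.im)) :=
      (FF_BB hw l).mul_bdd (measurable_ee.comp (by fun_prop)) ⟨1, fun x => (norm_ee _).le⟩
    have e : ∫ w in {w : ℂ | c0 < w.im}, (FF ρ l w - FF (fun s => ρ (s + σ)) l w) *
        ee (ξ1 * w.re + ξ2 * w.im) =
        (∫ w in {w : ℂ | c0 < w.im}, FF ρ l w * ee (ξ1 * w.re + ξ2 * w.im)) -
        ∫ w in {w : ℂ | c0 < w.im}, FF (fun s => ρ (s + σ)) l w *
          ee (ξ1 * w.re + ξ2 * w.im) := by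
      rw [← integral_sub (i1.integrable volume).integrableOn
        (i2.integrable volume).integrableOn]
      refine integral_congr_ae (Filter.Eventually.of_forall fun w => ?_)
      simp only
      rw [sub_mul]
    rw [e]
    refine (norm_sub_le _ _).trans ?_
    have h3 : ‖∫ w in {w : ℂ | c0 < w.im}, FF ρ l w * ee (ξ1 * w.re + ξ2 * w.im)‖ ≤ ε / 2 := h1
    have h4 : ‖∫ w in {w : ℂ | c0 < w.im}, FF (fun s => ρ (s + σ)) l w *
          ee (ξ1 * w.re + ξ2 * w.im)‖ ≤ ε / 2 := h2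
    linarith

/-- the symbol of the difference is small for every single shift -/
lemma term2_shift (H : St_osc) {l0 ε : ℝ} (hl0 : 0 < l0) (hε : 0 < ε) :
    ∃ σ1 : ℝ, 0 < σ1 ∧ σ1 ≤ 0.1 ∧ ∀ σ : ℝ, 0 ≤ σ → σ ≤ σ1 → ∀ ρ : ℝ → ℝ, Wt1 ρ →
      ∀ k : ℂ, l0 ≤ ‖k‖ → ‖k‖ ≤ 1 / 2 → ∀ ξ : ℂ,
      ‖∫ w, (FF ρ k w - FF (fun s => ρ (s + σ)) k w) * ee (dot w ξ)‖ ≤ ε := by
  set c0 : ℝ := ε / 20 with hc0
  have hc : 0 < c0 := by positivity
  obtain ⟨σ1, h1, h2, hhalf⟩ := half_bound H hl0 hc (ε := ε / 4) (by positivity)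
  refine ⟨σ1, h1, h2, ?_⟩
  intro σ hσ0 hσ1 ρ hρ k hk1 hk2 ξ
  set l : ℝ := ‖k‖ with hl
  have hlpos : 0 < l := hl0.trans_le hk1
  set u : ℂ := k / l with hu
  have hun : ‖u‖ = 1 := by
    rw [hu, norm_div, Complex.norm_real, Real.norm_eq_abs, abs_of_pos hlpos, ← hl,
      div_self hlpos.ne']
  have hk : k = u * l := by
    rw [hu, div_mul_cancel₀]
    exact_mod_cast hlpos.ne'
  set η : ℂ := (starRingEnd ℂ) u * ξ with hη
  have e1 : ∫ w, (FF ρ k w - FF (fun s => ρ (s + σ)) k w) * ee (dot w ξ) =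
      ∫ w, (FF ρ l w - FF (fun s => ρ (s + σ)) l w) * ee (η.re * w.re + η.im * w.im) := by
    rw [← integral_rot hun]
    refine integral_congr_ae (Filter.Eventually.of_forall fun w => ?_)
    simp only
    rw [hk, FF_rot ρ hun, FF_rot _ hun, dot_rot, ← hη, dot]
    congr 2
    ring
  rw [e1]
  have hw := hρ.shift hσ0 (hσ1.trans h2)
  have hB : ∀ ξ1 ξ2 : ℝ, BB (fun w => (FF ρ l w - FF (fun s => ρ (s + σ)) l w) *
      ee (ξ1 * w.re + ξ2 * w.im)) := fun ξ1 ξ2 =>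
    ((FF_BB hρ.wt l).sub (FF_BB hw l)).mul_bdd
      (measurable_ee.comp (by fun_prop)) ⟨1, fun x => (norm_ee _).le⟩
  rw [split3 (hB η.re η.im) hc]
  have b1 := hhalf σ hσ0 hσ1 ρ hρ l hk1 hk2 η.re η.im
  have b2 : ‖∫ w in {w : ℂ | w.im < -c0}, (FF ρ l w - FF (fun s => ρ (s + σ)) l w) *
      ee (η.re * w.re + η.im * w.im)‖ ≤ ε / 4 := by
    rw [integral_conj_half]
    have := hhalf σ hσ0 hσ1 ρ hρ l hk1 hk2 η.re (-η.im)
    refine le_trans (le_of_eq ?_) this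
    congr 1
    refine integral_congr_ae (Filter.Eventually.of_forall fun w => ?_)
    simp only
    rw [FF_conj, FF_conj, Complex.conj_re, Complex.conj_im]
    congr 2
    ring
  have b3 : ‖∫ w in {w : ℂ | w.im ∈ Icc (-c0) c0}, (FF ρ l w - FF (fun s => ρ (s + σ)) l w) *
      ee (η.re * w.re + η.im * w.im)‖ ≤ 2 * (2.4 * (2 * c0)) := by
    refine norm_strip (fun w => ?_) (fun w hw1 => ?_) hc.le
    · rw [norm_mul, norm_ee, mul_one]
      refine (norm_sub_le _ _).trans ?_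
      have k1 := FF_norm hρ.wt l w
      have k2 := FF_norm hw l w
      linarith
    · have h4 : (1.3 : ℝ) < Complex.normSq w := by
        rw [Complex.normSq_eq_norm_sq]
        nlinarith
      have z1 : ρ (Complex.normSq w) = 0 := hρ.supp _ (fun h => absurd h.2 (not_le.2 h4))
      have z2 : ρ (Complex.normSq w + σ) = 0 :=
        hρ.supp _ (fun h => absurd h.2 (not_le.2 (by linarith)))
      simp only [FF, z1, z2, zero_mul, Complex.ofReal_zero, sub_zero]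
  refine (norm_add_le _ _).trans ?_
  refine (add_le_add (norm_add_le _ _) le_rfl).trans ?_
  rw [hc0] at b3
  linarith

lemma PF_eq_FF (ρ : ℝ → ℝ) (σ0 : ℝ) (k w : ℂ) :
    PF ρ σ0 k w = (σ0⁻¹ : ℝ) * ∫ σ in Icc 0 σ0, FF (fun s => ρ (s + σ)) k w := by
  unfold PF FF
  rw [Complex.ofReal_mul, integral_complex_ofReal]

lemma measurable_FF_shift {ρ : ℝ → ℝ} (hρ : Measurable ρ) (k : ℂ) :
    Measurable (fun p : ℂ × ℝ => FF (fun s => ρ (s + p.2)) k p.1) := by
  unfold FF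
  exact Complex.measurable_ofReal.comp ((hρ.comp (by fun_prop)).mul (hρ.comp (by fun_prop)))

theorem term2 (H : St_osc) {l0 ε : ℝ} (hl0 : 0 < l0) (hε : 0 < ε) :
    ∃ σ0 : ℝ, 0 < σ0 ∧ σ0 ≤ 0.1 ∧ ∀ ρ : ℝ → ℝ, Wt1 ρ →
      ∀ k : ℂ, l0 ≤ ‖k‖ → ‖k‖ ≤ 1 / 2 → ∀ ξ : ℂ,
      ‖∫ w, (FF ρ k w - PF ρ σ0 k w) * ee (dot w ξ)‖ ≤ ε := by
  obtain ⟨σ0, h1, h2, hsh⟩ := term2_shift H hl0 hε
  refine ⟨σ0, h1, h2, ?_⟩
  intro ρ hρ k hk1 hk2 ξ
  set Φ : ℂ → ℝ → ℂ := fun w σ =>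
    (FF ρ k w - FF (fun s => ρ (s + σ)) k w) * ee (dot w ξ) with hΦ
  have hvol : (volume.restrict (Icc 0 σ0)).real univ = σ0 := by
    rw [measureReal_restrict_apply_univ, Real.volume_real_Icc_of_le h1.le, sub_zero]
  have e1 : ∀ w, (FF ρ k w - PF ρ σ0 k w) * ee (dot w ξ) =
      (σ0⁻¹ : ℝ) * ∫ σ in Icc 0 σ0, Φ w σ := by
    intro w
    have i1 : Integrable (fun _ : ℝ => FF ρ k w) (volume.restrict (Icc 0 σ0)) :=
      integrable_const _
    have i2 : Integrable (fun σ : ℝ => FF (fun s => ρ (s + σ)) k w)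
        (volume.restrict (Icc 0 σ0)) := by
      refine Integrable.of_bound (C := 1) ?_ ?_
      · exact ((measurable_FF_shift hρ.meas k).comp
          (measurable_prodMk_left (x := w))).aestronglyMeasurable
      · filter_upwards [ae_restrict_mem measurableSet_Icc] with σ hσ
        exact FF_norm (hρ.shift hσ.1 (hσ.2.trans h2)) k w
    simp only [hΦ]
    rw [integral_mul_const, integral_sub i1 i2, PF_eq_FF, integral_const, hvol]
    rw [Complex.real_smul]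
    have h7 : ((σ0⁻¹ : ℝ) : ℂ) * (σ0 : ℂ) = 1 := by
      rw [← Complex.ofReal_mul, inv_mul_cancel₀ h1.ne', Complex.ofReal_one]
    linear_combination (- FF ρ k w * ee (dot w ξ)) * h7
  simp_rw [e1]
  rw [integral_const_mul, integral_integral_swap (f := Φ)]
  · rw [norm_mul, Complex.norm_real, Real.norm_eq_abs, abs_of_pos (inv_pos.2 h1)]
    have h3 : ‖∫ σ in Icc 0 σ0, ∫ w, Φ w σ‖ ≤ ε * σ0 := by
      have := norm_setIntegral_le_of_norm_le_const (μ := volume) (s := Icc 0 σ0) (C := ε)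
        (f := fun σ => ∫ w, Φ w σ) (by simp)
        (fun σ hσ => hsh σ hσ.1 hσ.2 ρ hρ k hk1 hk2 ξ)
      rwa [Real.volume_real_Icc_of_le h1.le, sub_zero] at this
    calc σ0⁻¹ * ‖∫ σ in Icc 0 σ0, ∫ w, Φ w σ‖ ≤ σ0⁻¹ * (ε * σ0) := by gcongr
      _ = ε := by field_simp
  · have hΦm : Measurable (Function.uncurry Φ) := by
      have m1 := measurable_FF_shift hρ.meas k
      have m2 : Measurable (fun p : ℂ × ℝ => FF ρ k p.1) := (FF_BB hρ.wt k).meas.comp measurable_fst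
      have m3 : Measurable (fun p : ℂ × ℝ => ee (dot p.1 ξ)) := by
        refine measurable_ee.comp ?_
        unfold dot
        fun_prop
      exact (m2.sub m1).mul m3
    have hdom : Integrable (fun p : ℂ × ℝ => (Metric.closedBall (0 : ℂ) 2).indicator
        (fun _ => (2 : ℝ)) p.1) (volume.prod (volume.restrict (Icc 0 σ0))) := by
      have : Integrable (fun w : ℂ => (Metric.closedBall (0 : ℂ) 2).indicator
        (fun _ => (2 : ℝ)) w) volume := by
        rw [integrable_indicator_iff Metric.isClosed_closedBall.measurableSet]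
        exact integrableOn_const (isCompact_closedBall _ _).measure_lt_top.ne (by simp)
      exact this.comp_fst _
    refine hdom.mono' hΦm.aestronglyMeasurable ?_
    have hae : ∀ᵐ p : ℂ × ℝ ∂(volume.prod (volume.restrict (Icc 0 σ0))), p.2 ∈ Icc 0 σ0 := by
      have h5 : ∀ᵐ σ : ℝ ∂(volume.restrict (Icc 0 σ0)), σ ∈ Icc 0 σ0 :=
        ae_restrict_mem measurableSet_Icc
      exact Measure.quasiMeasurePreserving_snd.ae h5
    filter_upwards [hae] with p hp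
    simp only [Function.uncurry, hΦ]
    rw [norm_mul, norm_ee, mul_one]
    by_cases hp1 : p.1 ∈ Metric.closedBall (0 : ℂ) 2
    · rw [Set.indicator_of_mem hp1]
      refine (norm_sub_le _ _).trans ?_
      have k1 := FF_norm hρ.wt k p.1
      have k2 := FF_norm (hρ.shift hp.1 (hp.2.trans h2)) k p.1
      linarith
    · rw [Set.indicator_of_notMem hp1]
      rw [Metric.mem_closedBall, dist_zero_right, not_le] at hp1
      have h4 : (1.3 : ℝ) < Complex.normSq p.1 := by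
        rw [Complex.normSq_eq_norm_sq]
        nlinarith
      have z1 : ρ (Complex.normSq p.1) = 0 := hρ.supp _ (fun h => absurd h.2 (not_le.2 h4))
      have z2 : ρ (Complex.normSq p.1 + p.2) = 0 :=
        hρ.supp _ (fun h => absurd h.2 (not_le.2 (by linarith [hp.1])))
      simp only [FF, z1, z2, zero_mul, Complex.ofReal_zero, sub_zero, norm_zero, le_refl]

end Run7.h764
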