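import Pool.Agent.Run7.h764.Term2
set_option autoImplicit false

namespace Run7.h764

open MeasureTheory Complex Set
open scoped ENNReal NNReal

instance instHaarCC : (volume : Measure (ℂ × ℂ)).IsAddHaarMeasure :=
  Measure.prod.instIsAddHaarMeasure (volume : Measure ℂ) (volume : Measure ℂ)

/-- the trilinear form -/
noncomputable def TT (ζ : ℂ) (f g h F : ℂ → ℂ) : ℂ :=
  ∫ p : ℂ × ℂ, f (p.1 - p.2) * (g p.1 * h (p.1 + (ζ - 1) * p.2) * F p.2)

lemma TT_shift (ζ : ℂ) (f g h F : ℂ → ℂ) (k : ℂ) :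
    ∫ p : ℂ × ℂ, f (p.1 - p.2) * (g (p.1 + k) * h (p.1 + (ζ - 1) * p.2 + ζ * k) * F (p.2 + k)) =
      TT ζ f g h F := by
  unfold TT
  rw [← integral_add_right_eq_self (μ := (volume : Measure (ℂ × ℂ)))
    (fun p : ℂ × ℂ => f (p.1 - p.2) * (g p.1 * h (p.1 + (ζ - 1) * p.2) * F p.2)) (k, k)]
  refine integral_congr_ae (Filter.Eventually.of_forall fun p => ?_)
  simp only [Prod.fst_add, Prod.snd_add]
  rw [add_sub_add_right_eq_sub]
  congr 4
  ring

/-- indicator of the small ball -/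
noncomputable def chi : ℂ → ℂ := (Metric.closedBall (0 : ℂ) (1 / 4)).indicator (fun _ => 1)

lemma chi_BB : BB chi := by
  refine ⟨measurable_const.indicator Metric.isClosed_closedBall.measurableSet,
    ⟨1, fun x => ?_⟩, ⟨1 / 4, fun x hx => ?_⟩⟩
  · unfold chi
    by_cases h : x ∈ Metric.closedBall (0 : ℂ) (1 / 4)
    · rw [Set.indicator_of_mem h]; simp
    · rw [Set.indicator_of_notMem h]; simp
  · unfold chi
    rw [Set.indicator_of_notMem]
    rw [Metric.mem_closedBall, dist_zero_right, not_le]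
    exact hx

/-- the function under the `k`-integral -/
noncomputable def av (ζ : ℂ) (g h F : ℂ → ℂ) (q : (ℂ × ℂ) × ℂ) : ℂ :=
  g (q.1.1 + q.2) * h (q.1.1 + (ζ - 1) * q.1.2 + ζ * q.2) * F (q.1.2 + q.2) * chi q.2

lemma av_BB (ζ : ℂ) {g h F : ℂ → ℂ} (hg : BB g) (hh : BB h) (hF : BB F) : BB (av ζ g h F) := by
  have h1 : BB (fun q : ℂ × ℂ => F (q.1 + q.2) * chi q.2) := by
    refine hF.mul_comp chi_BB (by fun_prop) measurable_snd (fun R => ⟨R + R, fun x h1 h2 => ?_⟩)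
    have h3 : ‖x.1‖ ≤ R + R := by
      calc ‖x.1‖ = ‖(x.1 + x.2) - x.2‖ := by rw [add_sub_cancel_right]
        _ ≤ _ := (norm_sub_le _ _).trans (add_le_add h1 h2)
    have h4 : ‖x.2‖ ≤ R + R := by
      have := norm_nonneg (x.1 + x.2)
      linarith
    exact norm_prod_le_iff.2 ⟨h3, h4⟩
  have h2 : BB (fun q : (ℂ × ℂ) × ℂ => g (q.1.1 + q.2) * (F (q.1.2 + q.2) * chi q.2)) := by
    refine hg.mul_comp h1 (φ := fun q : (ℂ × ℂ) × ℂ => q.1.1 + q.2)
      (ψ := fun q : (ℂ × ℂ) × ℂ => (q.1.2, q.2)) (by fun_prop) (by fun_prop)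
      (fun R => ⟨R + R, fun x h1 h2 => ?_⟩)
    have h3 := norm_fst_le (x.1.2, x.2)
    have h4 := norm_snd_le (x.1.2, x.2)
    simp only at h3 h4
    have h5 : ‖x.1.1‖ ≤ R + R := by
      calc ‖x.1.1‖ = ‖(x.1.1 + x.2) - x.2‖ := by rw [add_sub_cancel_right]
        _ ≤ _ := (norm_sub_le _ _).trans (add_le_add h1 (h4.trans h2))
    have h6 : 0 ≤ R := (norm_nonneg _).trans h1
    refine norm_prod_le_iff.2 ⟨norm_prod_le_iff.2 ⟨h5, ?_⟩, ?_⟩ <;> linarith
  have h3 := h2.mul_bdd (g := fun q : (ℂ × ℂ) × ℂ => h (q.1.1 + (ζ - 1) * q.1.2 + ζ * q.2))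
    (hh.meas.comp (by fun_prop)) (by obtain ⟨C, hC⟩ := hh.bdd; exact ⟨C, fun x => hC _⟩)
  have e : av ζ g h F = fun q : (ℂ × ℂ) × ℂ => g (q.1.1 + q.2) * (F (q.1.2 + q.2) * chi q.2) *
      h (q.1.1 + (ζ - 1) * q.1.2 + ζ * q.2) := by
    funext q
    unfold av
    ring
  rw [e]
  exact h3

/-- the correlation form -/
noncomputable def QQ (ζ : ℂ) (g h F : ℂ → ℂ) (k : ℂ) : ℂ :=
  ∫ p : ℂ × ℂ, g p.1 * h (p.1 + (ζ - 1) * p.2) * F p.2 *
    (starRingEnd ℂ) (g (p.1 + k) * h (p.1 + (ζ - 1) * p.2 + ζ * k) * F (p.2 + k))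

lemma QQ_shift (ζ : ℂ) (g h F : ℂ → ℂ) (k1 k2 : ℂ) :
    ∫ p : ℂ × ℂ, av ζ g h F (p, k1) * (starRingEnd ℂ) (av ζ g h F (p, k2)) =
      chi k1 * (starRingEnd ℂ) (chi k2) * QQ ζ g h F (k2 - k1) := by
  unfold QQ
  rw [← integral_add_right_eq_self (μ := (volume : Measure (ℂ × ℂ)))
    (fun p : ℂ × ℂ => g p.1 * h (p.1 + (ζ - 1) * p.2) * F p.2 *
      (starRingEnd ℂ) (g (p.1 + (k2 - k1)) * h (p.1 + (ζ - 1) * p.2 + ζ * (k2 - k1)) *
        F (p.2 + (k2 - k1)))) (k1, k1), ← integral_const_mul]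
  refine integral_congr_ae (Filter.Eventually.of_forall fun p => ?_)
  simp only [Prod.fst_add, Prod.snd_add, av, map_mul]
  have e1 : p.1 + k1 + (ζ - 1) * (p.2 + k1) = p.1 + (ζ - 1) * p.2 + ζ * k1 := by ring
  have e2 : p.1 + (ζ - 1) * p.2 + ζ * k1 + ζ * (k2 - k1) = p.1 + (ζ - 1) * p.2 + ζ * k2 := by
    ring
  have e3 : p.1 + k1 + (k2 - k1) = p.1 + k2 := by ring
  have e4 : p.2 + k1 + (k2 - k1) = p.2 + k2 := by ring
  rw [e1, e2, e3, e4]
  ring

lemma lint_sq_eq {α : Type*} [NormedAddCommGroup α] [MeasurableSpace α] [ProperSpace α]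
    [OpensMeasurableSpace α] {V : α → ℂ} (hV : BB V) (μ : Measure α)
    [IsFiniteMeasureOnCompacts μ] :
    ∫⁻ p, ‖V p‖ₑ ^ 2 ∂μ = ‖∫ p, V p * (starRingEnd ℂ) (V p) ∂μ‖ₑ := by
  have h1 : ∀ p, V p * (starRingEnd ℂ) (V p) = ((‖V p‖ ^ 2 : ℝ) : ℂ) := by
    intro p
    rw [Complex.mul_conj, Complex.normSq_eq_norm_sq]
  have h2 : Integrable (fun p => ‖V p‖ ^ 2) μ :=
    (memLp_two_iff_integrable_sq_norm hV.meas.aestronglyMeasurable).1 (hV.memLp μ)
  simp_rw [h1]
  rw [integral_complex_ofReal, ← ofReal_norm, Complex.norm_real, Real.norm_eq_abs,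
    abs_of_nonneg (integral_nonneg fun p => by positivity),
    ofReal_integral_eq_lintegral_ofReal h2 (Filter.Eventually.of_forall fun p => by positivity)]
  refine lintegral_congr fun p => ?_
  rw [ENNReal.ofReal_pow (norm_nonneg _), ofReal_norm]

lemma lint_av (ζ : ℂ) {g h F : ℂ → ℂ} (hg : BB g) (hh : BB h) (hF : BB F) :
    ∫⁻ p : ℂ × ℂ, ‖∫ k, av ζ g h F (p, k)‖ₑ ^ 2 ≤
      volume (Metric.closedBall (0 : ℂ) (1 / 4)) *
        ∫⁻ k in Metric.closedBall (0 : ℂ) (1 / 2), ‖QQ ζ g h F k‖ₑ := by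
  have hB := av_BB ζ hg hh hF
  have hV : BB (fun p : ℂ × ℂ => ∫ k, av ζ g h F (p, k)) := hB.integral_right volume
  rw [lint_sq_eq hV volume]
  have e1 : ∀ p : ℂ × ℂ, (∫ k, av ζ g h F (p, k)) *
      (starRingEnd ℂ) (∫ k, av ζ g h F (p, k)) =
      ∫ q : ℂ × ℂ, av ζ g h F (p, q.1) * (starRingEnd ℂ) (av ζ g h F (p, q.2)) := by
    intro p
    rw [← integral_conj]
    exact (integral_prod_mul (μ := (volume : Measure ℂ)) (ν := (volume : Measure ℂ))
      (fun k => av ζ g h F (p, k))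
      (fun k => (starRingEnd ℂ) (av ζ g h F (p, k)))).symm
  simp_rw [e1]
  have hB2 : BB (fun r : (ℂ × ℂ) × (ℂ × ℂ) => av ζ g h F (r.1, r.2.1) *
      (starRingEnd ℂ) (av ζ g h F (r.1, r.2.2))) := by
    refine hB.mul_comp hB.conj (φ := fun r : (ℂ × ℂ) × (ℂ × ℂ) => (r.1, r.2.1))
      (ψ := fun r : (ℂ × ℂ) × (ℂ × ℂ) => (r.1, r.2.2)) (by fun_prop) (by fun_prop)
      (fun R => ⟨R, fun x h1 h2 => ?_⟩)
    have h3 := norm_prod_le_iff.1 h1
    have h4 := norm_prod_le_iff.1 h2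
    exact norm_prod_le_iff.2 ⟨h3.1, norm_prod_le_iff.2 ⟨h3.2, h4.2⟩⟩
  have hI : Integrable (fun r : (ℂ × ℂ) × (ℂ × ℂ) => av ζ g h F (r.1, r.2.1) *
      (starRingEnd ℂ) (av ζ g h F (r.1, r.2.2))) (volume.prod volume) :=
    hB2.integrable (volume.prod volume)
  rw [integral_integral_swap (f := fun (p q : ℂ × ℂ) => av ζ g h F (p, q.1) *
      (starRingEnd ℂ) (av ζ g h F (p, q.2))) hI]
  simp_rw [QQ_shift]
  set U : ℝ≥0∞ := ∫⁻ k in Metric.closedBall (0 : ℂ) (1 / 2), ‖QQ ζ g h F k‖ₑ with hU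
  have hQm : Measurable (QQ ζ g h F) := by
    unfold QQ
    have m1 : Measurable (fun r : ℂ × (ℂ × ℂ) => g r.2.1 * h (r.2.1 + (ζ - 1) * r.2.2) *
        F r.2.2 * (starRingEnd ℂ) (g (r.2.1 + r.1) * h (r.2.1 + (ζ - 1) * r.2.2 + ζ * r.1) *
          F (r.2.2 + r.1))) := by
      have n1 := hg.meas
      have n2 := hh.meas
      have n3 := hF.meas
      refine Measurable.mul (((n1.comp (by fun_prop)).mul (n2.comp (by fun_prop))).mul
        (n3.comp (by fun_prop))) ?_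
      refine Complex.continuous_conj.measurable.comp ?_
      exact ((n1.comp (by fun_prop)).mul (n2.comp (by fun_prop))).mul (n3.comp (by fun_prop))
    exact (m1.stronglyMeasurable.integral_prod_right'
      (ν := (volume : Measure (ℂ × ℂ)))).measurable
  refine (enorm_integral_le_lintegral_enorm _).trans ?_
  have h6 : (volume : Measure (ℂ × ℂ)) = (volume : Measure ℂ).prod volume := rfl
  have m2 : Measurable (fun q : ℂ × ℂ =>
      chi q.1 * (starRingEnd ℂ) (chi q.2) * QQ ζ g h F (q.2 - q.1)) := by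
    refine Measurable.mul (Measurable.mul (chi_BB.meas.comp measurable_fst) ?_)
      (hQm.comp (by fun_prop))
    exact Complex.continuous_conj.measurable.comp (chi_BB.meas.comp measurable_snd)
  rw [h6, lintegral_prod _ m2.enorm.aemeasurable]
  have h7 : ∀ k1 : ℂ, ∫⁻ k2, ‖chi k1 * (starRingEnd ℂ) (chi k2) * QQ ζ g h F (k2 - k1)‖ₑ ≤
      (Metric.closedBall (0 : ℂ) (1 / 4)).indicator (fun _ => U) k1 := by
    intro k1
    by_cases hk1 : k1 ∈ Metric.closedBall (0 : ℂ) (1 / 4)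
    · rw [Set.indicator_of_mem hk1]
      rw [← lintegral_add_right_eq_self _ k1, hU,
        ← lintegral_indicator Metric.isClosed_closedBall.measurableSet]
      refine lintegral_mono fun k => ?_
      simp only [add_sub_cancel_right]
      by_cases hk2 : k ∈ Metric.closedBall (0 : ℂ) (1 / 2)
      · rw [Set.indicator_of_mem hk2, enorm_mul]
        have h8 : ‖chi k1 * (starRingEnd ℂ) (chi (k + k1))‖ₑ ≤ 1 := by
          rw [← ofReal_norm, ← ENNReal.ofReal_one]
          apply ENNReal.ofReal_le_ofReal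
          rw [norm_mul, RCLike.norm_conj]
          have c1 : ∀ x, ‖chi x‖ ≤ 1 := by
            intro x
            unfold chi
            by_cases h : x ∈ Metric.closedBall (0 : ℂ) (1 / 4)
            · rw [Set.indicator_of_mem h]; simp
            · rw [Set.indicator_of_notMem h]; simp
          exact mul_le_one₀ (c1 _) (norm_nonneg _) (c1 _)
        calc _ ≤ 1 * ‖QQ ζ g h F k‖ₑ := mul_le_mul_left h8 _
          _ = _ := one_mul _
      · have h9 : chi (k + k1) = 0 := by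
          unfold chi
          rw [Set.indicator_of_notMem]
          intro h10
          apply hk2
          rw [Metric.mem_closedBall, dist_zero_right] at h10 hk1 ⊢
          calc ‖k‖ = ‖(k + k1) - k1‖ := by rw [add_sub_cancel_right]
            _ ≤ _ := norm_sub_le _ _
            _ ≤ 1 / 4 + 1 / 4 := add_le_add h10 hk1
            _ = _ := by norm_num
        rw [h9]
        simp
    · have h9 : chi k1 = 0 := by
        unfold chi
        rw [Set.indicator_of_notMem hk1]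
      rw [h9]
      simp
  refine (lintegral_mono h7).trans (le_of_eq ?_)
  rw [lintegral_indicator Metric.isClosed_closedBall.measurableSet, setLIntegral_const, mul_comm]

/-- Van der Corput step. -/
theorem vdc (ζ : ℂ) {f g h F : ℂ → ℂ} (hf : BB f) (hg : BB g) (hh : BB h) (hF : BB F)
    (hF0 : ∀ w, 1.2 < ‖w‖ → F w = 0) :
    ‖TT ζ f g h F‖ₑ ^ 2 * volume (Metric.closedBall (0 : ℂ) (1 / 4)) ≤
      (∫⁻ x, ‖f x‖ₑ ^ 2) * volume (Metric.closedBall (0 : ℂ) 2) *
        ∫⁻ k in Metric.closedBall (0 : ℂ) (1 / 2), ‖QQ ζ g h F k‖ₑ := by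
  set L : ℝ≥0∞ := volume (Metric.closedBall (0 : ℂ) (1 / 4)) with hL
  have hLtop : L ≠ ∞ := (isCompact_closedBall _ _).measure_lt_top.ne
  have hL0 : L ≠ 0 := (Metric.measure_closedBall_pos _ _ (by norm_num)).ne'
  have hB := av_BB ζ hg hh hF
  set χ2 : ℂ → ℂ := (Metric.closedBall (0 : ℂ) 2).indicator (fun _ => 1) with hχ2
  have hχ2BB : BB χ2 := by
    refine ⟨measurable_const.indicator Metric.isClosed_closedBall.measurableSet,
      ⟨1, fun x => ?_⟩, ⟨2, fun x hx => ?_⟩⟩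
    · rw [hχ2]
      by_cases h : x ∈ Metric.closedBall (0 : ℂ) 2
      · rw [Set.indicator_of_mem h]; simp
      · rw [Set.indicator_of_notMem h]; simp
    · rw [hχ2, Set.indicator_of_notMem]
      rw [Metric.mem_closedBall, dist_zero_right, not_le]
      exact hx
  -- the averaged identity
  have e1 : TT ζ f g h F * (L.toReal : ℂ) =
      ∫ p : ℂ × ℂ, (f (p.1 - p.2) * χ2 p.2) * ∫ k, av ζ g h F (p, k) := by
    have hBf : BB (fun r : (ℂ × ℂ) × ℂ => f (r.1.1 - r.1.2) * av ζ g h F r) := by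
      refine hB.bdd_mul (g := fun r : (ℂ × ℂ) × ℂ => f (r.1.1 - r.1.2))
        (hf.meas.comp (by fun_prop)) ?_
      obtain ⟨C, hC⟩ := hf.bdd
      exact ⟨C, fun x => hC _⟩
    have e2 : ∀ p : ℂ × ℂ, (f (p.1 - p.2) * χ2 p.2) * ∫ k, av ζ g h F (p, k) =
        ∫ k, f (p.1 - p.2) * av ζ g h F (p, k) := by
      intro p
      rw [← integral_const_mul]
      by_cases hp : p.2 ∈ Metric.closedBall (0 : ℂ) 2
      · rw [hχ2, Set.indicator_of_mem hp, mul_one]
      · rw [hχ2, Set.indicator_of_notMem hp, mul_zero]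
        refine integral_congr_ae (Filter.Eventually.of_forall fun k => ?_)
        simp only [zero_mul]
        symm
        rw [Metric.mem_closedBall, dist_zero_right, not_le] at hp
        by_cases hk : k ∈ Metric.closedBall (0 : ℂ) (1 / 4)
        · have : F (p.2 + k) = 0 := by
            apply hF0
            rw [Metric.mem_closedBall, dist_zero_right] at hk
            have h3 := norm_sub_le (p.2 + k) k
            rw [add_sub_cancel_right] at h3
            norm_num at hk ⊢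
            linarith
          simp only [av, this, mul_zero, zero_mul]
        · have : chi k = 0 := by
            unfold chi
            rw [Set.indicator_of_notMem hk]
          simp only [av, this, mul_zero]
    simp_rw [e2]
    rw [integral_integral_swap (f := fun (p : ℂ × ℂ) (k : ℂ) =>
      f (p.1 - p.2) * av ζ g h F (p, k)) (hBf.integrable (volume.prod volume))]
    have e3 : ∀ k : ℂ, ∫ p : ℂ × ℂ, f (p.1 - p.2) * av ζ g h F (p, k) =
        chi k * TT ζ f g h F := by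
      intro k
      rw [← TT_shift ζ f g h F k, ← integral_const_mul]
      refine integral_congr_ae (Filter.Eventually.of_forall fun p => ?_)
      simp only [av]
      ring
    simp_rw [e3]
    rw [integral_mul_const, mul_comm]
    congr 1
    unfold chi
    rw [integral_indicator Metric.isClosed_closedBall.measurableSet, setIntegral_const]
    simp [Measure.real, hL]
  have e4 : ‖TT ζ f g h F‖ₑ ^ 2 * L ^ 2 =
      ‖∫ p : ℂ × ℂ, (f (p.1 - p.2) * χ2 p.2) * ∫ k, av ζ g h F (p, k)‖ₑ ^ 2 := by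
    rw [← e1, enorm_mul, mul_pow]
    congr 2
    rw [← ofReal_norm, Complex.norm_real, Real.norm_eq_abs, abs_of_nonneg ENNReal.toReal_nonneg,
      ENNReal.ofReal_toReal hLtop]
  have m1 : Measurable (fun p : ℂ × ℂ => f (p.1 - p.2) * χ2 p.2) :=
    (hf.meas.comp (by fun_prop)).mul (hχ2BB.meas.comp measurable_snd)
  have h5 := cs_enorm (volume : Measure (ℂ × ℂ)) (f := fun p : ℂ × ℂ => f (p.1 - p.2) * χ2 p.2)
    (g := fun p : ℂ × ℂ => ∫ k, av ζ g h F (p, k)) m1.aemeasurable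
    (hB.integral_right volume).meas.aemeasurable
  rw [← e4] at h5
  have h6 : (volume : Measure (ℂ × ℂ)) = (volume : Measure ℂ).prod volume := rfl
  have h7 : ∫⁻ p : ℂ × ℂ, ‖f (p.1 - p.2) * χ2 p.2‖ₑ ^ 2 =
      (∫⁻ x, ‖f x‖ₑ ^ 2) * volume (Metric.closedBall (0 : ℂ) 2) := by
    rw [h6, lintegral_prod_symm _ (m1.enorm.pow_const 2).aemeasurable]
    have h8 : ∀ w : ℂ, ∫⁻ y : ℂ, ‖f (y - w) * χ2 w‖ₑ ^ 2 =
        (Metric.closedBall (0 : ℂ) 2).indicator (fun _ => ∫⁻ x, ‖f x‖ₑ ^ 2) w := by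
      intro w
      by_cases hw : w ∈ Metric.closedBall (0 : ℂ) 2
      · rw [hχ2, Set.indicator_of_mem hw, Set.indicator_of_mem hw]
        simp only [mul_one]
        exact lintegral_sub_right_eq_self (fun x => ‖f x‖ₑ ^ 2) w
      · rw [hχ2, Set.indicator_of_notMem hw, Set.indicator_of_notMem hw]
        simp
    simp_rw [h8]
    rw [lintegral_indicator Metric.isClosed_closedBall.measurableSet, setLIntegral_const]
  rw [h7] at h5
  have h9 := h5.trans (mul_le_mul_right (lint_av ζ hg hh hF) _)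
  rw [← hL] at h9
  have h10 : L * (‖TT ζ f g h F‖ₑ ^ 2 * L) ≤ L * ((∫⁻ x, ‖f x‖ₑ ^ 2) *
      volume (Metric.closedBall (0 : ℂ) 2) *
        ∫⁻ k in Metric.closedBall (0 : ℂ) (1 / 2), ‖QQ ζ g h F k‖ₑ) := by
    calc _ = ‖TT ζ f g h F‖ₑ ^ 2 * L ^ 2 := by ring
      _ ≤ _ := h9
      _ = _ := by ring
  exact (ENNReal.mul_le_mul_iff_right hL0 hLtop).1 h10

end Run7.h764
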